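import Pool.Agent.P.MP_dddec0_nt.Cert
import Pool.Agent.Lib.Tup.Maynard

/-! From the checker to three primes in a translate of an admissible tuple. -/

open Finset

namespace BGap

theorem sum_pi_eq {ι : Type*} [Fintype ι] [DecidableEq ι] (g : ℕ → ℕ) (n : ℕ) (φ : ℕ → ℝ)
    (hφ : ∀ s, n ≤ s → φ s = 0) :
    ∑ a : ι → Fin n, (∏ i, (g (a i) : ℝ)) ^ 2 * φ (∑ i, (a i : ℕ)) =
      ∑ s ∈ range n, (gen g n ^ Fintype.card ι).coeff s * φ s := by
  have h1 : gen g n ^ Fintype.card ι =
      ∑ a : ι → Fin n, Polynomial.monomial (∑ i, (a i : ℕ)) ((∏ i, (g (a i) : ℝ)) ^ 2) := by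
    have h2 : gen g n = ∑ x : Fin n, Polynomial.monomial (x : ℕ) ((g x : ℝ) ^ 2) := by
      unfold gen
      rw [← Fin.sum_univ_eq_sum_range (fun s => Polynomial.monomial s ((g s : ℝ) ^ 2))]
    rw [← card_univ, ← prod_const, h2, prod_univ_sum, Fintype.piFinset_univ]
    refine sum_congr rfl fun a _ => ?_
    simp only [← Polynomial.C_mul_X_pow_eq_monomial]
    rw [prod_mul_distrib, prod_pow_eq_pow_sum, ← map_prod, prod_pow]
  rw [h1]
  simp only [Polynomial.finsetSum_coeff, Polynomial.coeff_monomial, sum_mul]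
  rw [sum_comm]
  refine sum_congr rfl fun a _ => ?_
  simp only [ite_mul, zero_mul]
  rw [sum_ite_eq]
  split_ifs with h
  · rfl
  · rw [hφ _ (by simpa using h), mul_zero]

open Classical in
theorem three_primes_of_check {sl w n e K : ℕ} {bs : List Bool} {tg th tb : Tr}
    (h : check sl w n e K bs tg th tb = true) (hn : 2 ≤ n) (hK : 2 ≤ K)
    (H : Fin (K + 1) → ℕ) (hH : Function.Injective H)
    (hadm : ∀ p : ℕ, p.Prime → ∃ r : ℕ, ∀ i, ¬ p ∣ r + H i) :
    {m : ℕ | (2 : ℝ) < ((univ.filter (fun i => (m + H i).Prime)).card : ℝ)}.Infinite := by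
  have hc := check_sound h
  set g := tg.val n
  set M : ℕ := n + K - 1 with hM
  have hMr : (M : ℝ) = n + K - 1 := by
    rw [hM, Nat.cast_sub (by omega)]; push_cast; ring
  have hn' : (2 : ℝ) ≤ n := by exact_mod_cast hn
  have hK' : (2 : ℝ) ≤ K := by exact_mod_cast hK
  have hM0 : (0 : ℝ) < M := by rw [hMr]; linarith
  set η : ℕ → ℝ := fun u => if u < n then (th.val n u : ℝ) else 0 with hη
  set F : (Fin (K + 1) → Fin n) → ℝ := fun a => (∏ i, (g (a i) : ℝ)) * η (∑ i, (a i : ℕ))
    with hF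
  have hsupp : ∀ a, F a ≠ 0 → ∑ i, ((a i : ℕ) : ℝ) ≤ n - 1 := by
    intro a ha
    have h1 : ∑ i, (a i : ℕ) < n := by
      by_contra hcon
      apply ha
      simp only [hF, hη, if_neg hcon, mul_zero]
    have h2 : ((∑ i, (a i : ℕ) + 1 : ℕ) : ℝ) ≤ n := by exact_mod_cast h1
    push_cast at h2
    linarith
  refine Pool.Agent.Lib.Tup.maynard H hH hadm (h := 1 / M) (by positivity) F ?_ ?_
    (by norm_num) ?_
  · intro a ha
    rw [← sum_mul, sum_add_distrib, mul_one_div, div_le_iff₀ hM0]
    have := hsupp a ha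
    simp only [sum_const, card_univ, Fintype.card_fin, nsmul_eq_mul, mul_one]
    push_cast
    linarith
  · intro a ha i
    rw [← sum_mul, sum_add_distrib, mul_one_div, div_le_iff₀ hM0]
    have h1 := hsupp a ha
    have h2 : ∑ j ∈ univ.erase i, ((a j : ℕ) : ℝ) ≤ ∑ j, ((a j : ℕ) : ℝ) :=
      sum_le_sum_of_subset_of_nonneg (erase_subset _ _) fun _ _ _ => Nat.cast_nonneg _
    simp only [sum_const, card_erase_of_mem (mem_univ i), card_univ, Fintype.card_fin,
      nsmul_eq_mul, mul_one, Nat.add_sub_cancel]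
    linarith
  · have e1 : ∑ a, F a ^ 2 =
        ∑ s ∈ range n, (gen g n ^ (K + 1)).coeff s * (th.val n s : ℝ) ^ 2 := by
      have := sum_pi_eq (ι := Fin (K + 1)) g n (fun u => η u ^ 2) fun s hs => by
        simp only [hη, if_neg (not_lt.2 hs)]; ring
      rw [Fintype.card_fin] at this
      simp only [hF, mul_pow]
      rw [this]
      exact sum_congr rfl fun s hs => by simp only [hη, if_pos (mem_range.1 hs)]
    set G : ℕ → ℝ := fun s => ∑ j ∈ range (n - s), (g j : ℝ) * th.val n (s + j) with hG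
    have e2 : ∀ i : Fin (K + 1), ∑ b : {j // j ≠ i} → Fin n,
        (∑ a : Fin n, F ((Equiv.piSplitAt i (fun _ => Fin n)).symm (a, b))) ^ 2 =
        ∑ s ∈ range n, (gen g n ^ K).coeff s * G s ^ 2 := by
      intro i
      have hcard : Fintype.card {j // j ≠ i} = K := by simp
      have := sum_pi_eq (ι := {j // j ≠ i}) g n (fun u => G u ^ 2) fun s hs => by
        simp only [hG, Nat.sub_eq_zero_of_le hs, range_zero, sum_empty]; ring
      rw [hcard] at this
      rw [← this]
      refine sum_congr rfl fun b _ => ?_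
      rw [← mul_pow]
      congr 1
      have e3 : ∀ a : Fin n, F ((Equiv.piSplitAt i (fun _ => Fin n)).symm (a, b)) =
          (∏ j, (g (b j) : ℝ)) * ((g a : ℝ) * η (∑ j, (b j : ℕ) + a)) := by
        intro a
        simp only [hF]
        rw [Fintype.prod_eq_mul_prod_subtype_ne _ i, Fintype.sum_eq_add_sum_subtype_ne _ i]
        have e4 : ∀ j : {j // j ≠ i},
            (Equiv.piSplitAt i (fun _ => Fin n)).symm (a, b) j = b j := by
          intro j
          simp [Equiv.piSplitAt, j.2]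
        have e5 : (Equiv.piSplitAt i (fun _ => Fin n)).symm (a, b) i = a := by
          simp [Equiv.piSplitAt]
        simp only [e4, e5]
        rw [add_comm (a : ℕ)]
        ring
      simp only [e3]
      rw [← mul_sum]
      congr 1
      set s := ∑ j, (b j : ℕ)
      rw [Fin.sum_univ_eq_sum_range (fun a => (g a : ℝ) * η (s + a)) n, hG]
      symm
      refine sum_subset_zero_on_sdiff (range_subset_range.2 (Nat.sub_le _ _)) ?_ ?_
      · intro x hx
        have hx' : ¬ s + x < n := by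
          simp only [mem_sdiff, mem_range] at hx
          omega
        simp only [hη, if_neg hx', mul_zero]
      · intro x hx
        have hx' : s + x < n := by
          have := mem_range.1 hx
          omega
        simp only [hη, if_pos hx']
    rw [e1, sum_congr rfl fun i _ => e2 i, sum_const, card_univ, Fintype.card_fin, nsmul_eq_mul,
      one_div_mul_eq_div, lt_div_iff₀ hM0]
    push_cast
    linarith

open Classical in
theorem nth_le_of_tuple {ι : Type*} [Fintype ι] {H : ι → ℕ} (hH : Function.Injective H) {D : ℕ}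
    (hD : ∀ i, H i ≤ D)
    (h : {m : ℕ | (2 : ℝ) < ((univ.filter (fun i => (m + H i).Prime)).card : ℝ)}.Infinite) :
    Set.Infinite {n : ℕ | Nat.nth Nat.Prime (n + 2) ≤ Nat.nth Nat.Prime n + D} := by
  refine Set.infinite_of_forall_exists_gt fun B => ?_
  obtain ⟨m, hm, hB⟩ := h.exists_gt (Nat.nth Nat.Prime B)
  have hm' : 2 < (univ.filter (fun i => (m + H i).Prime)).card := by
    have : (2 : ℝ) < ((univ.filter (fun i => (m + H i).Prime)).card : ℝ) := hm
    exact_mod_cast this
  set S := (univ.filter (fun i => (m + H i).Prime)).image (fun i => m + H i) with hS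
  have hcard : 2 < S.card := by
    rw [hS, card_image_of_injective _ fun i j hij => hH (Nat.add_left_cancel hij)]
    exact hm'
  have hmem : ∀ x ∈ S, x.Prime ∧ m ≤ x ∧ x ≤ m + D := by
    intro x hx
    obtain ⟨i, hi, rfl⟩ := mem_image.1 hx
    exact ⟨(mem_filter.1 hi).2, Nat.le_add_right _ _, Nat.add_le_add_left (hD i) m⟩
  obtain ⟨p, q, r, hp, hq, hr, hpq, hqr⟩ : ∃ p q r, p ∈ S ∧ q ∈ S ∧ r ∈ S ∧ p < q ∧ q < r :=
    ⟨S.orderEmbOfCardLe (k := 3) hcard 0, S.orderEmbOfCardLe (k := 3) hcard 1,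
      S.orderEmbOfCardLe (k := 3) hcard 2, orderEmbOfCardLe_mem _ _ _, orderEmbOfCardLe_mem _ _ _,
      orderEmbOfCardLe_mem _ _ _, (S.orderEmbOfCardLe (k := 3) hcard).strictMono (by decide),
      (S.orderEmbOfCardLe (k := 3) hcard).strictMono (by decide)⟩
  obtain ⟨pp, p1, -⟩ := hmem p hp
  obtain ⟨pq, -, -⟩ := hmem q hq
  obtain ⟨pr, -, r2⟩ := hmem r hr
  have hmono := Nat.nth_monotone Nat.infinite_setOfPred_prime
  have c1 := Nat.count_strict_mono (p := Nat.Prime) pp hpq
  have c2 := Nat.count_strict_mono (p := Nat.Prime) pq hqr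
  refine ⟨Nat.count Nat.Prime p, ?_, ?_⟩
  · have h1 := hmono (show Nat.count Nat.Prime p + 2 ≤ Nat.count Nat.Prime r by omega)
    rw [Nat.nth_count pr] at h1
    change Nat.nth Nat.Prime (Nat.count Nat.Prime p + 2) ≤
      Nat.nth Nat.Prime (Nat.count Nat.Prime p) + D
    rw [Nat.nth_count pp]
    exact h1.trans (r2.trans (Nat.add_le_add_right p1 _))
  · by_contra hcon
    have h1 := hmono (not_lt.1 hcon)
    rw [Nat.nth_count pp] at h1
    exact absurd (hB.trans_le (p1.trans h1)) (lt_irrefl _)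

end BGap
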