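import Pool.Agent.P.MP_dddec0_nt.Pack

/-! A verified checker for the Maynard functional of a product type step function. -/

open Finset

namespace BGap

theorem sum_conv_le {a b : ℕ → ℝ} {n : ℕ} (ha : ∀ s < n, 0 ≤ a s) (hb : ∀ s < n, 0 ≤ b s) :
    ∑ s ∈ range n, conv a b s ≤ (∑ s ∈ range n, a s) * ∑ s ∈ range n, b s := by
  have h := sum_conv a b (fun _ => 1) n
  simp only [mul_one] at h
  rw [h, sum_mul]
  refine sum_le_sum fun i hi => ?_
  rw [← mul_sum]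
  refine mul_le_mul_of_nonneg_left ?_ (ha i (mem_range.1 hi))
  exact sum_le_sum_of_subset_of_nonneg (range_subset_range.2 (Nat.sub_le _ _))
    fun j hj _ => hb j (mem_range.1 hj)

theorem cast_conv (a b : ℕ → ℕ) (s : ℕ) :
    ((conv a b s : ℕ) : ℝ) = conv (fun i => (a i : ℝ)) (fun i => (b i : ℝ)) s := by
  simp [conv]

theorem sum_conv_le_nat (a b : ℕ → ℕ) (n : ℕ) :
    ∑ s ∈ range n, conv a b s ≤ (∑ s ∈ range n, a s) * ∑ s ∈ range n, b s := by
  have := sum_conv_le (a := fun i => (a i : ℝ)) (b := fun i => (b i : ℝ)) (n := n)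
    (fun _ _ => Nat.cast_nonneg _) (fun _ _ => Nat.cast_nonneg _)
  simp only [← cast_conv] at this
  exact_mod_cast this

theorem conv_mono {a b a' b' : ℕ → ℝ} {n s : ℕ} (hs : s < n) (h0 : ∀ s < n, 0 ≤ a s)
    (h0' : ∀ s < n, 0 ≤ b s) (ha : ∀ s < n, a s ≤ a' s) (hb : ∀ s < n, b s ≤ b' s) :
    conv a b s ≤ conv a' b' s := by
  refine sum_le_sum fun i hi => ?_
  have hi' := mem_range.1 hi
  exact mul_le_mul (ha i (by omega)) (hb _ (by omega)) (h0' _ (by omega))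
    ((h0 i (by omega)).trans (ha i (by omega)))

/-- `X` packs lower approximations of `2 ^ w * Pc j s` with a controlled total defect. -/
def Rep (sl w n : ℕ) (Pc : ℕ → ℕ → ℝ) (j X : ℕ) : Prop :=
  ∃ l : ℕ → ℕ, X = pk sl l n ∧ (∀ s < n, (l s : ℝ) ≤ 2 ^ w * Pc j s) ∧
    2 ^ w * ∑ s ∈ range n, Pc j s ≤ ∑ s ∈ range n, (l s : ℝ) + ((j : ℝ) - 1) * n ∧
    ∑ s ∈ range n, Pc j s ≤ 1

theorem sum_le_of_rep {w n : ℕ} {l : ℕ → ℕ} {P : ℕ → ℝ}
    (h1 : ∀ s < n, (l s : ℝ) ≤ 2 ^ w * P s) (h3 : ∑ s ∈ range n, P s ≤ 1) :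
    ∑ s ∈ range n, l s ≤ 2 ^ w := by
  have h : ∑ s ∈ range n, (l s : ℝ) ≤ 2 ^ w := by
    calc ∑ s ∈ range n, (l s : ℝ) ≤ ∑ s ∈ range n, 2 ^ w * P s :=
          sum_le_sum fun s hs => h1 s (mem_range.1 hs)
      _ = 2 ^ w * ∑ s ∈ range n, P s := by rw [mul_sum]
      _ ≤ 2 ^ w * 1 := by gcongr
      _ = _ := mul_one _
  exact_mod_cast h

theorem Rep.step {sl w n : ℕ} (hw : 2 * w + 1 ≤ sl) {Pc : ℕ → ℕ → ℝ}
    (hPc : ∀ i j s, Pc (i + j) s = conv (Pc i) (Pc j) s) {i j X Y : ℕ}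
    (hX : Rep sl w n Pc i X) (hY : Rep sl w n Pc j Y) :
    Rep sl w n Pc (i + j) (BGap.step w (pk sl (fun _ => 2 ^ (sl - w) - 1) n) X Y) := by
  obtain ⟨a, rfl, ha1, ha2, ha3⟩ := hX
  obtain ⟨b, rfl, hb1, hb2, hb3⟩ := hY
  have hW : (0 : ℝ) < 2 ^ w := by positivity
  have sa := sum_le_of_rep ha1 ha3
  have sb := sum_le_of_rep hb1 hb3
  have hlt : ∀ s < n, conv a b s < 2 ^ sl := by
    intro s hs
    calc conv a b s ≤ ∑ s ∈ range n, conv a b s :=
          single_le_sum (f := conv a b) (fun _ _ => Nat.zero_le _) (mem_range.2 hs)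
      _ ≤ 2 ^ w * 2 ^ w := (sum_conv_le_nat a b n).trans (Nat.mul_le_mul sa sb)
      _ = 2 ^ (2 * w) := by ring
      _ < 2 ^ sl := Nat.pow_lt_pow_right (by norm_num) (by omega)
  have pa : ∀ s < n, 0 ≤ Pc i s := fun s hs =>
    (mul_nonneg_iff_of_pos_left hW).1 ((Nat.cast_nonneg _).trans (ha1 s hs))
  have pb : ∀ s < n, 0 ≤ Pc j s := fun s hs =>
    (mul_nonneg_iff_of_pos_left hW).1 ((Nat.cast_nonneg _).trans (hb1 s hs))
  have hsc : ∀ s, conv (fun s => 2 ^ w * Pc i s) (fun s => 2 ^ w * Pc j s) s =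
      2 ^ w * (2 ^ w * Pc (i + j) s) := by
    intro s
    rw [hPc]
    simp only [conv, mul_sum]
    exact sum_congr rfl fun _ _ => by ring
  refine ⟨_, step_pk (by omega) n a b hlt, fun s hs => ?_, ?_, ?_⟩
  · have h1 : ((conv a b s / 2 ^ w : ℕ) : ℝ) ≤ (conv a b s : ℕ) / ((2 ^ w : ℕ) : ℝ) :=
      Nat.cast_div_le
    have h2 := conv_mono hs (fun _ _ => Nat.cast_nonneg _) (fun _ _ => Nat.cast_nonneg _) ha1 hb1
    rw [← cast_conv, hsc] at h2
    refine h1.trans ?_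
    push_cast
    rw [div_le_iff₀ hW]
    linarith
  · have h1 : ∀ s, ((conv a b s : ℕ) : ℝ) ≤ 2 ^ w * (((conv a b s / 2 ^ w : ℕ) : ℝ) + 1) := by
      intro s
      have := Nat.lt_mul_div_succ (conv a b s) (show 0 < 2 ^ w by positivity)
      exact_mod_cast this.le
    have h2 : ∀ s, 2 ^ w * (2 ^ w * Pc (i + j) s) = ((conv a b s : ℕ) : ℝ) +
        (conv (fun s => 2 ^ w * Pc i s - a s) (fun s => 2 ^ w * Pc j s) s +
          conv (fun s => (a s : ℝ)) (fun s => 2 ^ w * Pc j s - b s) s) := by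
      intro s
      rw [← hsc, cast_conv]
      simp only [conv, ← sum_add_distrib]
      exact sum_congr rfl fun _ _ => by ring
    have h3 := sum_conv_le (a := fun s => 2 ^ w * Pc i s - a s) (b := fun s => 2 ^ w * Pc j s)
      (n := n) (fun s hs => sub_nonneg.2 (ha1 s hs)) (fun s hs => mul_nonneg hW.le (pb s hs))
    have h4 := sum_conv_le (a := fun s => (a s : ℝ)) (b := fun s => 2 ^ w * Pc j s - b s)
      (n := n) (fun _ _ => Nat.cast_nonneg _) (fun s hs => sub_nonneg.2 (hb1 s hs))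
    rw [sum_sub_distrib, ← mul_sum, ← mul_sum] at h3
    rw [sum_sub_distrib, ← mul_sum] at h4
    have sa' : ∑ s ∈ range n, (a s : ℝ) ≤ 2 ^ w := by exact_mod_cast sa
    have da : 0 ≤ 2 ^ w * ∑ s ∈ range n, Pc i s - ∑ s ∈ range n, (a s : ℝ) := by
      rw [mul_sum, ← sum_sub_distrib]
      exact sum_nonneg fun s hs => sub_nonneg.2 (ha1 s (mem_range.1 hs))
    have db : 0 ≤ 2 ^ w * ∑ s ∈ range n, Pc j s - ∑ s ∈ range n, (b s : ℝ) := by
      rw [mul_sum, ← sum_sub_distrib]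
      exact sum_nonneg fun s hs => sub_nonneg.2 (hb1 s (mem_range.1 hs))
    have h5 : (2 ^ w * ∑ s ∈ range n, Pc i s - ∑ s ∈ range n, (a s : ℝ)) *
        (2 ^ w * ∑ s ∈ range n, Pc j s) ≤ ((i : ℝ) - 1) * n * 2 ^ w := by
      have e1 : (2 : ℝ) ^ w * ∑ s ∈ range n, Pc j s ≤ 2 ^ w := by
        calc (2 : ℝ) ^ w * ∑ s ∈ range n, Pc j s ≤ 2 ^ w * 1 := by gcongr
          _ = _ := mul_one _
      have e0 : 0 ≤ (2 : ℝ) ^ w * ∑ s ∈ range n, Pc j s :=
        mul_nonneg hW.le (sum_nonneg fun s hs => pb s (mem_range.1 hs))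
      exact mul_le_mul (by linarith) e1 e0 (by linarith)
    have h6 : (∑ s ∈ range n, (a s : ℝ)) *
        (2 ^ w * ∑ s ∈ range n, Pc j s - ∑ s ∈ range n, (b s : ℝ)) ≤
        2 ^ w * (((j : ℝ) - 1) * n) := mul_le_mul sa' (by linarith) db hW.le
    have h7 : 2 ^ w * (2 ^ w * ∑ s ∈ range n, Pc (i + j) s) ≤
        2 ^ w * (∑ s ∈ range n, ((conv a b s / 2 ^ w : ℕ) : ℝ) + n) +
          (((i : ℝ) - 1) * n * 2 ^ w + 2 ^ w * (((j : ℝ) - 1) * n)) := by
      rw [mul_sum, mul_sum, sum_congr rfl fun s _ => h2 s, sum_add_distrib, sum_add_distrib]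
      refine add_le_add ?_ (add_le_add (h3.trans h5) (h4.trans h6))
      refine (sum_le_sum fun s _ => h1 s).trans (le_of_eq ?_)
      rw [← mul_sum, sum_add_distrib]
      simp
    refine le_of_mul_le_mul_left ?_ hW
    push_cast at h7 ⊢
    linarith
  · rw [sum_congr rfl fun s _ => hPc i j s]
    refine (sum_conv_le pa pb).trans ?_
    exact mul_le_one₀ ha3 (sum_nonneg fun s hs => pb s (mem_range.1 hs)) hb3

/-- Binary powering along a list of bits. -/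
noncomputable def pw (w mask P : ℕ) (bs : List Bool) : ℕ → ℕ :=
  List.rec (motive := fun _ => ℕ → ℕ) (fun acc => acc)
    (fun b _ ih acc => Bool.rec (motive := fun _ => ℕ) (ih (step w mask acc acc))
      (ih (step w mask (step w mask acc acc) P)) b) bs

/-- The exponent reached by `pw`. -/
def ex : List Bool → ℕ → ℕ
  | [], j => j
  | false :: bs, j => ex bs (j + j)
  | true :: bs, j => ex bs (j + j + 1)

theorem Rep.pw {sl w n : ℕ} (hw : 2 * w + 1 ≤ sl) {Pc : ℕ → ℕ → ℝ}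
    (hPc : ∀ i j s, Pc (i + j) s = conv (Pc i) (Pc j) s) {P : ℕ} (hP : Rep sl w n Pc 1 P)
    (bs : List Bool) : ∀ {j X : ℕ}, Rep sl w n Pc j X →
    Rep sl w n Pc (ex bs j) (BGap.pw w (pk sl (fun _ => 2 ^ (sl - w) - 1) n) P bs X) := by
  induction bs with
  | nil => intro j X h; exact h
  | cons b bs ih =>
    intro j X h
    cases b
    · exact ih (h.step hw hPc h)
    · exact ih ((h.step hw hPc h).step hw hPc hP)

/-- The checker. -/
noncomputable def check (sl w n e K : ℕ) (bs : List Bool) (tg th tb : Tr) : Bool :=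
  let o := ones sl n
  let G := scale sl tg n o
  let P := scale sl tg.sq n o
  let mask := (2 ^ (sl - w) - 1) * o
  let L1 := pw w mask P bs P
  Nat.beq (ex bs 1) K && Nat.ble (2 * w + 1) sl && Nat.ble 1 w &&
  Nat.blt (n * tg.sq.mx) (2 ^ sl - 1) && Nat.ble (P % (1 <<< sl - 1)) (2 ^ w) &&
  Nat.blt (tb.mx * 2 ^ w * (G % (1 <<< sl - 1) + 1)) (2 ^ sl - 1) &&
  Nat.blt (8 * (n + K - 1) * 2 ^ w * (ws sl th.sq n (step w mask L1 P) + th.mx * th.mx * (K * n)) +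
      (K + 1) * (2 ^ e * 2 ^ e * ws sl tb.sq n L1))
    ((K + 1) * (2 * 2 ^ e * ws sl th n (step 0 ((2 ^ (sl - 0) - 1) * o) (scale sl tb n L1) G)))

open Polynomial in
/-- Generating polynomial of the squared cell values. -/
noncomputable def gen (g : ℕ → ℕ) (n : ℕ) : ℝ[X] :=
  ∑ s ∈ range n, monomial s ((g s : ℝ) ^ 2)

theorem check_sound {sl w n e K : ℕ} {bs : List Bool} {tg th tb : Tr}
    (h : check sl w n e K bs tg th tb = true) :
    8 * ((n + K - 1 : ℕ) : ℝ) *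
        ∑ s ∈ range n, (gen (tg.val n) n ^ (K + 1)).coeff s * (th.val n s : ℝ) ^ 2 <
      ((K : ℝ) + 1) * ∑ s ∈ range n, (gen (tg.val n) n ^ K).coeff s *
        (∑ j ∈ range (n - s), (tg.val n j : ℝ) * th.val n (s + j)) ^ 2 := by
  simp only [check, Bool.and_eq_true, Nat.beq_eq, Nat.ble_eq, Nat.blt_eq] at h
  obtain ⟨⟨⟨⟨⟨⟨hK, hw⟩, hw1⟩, hn⟩, hS⟩, hG⟩, hfin⟩ := h
  have hsl : 1 ≤ sl := by omega
  have hB1 : 1 < 2 ^ sl := Nat.one_lt_two_pow (by omega)
  have hwB : 2 ^ w < 2 ^ sl - 1 := by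
    have h1 : 2 ^ (w + 2) ≤ 2 ^ sl := Nat.pow_le_pow_right (by norm_num) (by omega)
    have h2 : 0 < 2 ^ w := by positivity
    rw [pow_add] at h1
    omega
  set g := tg.val n with hg
  set η := th.val n with hη
  set β := tb.val n with hβ
  rw [ones_eq hsl] at hS hG hfin
  rw [scale_pk sl _ n _ fun _ _ => hB1] at hS hG
  rw [scale_pk sl tg.sq n _ fun _ _ => hB1, scale_pk sl tg n _ fun _ _ => hB1, pk_const_mul,
    pk_const_mul] at hfin
  simp only [mul_one, Tr.val_sq, ← hg] at hS hG hfin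
  have hs1 : ∑ s ∈ range n, g s * g s < 2 ^ sl - 1 := by
    refine lt_of_le_of_lt ?_ hn
    have := sum_le_card_nsmul (range n) (fun s => g s * g s) tg.sq.mx fun s _ => by
      rw [hg, ← Tr.val_sq]; exact Tr.val_le_mx _ _ _
    simpa using this
  rw [pk_mod hs1] at hS
  have hs2 : ∑ s ∈ range n, g s < 2 ^ sl - 1 :=
    lt_of_le_of_lt (sum_le_sum fun s _ => Nat.le_mul_self _) hs1
  rw [pk_mod hs2] at hG
  have hW : (0 : ℝ) < 2 ^ w := by positivity
  set Pc : ℕ → ℕ → ℝ := fun j s => (gen g n ^ j).coeff s / (2 ^ w) ^ j with hPcdef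
  have hPc : ∀ i j s, Pc (i + j) s = conv (Pc i) (Pc j) s := by
    intro i j s
    simp only [hPcdef, conv, pow_add, Polynomial.coeff_mul]
    rw [Finset.Nat.sum_antidiagonal_eq_sum_range_succ
      (fun a b => (gen g n ^ i).coeff a * (gen g n ^ j).coeff b), sum_div]
    exact sum_congr rfl fun _ _ => by rw [div_mul_div_comm]
  have hP1 : ∀ s < n, 2 ^ w * Pc 1 s = ((g s * g s : ℕ) : ℝ) := by
    intro s hs
    simp only [hPcdef, pow_one, gen, Polynomial.finsetSum_coeff, Polynomial.coeff_monomial]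
    rw [sum_ite_eq', if_pos (mem_range.2 hs)]
    push_cast
    field_simp
  have hP : Rep sl w n Pc 1 (pk sl (fun s => g s * g s) n) := by
    have e1 : 2 ^ w * ∑ s ∈ range n, Pc 1 s = ∑ s ∈ range n, ((g s * g s : ℕ) : ℝ) := by
      rw [mul_sum]; exact sum_congr rfl fun s hs => hP1 s (mem_range.1 hs)
    refine ⟨_, rfl, fun s hs => (hP1 s hs).ge, by rw [e1]; simp, ?_⟩
    refine le_of_mul_le_mul_left ?_ hW
    rw [e1, mul_one]
    exact_mod_cast hS
  have hL1 := Rep.pw hw hPc hP bs hP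
  have hL0 := hL1.step hw hPc hP
  rw [hK] at hL1 hL0
  obtain ⟨l0, e0, a1, a2, a3⟩ := hL0
  rw [e0] at hfin
  obtain ⟨l1, e1, b1, -, b3⟩ := hL1
  rw [e1] at hfin
  have s0 := sum_le_of_rep a1 a3
  have s1 := sum_le_of_rep b1 b3
  have d1 : ∀ s < n, l1 s < 2 ^ sl := fun s hs => by
    have := single_le_sum (f := l1) (s := range n) (fun _ _ => Nat.zero_le _) (mem_range.2 hs)
    omega
  have s2 : ∑ s ∈ range n, conv (fun s => β s * l1 s) g s < 2 ^ sl - 1 := by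
    refine lt_of_le_of_lt ((sum_conv_le_nat _ _ n).trans ?_) hG
    refine Nat.mul_le_mul ?_ (Nat.le_succ _)
    calc ∑ s ∈ range n, β s * l1 s ≤ ∑ s ∈ range n, tb.mx * l1 s :=
          sum_le_sum fun s _ => Nat.mul_le_mul_right _ (Tr.val_le_mx _ _ _)
      _ ≤ tb.mx * 2 ^ w := by rw [← mul_sum]; exact Nat.mul_le_mul_left _ s1
  have d2 : ∀ s < n, conv (fun s => β s * l1 s) g s < 2 ^ sl := fun s hs => by
    have := single_le_sum (f := conv (fun s => β s * l1 s) g) (s := range n)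
      (fun _ _ => Nat.zero_le _) (mem_range.2 hs)
    omega
  rw [scale_pk sl tb n l1 d1, step_pk (Nat.zero_le _) n _ _ d2] at hfin
  simp only [pow_zero, Nat.div_one] at hfin
  rw [ws_pk sl _ n l0 (by omega), ws_pk sl _ n l1 (by omega), ws_pk sl th n _ s2] at hfin
  simp only [Tr.val_sq, ← hη, ← hβ] at hfin
  set Gs : ℕ → ℝ := fun s => ∑ j ∈ range (n - s), (g j : ℝ) * η (s + j) with hGs
  have hA : ((∑ s ∈ range n, η s * conv (fun s => β s * l1 s) g s : ℕ) : ℝ) =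
      ∑ s ∈ range n, (β s : ℝ) * l1 s * Gs s := by
    have := sum_conv (fun s => β s * l1 s) g η n
    rw [sum_congr rfl fun s _ => mul_comm (η s) _, this]
    push_cast
    refine sum_congr rfl fun s _ => ?_
    rw [hGs, mul_sum]
    exact sum_congr rfl fun _ _ => by ring
  have hI : 2 ^ w * ∑ s ∈ range n, Pc (K + 1) s * (η s : ℝ) ^ 2 ≤
      ((∑ s ∈ range n, η s * η s * l0 s + th.mx * th.mx * (K * n) : ℕ) : ℝ) := by
    have h1 : ∀ s ∈ range n, 2 ^ w * (Pc (K + 1) s * (η s : ℝ) ^ 2) ≤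
        (η s : ℝ) * η s * l0 s + (th.mx : ℝ) * th.mx * (2 ^ w * Pc (K + 1) s - l0 s) := by
      intro s hs
      have h2 := sub_nonneg.2 (a1 s (mem_range.1 hs))
      have h3 : (η s : ℝ) ≤ th.mx := by exact_mod_cast Tr.val_le_mx th n s
      have h4 : (η s : ℝ) * η s ≤ th.mx * th.mx :=
        mul_le_mul h3 h3 (Nat.cast_nonneg _) (Nat.cast_nonneg _)
      nlinarith [mul_le_mul_of_nonneg_right h4 h2]
    rw [mul_sum]
    refine (sum_le_sum h1).trans ?_
    rw [sum_add_distrib, ← mul_sum, sum_sub_distrib, ← mul_sum]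
    push_cast at a2 ⊢
    gcongr
    linarith
  have hJ : 2 * 2 ^ e * (∑ s ∈ range n, (β s : ℝ) * l1 s * Gs s) -
      2 ^ e * 2 ^ e * ((∑ s ∈ range n, β s * β s * l1 s : ℕ) : ℝ) ≤
      2 ^ w * ∑ s ∈ range n, Pc K s * Gs s ^ 2 := by
    push_cast
    rw [mul_sum, mul_sum, mul_sum, ← sum_sub_distrib]
    refine sum_le_sum fun s hs => ?_
    have h1 := mul_le_mul_of_nonneg_right (b1 s (mem_range.1 hs)) (sq_nonneg (Gs s))
    have h2 := mul_nonneg (Nat.cast_nonneg (α := ℝ) (l1 s)) (sq_nonneg (Gs s - 2 ^ e * β s))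
    nlinarith
  have hfin' : 8 * ((n + K - 1 : ℕ) : ℝ) * 2 ^ w *
      ((∑ s ∈ range n, η s * η s * l0 s + th.mx * th.mx * (K * n) : ℕ) : ℝ) +
      ((K : ℝ) + 1) * (2 ^ e * 2 ^ e * ((∑ s ∈ range n, β s * β s * l1 s : ℕ) : ℝ)) <
      ((K : ℝ) + 1) * (2 * 2 ^ e *
        ((∑ s ∈ range n, η s * conv (fun s => β s * l1 s) g s : ℕ) : ℝ)) := by
    exact_mod_cast hfin
  rw [hA] at hfin'
  have key : 8 * ((n + K - 1 : ℕ) : ℝ) * 2 ^ w * ∑ s ∈ range n, Pc (K + 1) s * (η s : ℝ) ^ 2 <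
      ((K : ℝ) + 1) * ∑ s ∈ range n, Pc K s * Gs s ^ 2 := by
    refine lt_of_mul_lt_mul_left ?_ hW.le
    have h1 := mul_le_mul_of_nonneg_left hI
      (show (0 : ℝ) ≤ 8 * ((n + K - 1 : ℕ) : ℝ) * 2 ^ w by positivity)
    have h2 := mul_le_mul_of_nonneg_left hJ (show (0 : ℝ) ≤ (K : ℝ) + 1 by positivity)
    nlinarith
  have hWK : (0 : ℝ) < (2 ^ w) ^ K := by positivity
  have f1 : ∑ s ∈ range n, (gen g n ^ (K + 1)).coeff s * (η s : ℝ) ^ 2 =
      (2 ^ w) ^ K * (2 ^ w * ∑ s ∈ range n, Pc (K + 1) s * (η s : ℝ) ^ 2) := by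
    rw [mul_sum, mul_sum]
    refine sum_congr rfl fun s _ => ?_
    simp only [hPcdef]
    field_simp
    ring
  have f2 : ∑ s ∈ range n, (gen g n ^ K).coeff s * Gs s ^ 2 =
      (2 ^ w) ^ K * ∑ s ∈ range n, Pc K s * Gs s ^ 2 := by
    rw [mul_sum]
    refine sum_congr rfl fun s _ => ?_
    simp only [hPcdef]
    field_simp
  change _ < _ * ∑ s ∈ range n, (gen g n ^ K).coeff s * Gs s ^ 2
  rw [f1, f2]
  nlinarith [mul_lt_mul_of_pos_left key hWK]

end BGap
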