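import Pool.Agent.Lib.Tup.Defs

namespace Pool.Agent.P.MP_dddec0_nt.T223
open Finset Real

noncomputable section

/-- Score of a number with `r` prime factors. -/
def g3 (r : ℕ) : ℝ := if r ≤ 2 then 1 else if r = 3 then 1 / 2 else 0

/-- Partial sums, constant from `43` on. -/
def pre (f : ℕ → ℝ) (j : ℕ) : ℝ := ∑ i ∈ range (min j 43), f i

def SS : ℝ := 4001 / 25

def m1 (a : ℕ) : ℝ := (2 * a + 1) / 2

def m2 (a : ℕ) : ℝ := (3 * a ^ 2 + 3 * a + 1) / 3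

def V1 (a : ℕ) : ℝ := SS * m1 a - m2 a

def V2 (a b : ℕ) : ℝ := SS * m1 a * m1 b - m2 a * m1 b - m1 a * m2 b

def ell (P : ℕ → ℝ) (a b : ℕ) : ℝ :=
  (P a + P (a + 1)) / 2 + (P b + P (b + 1)) / 2 - (P (a + b) + 4 * P (a + b + 1) + P (a + b + 2)) / 6

/-- Squares used for numbers with three prime factors, the largest two being large. -/
def reg2 : Finset (ℕ × ℕ) :=
  (Ico 1 160 ×ˢ Ico 1 160).filter
    (fun x => max 43 (x.1 + 1) ≤ x.2 ∧ x.1 + x.2 + 2 + max 43 (x.1 + 1) ≤ 160)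

def qhat (f : ℕ → ℝ) : ℝ :=
  pre f 43 ^ 2 / SS + ∑ a ∈ Ico 1 80, ((pre f a + pre f (a + 1)) / 2) ^ 2 / V1 a
    + ∑ a ∈ Ico 1 43, ∑ b ∈ Ico 1 43, ell (pre f) a b ^ 2 / (4 * V2 a b)
    + ∑ x ∈ reg2, ell (pre f) x.1 x.2 ^ 2 / (4 * V2 x.1 x.2)

end

end Pool.Agent.P.MP_dddec0_nt.T223
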