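import Pool.Agent.P.MP_dddec0_nt.CertA
import Pool.Agent.P.MP_dddec0_nt.T223Defs

namespace Pool.Agent.P.MP_dddec0_nt.T223
open Finset

theorem sumTo_eq (n : ℕ) (f : ℕ → ℕ) : sumTo n f = ∑ i ∈ range n, f i := by
  induction n with
  | zero => rfl
  | succ n ih => rw [sum_range_succ, ← ih]; rfl

theorem pack_eq (B : ℕ) (f : ℕ → ℕ) (n : ℕ) :
    pack B f n = ∑ j ∈ range n, (∑ i ∈ range j, f i) * B ^ j := by
  induction n with
  | zero => rfl
  | succ n ih => rw [sum_range_succ, ← ih, ← sumTo_eq]; rfl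

theorem Fv_lt (a b c : ℕ) : Fv a b c < 4096 := by
  unfold Fv look
  split_ifs
  · exact Nat.mod_lt _ (by norm_num)
  · norm_num

theorem digits_lt {B : ℕ} (g : ℕ → ℕ) (n : ℕ) (hg : ∀ i < n, g i < B) :
    ∑ i ∈ range n, g i * B ^ i < B ^ n := by
  induction n with
  | zero => simp
  | succ n ih =>
    have h1 := ih fun i hi => hg i (by omega)
    have h2 := Nat.mul_le_mul_right (B ^ n) (Nat.succ_le_of_lt (hg n (by omega)))
    rw [sum_range_succ, pow_succ]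
    rw [Nat.succ_mul] at h2
    nlinarith

theorem digit_eq {B : ℕ} (g : ℕ → ℕ) {n k : ℕ} (hk : k < n) (hg : ∀ i < n, g i < B) :
    (∑ i ∈ range n, g i * B ^ i) / B ^ k % B = g k := by
  obtain ⟨r, rfl⟩ := Nat.exists_eq_add_of_lt hk
  have hB : 0 < B := lt_of_le_of_lt (Nat.zero_le _) (hg k hk)
  have h1 := digits_lt g k fun i hi => hg i (by omega)
  have h2 : ∑ i ∈ range (k + r + 1), g i * B ^ i = ∑ i ∈ range k, g i * B ^ i
      + B ^ k * (g k + B * ∑ i ∈ range r, g (k + (i + 1)) * B ^ i) := by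
    rw [add_assoc, sum_range_add, sum_range_succ', mul_add, mul_sum, mul_sum]
    congr 1
    rw [add_comm]
    congr 1
    · simp [mul_comm]
    · exact sum_congr rfl fun i _ => by ring
  rw [h2, Nat.add_mul_div_left _ _ (pow_pos hB k), Nat.div_eq_of_lt h1, zero_add,
    Nat.add_mul_mod_self_left, Nat.mod_eq_of_lt (hg k hk)]

def Pn (f : ℕ → ℕ) (j : ℕ) : ℕ := ∑ i ∈ range (min j 43), f i

def fib : Finset (Σ _ : ℕ, ℕ) := (range 35).sigma fun b => range (35 - b)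

theorem pack_mul {α : Type*} (s : Finset α) (Q : α → ℕ → ℕ) (B1 B2 n : ℕ) :
    ∑ x ∈ s, (∑ i ∈ range n, Q x i * B1 ^ i) * ∑ j ∈ range n, Q x j * B2 ^ j
      = ∑ i ∈ range n, (∑ j ∈ range n, (∑ x ∈ s, Q x i * Q x j) * B2 ^ j) * B1 ^ i := by
  simp only [sum_mul_sum]
  simp only [sum_mul]
  rw [sum_comm]
  refine sum_congr rfl fun i _ => ?_
  rw [sum_comm]
  exact sum_congr rfl fun j _ => sum_congr rfl fun x _ => by ring

attribute [local irreducible] Fv

theorem gam_eq (i j : ℕ) : gam GG i j =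
    ∑ x ∈ fib, Pn (fun a => Fv a x.1 x.2) i * Pn (fun a => Fv a x.1 x.2) j := by
  let Q : (Σ _ : ℕ, ℕ) → ℕ → ℕ := fun x j => ∑ a ∈ range j, Fv a x.1 x.2
  let Γ : ℕ → ℕ → ℕ := fun i j => ∑ x ∈ fib, Q x i * Q x j
  have hQ : ∀ x, ∀ j < 44, Q x j ≤ 44 * 4096 := fun x j hj =>
    (sum_le_card_nsmul _ _ 4096 fun a _ => (Fv_lt _ _ _).le).trans (by
      rw [card_range, smul_eq_mul]; omega)
  have hc : fib.card ≤ 35 * 35 := by
    rw [fib, card_sigma]
    refine (sum_le_card_nsmul _ _ 35 fun b _ => by rw [card_range]; omega).trans (by simp)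
  have hΓ : ∀ i < 44, ∀ j < 44, Γ i j < 2 ^ 64 := fun i hi j hj => by
    refine lt_of_le_of_lt (sum_le_card_nsmul _ _ (44 * 4096 * (44 * 4096)) fun x _ =>
      Nat.mul_le_mul (hQ x i hi) (hQ x j hj)) ?_
    rw [smul_eq_mul]
    exact lt_of_le_of_lt (Nat.mul_le_mul_right _ hc) (by norm_num)
  have hG : GG = ∑ i ∈ range 44, (∑ j ∈ range 44, Γ i j * (2 ^ 64) ^ j) * (2 ^ (64 * 44)) ^ i := by
    have h1 : GG = ∑ x ∈ fib, (∑ i ∈ range 44, Q x i * (2 ^ (64 * 44)) ^ i) *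
        ∑ j ∈ range 44, Q x j * (2 ^ 64) ^ j := by
      simp only [GG, sumTo_eq, pack_eq, fib, sum_sigma, Q]
    rw [h1]
    exact pack_mul fib Q _ _ 44
  have hi : min i 43 < 44 := by omega
  have hj : min j 43 < 44 := by omega
  unfold gam
  rw [hG, digit_eq (fun i => ∑ j ∈ range 44, Γ i j * (2 ^ 64) ^ j) hi fun i hi => by
    rw [pow_mul]; exact digits_lt _ _ (hΓ i hi), digit_eq (Γ (min i 43)) hj (hΓ _ hi)]
  rfl

theorem lin_sum {α : Type*} (s : Finset α) (l : List (ℕ × ℕ)) (Q : α → ℕ → ℕ) :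
    lin l (fun i => ∑ x ∈ s, Q x i) = ∑ x ∈ s, lin l (Q x) := by
  induction l with
  | nil => simp [lin]
  | cons y l ih =>
    simp only [lin, List.foldr_cons] at ih ⊢
    rw [ih, mul_sum, ← sum_add_distrib]

theorem lin_mul (l : List (ℕ × ℕ)) (P : ℕ → ℕ) (c : ℕ) :
    lin l (fun i => c * P i) = c * lin l P := by
  induction l with
  | nil => simp [lin]
  | cons y l ih =>
    simp only [lin, List.foldr_cons] at ih ⊢
    rw [ih]; ring

theorem bl_sum {α : Type*} (s : Finset α) (P : α → ℕ → ℕ) (l l' : List (ℕ × ℕ)) :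
    bl (fun i j => ∑ x ∈ s, P x i * P x j) l l' = ∑ x ∈ s, lin l (P x) * lin l' (P x) := by
  simp only [bl, lin_sum, lin_mul]
  refine sum_congr rfl fun x _ => ?_
  simp only [mul_comm (P x _), lin_mul]
  ring

theorem pre_cast (f : ℕ → ℕ) (j : ℕ) : pre (fun a => (f a : ℝ)) j = Pn f j := by
  simp [pre, Pn]

theorem V1_pos {a : ℕ} (ha : a < 80) : 0 < V1 a := by
  have h : (a : ℝ) < 80 := by exact_mod_cast ha
  have h0 : (0 : ℝ) ≤ a := by positivity
  unfold V1 SS m1 m2; nlinarith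

theorem V2_pos {a b : ℕ} (hab : a + b + 2 ≤ 160) : 0 < V2 a b := by
  have h : (a : ℝ) + b + 2 ≤ 160 := by exact_mod_cast hab
  have ha : (0 : ℝ) ≤ a := by positivity
  have hb : (0 : ℝ) ≤ b := by positivity
  have h1 : ∀ x : ℕ, m2 x ≤ (x + 1) * m1 x := fun x => by
    have : (0 : ℝ) ≤ x := by positivity
    unfold m1 m2; nlinarith
  have h2 : ∀ x : ℕ, 0 < m1 x := fun x => by unfold m1; positivity
  have h3 := mul_le_mul_of_nonneg_right (h1 a) (h2 b).le
  have h4 := mul_le_mul_of_nonneg_left (h1 b) (h2 a).le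
  have h5 := mul_pos (h2 a) (h2 b)
  unfold V2 SS; nlinarith

theorem cast_sub_ge (x y : ℕ) : (x : ℝ) - y ≤ (x - y : ℕ) := by
  rcases le_total y x with h | h
  · rw [Nat.cast_sub h]
  · have : (x : ℝ) ≤ y := by exact_mod_cast h
    have h2 : (0 : ℝ) ≤ (x - y : ℕ) := by positivity
    linarith

theorem c1_le {a : ℕ} (ha : a < 80) :
    ((10 ^ 12 * 75 / (2 * n1 a) : ℕ) : ℝ) ≤ 10 ^ 12 / (4 * V1 a) := by
  have h1 := V1_pos ha
  have h2 : 150 * V1 a ≤ n1 a := by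
    refine le_trans (le_of_eq ?_) (cast_sub_ge _ _)
    unfold V1 SS m1 m2; push_cast; ring
  refine Nat.cast_div_le.trans ?_
  push_cast
  rw [div_le_div_iff₀ (by linarith) (by linarith)]
  linarith

theorem c2_le {a b : ℕ} (hab : a + b + 2 ≤ 160) :
    (c2 a b : ℝ) ≤ 10 ^ 12 / (144 * V2 a b) := by
  have h1 := V2_pos hab
  have h2 : 300 * V2 a b ≤ n2 a b := by
    refine le_trans (le_of_eq ?_) (cast_sub_ge _ _)
    unfold V2 SS m1 m2; push_cast; ring
  refine Nat.cast_div_le.trans ?_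
  push_cast
  rw [div_le_div_iff₀ (by linarith) (by linarith)]
  linarith

theorem inReg_le {a b : ℕ} (h : inReg a b = true) : a + b + 2 ≤ 160 := by
  simp only [inReg, Bool.and_eq_true, Bool.or_eq_true, decide_eq_true_eq] at h
  omega

theorem mem_reg2 {x : ℕ × ℕ} : x ∈ reg2 ↔ ((1 ≤ x.1 ∧ x.1 < 160) ∧ 1 ≤ x.2 ∧ x.2 < 160) ∧
    max 43 (x.1 + 1) ≤ x.2 ∧ x.1 + x.2 + 2 + max 43 (x.1 + 1) ≤ 160 := by
  simp only [reg2, mem_filter, mem_product, mem_Ico]

attribute [local irreducible] reg2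

set_option linter.constructorNameAsVariable false in
theorem reg_sum_le (P : ℕ → ℝ) :
    ∑ a ∈ range 160, ∑ b ∈ range 160, (if inReg a b then ell P a b ^ 2 / (4 * V2 a b) else 0)
      ≤ ∑ a ∈ Ico 1 43, ∑ b ∈ Ico 1 43, ell P a b ^ 2 / (4 * V2 a b)
        + ∑ x ∈ reg2, ell P x.1 x.2 ^ 2 / (4 * V2 x.1 x.2) := by
  have hd : Disjoint (Ico 1 43 ×ˢ Ico 1 43) reg2 := by
    rw [disjoint_left]
    intro x h1 h2
    simp only [mem_reg2, mem_product, mem_Ico] at h1 h2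
    omega
  rw [← sum_product', ← sum_product', ← sum_union hd, ← sum_filter]
  refine le_of_eq (sum_congr ?_ fun _ _ => rfl)
  ext x
  simp only [mem_reg2, inReg, mem_union, mem_filter, mem_product, mem_Ico, mem_range,
    Bool.and_eq_true, Bool.or_eq_true, decide_eq_true_eq]
  omega

theorem key_le {α : Type*} (s : Finset α) (f P : α → ℕ → ℕ) (hP : ∀ x, P x = Pn (f x)) :
    ((pos fun i j => ∑ x ∈ s, P x i * P x j : ℕ) : ℝ)
      - (neg fun i j => ∑ x ∈ s, P x i * P x j : ℕ)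
      ≤ 10 ^ 12 * ∑ x ∈ s, qhat (fun a => (f x a : ℝ)) := by
  have e0 : ((10 ^ 12 * 25 / 4001 * ∑ x ∈ s, P x 43 * P x 43 : ℕ) : ℝ)
      ≤ 10 ^ 12 * ∑ x ∈ s, (P x 43 : ℝ) ^ 2 / SS := by
    rw [Nat.cast_mul, ← sum_div, Nat.cast_sum]
    simp only [Nat.cast_mul, ← sq]
    have : 0 ≤ ∑ x ∈ s, (P x 43 : ℝ) ^ 2 := sum_nonneg fun _ _ => sq_nonneg _
    unfold SS
    norm_num
    linarith
  have e1 : ((sumTo 79 (fun a => 10 ^ 12 * 75 / (2 * n1 (a + 1)) *
      bl (fun i j => ∑ x ∈ s, P x i * P x j) [(1, a + 1), (1, a + 2)]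
        [(1, a + 1), (1, a + 2)]) : ℕ) : ℝ)
      ≤ 10 ^ 12 * ∑ x ∈ s, ∑ a ∈ Ico 1 80, (((P x a : ℝ) + P x (a + 1)) / 2) ^ 2 / V1 a := by
    rw [sumTo_eq, Nat.cast_sum, sum_comm, sum_Ico_eq_sum_range, mul_sum]
    refine sum_le_sum fun a ha => ?_
    have ha' : a + 1 < 80 := by have := mem_range.1 ha; omega
    have hV := V1_pos ha'
    rw [Nat.cast_mul, bl_sum, Nat.cast_sum, add_comm 1 a]
    refine (mul_le_mul_of_nonneg_right (c1_le ha') (by positivity)).trans (le_of_eq ?_)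
    rw [mul_sum, mul_sum]
    refine sum_congr rfl fun x _ => ?_
    simp only [lin, List.foldr]
    push_cast
    field_simp
    ring
  have e2 : ((sumTo 160 fun a => sumTo 160 fun b => if inReg a b then c2 a b *
        (bl (fun i j => ∑ x ∈ s, P x i * P x j) (lu a b) (lu a b)
          + bl (fun i j => ∑ x ∈ s, P x i * P x j) (lv a b) (lv a b)) else 0 : ℕ) : ℝ)
      - (neg fun i j => ∑ x ∈ s, P x i * P x j : ℕ)
      ≤ 10 ^ 12 * ∑ x ∈ s, ∑ a ∈ range 160, ∑ b ∈ range 160,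
        (if inReg a b then ell (fun j => (P x j : ℝ)) a b ^ 2 / (4 * V2 a b) else 0) := by
    simp only [neg, sumTo_eq, Nat.cast_sum]
    rw [← sum_sub_distrib, sum_comm, mul_sum]
    refine sum_le_sum fun a _ => ?_
    rw [← sum_sub_distrib, sum_comm, mul_sum]
    refine sum_le_sum fun b _ => ?_
    by_cases hr : inReg a b = true
    · have hV := V2_pos (inReg_le hr)
      simp only [hr, if_true, bl_sum]
      push_cast
      rw [← mul_sub, mul_sum, ← sum_add_distrib, ← sum_sub_distrib]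
      refine (mul_le_mul_of_nonneg_right (c2_le (inReg_le hr)) (sum_nonneg fun x _ => ?_)).trans
        (le_of_eq ?_)
      · nlinarith [sq_nonneg ((lin (lu a b) (P x) : ℝ) - lin (lv a b) (P x))]
      · rw [mul_sum, mul_sum]
        refine sum_congr rfl fun x _ => ?_
        simp only [lin, lu, lv, List.foldr, ell]
        push_cast
        field_simp
        ring
    · simp [hr]
  have e3 : ∑ x ∈ s, (P x 43 : ℝ) ^ 2 / SS
      + ∑ x ∈ s, ∑ a ∈ Ico 1 80, (((P x a : ℝ) + P x (a + 1)) / 2) ^ 2 / V1 a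
      + ∑ x ∈ s, ∑ a ∈ range 160, ∑ b ∈ range 160,
        (if inReg a b then ell (fun j => (P x j : ℝ)) a b ^ 2 / (4 * V2 a b) else 0)
      ≤ ∑ x ∈ s, qhat (fun a => (f x a : ℝ)) := by
    rw [← sum_add_distrib, ← sum_add_distrib]
    refine sum_le_sum fun x _ => ?_
    have h1 : pre (fun a => (f x a : ℝ)) = fun j => (P x j : ℝ) :=
      funext fun j => by rw [hP]; exact pre_cast _ j
    have h2 := reg_sum_le fun j => (P x j : ℝ)
    unfold qhat
    rw [h1]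
    linarith
  unfold pos
  rw [Nat.cast_add, Nat.cast_add]
  linarith

theorem F2_eq : (F2 : ℝ) = ∑ a ∈ range 43, ∑ b ∈ range 43, ∑ c ∈ range 43, (Fv a b c : ℝ) ^ 2 := by
  simp only [F2, sumTo_eq, sq, Nat.cast_sum, Nat.cast_mul]

attribute [local irreducible] pos neg F2 fib GG gam

theorem cert : 2 * ∑ a ∈ range 43, ∑ b ∈ range 43, ∑ c ∈ range 43, (Fv a b c : ℝ) ^ 2
    < 3 * ∑ x ∈ fib, qhat (fun a => (Fv a x.1 x.2 : ℝ)) := by
  have h := cert_nat
  have hg : gam GG = fun i j =>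
      ∑ x ∈ fib, Pn (fun a => Fv a x.1 x.2) i * Pn (fun a => Fv a x.1 x.2) j :=
    funext fun i => funext fun j => gam_eq i j
  have key := key_le fib (fun x a => Fv a x.1 x.2) (fun x => Pn (fun a => Fv a x.1 x.2))
    fun _ => rfl
  rw [← hg] at key
  have h' : (2 * 10 ^ 12 * (F2 : ℝ) + 3 * (neg (gam GG) : ℕ)) < 3 * (pos (gam GG) : ℕ) := by
    exact_mod_cast h
  rw [← F2_eq]
  linarith

end Pool.Agent.P.MP_dddec0_nt.T223
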