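import Pool.Agent.P.MP_dddec0_nt.Shape
import Pool.Agent.P.MP_dddec0_nt.CertB
import Pool.Agent.Lib.Tup.Coord

namespace Pool.Agent.P.MP_dddec0_nt.T223
open Finset Real Filter Pool.Agent.Lib.Tup

attribute [local irreducible] Fv

theorem g3_nonneg (r : ℕ) : 0 ≤ g3 r := by unfold g3; split_ifs <;> norm_num

theorem g3_le_one (r : ℕ) : g3 r ≤ 1 := by unfold g3; split_ifs <;> norm_num

theorem uniform {J : Type*} [Fintype J] {Q : J → ℕ → ℝ → Prop}
    (h : ∀ j, ∃ D1 : ℕ, ∀ D ≥ D1, ∀ᶠ l : ℝ in atTop, Q j D l) :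
    ∃ D1 : ℕ, ∀ D ≥ D1, ∀ᶠ l : ℝ in atTop, ∀ j, Q j D l := by
  choose D1 h using h
  exact ⟨univ.sup D1, fun D hD => eventually_all.2 fun j =>
    h j D ((le_sup (mem_univ j)).trans hD)⟩

theorem sq_add_ge {G θ s : ℝ} (hs : 0 < s) : (1 - s) * G ^ 2 - θ ^ 2 / s ≤ (G + θ) ^ 2 := by
  have h1 : 0 ≤ (s * G + θ) ^ 2 / s := by positivity
  have h2 : (s * G + θ) ^ 2 / s = s * G ^ 2 + 2 * G * θ + θ ^ 2 / s := by field_simp; ring
  nlinarith [sq_nonneg θ]

open Classical in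
theorem fiber_ge (f : ℕ → ℝ) {ψ : ℝ → ℝ} {s0 : ℝ} (hψ : Bump ψ s0 (4001 / 1000)) (h4 : 4 < s0)
    {η ε : ℝ} (hη : 0 < η) (hη1 : η ≤ 1 / 80) (hε : 0 < ε) :
    ∃ D1 : ℕ, ∀ D ≥ D1, ∀ᶠ l : ℝ in atTop, ∀ b : ℕ, Nat.Coprime b (primorial D) →
      scale D l 1 * ((∫ s in s0..(4001 / 1000), ψ s) * (1 / 40) * qhat f - ε)
        ≤ ∑ m ∈ (cls l (primorial D) b).filter (RS η l), wg ψ l m * g3 m.primeFactors.card *
            (∑ a : Fin 43, f a * XC D l (1 / 40) a m) ^ 2 := by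
  set Q := (∫ s in s0..(4001 / 1000), ψ s) * (1 / 40) * qhat f with hQ
  set K := ∑ a : Fin 43, |f a| with hK
  have hK0 : 0 ≤ K := sum_nonneg fun _ _ => abs_nonneg _
  obtain ⟨C, hC, D1, H1⟩ := rough_major (ι := Empty) (fun i => i.elim) (fun i => i.elim)
    (fun i => i.elim) hψ hη (by linarith)
  set s := min 1 (ε / (3 * (|Q| + 1))) with hs
  have hs0 : 0 < s := lt_min one_pos (by positivity)
  have hs1 : s ≤ 1 := min_le_left _ _
  set e := min 1 (ε * s / (3 * (K ^ 2 * C + 1))) with he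
  have he0 : 0 < e := lt_min one_pos (by positivity)
  obtain ⟨D2, H2⟩ := Xapprox hη he0
  refine ⟨max D1 D2, fun D hD => ?_⟩
  have hW := primorial_pos D
  filter_upwards [H1 D (le_of_max_le_left hD), H2 D (le_of_max_le_right hD),
    shape f hψ h4 hW hη hη1 (ε := ε / 3) (by positivity), eventually_gt_atTop 0]
    with l h1 h2 h3 hl b hb
  have h4' := h1 b (fun i => i.elim) (fun i => i.elim) (fun i => i.elim) (by norm_num)
  simp only [univ_eq_empty, prod_empty, mul_one, Fintype.card_eq_zero, zero_add] at h4'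
  have h5 := h3 b hb
  set L := cW D * l with hL
  have hc := cW_pos D
  have hL0 : 0 < L := mul_pos hc hl
  have hφ : (0 : ℝ) < Nat.totient (primorial D) := by exact_mod_cast Nat.totient_pos.2 hW
  have hW' : (0 : ℝ) < primorial D := by exact_mod_cast hW
  have hsc : scale D l 1 = L ^ 2 / Nat.totient (primorial D) := by
    rw [scale, hL, cW]; field_simp
  have hsc0 : 0 ≤ scale D l 1 := Co.scale_nonneg D hl.le 1
  let G : ℕ → ℝ := fun m => ∑ a ∈ range 43, f a * Gt l (a * (1 / 40)) ((a + 1) * (1 / 40)) m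
  have hpt : ∀ m ∈ (cls l (primorial D) b).filter (RS η l),
      (1 - s) * (L ^ 2 * (wg ψ l m * g3 m.primeFactors.card * G m ^ 2))
        - (e * K) ^ 2 / s * (L ^ 2 * wg ψ l m)
      ≤ wg ψ l m * g3 m.primeFactors.card * (∑ a : Fin 43, f a * XC D l (1 / 40) a m) ^ 2 := by
    intro m hm
    rw [mem_filter] at hm
    have hm1 : m < NN l := mem_range.1 (mem_filter.1 hm.1).1
    set θ := (∑ a : Fin 43, f a * XC D l (1 / 40) a m) - L * G m with hθ
    have hθ1 : |θ| ≤ e * K * L := by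
      rw [hθ, show G m = ∑ a : Fin 43, f a * Gt l (a * (1 / 40)) ((a + 1) * (1 / 40)) m from
        (Fin.sum_univ_eq_sum_range
          (fun a => f a * Gt l (a * (1 / 40)) ((a + 1) * (1 / 40)) m) 43).symm,
        mul_sum, ← sum_sub_distrib, hK, mul_sum, sum_mul]
      refine (abs_sum_le_sum_abs _ _).trans (sum_le_sum fun a _ => ?_)
      have ha : (a : ℝ) < 43 := by exact_mod_cast a.2
      have h6 := h2 m (a * (1 / 40)) ((a + 1) * (1 / 40)) hm.2 hm1 (by positivity) (by linarith)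
        (by linarith)
      rw [show f a * XC D l (1 / 40) a m - L * (f a * Gt l (a * (1 / 40)) ((a + 1) * (1 / 40)) m)
        = f a * (XW D l (a * (1 / 40)) ((a + 1) * (1 / 40)) m
          - L * Gt l (a * (1 / 40)) ((a + 1) * (1 / 40)) m) by rw [XC]; ring, abs_mul]
      nlinarith [abs_nonneg (f a)]
    have h7 : θ ^ 2 ≤ (e * K * L) ^ 2 := sq_le_sq' (abs_le.1 hθ1).1 (abs_le.1 hθ1).2
    have h8 := sq_add_ge (G := L * G m) (θ := θ) hs0
    rw [show L * G m + θ = ∑ a : Fin 43, f a * XC D l (1 / 40) a m by rw [hθ]; ring] at h8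
    have hw := wg_nonneg hψ l m
    have h9 := mul_le_mul_of_nonneg_left h8 (mul_nonneg hw (g3_nonneg m.primeFactors.card))
    have h10 : wg ψ l m * g3 m.primeFactors.card * (θ ^ 2 / s)
        ≤ wg ψ l m * 1 * ((e * K * L) ^ 2 / s) := by
      gcongr; exact g3_le_one _
    have h11 : (e * K) ^ 2 / s * (L ^ 2 * wg ψ l m) = wg ψ l m * 1 * ((e * K * L) ^ 2 / s) := by
      ring
    nlinarith
  refine le_trans ?_ (sum_le_sum hpt)
  rw [sum_sub_distrib, ← mul_sum, ← mul_sum, ← mul_sum, ← mul_sum]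
  have h12 : L ^ 2 * ∑ m ∈ (cls l (primorial D) b).filter (RS η l), wg ψ l m
      ≤ C * scale D l 1 := by
    refine le_trans (mul_le_mul_of_nonneg_left (sum_le_sum_of_subset_of_nonneg
      (fun m hm => ?_) fun m _ _ => wg_nonneg hψ l m) (sq_nonneg _)) h4'
    rw [mem_filter] at hm ⊢
    exact ⟨hm.1, hm.2.2⟩
  have h13 : scale D l 1 * (Q - ε / 3) ≤ L ^ 2 * ∑ m ∈ (cls l (primorial D) b).filter (RS η l),
      wg ψ l m * g3 m.primeFactors.card * G m ^ 2 := by
    refine le_trans (le_of_eq ?_) (mul_le_mul_of_nonneg_left h5 (sq_nonneg L))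
    rw [hsc]; ring
  have h14 : (e * K) ^ 2 / s * C ≤ ε / 3 := by
    have e1 : e ≤ 1 := min_le_left _ _
    have e2 : e ≤ ε * s / (3 * (K ^ 2 * C + 1)) := min_le_right _ _
    rw [le_div_iff₀ (by positivity)] at e2
    rw [div_mul_eq_mul_div, div_le_iff₀ hs0]
    have : 0 ≤ K ^ 2 * C := by positivity
    nlinarith [mul_nonneg he0.le this, mul_le_mul_of_nonneg_right e1 (mul_nonneg he0.le this)]
  have h15 : Q - 2 * ε / 3 ≤ (1 - s) * (Q - ε / 3) := by
    have e2 : s ≤ ε / (3 * (|Q| + 1)) := min_le_right _ _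
    rw [le_div_iff₀ (by positivity)] at e2
    nlinarith [le_abs_self Q, mul_le_mul_of_nonneg_left (le_abs_self Q) hs0.le]
  have h16 := mul_le_mul_of_nonneg_left h13 (sub_nonneg.2 hs1)
  have h17 := mul_le_mul_of_nonneg_left h12 (show 0 ≤ (e * K) ^ 2 / s by positivity)
  nlinarith [mul_le_mul_of_nonneg_left h14 hsc0, mul_le_mul_of_nonneg_left h15 hsc0]

theorem sum_good (t : ℕ → ℕ → ℝ) :
    ∑ b ∈ univ.filter (fun b : Fin 2 → Fin 43 => (b 0 : ℕ) + b 1 ≤ 34), t (b 0) (b 1)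
      = ∑ x ∈ fib, t x.1 x.2 := by
  refine sum_bij (fun b _ => (⟨b 0, b 1⟩ : Σ _ : ℕ, ℕ)) (fun b hb => ?_) (fun b _ b' _ e => ?_)
    (fun x hx => ?_) fun _ _ => rfl
  · simp only [mem_filter, mem_univ, true_and] at hb
    simp only [fib, mem_sigma, mem_range]; omega
  · simp only [Sigma.mk.injEq, heq_eq_eq] at e
    funext i
    fin_cases i
    · exact Fin.ext e.1
    · exact Fin.ext e.2
  · simp only [fib, mem_sigma, mem_range] at hx
    refine ⟨![⟨x.1, by omega⟩, ⟨x.2, by omega⟩], ?_, rfl⟩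
    simp only [mem_filter, mem_univ, true_and, Matrix.cons_val_zero, Matrix.cons_val_one]
    omega

theorem Fv_supp {a b c : ℕ} (h : Fv a b c ≠ 0) : a + b ≤ 42 ∧ a + c ≤ 42 ∧ b + c ≤ 42 := by
  unfold Fv look at h
  split_ifs at h with h1
  · omega
  · exact absurd rfl h

theorem Fv_swap12 (a b c : ℕ) : Fv a b c = Fv b a c := by
  unfold Fv; congr 1 <;> omega

theorem Fv_swap13 (a b c : ℕ) : Fv a b c = Fv c a b := by
  unfold Fv; congr 1 <;> omega

open Classical in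
theorem coord223 (c : Fin 2 → ℤ) (hc0 : ∀ i, c i ≠ 0) (hc : Function.Injective c)
    {ψ : ℝ → ℝ} {s0 : ℝ} (hψ : Bump ψ s0 (4001 / 1000)) (h4 : 4 < s0) {ε : ℝ} (hε : 0 < ε) :
    ∃ D1 : ℕ, ∀ D ≥ D1, ∀ᶠ l : ℝ in atTop, ∀ b0 : ℕ, Nat.Coprime b0 (primorial D) →
      scale D l 3 * ((∫ s in s0..(4001 / 1000), ψ s) * (1 / 40) ^ 3 *
          ∑ x ∈ fib, qhat (fun a => (Fv a x.1 x.2 : ℝ)) - ε)
        ≤ ∑ m ∈ cls l (primorial D) b0, wg ψ l m * (g3 (ArithmeticFunction.cardFactors m) *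
          (∑ a : Fin 43, ∑ b : Fin 2 → Fin 43, (Fv a (b 0) (b 1) : ℝ) *
            (XC D l (1 / 40) a m * ∏ i, XC D l (1 / 40) (b i) (m + c i))) ^ 2) := by
  set I := ∫ s in s0..(4001 / 1000), ψ s with hI
  let good : (Fin 2 → Fin 43) → Prop := fun b => (b 0 : ℕ) + b 1 ≤ 34
  let Q : (Fin 2 → Fin 43) → ℝ := fun b => I * (1 / 40) * qhat (fun a => (Fv a (b 0) (b 1) : ℝ))
  obtain ⟨η0, hη0, H1⟩ := coord c hc0 hc hψ h4 (by norm_num) (n := 43) (h := 1 / 40) (by norm_num)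
    (fun a b => (Fv a (b 0) (b 1) : ℝ)) good
    (fun a b h => by
      obtain ⟨h1, h2, h3⟩ := Fv_supp (Nat.cast_ne_zero.1 h)
      have h1' : (a : ℝ) + b 0 ≤ 42 := by exact_mod_cast h1
      have h2' : (a : ℝ) + b 1 ≤ 42 := by exact_mod_cast h2
      have h3' : (b 0 : ℝ) + b 1 ≤ 42 := by exact_mod_cast h3
      rw [Fin.sum_univ_two]
      constructor <;> linarith)
    (fun a b a' b' _ hg h => by
      obtain ⟨_, _, h3⟩ := Fv_supp (Nat.cast_ne_zero.1 h)
      have h3' : (b' 0 : ℝ) + b' 1 ≤ 42 := by exact_mod_cast h3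
      have h2' : (b 0 : ℝ) + b 1 ≤ 34 := by exact_mod_cast hg
      rw [Fin.sum_univ_two]
      linarith)
    g3 g3_nonneg g3_le_one (by simp [g3]) (by simp [g3]) (ε := ε / 2) (by positivity)
  set η := min η0 (1 / 80) with hη
  have hη1 : 0 < η := lt_min hη0 (by norm_num)
  obtain ⟨D1, H1⟩ := H1 η hη1 (min_le_left _ _)
  set K := ∑ b, (|Q b| + 1) with hK
  have hK0 : 0 ≤ K := sum_nonneg fun _ _ => by positivity
  set e := min (1 / 40) (ε / (2 * (K + 1))) with he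
  have he0 : 0 < e := lt_min (by norm_num) (by positivity)
  have he1 : e ≤ 1 / 40 := min_le_left _ _
  obtain ⟨D2, H2⟩ := uniform fun b : Fin 2 → Fin 43 =>
    fiber_ge (fun a => (Fv a (b 0) (b 1) : ℝ)) hψ h4 hη1 (min_le_right _ _) he0
  obtain ⟨D3, H3⟩ := ipW_approx he0
  refine ⟨max D1 (max D2 D3), fun D hD => ?_⟩
  simp only [ge_iff_le, max_le_iff] at hD
  filter_upwards [H1 D hD.1, H2 D hD.2.1, H3 D hD.2.2, eventually_gt_atTop 0]
    with l h1 h2 h3 hl b0 hb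
  have h5 := h1 b0 hb
  set L := cW D * l with hL
  have hL0 : 0 < L := mul_pos (cW_pos D) hl
  have hsc1 : 0 ≤ scale D l 1 := Co.scale_nonneg D hl.le 1
  have hsc : scale D l 3 = scale D l 1 * L ^ 2 := Co.scale_add D l 2 1
  have hN : ∀ a : Fin 43, L * (1 / 40 - e) ≤ NC D l (1 / 40) a := fun a => by
    have ha : (a : ℝ) < 43 := by exact_mod_cast a.2
    have := (abs_le.1 (h3 (a * (1 / 40)) ((a + 1) * (1 / 40)) (by positivity) (by linarith)
      (by linarith))).1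
    unfold NC
    linarith
  have h6 : ∀ b ∈ univ.filter good, scale D l 3 * ((1 / 40) ^ 2 * Q b - e * (|Q b| + 1))
      ≤ (∏ i, NC D l (1 / 40) (b i)) * ∑ m ∈ (cls l (primorial D) b0).filter (RS η l),
        wg ψ l m * g3 m.primeFactors.card *
          (∑ a : Fin 43, (Fv a (b 0) (b 1) : ℝ) * XC D l (1 / 40) a m) ^ 2 := by
    intro b _
    have h7 := h2 b b0 hb
    have h0 : 0 ≤ L * (1 / 40 - e) := mul_nonneg hL0.le (by linarith)
    have h8 : (L * (1 / 40 - e)) ^ 2 ≤ ∏ i, NC D l (1 / 40) (b i) := by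
      rw [Fin.prod_univ_two, sq]
      exact mul_le_mul (hN _) (hN _) h0 (h0.trans (hN _))
    refine le_trans ?_ (mul_le_mul_of_nonneg_right h8 (sum_nonneg fun m _ =>
      mul_nonneg (mul_nonneg (wg_nonneg hψ l m) (g3_nonneg _)) (sq_nonneg _)))
    refine le_trans ?_ (mul_le_mul_of_nonneg_left h7 (sq_nonneg _))
    have h9 : (1 / 40) ^ 2 * Q b - e * (|Q b| + 1) ≤ (1 / 40 - e) ^ 2 * (Q b - e) := by
      have h10 : 0 ≤ e * (1 / 20 - e) := mul_nonneg he0.le (by linarith)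
      have h11 := mul_le_mul_of_nonneg_left (le_abs_self (Q b)) h10
      have h12 : e * (1 / 20 - e) * |Q b| ≤ e * 1 * |Q b| := by gcongr; linarith
      have h13 : (1 / 40 - e) ^ 2 ≤ 1 := by nlinarith
      nlinarith
    calc _ ≤ scale D l 3 * ((1 / 40 - e) ^ 2 * (Q b - e)) :=
          mul_le_mul_of_nonneg_left h9 (Co.scale_nonneg D hl.le 3)
      _ = _ := by rw [hsc]; simp only [Q]; ring
  have h14 := sum_le_sum h6
  rw [← mul_sum, sum_sub_distrib, ← mul_sum _ Q, ← mul_sum _ (fun b => |Q b| + 1)] at h14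
  have h15 : ∑ b ∈ univ.filter good, Q b
      = I * (1 / 40) * ∑ x ∈ fib, qhat (fun a => (Fv a x.1 x.2 : ℝ)) := by
    rw [← sum_good (fun x y => qhat (fun a => (Fv a x y : ℝ))), mul_sum]
  have h16 : e * ∑ b ∈ univ.filter good, (|Q b| + 1) ≤ ε / 2 := by
    have e1 : ∑ b ∈ univ.filter good, (|Q b| + 1) ≤ K :=
      sum_le_sum_of_subset_of_nonneg (filter_subset _ _) fun _ _ _ => by positivity
    have e2 : e ≤ ε / (2 * (K + 1)) := min_le_right _ _
    rw [le_div_iff₀ (by positivity)] at e2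
    nlinarith
  rw [h15] at h14
  have h17 := mul_le_mul_of_nonneg_left h16 (Co.scale_nonneg D hl.le 3)
  rw [Fintype.card_fin] at h5
  refine le_trans ?_ (h5.trans ?_)
  · rw [le_sub_iff_add_le]
    refine le_trans ?_ (h14.trans (le_of_eq (by congr)))
    change _ + ε / 2 * scale D l 3 ≤ _
    nlinarith
  refine le_trans (le_of_eq (sum_congr rfl fun m hm => ?_)) (sum_le_sum_of_subset_of_nonneg
    (filter_subset (RS η l) _) fun m _ _ =>
      mul_nonneg (wg_nonneg hψ l m) (mul_nonneg (g3_nonneg _) (sq_nonneg _)))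
  have hsq := (mem_filter.1 hm).2.1
  rw [← (ArithmeticFunction.cardDistinctFactors_eq_cardFactors_iff_squarefree hsq.ne_zero).2 hsq,
    ArithmeticFunction.cardDistinctFactors_apply, ← List.card_toFinset, mul_assoc]
  rfl

end Pool.Agent.P.MP_dddec0_nt.T223
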