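import Pool.Agent.P.MP_dddec0_nt.L33Ev

namespace Pool.Agent.P.MP_dddec0_nt.L33
open Finset Real Filter Pool.Agent.Lib.Tup

noncomputable def Avg_pw (j : ℕ) (c : ℝ) : ℝ := (max c 0) ^ (j + 1) / (j + 1).factorial

noncomputable def Avg_dI (w : ℝ) (g : ℝ → ℝ) : ℕ → ℝ → ℝ
  | 0, c => g c
  | i + 1, c => Avg_dI w g i c - Avg_dI w g i (c - w)

theorem Avg_dI_realize : True := by have := @Avg_dI.eq_def; trivial

theorem Avg_pw_cont (j : ℕ) : Continuous (Avg_pw j) := by
  unfold Avg_pw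
  fun_prop

theorem Avg_dI_cont (w : ℝ) {g : ℝ → ℝ} (hg : Continuous g) (i : ℕ) :
    Continuous (Avg_dI w g i) := by
  induction i with
  | zero => exact hg
  | succ i ih => exact ih.sub (ih.comp (continuous_id.sub continuous_const))

theorem Avg_pow_deriv (j : ℕ) (c : ℝ) :
    HasDerivAt (fun x : ℝ => (max x 0) ^ (j + 2)) (((j + 2 : ℕ) : ℝ) * (max c 0) ^ (j + 1)) c := by
  rcases lt_trichotomy c 0 with hc | hc | hc
  · rw [max_eq_right hc.le, zero_pow (Nat.succ_ne_zero j), mul_zero]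
    refine (hasDerivAt_const c (0 : ℝ)).congr_of_eventuallyEq ?_
    filter_upwards [Iio_mem_nhds hc] with x hx
    rw [max_eq_right (le_of_lt hx), zero_pow (Nat.succ_ne_zero (j + 1))]
  · subst hc
    have h1 : HasDerivWithinAt (fun x : ℝ => (max x 0) ^ (j + 2))
        (((j + 2 : ℕ) : ℝ) * (max (0 : ℝ) 0) ^ (j + 1)) (Set.Iic 0) 0 := by
      rw [max_self, zero_pow (Nat.succ_ne_zero j), mul_zero]
      refine (hasDerivWithinAt_const (0 : ℝ) (Set.Iic 0) (0 : ℝ)).congr ?_ ?_
      · intro x hx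
        rw [max_eq_right (Set.mem_Iic.1 hx), zero_pow (Nat.succ_ne_zero (j + 1))]
      · rw [max_self, zero_pow (Nat.succ_ne_zero (j + 1))]
    have h2 : HasDerivWithinAt (fun x : ℝ => (max x 0) ^ (j + 2))
        (((j + 2 : ℕ) : ℝ) * (max (0 : ℝ) 0) ^ (j + 1)) (Set.Ici 0) 0 := by
      rw [max_self]
      refine (hasDerivAt_pow (j + 2) (0 : ℝ)).hasDerivWithinAt.congr ?_ ?_
      · intro x hx
        rw [max_eq_left (Set.mem_Ici.1 hx)]
      · rw [max_self]
    have h3 := h1.union h2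
    rwa [Set.Iic_union_Ici, hasDerivWithinAt_univ] at h3
  · rw [max_eq_left hc.le]
    refine (hasDerivAt_pow (j + 2) c).congr_of_eventuallyEq ?_
    filter_upwards [Ioi_mem_nhds hc] with x hx
    rw [max_eq_left (le_of_lt hx)]

theorem Avg_pw_deriv (j : ℕ) (c : ℝ) : HasDerivAt (Avg_pw (j + 1)) (Avg_pw j c) c := by
  have h := (Avg_pow_deriv j c).div_const ((j + 1 + 1).factorial : ℝ)
  have e : ((j + 2 : ℕ) : ℝ) * (max c 0) ^ (j + 1) / ((j + 1 + 1).factorial : ℝ)
      = Avg_pw j c := by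
    unfold Avg_pw
    rw [Nat.factorial_succ (j + 1)]
    have : ((j + 1).factorial : ℝ) ≠ 0 := by positivity
    push_cast
    field_simp
    ring
  rw [e] at h
  exact h

theorem Avg_int_pw (w : ℝ) (j : ℕ) (c : ℝ) :
    ∫ t in (0 : ℝ)..w, Avg_pw j (c - t) = Avg_pw (j + 1) c - Avg_pw (j + 1) (c - w) := by
  have hd : ∀ t ∈ Set.uIcc (0 : ℝ) w,
      HasDerivAt (fun t => -Avg_pw (j + 1) (c - t)) (Avg_pw j (c - t)) t := by
    intro t _
    have h1 : HasDerivAt (fun t : ℝ => c - t) (-1) t := by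
      simpa using (hasDerivAt_id t).const_sub c
    have h2 := ((Avg_pw_deriv j (c - t)).comp t h1).neg
    rw [mul_neg, mul_one, neg_neg] at h2
    exact h2
  rw [intervalIntegral.integral_eq_sub_of_hasDerivAt hd
    (((Avg_pw_cont j).comp (continuous_const.sub continuous_id)).intervalIntegrable _ _)]
  simp only [sub_zero]
  ring

theorem Avg_dI_ii (w : ℝ) (j i : ℕ) (c : ℝ) :
    IntervalIntegrable (fun t => Avg_dI w (Avg_pw j) i (c - t)) MeasureTheory.volume 0 w :=
  ((Avg_dI_cont w (Avg_pw_cont j) i).comp (continuous_const.sub continuous_id)).intervalIntegrable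
    _ _

theorem Avg_int_dI (w : ℝ) (j i : ℕ) (c : ℝ) :
    ∫ t in (0 : ℝ)..w, Avg_dI w (Avg_pw j) i (c - t) = Avg_dI w (Avg_pw (j + 1)) (i + 1) c := by
  induction i generalizing c with
  | zero => exact Avg_int_pw w j c
  | succ i ih =>
    have e : ∀ t, Avg_dI w (Avg_pw j) (i + 1) (c - t)
        = Avg_dI w (Avg_pw j) i (c - t) - Avg_dI w (Avg_pw j) i (c - w - t) := by
      intro t
      rw [sub_right_comm c w t]
      rfl
    simp only [e]
    rw [intervalIntegral.integral_sub (Avg_dI_ii w j i c) (Avg_dI_ii w j i (c - w)), ih, ih]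
    rfl

theorem Avg_iter (w h : ℝ) (n : ℕ) (f : ℕ → ℝ) (j : ℕ) (v : ℝ) :
    (avg w)^[j] (Rf h n f) v = (∑ a ∈ range n, f a *
      (Avg_dI w (Avg_pw j) j ((a + 1) * h - v) - Avg_dI w (Avg_pw j) j (a * h - v))) / w ^ j := by
  induction j generalizing v with
  | zero => simp [Rf, rho, Avg_dI, Avg_pw]
  | succ j ih =>
    rw [Function.iterate_succ_apply']
    unfold avg
    have e : ∀ t, (avg w)^[j] (Rf h n f) (v + t) = (∑ a ∈ range n, f a *
        (Avg_dI w (Avg_pw j) j ((a + 1) * h - v - t)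
          - Avg_dI w (Avg_pw j) j (a * h - v - t))) / w ^ j := by
      intro t
      rw [ih]
      simp only [sub_add_eq_sub_sub]
    change (∫ t in (0 : ℝ)..w, (avg w)^[j] (Rf h n f) (v + t)) / w = _
    simp only [e]
    rw [intervalIntegral.integral_div, intervalIntegral.integral_finsetSum, div_div, pow_succ]
    · congr 1
      refine sum_congr rfl fun a _ => ?_
      rw [intervalIntegral.integral_const_mul,
        intervalIntegral.integral_sub (Avg_dI_ii w j j _) (Avg_dI_ii w j j _), Avg_int_dI,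
        Avg_int_dI]
    · intro a _
      exact ((Avg_dI_ii w j j _).sub (Avg_dI_ii w j j _)).const_mul _

theorem Avg_dZ {h : ℝ} (hh : 0 < h) (r j i : ℕ) (c : ℤ) :
    Avg_dI (r * h) (Avg_pw j) i (c * h)
      = h ^ (j + 1) * (dZ r (j + 1) i c : ℝ) / (j + 1).factorial := by
  induction i generalizing c with
  | zero =>
    have e : max ((c : ℝ) * h) 0 = h * ((c.toNat : ℤ) : ℝ) := by
      rcases le_total 0 c with hc | hc
      · rw [Int.toNat_of_nonneg hc, max_eq_left (mul_nonneg (by exact_mod_cast hc) hh.le),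
          mul_comm]
      · rw [Int.toNat_eq_zero.2 hc,
          max_eq_right (mul_nonpos_of_nonpos_of_nonneg (by exact_mod_cast hc) hh.le)]
        simp
    simp only [Avg_dI, Avg_pw, dZ]
    rw [e, mul_pow]
    push_cast
    rfl
  | succ i ih =>
    have e : (c : ℝ) * h - r * h = ((c - r : ℤ) : ℝ) * h := by
      push_cast
      ring
    simp only [Avg_dI, dZ]
    rw [e, ih, ih]
    push_cast
    ring

/-- Hint: `pw j c = (max c 0) ^ (j + 1) / (j + 1)!`, `dI w 0 g = g`,
`dI w (i + 1) g c = dI w i g c - dI w i g (c - w)`. Show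
`∫ t in 0..w, pw j (c - t) = pw (j + 1) c - pw (j + 1) (c - w)` (right derivatives,
`intervalIntegral.integral_eq_sub_of_hasDeriv_right`, or cases), then
`∫ t in 0..w, dI w i (pw j) (c - t) = dI w (i + 1) (pw (j + 1)) c`, then by induction on `j`
`(avg w)^[j] (Rf h n f) v = ∑ a, f a * (dI w j (pw j) ((a+1) h - v) - dI w j (pw j) (a h - v)) / w ^ j`,
and `dI (r h) i (pw j) (c h) = h ^ (j + 1) * dZ r (j + 1) i c / (j + 1)!` for an integer `c`. -/
theorem avg_Rf {h : ℝ} (hh : 0 < h) {r : ℕ} (hr : 0 < r) (n : ℕ) (f : ℕ → ℝ) (j o : ℕ) :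
    (avg (r * h))^[j] (Rf h n f) (o * (r * h))
      = h * (∑ a ∈ range n, f a * (cz r j ((a : ℤ) - r * o) : ℝ))
        / ((j + 1).factorial * (r : ℝ) ^ j) := by
  rw [Avg_iter]
  have hr' : (r : ℝ) ≠ 0 := by positivity
  have hf : ((j + 1).factorial : ℝ) ≠ 0 := by positivity
  have e : ∀ a ∈ range n, f a * (Avg_dI (r * h) (Avg_pw j) j ((a + 1) * h - o * (r * h))
      - Avg_dI (r * h) (Avg_pw j) j (a * h - o * (r * h)))
      = (h ^ (j + 1) / (j + 1).factorial) * (f a * (cz r j ((a : ℤ) - r * o) : ℝ)) := by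
    intro a _
    have e1 : ((a : ℝ) + 1) * h - o * (r * h) = (((a : ℤ) - r * o + 1 : ℤ) : ℝ) * h := by
      push_cast
      ring
    have e2 : (a : ℝ) * h - o * (r * h) = (((a : ℤ) - r * o : ℤ) : ℝ) * h := by
      push_cast
      ring
    rw [e1, e2, Avg_dZ hh, Avg_dZ hh, cz]
    push_cast
    ring
  rw [sum_congr rfl e, ← mul_sum, mul_pow]
  field_simp
  ring

end Pool.Agent.P.MP_dddec0_nt.L33
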