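import Pool.Agent.P.MP_dddec0_nt.L33Box

namespace Pool.Agent.P.MP_dddec0_nt.L33
open Finset Real Filter Pool.Agent.Lib.Tup

theorem big_lg_prod (l : ℝ) {ps : List ℕ} (h : ∀ p ∈ ps, p ≠ 0) :
    lg l ps.prod = (ps.map (lg l)).sum := by
  induction ps with
  | nil => simp [lg]
  | cons p ps ih =>
    have h1 : ∀ q ∈ ps, q ≠ 0 := fun q hq => h q (List.mem_cons_of_mem _ hq)
    have h2 : ps.prod ≠ 0 := List.prod_ne_zero fun h0 => h1 0 h0 rfl
    rw [List.map_cons, List.sum_cons, ← ih h1, List.prod_cons, lg, lg, lg, Nat.cast_mul,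
      log_mul (Nat.cast_ne_zero.2 (h p List.mem_cons_self)) (Nat.cast_ne_zero.2 h2), add_div]

theorem big_lg_mul (l : ℝ) {a b : ℕ} (ha : a ≠ 0) (hb : b ≠ 0) :
    lg l (a * b) = lg l a + lg l b := by
  rw [lg, lg, lg, Nat.cast_mul, log_mul (Nat.cast_ne_zero.2 ha) (Nat.cast_ne_zero.2 hb), add_div]

theorem big_lg_nonneg {l : ℝ} (hl : 0 < l) (a : ℕ) : 0 ≤ lg l a :=
  div_nonneg (log_natCast_nonneg a) hl.le

theorem big_le {l : ℝ} (hl : 0 < l) {p : ℕ} (h : 1 ≤ lg l p) : l ≤ p := by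
  rw [lg, le_div_iff₀ hl, one_mul] at h
  exact h.trans (log_le_self p.cast_nonneg)

theorem big_I {ψ : ℝ → ℝ} {s0 s1 : ℝ} (hψ : Bump ψ s0 s1) :
    0 ≤ ∫ s in s0..s1, ψ s ∧ ∫ s in s0..s1, ψ s ≤ 1 := by
  refine ⟨intervalIntegral.integral_nonneg hψ.le fun s _ => hψ.nonneg s, ?_⟩
  have := intervalIntegral.norm_integral_le_of_norm_le_const (a := s0) (b := s1) (C := 1)
    (f := ψ) fun s _ => by
      rw [Real.norm_of_nonneg (hψ.nonneg s)]
      exact hψ.le_one s
  rw [abs_of_nonneg (by linarith [hψ.le])] at this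
  linarith [le_abs_self (∫ s in s0..s1, ψ s), Real.norm_eq_abs (∫ s in s0..s1, ψ s), hψ.lo,
    hψ.hi]

/-- The sum of the reciprocals of the big primes. -/
theorem big_recip : ∀ᶠ l : ℝ in atTop, ∑ p ∈ cellP l 1 5, (1 : ℝ) / p ≤ 5 := by
  filter_upwards [cell_test one_pos, eventually_gt_atTop 0] with l h hl
  have hb : ∀ s : ℝ, 1 ≤ s → |1 / s| ≤ 1 := fun s hs => by
    rw [abs_of_nonneg (by positivity)]
    exact (div_le_one (by linarith)).2 hs
  have h1 := h 1 5 1 (fun t => 1 / t) zero_le_one (by norm_num) le_rfl (fun s hs _ => hb s hs)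
    fun s t hs _ ht _ => by
      have e : 1 / s - 1 / t = (1 / s) * (1 / t) * (t - s) := by field_simp
      rw [e, abs_mul, abs_mul, abs_sub_comm t s]
      exact mul_le_mul_of_nonneg_right (mul_le_one₀ (hb s hs) (abs_nonneg _) (hb t ht))
        (abs_nonneg _)
  have h2 := intervalIntegral.norm_integral_le_of_norm_le_const (a := 1) (b := 5) (C := 1)
    (f := fun t : ℝ => 1 / t) fun s hs => hb s (by
      rw [Set.uIoc_of_le (by norm_num)] at hs
      exact hs.1.le)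
  have h3 : ∑ p ∈ cellP l 1 5, lg l p / p * (1 / lg l p) = ∑ p ∈ cellP l 1 5, (1 : ℝ) / p :=
    sum_congr rfl fun p hp => by
      have := ((mem_cellP hl le_rfl).1 hp).2.1
      field_simp
  rw [h3] at h1
  rw [Real.norm_eq_abs] at h2
  norm_num at h1 h2 ⊢
  linarith [(abs_le.1 h1).2, (abs_le.1 h2).2]

theorem BM_nonneg {ψ : ℝ → ℝ} {s0 s1 : ℝ} (hψ : Bump ψ s0 s1) (l : ℝ) (W b κ j : ℕ) :
    0 ≤ BM ψ l W b κ j :=
  sum_nonneg fun _ _ => by
    split_ifs
    · exact div_nonneg (hψ.nonneg _) (Nat.cast_nonneg _)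
    · exact le_rfl

/-- The last big prime, avoiding the primes of the list `ps`. Hint: `inner_ge` for
`κ * ps.prod`; a prime with `ψ ≠ 0` has size at least `s0 - 3 ≥ 1` and below `5`. -/
theorem last_ge {ψ : ℝ → ℝ} {s0 s1 : ℝ} (hψ : Bump ψ s0 s1) (h4 : 4 < s0) {W : ℕ} (hW : 0 < W)
    {e : ℝ} (he : 0 < e) :
    ∀ᶠ l : ℝ in atTop, ∀ (κ b : ℕ) (ps : List ℕ), κ ≠ 0 → Nat.Coprime κ W → Nat.Coprime b W →
      (∀ p ∈ ps, p ∈ cellP l 1 5) → lg l κ + (ps.map (lg l)).sum ≤ 3 →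
      ((∫ s in s0..s1, ψ s) / (s1 - (lg l κ + (ps.map (lg l)).sum)) - e) / (Nat.totient W : ℝ)
        ≤ ∑ p ∈ (cellP l 1 5).filter (fun p => p ∉ ps), if κ * (p * ps.prod) ≡ b [MOD W] then
            ψ (log (κ * (p * ps.prod) : ℕ) / l) / p else 0 := by
  filter_upwards [inner_ge hψ hW he, eventually_gt_atTop 0, eventually_gt_atTop (W : ℝ)]
    with l h hl hlW κ b ps hκ hκW hbW hps h3
  have m := fun p hp => (mem_cellP hl le_rfl).1 (hps p hp)
  have h0 : ∀ p ∈ ps, p ≠ 0 := fun p hp => (m p hp).1.ne_zero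
  have h1 : ps.prod ≠ 0 := List.prod_ne_zero fun h => h0 0 h rfl
  have hk : κ * ps.prod ≠ 0 := mul_ne_zero hκ h1
  have h2 : lg l (κ * ps.prod) = lg l κ + (ps.map (lg l)).sum := by
    rw [big_lg_mul l hκ h1, big_lg_prod l h0]
  have hc : Nat.Coprime (κ * ps.prod) W := Nat.Coprime.mul_left hκW
    (Nat.coprime_list_prod_left_iff.2 fun p hp => (Nat.coprime_of_lt_prime hW.ne'
      (by exact_mod_cast hlW.trans_le (big_le hl (m p hp).2.1)) (m p hp).1))
  rw [← h2] at h3 ⊢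
  refine (h _ b hk hc hbW ((div_le_iff₀ hl).1 h3)).trans ?_
  rw [← sum_filter, ← sum_filter_ne_zero]
  simp only [show ∀ p, κ * (p * ps.prod) = κ * ps.prod * p from fun p => by ring]
  refine sum_le_sum_of_subset_of_nonneg (fun p hp => ?_) fun p _ _ =>
    div_nonneg (hψ.nonneg _) (Nat.cast_nonneg _)
  obtain ⟨hp, hn⟩ := mem_filter.1 hp
  obtain ⟨-, p1, p2, p3⟩ := mem_filter.1 hp
  have hs := hψ.supp (lg l (κ * ps.prod * p)) fun h => hn (by rw [← lg, h, zero_div])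
  rw [big_lg_mul l hk p1.ne_zero] at hs
  refine mem_filter.2 ⟨mem_filter.2 ⟨(mem_cellP hl le_rfl).2 ⟨p1, by linarith [hs.1], ?_⟩,
    fun hm => p3 ((List.dvd_prod hm).mul_left _)⟩, p2⟩
  linarith [hs.2, hψ.hi, big_lg_nonneg hl (κ * ps.prod)]

/-- `BM` as a sum over ordered tuples (`TS_replicate`, `TS_congr`). -/
theorem BM_eq (ψ : ℝ → ℝ) (l : ℝ) (W b κ j : ℕ) :
    j.factorial * BM ψ l W b κ j = TS (List.replicate j (cellP l 1 5)) (fun ps =>
      if κ * ps.prod ≡ b [MOD W] then ψ (log (κ * ps.prod : ℕ) / l) / (ps.prod : ℕ) else 0) := by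
  rw [BM, ← TS_replicate]
  refine TS_congr _ fun ps hp => ?_
  rw [List.prod_toFinset _ hp.2, List.map_id']

theorem big1 {ψ : ℝ → ℝ} {s0 s1 : ℝ} (hψ : Bump ψ s0 s1) (h4 : 4 < s0) {W : ℕ} (hW : 0 < W)
    {e : ℝ} (he : 0 < e) :
    ∀ᶠ l : ℝ in atTop, ∀ κ b : ℕ, κ ≠ 0 → Nat.Coprime κ W → Nat.Coprime b W →
      ((∫ s in s0..s1, ψ s) * w1 s1 (lg l κ) - e) / (Nat.totient W : ℝ) ≤ BM ψ l W b κ 1 := by
  filter_upwards [last_ge hψ h4 hW he] with l h κ b hκ hκW hbW
  rw [w1]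
  split_ifs with h3
  · have h1 := h κ b [] hκ hκW hbW (by simp) (by simpa using h3)
    have h2 := BM_eq ψ l W b κ 1
    simp only [Nat.factorial_one, Nat.cast_one, one_mul, List.replicate, TS, List.prod_cons,
      List.prod_nil, mul_one, List.map_nil, List.sum_nil, add_zero] at h1 h2
    rwa [h2, mul_one_div]
  · rw [mul_zero, zero_sub]
    exact (div_nonpos_of_nonpos_of_nonneg (by linarith) (Nat.cast_nonneg _)).trans
      (BM_nonneg hψ l W b κ 1)

/-- One more big prime `p ≠ q` of size in `[1, 3 - τ)`. Hint: `cell_test` with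
`φ t = 1 / (t * (s - τ - t))`, and one removed term at most `1 / l`. -/
theorem mid_ge {s : ℝ} (hs : 4 ≤ s) (hs' : s ≤ 5) {e : ℝ} (he : 0 < e) :
    ∀ᶠ l : ℝ in atTop, ∀ (τ : ℝ) (q : ℕ), 0 ≤ τ → τ ≤ 2 →
      (∫ t in (1 : ℝ)..(3 - τ), 1 / (t * (s - τ - t))) - e
        ≤ ∑ p ∈ (cellP l 1 (3 - τ)).filter (fun p => p ≠ q), 1 / (p * (s - τ - lg l p)) := by
  filter_upwards [cell_test (show 0 < e / 10 by positivity), eventually_gt_atTop 0,
    eventually_ge_atTop (2 / e)] with l h hl hle τ q h0 h2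
  have hd : ∀ t, 1 ≤ t → t ≤ 3 - τ → 1 ≤ t * (s - τ - t) := fun t a b =>
    one_le_mul_of_one_le_of_one_le a (by linarith)
  have hb : ∀ t, 1 ≤ t → t ≤ 3 - τ → |1 / (t * (s - τ - t))| ≤ 1 := fun t a b => by
    have := hd t a b
    rw [abs_of_nonneg (by positivity)]
    exact (div_le_one (by linarith)).2 this
  have h1 := h 1 (3 - τ) 5 (fun t => 1 / (t * (s - τ - t))) zero_le_one (by linarith)
    (by linarith) (fun t a b => (hb t a b).trans (by norm_num)) fun u t a b c d => by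
      have d1 : u * (s - τ - u) ≠ 0 := by linarith [hd u a b]
      have d2 : t * (s - τ - t) ≠ 0 := by linarith [hd t c d]
      have e : 1 / (u * (s - τ - u)) - 1 / (t * (s - τ - t)) =
          1 / (u * (s - τ - u)) * (1 / (t * (s - τ - t))) * (u + t - (s - τ)) * (u - t) := by
        rw [div_sub_div _ _ d1 d2, div_mul_div_comm, mul_assoc (_ / _), div_mul_eq_mul_div]
        congr 1
        ring
      rw [e, abs_mul, abs_mul, abs_mul]
      refine mul_le_mul_of_nonneg_right ?_ (abs_nonneg _)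
      exact (mul_le_of_le_one_left (abs_nonneg _)
        (mul_le_one₀ (hb u a b) (abs_nonneg _) (hb t c d))).trans
          (abs_le.2 ⟨by linarith, by linarith⟩)
  have m := fun p => (mem_cellP (p := p) (x := 1) hl (by linarith : 3 - τ ≤ 5)).1
  have h3 : ∑ p ∈ cellP l 1 (3 - τ), lg l p / p * (1 / (lg l p * (s - τ - lg l p))) =
      ∑ p ∈ cellP l 1 (3 - τ), 1 / (p * (s - τ - lg l p)) :=
    sum_congr rfl fun p hp => by
      have : lg l p ≠ 0 := by linarith [(m p hp).2.1]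
      rw [div_mul_div_comm, mul_left_comm, mul_div_mul_left _ _ this]
  rw [h3] at h1
  have h4 := (abs_le.1 h1).1
  rw [filter_ne']
  by_cases hq : q ∈ cellP l 1 (3 - τ)
  · rw [← add_sum_erase _ _ hq] at h4
    have h5 : l ≤ q * (s - τ - lg l q) := (big_le hl (m q hq).2.1).trans
      (le_mul_of_one_le_right q.cast_nonneg (by linarith [(m q hq).2.2]))
    have h6 : 1 / (q * (s - τ - lg l q)) ≤ e / 2 := by
      rw [← one_div_div 2 e]
      exact one_div_le_one_div_of_le (by positivity) (hle.trans h5)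
    linarith
  · rw [erase_eq_of_notMem hq]
    linarith

/-- Hint: antiderivative `(log t - log (u - t)) / u`, `u = s - τ`; `log (s - 3) ≤ s - 4`. -/
theorem int2_ge {s τ : ℝ} (hs : 4 ≤ s) (hτ : τ ≤ 2) :
    2 * ((log (3 - τ) - (s - 4) / 2) / (s - τ)) ≤ ∫ t in (1 : ℝ)..(3 - τ), 1 / (t * (s - τ - t)) := by
  have hu : 0 < s - τ := by linarith
  have hI : Set.uIcc (1 : ℝ) (3 - τ) = Set.Icc 1 (3 - τ) := Set.uIcc_of_le (by linarith)
  refine le_of_le_of_eq ?_ (intervalIntegral.integral_eq_sub_of_hasDerivAt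
    (f := fun t => (log t - log (s - τ - t)) / (s - τ)) (fun t ht => ?_)
    (ContinuousOn.intervalIntegrable ?_)).symm
  · rw [← mul_div_assoc, ← sub_div]
    refine div_le_div_of_nonneg_right ?_ hu.le
    have h1 := log_le_sub_one_of_pos (show 0 < s - τ - (3 - τ) by linarith)
    have h2 := log_le_log (show 0 < 3 - τ by linarith) (show 3 - τ ≤ s - τ - 1 by linarith)
    rw [log_one]
    linarith
  · rw [hI] at ht
    have a : t ≠ 0 := by linarith [ht.1]
    have b : s - τ - t ≠ 0 := by linarith [ht.2]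
    refine (((hasDerivAt_log a).sub (((hasDerivAt_id' t).const_sub (s - τ)).log b)).div_const
      (s - τ)).congr_deriv ?_
    field_simp
    ring
  · rw [hI]
    refine continuousOn_const.div (by fun_prop) fun t ht => mul_ne_zero ?_ ?_
    · linarith [ht.1]
    · linarith [ht.2]

/-- Hint: `BM_eq` with `j = 2`, `last_ge` with `ps = [p]` for `p ∈ cellP l 1 (3 - τ)` and `0 ≤`
for the other `p`; `∑ 1 / p` over `cellP l 1 5` is at most `5` by `cell_test`. -/
theorem big2 {ψ : ℝ → ℝ} {s0 s1 : ℝ} (hψ : Bump ψ s0 s1) (h4 : 4 < s0) {W : ℕ} (hW : 0 < W)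
    {e : ℝ} (he : 0 < e) :
    ∀ᶠ l : ℝ in atTop, ∀ κ b : ℕ, κ ≠ 0 → Nat.Coprime κ W → Nat.Coprime b W →
      ((∫ s in s0..s1, ψ s) * w2 s1 (lg l κ) - e) / (Nat.totient W : ℝ) ≤ BM ψ l W b κ 2 := by
  have hs : 4 ≤ s1 := h4.le.trans hψ.le
  filter_upwards [last_ge hψ h4 hW (show 0 < e / 5 by positivity),
    mid_ge hs (by linarith [hψ.hi]) he, big_recip, eventually_gt_atTop 0]
    with l h hm hr hl κ b hκ hκW hbW
  obtain ⟨I0, I1⟩ := big_I hψ
  have hφ : (0 : ℝ) < Nat.totient W := by exact_mod_cast Nat.totient_pos.2 hW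
  have triv : ((∫ s in s0..s1, ψ s) * 0 - e) / (Nat.totient W : ℝ) ≤ BM ψ l W b κ 2 := by
    rw [mul_zero, zero_sub]
    exact (div_nonpos_of_nonpos_of_nonneg (by linarith) hφ.le).trans (BM_nonneg hψ l W b κ 2)
  rw [w2]
  split_ifs with h2
  swap
  · exact triv
  rcases max_cases 0 (log (3 - lg l κ) - (s1 - 4) / 2) with ⟨hx, -⟩ | ⟨hx, -⟩ <;> rw [hx]
  · rwa [zero_div]
  have t0 := big_lg_nonneg hl κ
  have h1 := hm _ 0 t0 h2
  have h3 := int2_ge hs h2
  have h5 := BM_eq ψ l W b κ 2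
  set I := ∫ s in s0..s1, ψ s
  set T := (cellP l 1 (3 - lg l κ)).filter (fun p => p ≠ 0) with hT
  have m : ∀ q ∈ T, q.Prime ∧ 1 ≤ lg l q ∧ lg l q < 3 - lg l κ := fun q hq =>
    (mem_cellP hl (by linarith)).1 (mem_filter.1 hq).1
  have sub : T ⊆ cellP l 1 5 := fun q hq =>
    (mem_cellP hl le_rfl).2 ⟨(m q hq).1, (m q hq).2.1, by linarith [(m q hq).2.2]⟩
  have h6 : ∑ q ∈ T, (I * (1 / (q * (s1 - lg l κ - lg l q))) - e / 5 * (1 / q)) /
      (Nat.totient W : ℝ) ≤ 2 * BM ψ l W b κ 2 := by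
    simp only [Nat.factorial_two, Nat.cast_ofNat, List.replicate, TS] at h5
    rw [h5]
    refine (sum_le_sum fun q hq => ?_).trans (sum_le_sum_of_subset_of_nonneg (s := T)
      (fun q hq => mem_filter.2 ⟨sub hq, by simp⟩) fun q _ _ => sum_nonneg fun p _ => ?_)
    · have h7 := h κ b [q] hκ hκW hbW (by simpa using sub hq) (by
        simp only [List.map_cons, List.map_nil, List.sum_cons, List.sum_nil]
        linarith [(m q hq).2.2])
      have h8 := mul_le_mul_of_nonneg_left h7 (show (0 : ℝ) ≤ 1 / q by positivity)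
      rw [mul_sum] at h8
      refine le_trans (le_of_eq ?_) (h8.trans (le_of_eq (sum_congr rfl fun p _ => ?_)))
      · simp only [List.map_cons, List.map_nil, List.sum_cons, List.sum_nil, add_zero]
        rw [← sub_sub, ← one_div_mul_one_div]
        ring
      · simp only [List.prod_cons, List.prod_nil, mul_one]
        split_ifs
        · push_cast
          ring
        · exact mul_zero _
    · split_ifs
      · exact div_nonneg (hψ.nonneg _) (Nat.cast_nonneg _)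
      · exact le_rfl
  rw [← sum_div, sum_sub_distrib, ← mul_sum, ← mul_sum, div_le_iff₀ hφ] at h6
  have h9 := (sum_le_sum_of_subset_of_nonneg (f := fun q : ℕ => (1 : ℝ) / q) sub
    fun q _ _ => by positivity).trans hr
  rw [div_le_iff₀ hφ]
  have h10 := mul_le_mul_of_nonneg_left ((sub_le_sub_right h3 e).trans h1) I0
  nlinarith [mul_le_mul_of_nonneg_left h9 he.le, mul_le_mul_of_nonneg_right I1 he.le]

end Pool.Agent.P.MP_dddec0_nt.L33
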