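import Pool.Agent.P.MP_dddec0_nt.L33Big

namespace Pool.Agent.P.MP_dddec0_nt.L33
open Finset Real Filter Pool.Agent.Lib.Tup

/-- `∫ t' in 1..(3 - τ - t), (2 A - A ^ 2 t t' (s - τ - t - t'))` in closed form. -/
noncomputable def pol3 (s τ A t : ℝ) : ℝ :=
  2 * A * (2 - τ - t) - A ^ 2 * t *
    ((s - τ - t) * ((3 - τ - t) ^ 2 - 1) / 2 - ((3 - τ - t) ^ 3 - 1) / 3)

theorem b3_poly (c0 c1 c2 c3 c4 a b : ℝ) :
    ∫ x in a..b, (c0 + c1 * x + c2 * x ^ 2 + c3 * x ^ 3 + c4 * x ^ 4) =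
      c0 * (b - a) + c1 * (b ^ 2 - a ^ 2) / 2 + c2 * (b ^ 3 - a ^ 3) / 3 +
        c3 * (b ^ 4 - a ^ 4) / 4 + c4 * (b ^ 5 - a ^ 5) / 5 := by
  have h : ∀ x : ℝ, HasDerivAt
      (fun x : ℝ => c0 * x ^ 1 + c1 / 2 * x ^ 2 + c2 / 3 * x ^ 3 + c3 / 4 * x ^ 4 + c4 / 5 * x ^ 5)
      (c0 + c1 * x + c2 * x ^ 2 + c3 * x ^ 3 + c4 * x ^ 4) x := fun x =>
    ((((((hasDerivAt_pow 1 x).const_mul c0).fun_add
      ((hasDerivAt_pow 2 x).const_mul (c1 / 2))).fun_add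
      ((hasDerivAt_pow 3 x).const_mul (c2 / 3))).fun_add
      ((hasDerivAt_pow 4 x).const_mul (c3 / 4))).fun_add
      ((hasDerivAt_pow 5 x).const_mul (c4 / 5))).congr_deriv (by norm_num; ring)
  rw [intervalIntegral.integral_eq_sub_of_hasDerivAt (fun x _ => h x)
    (Continuous.intervalIntegrable (by fun_prop) _ _)]
  ring

theorem b3_E {s d : ℝ} (hs : 4 ≤ s) (hd : 0 ≤ d) : 1 ≤ E3 s d := by
  unfold E3
  have h : 0 ≤ d + d ^ 2 / 4 + d ^ 3 / 60 := by positivity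
  nlinarith

/-- Hint: `2 A - A ^ 2 V ≤ 1 / V` for `V > 0`, `intervalIntegral.integral_mono_on`. -/
theorem pol3_le {s τ A t : ℝ} (hs : 4 ≤ s) (ht : 1 ≤ t) (ht' : τ + t ≤ 2) :
    t * pol3 s τ A t ≤ ∫ t' in (1 : ℝ)..(3 - (τ + t)), 1 / (t' * (s - (τ + t) - t')) := by
  have e : t * pol3 s τ A t = ∫ x in (1 : ℝ)..(3 - (τ + t)), (2 * A * t +
      -(A ^ 2 * t ^ 2 * (s - τ - t)) * x + A ^ 2 * t ^ 2 * x ^ 2 + 0 * x ^ 3 + 0 * x ^ 4) := by
    rw [b3_poly, pol3]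
    ring
  have h13 : (1 : ℝ) ≤ 3 - (τ + t) := by linarith
  rw [e]
  refine intervalIntegral.integral_mono_on h13 (Continuous.intervalIntegrable (by fun_prop) _ _)
    (ContinuousOn.intervalIntegrable ?_) fun x hx => ?_
  · rw [Set.uIcc_of_le h13]
    refine continuousOn_const.div (by fun_prop) fun x hx => ?_
    exact (mul_pos (by linarith [hx.1]) (by linarith [hx.2])).ne'
  · have hV : 0 < x * (s - (τ + t) - x) := mul_pos (by linarith [hx.1]) (by linarith [hx.2])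
    rw [le_div_iff₀ hV]
    nlinarith [sq_nonneg (A * t * (x * (s - (τ + t) - x)) - 1)]

/-- Hint: the integral is a polynomial; with `d = 1 - τ` it equals
`d ^ 2 / 2 * (2 A - A ^ 2 * (1 + d + d ^ 2 / 4 + d ^ 3 / 60 + (s - 4) * (1 + 2 d / 3 + d ^ 2 / 12)))`. -/
theorem int3_ge {s τ : ℝ} (hs : 4 ≤ s) (hτ : τ ≤ 1) :
    6 * ((1 - τ) ^ 2 / (12 * E3 s (1 - τ)))
      ≤ ∫ t in (1 : ℝ)..(2 - τ), pol3 s τ (1 / E3 s (1 - τ)) t := by
  obtain ⟨d, rfl⟩ : ∃ d, τ = 1 - d := ⟨1 - τ, by ring⟩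
  have hd : 0 ≤ d := by linarith
  rw [sub_sub_cancel]
  have hE := b3_E hs hd
  have hA : 1 / E3 s d * E3 s d = 1 := one_div_mul_cancel (by linarith)
  have hA0 : 0 ≤ 1 / E3 s d := by positivity
  have e0 : 6 * (d ^ 2 / (12 * E3 s d)) = d ^ 2 / 2 * (1 / E3 s d) := by ring
  rw [e0]
  generalize 1 / E3 s d = A at hA hA0
  have e : ∀ t, pol3 s (1 - d) A t = 2 * A * (1 + d) +
      (-(2 * A) - A ^ 2 * ((s - 1 + d) * ((2 + d) ^ 2 - 1) / 2 - ((2 + d) ^ 3 - 1) / 3)) * t +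
      -(A ^ 2 * (-((s - 1 + d) * (2 + d)) + (2 + d) ^ 2 / 2 + 1 / 2)) * t ^ 2 +
      -(A ^ 2 * (s - 1 + d) / 2) * t ^ 3 + A ^ 2 / 6 * t ^ 4 := fun t => by
    unfold pol3
    ring
  simp only [e]
  rw [b3_poly]
  have h1 : 0 ≤ d ^ 2 / 2 * (A ^ 2 * ((s - 4) * (d / 3 + d ^ 2 / 6 + d ^ 3 / 60))) :=
    mul_nonneg (by positivity) (mul_nonneg (by positivity)
      (mul_nonneg (by linarith) (by positivity)))
  have h2 : d ^ 2 / 2 * (A * (A * E3 s d)) = d ^ 2 / 2 * A := by rw [hA, mul_one]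
  unfold E3 at h2
  linear_combination h1 + h2

theorem pol3_lip : ∃ B : ℝ, 0 ≤ B ∧ ∀ s τ A : ℝ, 4 ≤ s → s ≤ 5 → 0 ≤ τ → τ ≤ 1 → 0 ≤ A → A ≤ 1 →
    ∀ t, 1 ≤ t → t ≤ 2 → |pol3 s τ A t| ≤ B ∧
      ∀ t', 1 ≤ t' → t' ≤ 2 → |pol3 s τ A t - pol3 s τ A t'| ≤ B * |t - t'| := by
  have hf : ContDiff ℝ 1 fun x : ℝ × ℝ × ℝ × ℝ => pol3 x.1 x.2.1 x.2.2.1 x.2.2.2 := by
    unfold pol3
    fun_prop
  have hK : IsCompact (Set.Icc ((4, 0, 0, 1) : ℝ × ℝ × ℝ × ℝ) (5, 1, 1, 2)) := isCompact_Icc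
  obtain ⟨K, hL⟩ := hf.contDiffOn.exists_lipschitzOnWith one_ne_zero (convex_Icc _ _) hK
  obtain ⟨C, hC⟩ := hK.exists_bound_of_continuousOn hf.continuous.continuousOn
  refine ⟨max K C, le_max_of_le_left K.2, fun s τ A a1 a2 a3 a4 a5 a6 t a7 a8 => ?_⟩
  have m : ∀ t, 1 ≤ t → t ≤ 2 →
      (s, τ, A, t) ∈ Set.Icc ((4, 0, 0, 1) : ℝ × ℝ × ℝ × ℝ) (5, 1, 1, 2) :=
    fun t h h' => ⟨⟨a1, a3, a5, h⟩, a2, a4, a6, h'⟩
  refine ⟨(hC _ (m t a7 a8)).trans (le_max_right _ _), fun t' a9 a10 => ?_⟩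
  have h := hL.dist_le_mul _ (m t a7 a8) _ (m t' a9 a10)
  simp only [Prod.dist_eq, dist_self, Real.dist_eq, max_eq_right (abs_nonneg (t - t'))] at h
  exact h.trans (mul_le_mul_of_nonneg_right (le_max_left _ _) (abs_nonneg _))

theorem b3_TS (P : Finset ℕ) (Φ : List ℕ → ℝ) : TS (List.replicate 3 P) Φ =
    ∑ q ∈ P, ∑ p ∈ P.filter (fun p => p ≠ q), ∑ r ∈ P.filter (fun r => r ∉ [p, q]),
      Φ [r, p, q] := by
  show TS [P, P, P] Φ = _
  simp only [TS]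
  rw [filter_true_of_mem fun _ _ => List.not_mem_nil]
  exact sum_congr rfl fun q _ => sum_congr (filter_congr fun _ _ => by simp) fun _ _ => rfl

theorem b3_mass : ∀ᶠ l : ℝ in atTop, ∑ p ∈ cellP l 1 5, (1 : ℝ) / p ≤ 5 := by
  filter_upwards [eventually_gt_atTop 0, cell_test one_pos] with l hl h
  have h1 := h 1 5 1 (fun _ => 1) zero_le_one (by norm_num) le_rfl (by simp) (by simp)
  simp only [mul_one, intervalIntegral.integral_const, smul_eq_mul] at h1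
  refine le_trans (sum_le_sum fun p hp => ?_) (by linarith [(abs_le.1 h1).2])
  exact div_le_div_of_nonneg_right ((mem_cellP hl le_rfl).1 hp).2.1 (Nat.cast_nonneg p)

theorem b3_sub {l y : ℝ} (hl : 0 < l) (hy : y ≤ 5) : cellP l 1 y ⊆ cellP l 1 5 := fun p hp => by
  have h := (mem_cellP hl hy).1 hp
  exact (mem_cellP hl le_rfl).2 ⟨h.1, h.2.1, h.2.2.trans_le hy⟩

theorem b3_I {ψ : ℝ → ℝ} {s0 s1 : ℝ} (hψ : Bump ψ s0 s1) :
    0 ≤ ∫ s in s0..s1, ψ s ∧ ∫ s in s0..s1, ψ s ≤ 1 := by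
  refine ⟨intervalIntegral.integral_nonneg hψ.le fun s _ => hψ.nonneg s, ?_⟩
  have h := intervalIntegral.norm_integral_le_of_norm_le_const (C := 1) (f := ψ) (a := s0)
    (b := s1) fun x _ => by
      rw [Real.norm_eq_abs, abs_of_nonneg (hψ.nonneg x)]
      exact hψ.le_one x
  rw [one_mul, abs_of_nonneg (sub_nonneg.2 hψ.le), Real.norm_eq_abs] at h
  linarith [le_abs_self (∫ s in s0..s1, ψ s), hψ.lo, hψ.hi]

/-- Hint: `BM_eq` with `j = 3`; outer prime `q ∈ cellP l 1 (2 - τ)`, middle prime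
`p ∈ cellP l 1 (3 - (τ + lg l q))`, `p ≠ q` (`mid_ge` at `τ + lg l q`), inner sum `last_ge` with
`ps = [p, q]`; then `pol3_le`, `cell_test` with `pol3`, `int3_ge`. -/
theorem big3 {ψ : ℝ → ℝ} {s0 s1 : ℝ} (hψ : Bump ψ s0 s1) (h4 : 4 < s0) {W : ℕ} (hW : 0 < W)
    {e : ℝ} (he : 0 < e) :
    ∀ᶠ l : ℝ in atTop, ∀ κ b : ℕ, κ ≠ 0 → Nat.Coprime κ W → Nat.Coprime b W →
      ((∫ s in s0..s1, ψ s) * w3 s1 (lg l κ) - e) / (Nat.totient W : ℝ) ≤ BM ψ l W b κ 3 := by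
  obtain ⟨B, hB0, hB⟩ := pol3_lip
  have hs4 : 4 ≤ s1 := h4.le.trans hψ.le
  have hs5 : s1 ≤ 5 := by linarith [hψ.hi]
  obtain ⟨hI0, hI1⟩ := b3_I hψ
  have hφ : (0 : ℝ) < Nat.totient W := Nat.cast_pos.2 (Nat.totient_pos.2 hW)
  filter_upwards [eventually_gt_atTop 0, last_ge hψ h4 hW (e := e / 25) (by positivity),
    mid_ge hs4 hs5 (e := e / 5) (by positivity), cell_test (e := e / (B + 1)) (by positivity),
    b3_mass] with l hl h1 h2 h3 h5 κ b hκ hκW hbW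
  generalize (∫ s in s0..s1, ψ s) = I at *
  generalize (Nat.totient W : ℝ) = φ at *
  have hτ0 : 0 ≤ lg l κ := div_nonneg (log_natCast_nonneg κ) hl.le
  replace h1 := fun ps => h1 κ b ps hκ hκW hbW
  generalize lg l κ = τ at *
  by_cases hτ : τ ≤ 1
  swap
  · rw [w3, if_neg hτ, mul_zero, zero_sub]
    exact (div_nonpos_of_nonpos_of_nonneg (by linarith) hφ.le).trans (BM_nonneg hψ l W b κ 3)
  rw [w3, if_pos hτ]
  have hE := b3_E hs4 (sub_nonneg.2 hτ)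
  have h6 := int3_ge hs4 hτ
  have hA0 : 0 ≤ 1 / E3 s1 (1 - τ) := by positivity
  have hA1 : 1 / E3 s1 (1 - τ) ≤ 1 := by rwa [div_le_one (by linarith)]
  generalize 1 / E3 s1 (1 - τ) = A at *
  generalize (1 - τ) ^ 2 / (12 * E3 s1 (1 - τ)) = w at *
  have h7 := h3 1 (2 - τ) B (pol3 s1 τ A) zero_le_one (by linarith) (by linarith)
    (fun t a1 a2 => (hB s1 τ A hs4 hs5 hτ0 hτ hA0 hA1 t a1 (by linarith)).1)
    fun t t' a1 a2 a3 a4 =>
      (hB s1 τ A hs4 hs5 hτ0 hτ hA0 hA1 t a1 (by linarith)).2 t' a3 (by linarith)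
  have h8 : e / (B + 1) * B ≤ e := by
    rw [div_mul_eq_mul_div, div_le_iff₀ (by positivity)]
    nlinarith
  obtain ⟨g, hg⟩ : ∃ g : List ℕ → ℝ, ∀ ps, g ps = ∑ p ∈ (cellP l 1 5).filter (fun p => p ∉ ps),
      if κ * (p * ps.prod) ≡ b [MOD W] then ψ (log (κ * (p * ps.prod) : ℕ) / l) / p else 0 :=
    ⟨_, fun _ => rfl⟩
  have g0 : ∀ ps, 0 ≤ g ps := fun ps => by
    rw [hg]
    refine sum_nonneg fun p _ => ?_
    split_ifs
    exacts [div_nonneg (hψ.nonneg _) (Nat.cast_nonneg p), le_rfl]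
  have e1 : 6 * BM ψ l W b κ 3 = ∑ q ∈ cellP l 1 5,
      ∑ p ∈ (cellP l 1 5).filter (fun p => p ≠ q), g [p, q] / (p * q) := by
    have h := BM_eq ψ l W b κ 3
    rw [b3_TS] at h
    rw [show (6 : ℝ) = (Nat.factorial 3 : ℕ) by norm_num [Nat.factorial], h]
    refine sum_congr rfl fun q _ => sum_congr rfl fun p _ => ?_
    rw [hg, sum_div]
    refine sum_congr rfl fun r _ => ?_
    rw [List.prod_cons (a := r)]
    split_ifs
    · simp only [List.prod_cons, List.prod_nil, mul_one, Nat.cast_mul, div_div]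
    · rw [zero_div]
  have key : ∀ q ∈ cellP l 1 (2 - τ),
      (I * (lg l q / q * pol3 s1 τ A (lg l q)) - 2 * (e / 5) * (1 / q)) / φ ≤
        ∑ p ∈ (cellP l 1 5).filter (fun p => p ≠ q), g [p, q] / (p * q) := by
    intro q hq
    have hq5 := b3_sub hl (by linarith) hq
    obtain ⟨q1, q2, q3⟩ := (mem_cellP hl (by linarith)).1 hq
    have hq0 : (0 : ℝ) < q := Nat.cast_pos.2 q1.pos
    have hs : cellP l 1 (3 - (τ + lg l q)) ⊆ cellP l 1 5 := b3_sub hl (by linarith)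
    have m1 := h2 (τ + lg l q) q (by linarith) (by linarith)
    have m2 := pol3_le (A := A) hs4 q2 (τ := τ) (by linarith)
    have m3 : ∑ p ∈ (cellP l 1 (3 - (τ + lg l q))).filter (fun p => p ≠ q), (1 : ℝ) / p ≤ 5 :=
      (sum_le_sum_of_subset_of_nonneg ((filter_subset _ _).trans hs)
        fun _ _ _ => by positivity).trans h5
    refine le_trans ?_ (sum_le_sum_of_subset_of_nonneg (filter_subset_filter _ hs)
      fun p _ _ => div_nonneg (g0 _) (by positivity))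
    have m4 : ∀ p ∈ (cellP l 1 (3 - (τ + lg l q))).filter (fun p => p ≠ q),
        (I * (1 / (p * (s1 - (τ + lg l q) - lg l p))) - e / 25 * (1 / p)) / φ / q ≤
          g [p, q] / (p * q) := by
      intro p hp
      have hp' := (mem_filter.1 hp).1
      obtain ⟨p1, p2, p3⟩ := (mem_cellP hl (by linarith)).1 hp'
      have hp0 : (0 : ℝ) < p := Nat.cast_pos.2 p1.pos
      have m5 := h1 [p, q] (by simpa using ⟨hs hp', hq5⟩) (by simp; linarith)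
      rw [← hg] at m5
      refine le_trans (le_of_eq ?_) (div_le_div_of_nonneg_right m5 (by positivity))
      simp only [List.map_cons, List.map_nil, List.sum_cons, List.sum_nil, one_div, mul_inv]
      ring
    refine le_trans ?_ (sum_le_sum m4)
    rw [← sum_div, ← sum_div, sum_sub_distrib, ← mul_sum, ← mul_sum, div_right_comm]
    refine div_le_div_of_nonneg_right ?_ hφ.le
    rw [show I * (lg l q / q * pol3 s1 τ A (lg l q)) - 2 * (e / 5) * (1 / q) =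
      (I * (lg l q * pol3 s1 τ A (lg l q)) - 2 * (e / 5)) / q by ring]
    refine div_le_div_of_nonneg_right ?_ hq0.le
    have m6 := mul_le_mul_of_nonneg_left ((sub_le_sub_right m2 (e / 5)).trans m1) hI0
    nlinarith
  have hs : cellP l 1 (2 - τ) ⊆ cellP l 1 5 := b3_sub hl (by linarith)
  have m1 := (sum_le_sum key).trans (sum_le_sum_of_subset_of_nonneg hs fun q _ _ =>
    sum_nonneg fun p _ => div_nonneg (g0 _) (by positivity))
  rw [← e1, ← sum_div, sum_sub_distrib, ← mul_sum, ← mul_sum, div_le_iff₀ hφ] at m1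
  have m2 : ∑ p ∈ cellP l 1 (2 - τ), (1 : ℝ) / p ≤ 5 :=
    (sum_le_sum_of_subset_of_nonneg hs fun _ _ _ => by positivity).trans h5
  have m3 : 6 * w - e ≤ ∑ q ∈ cellP l 1 (2 - τ), lg l q / q * pol3 s1 τ A (lg l q) := by
    linarith [(abs_le.1 h7).1]
  have m4 := mul_le_mul_of_nonneg_left m3 hI0
  rw [div_le_iff₀ hφ]
  nlinarith

theorem big_ge {ψ : ℝ → ℝ} {s0 s1 : ℝ} (hψ : Bump ψ s0 s1) (h4 : 4 < s0) {W : ℕ} (hW : 0 < W)
    {e : ℝ} (he : 0 < e) :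
    ∀ᶠ l : ℝ in atTop, ∀ κ b J : ℕ, κ ≠ 0 → Nat.Coprime κ W → Nat.Coprime b W → 1 ≤ J →
      ((∫ s in s0..s1, ψ s) * Wt s1 J (lg l κ) - e) / (Nat.totient W : ℝ)
        ≤ ∑ j ∈ Icc 1 J, BM ψ l W b κ j := by
  have he3 : 0 < e / 3 := by positivity
  have hφ : (0 : ℝ) < Nat.totient W := Nat.cast_pos.2 (Nat.totient_pos.2 hW)
  filter_upwards [big1 hψ h4 hW he3, big2 hψ h4 hW he3, big3 hψ h4 hW he3]
    with l h1 h2 h3 κ b J hκ hκW hbW hJ
  have a1 := (div_le_iff₀ hφ).1 (h1 κ b hκ hκW hbW)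
  have a2 := (div_le_iff₀ hφ).1 (h2 κ b hκ hκW hbW)
  have a3 := (div_le_iff₀ hφ).1 (h3 κ b hκ hκW hbW)
  rw [div_le_iff₀ hφ, Wt]
  rcases hJ.eq_or_lt with rfl | hJ2
  · rw [if_neg (by omega), if_neg (by omega), Icc_self, sum_singleton]
    linarith
  rcases (Nat.succ_le_of_lt hJ2).eq_or_lt with rfl | hJ3
  · rw [if_pos le_rfl, if_neg (by omega), sum_Icc_succ_top (by norm_num), Icc_self, sum_singleton]
    linarith
  · have hs : ∑ j ∈ Icc 1 3, BM ψ l W b κ j ≤ ∑ j ∈ Icc 1 J, BM ψ l W b κ j :=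
      sum_le_sum_of_subset_of_nonneg (Icc_subset_Icc_right hJ3) fun j _ _ => BM_nonneg hψ l W b κ j
    rw [sum_Icc_succ_top (by norm_num), sum_Icc_succ_top (by norm_num), Icc_self,
      sum_singleton] at hs
    have := mul_le_mul_of_nonneg_right hs hφ.le
    rw [if_pos (by omega), if_pos (by omega)]
    linarith

theorem Wt_nonneg {s : ℝ} (hs : 4 ≤ s) (J : ℕ) (τ : ℝ) : 0 ≤ Wt s J τ := by
  have h1 : 0 ≤ w1 s τ := by
    unfold w1
    split_ifs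
    exacts [div_nonneg zero_le_one (by linarith), le_rfl]
  have h2 : 0 ≤ w2 s τ := by
    unfold w2
    split_ifs
    exacts [div_nonneg (le_max_left _ _) (by linarith), le_rfl]
  have h3 : 0 ≤ w3 s τ := by
    unfold w3
    split_ifs with h
    · have := b3_E hs (sub_nonneg.2 h)
      positivity
    · exact le_rfl
  unfold Wt
  split_ifs <;> linarith

end Pool.Agent.P.MP_dddec0_nt.L33
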