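import Pool.Agent.P.MP_dddec0_nt.L33TS
import Pool.Agent.Lib.Tup.Inner

namespace Pool.Agent.P.MP_dddec0_nt.L33
open Finset Real Filter Pool.Agent.Lib.Tup

/-- Prime sums against a Lipschitz function on one cell. -/
theorem cell_test {e : ℝ} (he : 0 < e) :
    ∀ᶠ l : ℝ in atTop, ∀ (x y B : ℝ) (φ : ℝ → ℝ), 0 ≤ x → x ≤ y → y ≤ 5 →
      (∀ s, x ≤ s → s ≤ y → |φ s| ≤ B) →
      (∀ s t, x ≤ s → s ≤ y → x ≤ t → t ≤ y → |φ s - φ t| ≤ B * |s - t|) →
      |∑ p ∈ cellP l x y, lg l p / p * φ (lg l p) - ∫ s in x..y, φ s| ≤ e * B := by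
  obtain ⟨C, -, hC⟩ := mertens_ap (W := 1) one_pos
  filter_upwards [lip_test 1 C he, eventually_gt_atTop (0 : ℝ)] with l h hl x y B φ hx hxy hy h1 h2
  have key := h (NN l) (fun n => if n.Prime ∧ n ≡ 0 [MOD 1] then log n / n else 0) x y B φ
    (fun n => by
      split_ifs
      exacts [div_nonneg (log_natCast_nonneg n) (Nat.cast_nonneg n), le_rfl])
    (fun x hx hx5 => by
      have := hC 0 (NN l) x (by simp) hx ((exp_le_exp.2 hx5).trans (Nat.le_ceil _))
      simpa using this)
    hx hxy hy (fun s hs => h1 s hs.1 hs.2) (fun s hs t ht => h2 s t hs.1 hs.2 ht.1 ht.2)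
  have e1 : ∑ n ∈ (range (NN l)).filter (fun n : ℕ => x * l ≤ log n ∧ log n < y * l),
      (if n.Prime ∧ n ≡ 0 [MOD 1] then log n / n else 0) * φ (log n / l)
      = l * ∑ p ∈ cellP l x y, lg l p / p * φ (lg l p) := by
    rw [cellP, mul_sum, sum_filter, sum_filter]
    refine sum_congr rfl fun n _ => ?_
    by_cases hp : n.Prime
    · simp only [hp, true_and, Nat.modEq_one, if_true, lg]
      split_ifs
      · field_simp
      · rfl
    · simp [hp]
  rw [e1, one_mul, ← mul_sub, abs_mul, abs_of_pos hl] at key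
  have e2 : e * l * B = l * (e * B) := by ring
  rw [e2] at key
  exact le_of_mul_le_mul_left key hl

theorem mem_cellP {l x y : ℝ} (hl : 0 < l) (hy : y ≤ 5) {p : ℕ} :
    p ∈ cellP l x y ↔ p.Prime ∧ x ≤ lg l p ∧ lg l p < y := by
  rw [cellP, mem_filter, mem_range, lg, le_div_iff₀ hl, div_lt_iff₀ hl]
  refine ⟨fun h => h.2, fun h => ⟨?_, h⟩⟩
  have hp : (0 : ℝ) < p := by exact_mod_cast h.1.pos
  have h1 : log p < 5 * l := h.2.2.trans_le (mul_le_mul_of_nonneg_right hy hl.le)
  rw [NN, Nat.lt_ceil]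
  exact (log_lt_iff_lt_exp hp).1 h1

theorem box_lg_nonneg {l : ℝ} (hl : 0 < l) (p : ℕ) : 0 ≤ lg l p / p :=
  div_nonneg (div_nonneg (log_natCast_nonneg p) hl.le) (Nat.cast_nonneg p)

theorem box_lg_le {l : ℝ} (hl : 0 < l) (p : ℕ) : lg l p / p ≤ 1 / l := by
  have h : log p / p ≤ 1 :=
    div_le_one_of_le₀ (log_le_self (Nat.cast_nonneg p)) (Nat.cast_nonneg p)
  have e : lg l p / p = log p / p / l := by
    rw [lg]
    ring
  rw [e]
  exact div_le_div_of_nonneg_right h hl.le

theorem box_aws_cons (l : ℝ) (p : ℕ) (ps : List ℕ) :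
    aws l (p :: ps) = lg l p / p * aws l ps := by
  simp [aws]

theorem aws_nonneg {l : ℝ} (hl : 0 < l) (ps : List ℕ) : 0 ≤ aws l ps := by
  induction ps with
  | nil => simp [aws]
  | cons p ps ih =>
    rw [box_aws_cons]
    exact mul_nonneg (box_lg_nonneg hl p) ih

theorem box_cell_le {η w : ℝ} (h0 : 0 ≤ η) (hw : η ≤ w) (a : ℕ) :
    0 ≤ (a : ℝ) * w ∧ (a : ℝ) * w ≤ max ((a : ℝ) * w) η ∧
      max ((a : ℝ) * w) η ≤ ((a : ℝ) + 1) * w ∧ max ((a : ℝ) * w) η ≤ (a : ℝ) * w + η := by
  have h1 : 0 ≤ (a : ℝ) * w := mul_nonneg (Nat.cast_nonneg a) (h0.trans hw)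
  refine ⟨h1, le_max_left _ _, max_le ?_ ?_, max_le ?_ ?_⟩ <;> linarith

/-- Total mass of a box. -/
theorem box_mass : ∀ᶠ l : ℝ in atTop, ∀ (η w : ℝ) (as : List ℕ), 0 ≤ η → η ≤ w →
    (∀ a ∈ as, ((a : ℝ) + 1) * w ≤ 1) → TS (as.map (cellW l η w)) (aws l) ≤ 2 ^ as.length := by
  filter_upwards [cell_test one_pos, eventually_gt_atTop (0 : ℝ)] with l h hl η w as h0 hw has
  induction as with
  | nil => simp [TS, aws]
  | cons a as ih =>
    have ha := has a (by simp)
    obtain ⟨c1, c2, c3, -⟩ := box_cell_le h0 hw a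
    have h1 := (abs_le.1 (h (max (a * w) η) ((a + 1) * w) 1 (fun _ => 1) (by linarith) c3
      (by linarith) (fun s _ _ => by simp) (fun s t _ _ _ _ => by simp))).2
    simp only [mul_one, intervalIntegral.integral_const, smul_eq_mul] at h1
    have h2 : ∑ p ∈ cellW l η w a, lg l p / p ≤ 2 := by
      rw [cellW]
      linarith
    have h3 := ih fun b hb => has b (by simp [hb])
    rw [List.map_cons, TS, List.length_cons, pow_succ']
    calc TS (as.map (cellW l η w))
          (fun ps => ∑ p ∈ (cellW l η w a).filter (fun p => p ∉ ps), aws l (p :: ps))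
        ≤ TS (as.map (cellW l η w)) (fun ps => 2 * aws l ps) := by
          refine TS_mono _ fun ps _ => ?_
          simp only [box_aws_cons]
          rw [← sum_mul]
          refine mul_le_mul_of_nonneg_right (le_trans ?_ h2) (aws_nonneg hl ps)
          exact sum_le_sum_of_subset_of_nonneg (filter_subset _ _)
            fun p _ _ => box_lg_nonneg hl p
      _ = 2 * TS (as.map (cellW l η w)) (aws l) := TS_mul _ _ _
      _ ≤ 2 * 2 ^ as.length := by linarith

theorem box_dl_self (ts : List ℝ) : dl ts ts = 0 := by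
  induction ts with
  | nil => rfl
  | cons t ts ih => simp [dl, ih]

theorem box_dl_nonneg (ss ts : List ℝ) : 0 ≤ dl ss ts := by
  induction ss generalizing ts with
  | nil => simp [dl]
  | cons s ss ih =>
    cases ts with
    | nil => simp [dl]
    | cons t ts => exact add_nonneg (abs_nonneg _) (ih ts)

theorem box_in_cons {k : ℕ} {ts : List ℝ} (h : In01 k ts) {t : ℝ} (h0 : 0 ≤ t) (h1 : t ≤ 1) :
    In01 (k + 1) (t :: ts) := by
  refine ⟨by simp [h.1], fun s hs => ?_⟩
  rcases List.mem_cons.1 hs with rfl | hs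
  exacts [⟨h0, h1⟩, h.2 s hs]

theorem box_B_nonneg {k : ℕ} {B : ℝ} {Φ : List ℝ → ℝ} (h : LipL k B Φ) : 0 ≤ B :=
  (abs_nonneg _).trans (h (List.replicate k 0) ⟨by simp, fun t ht => by
    rw [List.eq_of_mem_replicate ht]
    exact ⟨le_rfl, zero_le_one⟩⟩).1

theorem box_slice {k : ℕ} {B : ℝ} {Φ : List ℝ → ℝ} (h : LipL (k + 1) B Φ) {ts : List ℝ}
    (hts : In01 k ts) {s t : ℝ} (hs0 : 0 ≤ s) (hs1 : s ≤ 1) (ht0 : 0 ≤ t) (ht1 : t ≤ 1) :
    |Φ (s :: ts) - Φ (t :: ts)| ≤ B * |s - t| := by
  have := (h _ (box_in_cons hts hs0 hs1)).2 _ (box_in_cons hts ht0 ht1)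
  simpa [dl, box_dl_self] using this

theorem box_intable {k : ℕ} {B : ℝ} {Φ : List ℝ → ℝ} (h : LipL (k + 1) B Φ) {ts : List ℝ}
    (hts : In01 k ts) {x y : ℝ} (hx : 0 ≤ x) (hxy : x ≤ y) (hy : y ≤ 1) :
    IntervalIntegrable (fun t => Φ (t :: ts)) MeasureTheory.volume x y :=
  (contOn_of_lip (φ := fun t => Φ (t :: ts)) (box_B_nonneg h) fun _ hs _ ht =>
    box_slice h hts (hx.trans hs.1) (hs.2.trans hy) (hx.trans ht.1)
      (ht.2.trans hy)).intervalIntegrable_of_Icc hxy

theorem box_int_le {f : ℝ → ℝ} {x y C : ℝ} (hxy : x ≤ y)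
    (h : ∀ s, x ≤ s → s ≤ y → |f s| ≤ C) : |∫ s in x..y, f s| ≤ C * (y - x) := by
  have := intervalIntegral.norm_integral_le_of_norm_le_const (a := x) (b := y) (C := C) (f := f)
    fun s hs => by
      rw [Set.uIoc_of_le hxy] at hs
      exact h s hs.1.le hs.2
  rwa [abs_of_nonneg (sub_nonneg.2 hxy)] at this

theorem box_lip_int {k : ℕ} {B : ℝ} {Φ : List ℝ → ℝ} (h : LipL (k + 1) B Φ) {x y : ℝ}
    (hx : 0 ≤ x) (hxy : x ≤ y) (hy : y ≤ 1) :
    LipL k B (fun ts => ∫ t in x..y, Φ (t :: ts)) := by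
  have hB := box_B_nonneg h
  have hl : y - x ≤ 1 := by linarith
  intro ss hss
  refine ⟨(box_int_le hxy fun s h1 h2 =>
    (h _ (box_in_cons hss (hx.trans h1) (h2.trans hy))).1).trans
      (mul_le_of_le_one_right hB hl), fun ts hts => ?_⟩
  show |(∫ t in x..y, Φ (t :: ss)) - ∫ t in x..y, Φ (t :: ts)| ≤ _
  rw [← intervalIntegral.integral_sub (box_intable h hss hx hxy hy) (box_intable h hts hx hxy hy)]
  refine (box_int_le (C := B * dl ss ts) hxy fun s h1 h2 => ?_).trans
    (mul_le_of_le_one_right (mul_nonneg hB (box_dl_nonneg _ _)) hl)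
  have := (h _ (box_in_cons hss (hx.trans h1) (h2.trans hy))).2 _
    (box_in_cons hts (hx.trans h1) (h2.trans hy))
  simpa [dl] using this

theorem box_val {l η w : ℝ} (hl : 0 < l) {as : List ℕ} (has : ∀ a ∈ as, ((a : ℝ) + 1) * w ≤ 1)
    {ps : List ℕ} (h : List.Forall₂ (fun p C => p ∈ C) ps (as.map (cellW l η w))) :
    In01 as.length (ps.map (lg l)) := by
  induction as generalizing ps with
  | nil =>
    rw [List.map_nil, List.forall₂_nil_right_iff] at h
    subst h
    exact ⟨rfl, by simp⟩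
  | cons a as ih =>
    rw [List.map_cons, List.forall₂_cons_right_iff] at h
    obtain ⟨p, qs, hp, hq, rfl⟩ := h
    have ha := has a (by simp)
    have h1 := (mem_cellP hl (by linarith)).1 hp
    exact box_in_cons (ih (fun b hb => has b (by simp [hb])) hq)
      (div_nonneg (log_natCast_nonneg p) hl.le) (by linarith [h1.2.2])

theorem box_removed {l x y B : ℝ} (hl : 0 < l) (hy : y ≤ 5) (hB : 0 ≤ B) {φ : ℝ → ℝ}
    (h : ∀ s, x ≤ s → s ≤ y → |φ s| ≤ B) (ps : List ℕ) :
    |∑ p ∈ (cellP l x y).filter (fun p => p ∉ ps), lg l p / p * φ (lg l p)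
      - ∑ p ∈ cellP l x y, lg l p / p * φ (lg l p)| ≤ ps.length / l * B := by
  rw [← sum_filter_add_sum_filter_not (cellP l x y) (fun p => p ∈ ps), sub_add_cancel_right,
    abs_neg]
  refine (abs_sum_le_sum_abs _ _).trans ?_
  have h1 : ∀ p ∈ (cellP l x y).filter (fun p => p ∈ ps),
      |lg l p / p * φ (lg l p)| ≤ 1 / l * B := by
    intro p hp
    have h2 := (mem_cellP hl hy).1 (mem_filter.1 hp).1
    rw [abs_mul, abs_of_nonneg (box_lg_nonneg hl p)]
    exact mul_le_mul (box_lg_le hl p) (h _ h2.2.1 h2.2.2.le) (abs_nonneg _) (by positivity)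
  refine (sum_le_card_nsmul _ _ _ h1).trans ?_
  have h3 : ((cellP l x y).filter (fun p => p ∈ ps)).card ≤ ps.length :=
    (card_le_card fun p hp => List.mem_toFinset.2 (mem_filter.1 hp).2).trans ps.toFinset_card_le
  have h4 : (((cellP l x y).filter (fun p => p ∈ ps)).card : ℝ) ≤ ps.length := by
    exact_mod_cast h3
  rw [nsmul_eq_mul]
  calc _ ≤ (ps.length : ℝ) * (1 / l * B) := mul_le_mul_of_nonneg_right h4 (by positivity)
    _ = _ := by ring

theorem box_abs (Cs : List (Finset ℕ)) {F G H : List ℕ → ℝ}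
    (h : ∀ ps, Val Cs ps → |F ps - G ps| ≤ H ps) : |TS Cs F - TS Cs G| ≤ TS Cs H := by
  have h1 : TS Cs F ≤ TS Cs G + TS Cs H := by
    rw [← TS_add]
    exact TS_mono _ fun ps hp => by linarith [(abs_le.1 (h ps hp)).2]
  have h2 : TS Cs G ≤ TS Cs F + TS Cs H := by
    rw [← TS_add]
    exact TS_mono _ fun ps hp => by linarith [(abs_le.1 (h ps hp)).1]
  rw [abs_le]
  constructor <;> linarith

/-- Sums over a box of primes against the iterated integral. -/
theorem box_approx (k : ℕ) {e : ℝ} (he : 0 < e) :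
    ∀ᶠ l : ℝ in atTop, ∀ (η w B : ℝ) (as : List ℕ) (Φ : List ℝ → ℝ), 0 ≤ η → η ≤ w →
      as.length = k → (∀ a ∈ as, ((a : ℝ) + 1) * w ≤ 1) → LipL k B Φ →
      |TS (as.map (cellW l η w)) (fun ps => aws l ps * Φ (ps.map (lg l))) - BI w as Φ|
        ≤ 2 ^ k * (e + η) * B := by
  induction k with
  | zero =>
    refine Eventually.of_forall fun l η w B as Φ h0 _ hk _ hΦ => ?_
    have hB := box_B_nonneg hΦ
    rw [List.length_eq_zero_iff] at hk
    subst hk
    simp only [List.map_nil, TS, BI, aws, List.prod_nil, one_mul, sub_self, abs_zero]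
    positivity
  | succ k ih =>
    filter_upwards [ih, cell_test (half_pos he), box_mass, eventually_gt_atTop (0 : ℝ),
      eventually_ge_atTop (2 * k / e)] with l ih hc hm hl hlk η w B as Φ h0 hw hk has hΦ
    have hB := box_B_nonneg hΦ
    have hkl : (k : ℝ) / l ≤ e / 2 := by
      rw [div_le_iff₀ he] at hlk
      rw [div_le_iff₀ hl]
      linarith
    cases as with
    | nil => simp at hk
    | cons a as =>
      have hk' : as.length = k := by simpa using hk
      have ha := has a (by simp)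
      have has' : ∀ b ∈ as, ((b : ℝ) + 1) * w ≤ 1 := fun b hb => has b (by simp [hb])
      obtain ⟨c1, c2, c3, c4⟩ := box_cell_le h0 hw a
      have h1 := ih η w B as _ h0 hw hk' has' (box_lip_int hΦ c1 (c2.trans c3) ha)
      have h2 := hm η w as h0 hw has'
      rw [hk'] at h2
      have h3 := box_abs (as.map (cellW l η w))
        (F := fun ps => ∑ p ∈ (cellW l η w a).filter (fun p => p ∉ ps),
          aws l (p :: ps) * Φ ((p :: ps).map (lg l)))
        (G := fun ps => aws l ps *
          ∫ t in ((a : ℝ) * w)..(((a : ℝ) + 1) * w), Φ (t :: ps.map (lg l)))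
        (H := fun ps => (e + η) * B * aws l ps) fun ps hp => by
          have hin := box_val hl has' hp.1
          rw [hk'] at hin
          have hlen : ps.length = k := by simpa using hin.1
          have hb : ∀ s, (a : ℝ) * w ≤ s → s ≤ ((a : ℝ) + 1) * w →
              |Φ (s :: ps.map (lg l))| ≤ B := fun s h1 h2 =>
            (hΦ _ (box_in_cons hin (c1.trans h1) (h2.trans ha))).1
          have g1 := hc (max (a * w) η) ((a + 1) * w) B (fun t => Φ (t :: ps.map (lg l)))
            (c1.trans c2) c3 (by linarith) (fun s h1 h2 => hb s (c2.trans h1) h2)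
            (fun s t h1 h2 h3 h4 => box_slice hΦ hin (by linarith) (by linarith) (by linarith)
              (by linarith))
          have g2 := box_removed (x := max (a * w) η) (y := (a + 1) * w) hl (by linarith) hB
            (φ := fun t => Φ (t :: ps.map (lg l))) (fun s h1 h2 => hb s (c2.trans h1) h2) ps
          have g3 := box_int_le (f := fun t => Φ (t :: ps.map (lg l))) c2
            (fun s h1 h2 => hb s h1 (h2.trans c3))
          have g4 := intervalIntegral.integral_add_adjacent_intervals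
            (box_intable hΦ hin c1 c2 (c3.trans ha)) (box_intable hΦ hin (c1.trans c2) c3 ha)
          have g5 : ∑ p ∈ (cellW l η w a).filter (fun p => p ∉ ps),
              aws l (p :: ps) * Φ ((p :: ps).map (lg l))
              = aws l ps * ∑ p ∈ (cellP l (max (a * w) η) ((a + 1) * w)).filter (fun p => p ∉ ps),
                lg l p / p * Φ (lg l p :: ps.map (lg l)) := by
            rw [cellW, mul_sum]
            refine sum_congr rfl fun p _ => ?_
            rw [box_aws_cons, List.map_cons]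
            ring
          rw [g5, ← mul_sub, abs_mul, abs_of_nonneg (aws_nonneg hl ps), mul_comm]
          refine mul_le_mul_of_nonneg_right ?_ (aws_nonneg hl ps)
          rw [hlen] at g2
          have g6 := mul_le_mul_of_nonneg_right hkl hB
          have g7 : B * (max ((a : ℝ) * w) η - a * w) ≤ B * η :=
            mul_le_mul_of_nonneg_left (by linarith) hB
          rw [← g4]
          rw [abs_le] at g1 g2 g3 ⊢
          constructor <;> linarith [g1.1, g1.2, g2.1, g2.2, g3.1, g3.2]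
      rw [TS_mul] at h3
      have h4 := mul_le_mul_of_nonneg_left h2 (by positivity : 0 ≤ (e + η) * B)
      rw [List.map_cons, TS, BI, pow_succ]
      rw [abs_le] at h1 h3 ⊢
      constructor <;> linarith [h1.1, h1.2, h3.1, h3.2]

end Pool.Agent.P.MP_dddec0_nt.L33
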