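import Pool.Agent.P.MP_dddec0_nt.L33Ev
import Pool.Agent.P.MP_dddec0_nt.L33Box

namespace Pool.Agent.P.MP_dddec0_nt.L33
open Finset Real Filter Pool.Agent.Lib.Tup

/-- The majorant of `1 / Wt` on a box. -/
noncomputable def vq (s w N0 N1 : ℝ) (k σ : ℕ) (τ : ℝ) : ℝ :=
  (s - τ) * ((τ - σ * w) / N0 + ((σ + k) * w - τ) / N1) / (k * w)

/-- Hint: with `λ = (τ - σ w) / (k w) ∈ [0, 1]`,
`(λ / N0 + (1 - λ) / N1) * (λ N0 + (1 - λ) N1) ≥ 1`, so `vq * Wt ≥ 1` and `vq > 0`; then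
`2 A G - A ^ 2 V ≤ G ^ 2 / V` with `V = P * vq`. -/
theorem pt_le {s w N0 N1 : ℝ} {J k σ : ℕ} (hs : 4 ≤ s) (hw : 0 < w) (hk : 1 ≤ k)
    (h3 : ((σ : ℝ) + k) * w ≤ 3) (hN : CondN s J w k σ N0 N1) {τ P : ℝ} (h0 : σ * w ≤ τ)
    (h1 : τ ≤ (σ + k) * w) (hP : 0 < P) (A G : ℝ) :
    2 * A * G - A ^ 2 * (P * vq s w N0 N1 k σ τ) ≤ G ^ 2 / P * Wt s J τ := by
  obtain ⟨n0, n1, hN⟩ := hN
  have hk' : (1 : ℝ) ≤ k := by exact_mod_cast hk
  have hK : 0 < (k : ℝ) * w := by positivity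
  have h2 := hN τ h0 h1
  obtain ⟨a, ha⟩ : ∃ a, a = τ - σ * w := ⟨_, rfl⟩
  obtain ⟨b, hb⟩ : ∃ b, b = ((σ : ℝ) + k) * w - τ := ⟨_, rfl⟩
  have hab : a + b = k * w := by rw [ha, hb]; ring
  have a0 : 0 ≤ a := by linarith
  have b0 : 0 ≤ b := by linarith
  have hd : 0 < s - τ := by linarith
  have hv : vq s w N0 N1 k σ τ = (s - τ) * (a / N0 + b / N1) / (k * w) := by rw [ha, hb, vq]
  rw [← ha, ← hb] at h2
  have hX0 : 0 ≤ a / N0 + b / N1 := by positivity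
  have hC : ((k : ℝ) * w) ^ 2 ≤ (a / N0 + b / N1) * (N0 * a + N1 * b) := by
    have e : (a / N0 + b / N1) * (N0 * a + N1 * b) =
        (a + b) ^ 2 + a * b * ((N1 - N0) ^ 2 / (N0 * N1)) := by
      field_simp
      ring
    rw [e, hab]
    have : 0 ≤ a * b * ((N1 - N0) ^ 2 / (N0 * N1)) := by positivity
    linarith
  have hX : 0 < a / N0 + b / N1 := by
    refine hX0.lt_of_ne fun h => ?_
    rw [← h, zero_mul] at hC
    exact absurd hC (not_le.2 (by positivity))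
  have hv0 : 0 < vq s w N0 N1 k σ τ := by rw [hv]; positivity
  have hvw : 1 ≤ vq s w N0 N1 k σ τ * Wt s J τ := by
    have h4 := hC.trans (mul_le_mul_of_nonneg_left h2 hX0)
    rw [hv, div_mul_eq_mul_div, le_div_iff₀ hK, one_mul]
    refine le_of_mul_le_mul_left ?_ hK
    calc k * w * (k * w) = ((k : ℝ) * w) ^ 2 := by ring
      _ ≤ _ := h4
      _ = _ := by ring
  generalize vq s w N0 N1 k σ τ = v at hv0 hvw
  have h5 : 2 * A * G - A ^ 2 * (P * v) ≤ G ^ 2 / P * v⁻¹ := by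
    have e : G ^ 2 / P * v⁻¹ - (2 * A * G - A ^ 2 * (P * v)) = (G - A * (P * v)) ^ 2 / (P * v) := by
      field_simp
      ring
    have : 0 ≤ (G - A * (P * v)) ^ 2 / (P * v) := by positivity
    linarith
  refine h5.trans (mul_le_mul_of_nonneg_left ?_ (by positivity))
  rw [inv_le_iff_one_le_mul₀' hv0]
  exact hvw

theorem vq_quad_Cell (s w N0 N1 : ℝ) (k σ : ℕ) : vq s w N0 N1 k σ = fun x =>
    (-(s * (σ * w)) / N0 + s * ((σ + k) * w) / N1) / (k * w) +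
      ((s + σ * w) / N0 - (s + (σ + k) * w) / N1) / (k * w) * x +
      (-1 / N0 + 1 / N1) / (k * w) * x ^ 2 := by
  funext x
  rw [vq]
  ring

theorem quad_lip_Cell (c0 c1 c2 : ℝ) : ∃ B : ℝ, (∀ u, 0 ≤ u → u ≤ 5 →
    |c0 + c1 * u + c2 * u ^ 2| ≤ B) ∧ ∀ u v, 0 ≤ u → u ≤ 5 → 0 ≤ v → v ≤ 5 →
      |c0 + c1 * u + c2 * u ^ 2 - (c0 + c1 * v + c2 * v ^ 2)| ≤ B * |u - v| := by
  have h0 := abs_nonneg c0
  have h1 := abs_nonneg c1
  have h2 := abs_nonneg c2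
  refine ⟨|c0| + 5 * |c1| + 25 * |c2|, fun u u0 u5 => ?_, fun u v u0 u5 v0 v5 => ?_⟩
  · have a1 : |c1 * u| ≤ |c1| * 5 := by
      rw [abs_mul, abs_of_nonneg u0]
      exact mul_le_mul_of_nonneg_left u5 h1
    have a2 : |c2 * u ^ 2| ≤ |c2| * 25 := by
      rw [abs_mul, abs_of_nonneg (sq_nonneg u)]
      exact mul_le_mul_of_nonneg_left (by nlinarith) h2
    linarith [abs_add_three c0 (c1 * u) (c2 * u ^ 2)]
  · have e : c0 + c1 * u + c2 * u ^ 2 - (c0 + c1 * v + c2 * v ^ 2) =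
        (c1 + c2 * (u + v)) * (u - v) := by ring
    rw [e, abs_mul]
    refine mul_le_mul_of_nonneg_right ?_ (abs_nonneg _)
    have a2 : |c2 * (u + v)| ≤ |c2| * 10 := by
      rw [abs_mul, abs_of_nonneg (add_nonneg u0 v0)]
      exact mul_le_mul_of_nonneg_left (by linarith) h2
    linarith [abs_add_le c1 (c2 * (u + v))]

theorem aws_eq_Cell (l : ℝ) (ps : List ℕ) : aws l ps = (ps.map (lg l)).prod / (ps.prod : ℕ) := by
  unfold aws
  induction ps with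
  | nil => simp
  | cons p ps ih =>
    rw [List.map_cons, List.map_cons, List.prod_cons, List.prod_cons, List.prod_cons, ih,
      Nat.cast_mul, div_mul_div_comm]

theorem cell_val_Cell {l η w : ℝ} (hl : 0 < l) (hη : 0 < η) (as : List ℕ)
    (ha : ∀ a ∈ as, ((a : ℝ) + 1) * w ≤ 1) (ps : List ℕ)
    (hp : List.Forall₂ (fun p C => p ∈ C) ps (as.map (cellW l η w))) :
    0 < (ps.map (lg l)).prod ∧ (as.sum : ℕ) * w ≤ (ps.map (lg l)).sum ∧
      (ps.map (lg l)).sum ≤ ((as.sum : ℕ) + (as.length : ℕ)) * w := by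
  induction as generalizing ps with
  | nil =>
    rw [List.map_nil, List.forall₂_nil_right_iff] at hp
    subst hp
    simp
  | cons a as ih =>
    rw [List.map_cons, List.forall₂_cons_right_iff] at hp
    obtain ⟨p, ps, h1, h2, rfl⟩ := hp
    obtain ⟨b1, b2, b3⟩ := ih (fun a h => ha a (List.mem_cons_of_mem _ h)) ps h2
    obtain ⟨-, c1, c2⟩ := (mem_cellP hl ((ha a List.mem_cons_self).trans (by norm_num))).1 h1
    have c3 := (le_max_left _ _).trans c1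
    have c4 := hη.trans_le ((le_max_right _ _).trans c1)
    simp only [List.map_cons, List.prod_cons, List.sum_cons, List.length_cons, Nat.cast_add,
      Nat.cast_one]
    exact ⟨mul_pos c4 b1, by linarith, by linarith⟩

/-- Hint: `vq` is a quadratic polynomial in `τ`, `BI_evV`. -/
theorem BI_vq (s w N0 N1 : ℝ) (as : List ℕ) :
    BI w as (fun ts => evV (vq s w N0 N1 as.length as.sum) ts 0) = Vbox s w N0 N1 as := by
  rw [vq_quad_Cell, BI_evV, Vbox]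
  ring

theorem vq_lip (s w N0 N1 : ℝ) (k σ : ℕ) : ∃ B : ℝ, (∀ u, 0 ≤ u → u ≤ 5 →
    |vq s w N0 N1 k σ u| ≤ B) ∧ ∀ u v, 0 ≤ u → u ≤ 5 → 0 ≤ v → v ≤ 5 →
      |vq s w N0 N1 k σ u - vq s w N0 N1 k σ v| ≤ B * |u - v| := by
  rw [vq_quad_Cell]
  exact quad_lip_Cell _ _ _

/-- One box. Hint: `A = (w ^ k * Lf w as g 0) / Vbox`; for a valid tuple `ps` the sizes `ts` are
positive, `as.sum * w ≤ ts.sum ≤ (as.sum + k) * w`, `1 / ps.prod = aws l ps / ts.prod`; `pt_le`,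
`evV_eq`, `TS_mono`, `TS_add`, `TS_mul`, `box_approx` for `evG g` and for `evV vq` (`ev_lip`),
`BI_evG`, `BI_vq`, and `2 (x / V) x - (x / V) ^ 2 V = x ^ 2 / V` (also for `V = 0`). -/
theorem box_ge {s w N0 N1 B : ℝ} {J : ℕ} (hs : 4 ≤ s) (hw : 0 < w) (as : List ℕ)
    (hk : 1 ≤ as.length) (hk5 : as.length ≤ 5) (ha : ∀ a ∈ as, ((a : ℝ) + 1) * w ≤ 1)
    (h3 : ((as.sum : ℝ) + as.length) * w ≤ 3) (hN : CondN s J w as.length as.sum N0 N1)
    {g : ℝ → ℝ} (hc : Continuous g) (hg : ∀ u v, |g u| ≤ B ∧ |g u - g v| ≤ B * |u - v|)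
    {ε : ℝ} (hε : 0 < ε) :
    ∃ η1 : ℝ, 0 < η1 ∧ ∀ η : ℝ, 0 < η → η ≤ η1 → ∀ᶠ l : ℝ in atTop,
      bx s w N0 N1 g as - ε ≤ TS (as.map (cellW l η w)) (fun ps =>
        evG g (ps.map (lg l)) 0 ^ 2 / (ps.prod : ℕ) * Wt s J (ps.map (lg l)).sum) := by
  obtain ⟨B', hB1, hB2⟩ := vq_lip s w N0 N1 as.length as.sum
  have L1 : LipL as.length (3 ^ as.length * B) (fun ts => evG g ts 0) :=
    ev_lip (by simp) (fun t _ _ => by simp) (fun s t => by simp) (fun u _ _ => (hg u u).1)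
      (fun u v _ _ _ _ => (hg u v).2) hk5
  have L2 : LipL as.length (3 ^ as.length * B')
      (fun ts => evV (vq s w N0 N1 as.length as.sum) ts 0) :=
    ev_lip (by simp) (fun t h0 h1 => by rwa [abs_of_nonneg h0]) (fun s t => le_rfl) hB1 hB2 hk5
  have B0 : 0 ≤ B := (abs_nonneg _).trans (hg 0 0).1
  have B1 : 0 ≤ B' := (abs_nonneg _).trans (hB1 0 le_rfl (by norm_num))
  obtain ⟨x, hx⟩ : ∃ x, x = w ^ as.length * Lf w as g 0 := ⟨_, rfl⟩
  obtain ⟨V, hV⟩ : ∃ V, V = Vbox s w N0 N1 as := ⟨_, rfl⟩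
  obtain ⟨A, hA⟩ : ∃ A, A = x / V := ⟨_, rfl⟩
  obtain ⟨M1, hM1⟩ : ∃ M1 : ℝ, M1 = 2 ^ as.length * (3 ^ as.length * B) := ⟨_, rfl⟩
  obtain ⟨M2, hM2⟩ : ∃ M2 : ℝ, M2 = 2 ^ as.length * (3 ^ as.length * B') := ⟨_, rfl⟩
  have m1 : 0 ≤ M1 := by rw [hM1]; positivity
  have m2 : 0 ≤ M2 := by rw [hM2]; positivity
  obtain ⟨M, hM⟩ : ∃ M : ℝ, M = 2 * |A| * M1 + A ^ 2 * M2 := ⟨_, rfl⟩
  have m0 : 0 ≤ M := by rw [hM]; positivity
  obtain ⟨e, he⟩ : ∃ e : ℝ, e = ε / (2 * (M + 1)) := ⟨_, rfl⟩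
  have e0 : 0 < e := by rw [he]; positivity
  have e1 : 2 * e * (M + 1) = ε := by rw [he]; field_simp
  have hbx : bx s w N0 N1 g as = 2 * A * x - A ^ 2 * V := by
    rw [bx, ← hx, ← hV, hA]
    by_cases h : V = 0
    · simp [h]
    · field_simp
      ring
  refine ⟨min w e, lt_min hw e0, fun η hη hη1 => ?_⟩
  have η1 : η ≤ w := hη1.trans (min_le_left _ _)
  have η2 : η ≤ e := hη1.trans (min_le_right _ _)
  filter_upwards [box_approx as.length e0, eventually_gt_atTop 0] with l hl l0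
  have a1 := hl η w _ as _ hη.le η1 rfl ha L1
  have a2 := hl η w _ as _ hη.le η1 rfl ha L2
  rw [BI_evG hw as hc, ← hx, mul_right_comm, ← hM1] at a1
  rw [BI_vq, ← hV, mul_right_comm, ← hM2] at a2
  have a3 : TS (as.map (cellW l η w)) (fun ps => 2 * A * (aws l ps * evG g (ps.map (lg l)) 0) +
      -A ^ 2 * (aws l ps * evV (vq s w N0 N1 as.length as.sum) (ps.map (lg l)) 0)) ≤
      TS (as.map (cellW l η w)) (fun ps =>
        evG g (ps.map (lg l)) 0 ^ 2 / (ps.prod : ℕ) * Wt s J (ps.map (lg l)).sum) := by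
    refine TS_mono _ fun ps hp => ?_
    obtain ⟨b1, b2, b3⟩ := cell_val_Cell l0 hη as ha ps hp.1
    have b4 := mul_le_mul_of_nonneg_left
      (pt_le hs hw hk h3 hN b2 b3 b1 A (evG g (ps.map (lg l)) 0)) (aws_nonneg l0 ps)
    rw [evV_eq, zero_add]
    refine le_of_eq_of_le (by ring) (b4.trans_eq ?_)
    rw [aws_eq_Cell]
    field_simp
  rw [TS_add, TS_mul, TS_mul] at a3
  refine le_trans ?_ a3
  rw [hbx]
  generalize TS (as.map (cellW l η w)) (fun ps => aws l ps * evG g (ps.map (lg l)) 0) = T1 at a1 ⊢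
  generalize TS (as.map (cellW l η w)) (fun ps => aws l ps *
    evV (vq s w N0 N1 as.length as.sum) (ps.map (lg l)) 0) = T2 at a2 ⊢
  have c1 : |A * (T1 - x)| ≤ |A| * (M1 * (2 * e)) := by
    rw [abs_mul]
    exact mul_le_mul_of_nonneg_left (a1.trans (mul_le_mul_of_nonneg_left (by linarith) m1))
      (abs_nonneg _)
  have c2 : A ^ 2 * (T2 - V) ≤ A ^ 2 * (M2 * (2 * e)) :=
    mul_le_mul_of_nonneg_left ((le_abs_self _).trans
      (a2.trans (mul_le_mul_of_nonneg_left (by linarith) m2))) (sq_nonneg _)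
  have c3 := (abs_le.1 c1).1
  have c4 : 2 * (|A| * (M1 * (2 * e))) + A ^ 2 * (M2 * (2 * e)) = 2 * e * M := by rw [hM]; ring
  nlinarith

end Pool.Agent.P.MP_dddec0_nt.L33
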