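import Pool.Agent.P.MP_dddec0_nt.L33CertK

namespace Pool.Agent.P.MP_dddec0_nt.L33
open Finset Real

theorem sT_eq (n : ℕ) (f : ℕ → ℕ) : sT n f = ∑ i ∈ range n, f i := by
  induction n with
  | zero => rfl
  | succ n ih => rw [sum_range_succ, ← ih]; rfl

theorem force_eq (x : ℕ) (f : ℕ → ℕ) : force x f = f x := by cases x <;> rfl

theorem allTo_iff (n : ℕ) (p : ℕ → Bool) : allTo n p = true ↔ ∀ i < n, p i = true := by
  induction n with
  | zero => exact ⟨fun _ i hi => absurd hi (Nat.not_lt_zero i), fun _ => rfl⟩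
  | succ n ih =>
    have e : allTo (n + 1) p = cond (allTo n p) (p n) false := rfl
    rw [e, Nat.forall_lt_succ_right, ← ih]
    cases allTo n p <;> simp

theorem dg_eq (x w i : ℕ) : dg x w i = x / 2 ^ (w * i) % 2 ^ w := by
  rw [← Nat.shiftRight_eq_div_pow]
  rfl

theorem d8_lt (x i : ℕ) : d8 x i < 256 := Nat.mod_lt _ (by norm_num)

def blk (σ : ℕ) : ℕ := if σ ≤ 39 then 0 else if σ ≤ 49 then 1 else 2

noncomputable section

/-- The first lift. -/
def Fr (a b c : ℕ) : ℝ := if a < 60 ∧ b < 60 ∧ c < 60 then (raw a b c : ℝ) - 21 else 0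

def Tr (b c : ℕ) : ℝ := ∑ a ∈ range 60, Fr a b c

def Gr (s c : ℕ) : ℝ := (psi s c : ℝ) / 820

/-- The second lift. -/
def Fr' (a b c : ℕ) : ℝ := if a + b ≤ 58 then Gr (blk (a + b)) c else 0

end

theorem certA_idx (a b : ℕ) : idx a b = idx b a := by
  simp only [idx, min_comm a b, max_comm a b, add_comm a b]

theorem certA_kS {x c : ℕ} (hx : x < 901) (h : lenX x ≤ c) (hc : c < 60) :
    d8 (tcol c) x = 21 := by
  have g := (allTo_iff _ _).1 ((allTo_iff _ _).1 kS x hx) (59 - c) (by omega)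
  rw [force_eq, show 59 - (59 - c) = c by omega] at g
  exact Nat.eq_of_beq_eq_true g

theorem certA_kx {x : ℕ} (hx : x < 900) :
    idx (xa x) (xb x) = x ∧ xa x ≤ xb x ∧ xa x + xb x ≤ 58 :=
  of_decide_eq_true ((allTo_iff _ _).1 kx x hx)

theorem certA_ky {a b : ℕ} (h : a + b ≤ 58) :
    idx a b < 900 ∧ xa (idx a b) = min a b ∧ xb (idx a b) = max a b :=
  of_decide_eq_true ((allTo_iff _ _).1 ((allTo_iff _ _).1 ky a (by omega)) b (by omega))

theorem Fr_symm (a b c : ℕ) : Fr a b c = Fr b a c := by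
  simp only [Fr, raw, certA_idx a b, and_left_comm]

/-- Hint: `kS`. -/
theorem col_last {x : ℕ} (hx : x < 900) : d8 (tcol 59) x = 21 := by
  refine certA_kS (by omega) ?_ (by omega)
  unfold lenX
  split_ifs
  exact min_le_left _ _

/-- Hint: `kx`. -/
theorem Fr_x {x c : ℕ} (hx : x < 900) (hc : c < 60) :
    Fr (xa x) (xb x) c = (d8 (tcol c) x : ℝ) - 21 := by
  obtain ⟨h1, h2, h3⟩ := certA_kx hx
  rw [Fr, if_pos ⟨by omega, by omega, hc⟩, raw, h1]

/-- Hint: `kS`, `ky`. -/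
theorem Fr_supp {a b c : ℕ} (h : Fr a b c ≠ 0) : a + b ≤ 58 ∧ a + b + c ≤ 97 := by
  unfold Fr at h
  split_ifs at h with h1
  swap
  · exact absurd rfl h
  have h2 : ¬ (idx a b < 901 ∧ lenX (idx a b) ≤ c) := fun g => h (by
    rw [raw, certA_kS g.1 g.2 h1.2.2]
    norm_num)
  by_cases hab : a + b ≤ 58
  · obtain ⟨g1, g2, g3⟩ := certA_ky hab
    rw [lenX, if_pos g1, g2, g3] at h2
    omega
  · rw [idx, if_neg hab] at h2
    exact absurd ⟨by norm_num, Nat.zero_le c⟩ h2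

theorem certA_Tr {b c : ℕ} (hb : b < 60) (hc : c < 60) : Tr b c = (tN b c : ℝ) - 1260 := by
  have e : ∀ a ∈ range 60, Fr a b c = (raw a b c : ℝ) - 21 := fun a ha =>
    if_pos ⟨mem_range.1 ha, hb, hc⟩
  rw [Tr, tN, sT_eq, sum_congr rfl e, sum_sub_distrib]
  push_cast
  norm_num

theorem certA_Tr0 {b c : ℕ} (h : ¬ (b < 60 ∧ c < 60)) : Tr b c = 0 :=
  sum_eq_zero fun _ _ => if_neg fun g => h g.2

theorem certA_kT : chkT = true ∧ chkU = true ∧ 20300422825 ≤ TTn := by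
  have h := kT
  rw [Bool.and_eq_true, Bool.and_eq_true, Nat.ble_eq] at h
  exact ⟨h.1.1, h.1.2, h.2⟩

theorem certA_kT' {b c : ℕ} (hb : b < 60) (hc : c < 60) :
    tN b c = tN c b ∧ (b + c ≤ 74 ∨ tN b c = 1260) := by
  have h := (allTo_iff _ _).1 ((allTo_iff _ _).1 certA_kT.1 b hb) c hc
  rwa [Bool.and_eq_true, Bool.or_eq_true, beq_iff_eq, beq_iff_eq, decide_eq_true_eq] at h

/-- Hint: `kT`; for `b, c < 60`, `Tr b c = tN b c - 1260`, otherwise `Tr b c = 0`. -/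
theorem Tr_symm (b c : ℕ) : Tr b c = Tr c b := by
  by_cases h : b < 60 ∧ c < 60
  · rw [certA_Tr h.1 h.2, certA_Tr h.2 h.1, (certA_kT' h.1 h.2).1]
  · rw [certA_Tr0 h, certA_Tr0 fun g => h g.symm]

theorem Tr_supp (a b : ℕ) (h : Tr a b ≠ 0) : a + b + 2 ≤ 60 + 16 := by
  by_cases g : a < 60 ∧ b < 60
  · rcases (certA_kT' g.1 g.2).2 with g1 | g1
    · omega
    · rw [certA_Tr g.1 g.2, g1] at h
      exact absurd (by norm_num) h
  · exact absurd (certA_Tr0 g) h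

theorem certA_psi {s n c : ℕ} (h : tp s < 2 ^ (20 * n)) (hc : Gr s c ≠ 0) : c < n := by
  by_contra g
  refine hc ?_
  rw [Gr, psi, dg_eq, Nat.div_eq_of_lt (h.trans_le (Nat.pow_le_pow_right (by norm_num) (by omega))),
    Nat.zero_mod, Nat.cast_zero, zero_div]

/-- Hint: `ktp`, `dg_eq`. -/
theorem Fr'_supp {a b c : ℕ} (h : Fr' a b c ≠ 0) : a + b ≤ 58 ∧ a + b + c ≤ 97 := by
  unfold Fr' at h
  split_ifs at h with h1
  swap
  · exact absurd rfl h
  refine ⟨h1, ?_⟩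
  unfold blk at h
  split_ifs at h with h2 h3
  · have := certA_psi ktp.1 h
    omega
  · have := certA_psi ktp.2.1 h
    omega
  · have := certA_psi ktp.2.2 h
    omega

theorem certA_cnt : ∀ s < 3, (∑ a ∈ range 60, ∑ b ∈ range 60,
    if a + b ≤ 58 ∧ blk (a + b) = s then 1 else 0) = mu s := by
  decide +kernel

/-- Hint: write `Φ (blk σ) = ∑ s < 3, if blk σ = s then Φ s else 0` and count by
`decide +kernel`. -/
theorem sum_blk (Φ : ℕ → ℝ) :
    ∑ a ∈ range 60, ∑ b ∈ range 60, (if a + b ≤ 58 then Φ (blk (a + b)) else 0)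
      = 820 * Φ 0 + 455 * Φ 1 + 495 * Φ 2 := by
  have e : ∀ a b : ℕ, (if a + b ≤ 58 then Φ (blk (a + b)) else 0) = ∑ s ∈ range 3,
      ((if a + b ≤ 58 ∧ blk (a + b) = s then 1 else 0 : ℕ) : ℝ) * Φ s := by
    intro a b
    by_cases h : a + b ≤ 58
    · have h3 : blk (a + b) < 3 := by
        unfold blk
        split_ifs <;> simp
      simp [h, sum_ite_eq, h3]
    · simp [h]
  have e2 : ∀ s ∈ range 3, ∑ a ∈ range 60, ∑ b ∈ range 60,
      ((if a + b ≤ 58 ∧ blk (a + b) = s then 1 else 0 : ℕ) : ℝ) * Φ s = (mu s : ℝ) * Φ s := by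
    intro s hs
    rw [← certA_cnt s (mem_range.1 hs), Nat.cast_sum, sum_mul]
    refine sum_congr rfl fun a _ => ?_
    rw [Nat.cast_sum, sum_mul]
  rw [sum_congr rfl fun a _ => (sum_congr rfl fun b _ => e a b).trans sum_comm, sum_comm,
    sum_congr rfl e2]
  simp [sum_range_succ, mu]

theorem marg' (c : ℕ) (hc : c < 60) :
    ∑ a ∈ range 60, ∑ b ∈ range 60, Fr' a b c = ∑ b ∈ range 60, Tr b c := by
  have h := (allTo_iff _ _).1 certA_kT.2.1 c hc
  rw [beq_iff_eq, sT_eq] at h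
  have h' := congrArg (Nat.cast : ℕ → ℝ) h
  rw [sum_congr rfl fun b hb => certA_Tr (mem_range.1 hb) hc, sum_sub_distrib, ← Nat.cast_sum]
  refine (sum_blk fun s => Gr s c).trans ?_
  unfold Gr
  generalize ∑ b ∈ range 60, tN b c = T at h' ⊢
  generalize psi 0 c = p0 at h' ⊢
  generalize psi 1 c = p1 at h' ⊢
  generalize psi 2 c = p2 at h' ⊢
  push_cast at h'
  rw [sum_const, card_range, nsmul_eq_mul]
  push_cast
  linarith

theorem TT_ge : (20300422825 : ℝ) ≤ ∑ a ∈ range 60, ∑ b ∈ range 60,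
    if a + b + 2 + 16 ≤ 60 then Tr a b ^ 2 else 0 := by
  have h : ((20300422825 : ℕ) : ℝ) ≤ TTn := Nat.cast_le.2 certA_kT.2.2
  rw [TTn, sT_eq, Nat.cast_sum, Nat.cast_ofNat] at h
  refine h.trans (sum_le_sum fun a ha => ?_)
  rw [sT_eq, Nat.cast_sum]
  refine sum_le_sum fun b hb => ?_
  split_ifs
  · rw [certA_Tr (mem_range.1 ha) (mem_range.1 hb)]
    generalize tN a b = t
    rcases le_total 1260 t with g | g
    · rw [Nat.cast_pow, Nat.cast_sub g, Nat.cast_ofNat]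
    · rw [Nat.sub_eq_zero_of_le g, zero_pow two_ne_zero, Nat.cast_zero]
      exact sq_nonneg _
  · exact Nat.cast_zero.le

theorem sq3_Fr' : sq3 60 Fr' ≤ 396180585762560 / 820 ^ 2 := by
  have h : (sqP : ℝ) ≤ (396180585762560 : ℕ) := Nat.cast_le.2 (Nat.ble_eq ▸ kP)
  have e : ∀ a b : ℕ, ∑ c ∈ range 60, Fr' a b c ^ 2 = if a + b ≤ 58 then
      ((∑ c ∈ range 60, psi (blk (a + b)) c ^ 2 : ℕ) : ℝ) / 820 ^ 2 else 0 := by
    intro a b
    unfold Fr'
    split_ifs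
    · rw [Nat.cast_sum, sum_div]
      exact sum_congr rfl fun c _ => by rw [Gr, div_pow, Nat.cast_pow]
    · simp
  rw [sq3, sum_congr rfl fun a _ => sum_congr rfl fun b _ => e a b,
    sum_blk fun s => ((∑ c ∈ range 60, psi s c ^ 2 : ℕ) : ℝ) / 820 ^ 2]
  rw [sqP, sT_eq, sum_range_succ, sum_range_succ, sum_range_one, sT_eq, sT_eq, sT_eq] at h
  generalize ∑ c ∈ range 60, psi 0 c ^ 2 = p0 at h ⊢
  generalize ∑ c ∈ range 60, psi 1 c ^ 2 = p1 at h ⊢
  generalize ∑ c ∈ range 60, psi 2 c ^ 2 = p2 at h ⊢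
  have m0 : mu 0 = 820 := rfl
  have m1 : mu 1 = 455 := rfl
  have m2 : mu 2 = 495 := rfl
  rw [m0, m1, m2] at h
  push_cast at h
  linarith

/-- Hint: fibre the pairs with `a + b ≤ 58` over `x = idx a b` (`sum_fiberwise_of_maps_to`, `kx`,
`ky`): the fibre is `{(xa x, xb x), (xb x, xa x)}`. -/
theorem sum_fold (Φ : ℕ → ℕ → ℝ) (hΦ : ∀ a b, Φ a b = Φ b a) :
    ∑ a ∈ range 60, ∑ b ∈ range 60, (if a + b ≤ 58 then Φ a b else 0)
      = ∑ x ∈ range 900, (wx x : ℝ) * Φ (xa x) (xb x) := by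
  generalize hn : 60 = n
  generalize hN : 900 = N
  have hm : ∀ p ∈ (range n ×ˢ range n).filter fun p : ℕ × ℕ => p.1 + p.2 ≤ 58,
      idx p.1 p.2 ∈ range N := fun p hp =>
    mem_range.2 ((certA_ky (mem_filter.1 hp).2).1.trans_eq hN)
  rw [← sum_product', ← sum_filter, ← sum_fiberwise_of_maps_to hm]
  refine sum_congr rfl fun x hx => ?_
  obtain ⟨h1, h2, h3⟩ := certA_kx ((mem_range.1 hx).trans_eq hN.symm)
  have e : ((range n ×ˢ range n).filter fun p : ℕ × ℕ => p.1 + p.2 ≤ 58).filter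
      (fun p => idx p.1 p.2 = x) = {(xa x, xb x), (xb x, xa x)} := by
    ext ⟨a, b⟩
    simp only [mem_filter, mem_product, mem_range, mem_insert, mem_singleton, Prod.mk.injEq]
    constructor
    · rintro ⟨⟨-, g⟩, rfl⟩
      obtain ⟨-, g2, g3⟩ := certA_ky g
      omega
    · rintro (⟨rfl, rfl⟩ | ⟨rfl, rfl⟩)
      · exact ⟨by omega, h1⟩
      · exact ⟨by omega, (certA_idx _ _).trans h1⟩
  rw [e, wx]
  split_ifs with g
  · rw [← g, pair_eq_singleton, sum_singleton, Nat.cast_one, one_mul]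
  · rw [sum_pair fun g' => g (congrArg Prod.fst g'), hΦ (xb x), Nat.cast_ofNat, two_mul]

end Pool.Agent.P.MP_dddec0_nt.L33
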