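import Pool.Agent.P.MP_dddec0_nt.L33Defs

namespace Pool.Agent.P.MP_dddec0_nt.L33
open Finset Real Filter Pool.Agent.Lib.Tup

theorem TS_mono (Cs : List (Finset ℕ)) {Φ Ψ : List ℕ → ℝ} (h : ∀ ps, Val Cs ps → Φ ps ≤ Ψ ps) :
    TS Cs Φ ≤ TS Cs Ψ := by
  induction Cs generalizing Φ Ψ with
  | nil => exact h [] ⟨List.Forall₂.nil, List.nodup_nil⟩
  | cons C Cs ih =>
    exact ih fun ps hps => sum_le_sum fun p hp => h (p :: ps)
      ⟨List.Forall₂.cons (mem_filter.1 hp).1 hps.1, List.nodup_cons.2 ⟨(mem_filter.1 hp).2, hps.2⟩⟩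

theorem TS_congr (Cs : List (Finset ℕ)) {Φ Ψ : List ℕ → ℝ} (h : ∀ ps, Val Cs ps → Φ ps = Ψ ps) :
    TS Cs Φ = TS Cs Ψ :=
  le_antisymm (TS_mono Cs fun ps hp => (h ps hp).le) (TS_mono Cs fun ps hp => (h ps hp).ge)

theorem TS_add (Cs : List (Finset ℕ)) (Φ Ψ : List ℕ → ℝ) :
    TS Cs (fun ps => Φ ps + Ψ ps) = TS Cs Φ + TS Cs Ψ := by
  induction Cs generalizing Φ Ψ with
  | nil => rfl
  | cons C Cs ih => simp only [TS, sum_add_distrib, ih]

theorem TS_mul (Cs : List (Finset ℕ)) (c : ℝ) (Φ : List ℕ → ℝ) :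
    TS Cs (fun ps => c * Φ ps) = c * TS Cs Φ := by
  induction Cs generalizing Φ with
  | nil => rfl
  | cons C Cs ih => simp only [TS, ← mul_sum, ih]

theorem TS_sum {ι : Type*} (Cs : List (Finset ℕ)) (s : Finset ι) (Φ : ι → List ℕ → ℝ) :
    TS Cs (fun ps => ∑ i ∈ s, Φ i ps) = ∑ i ∈ s, TS Cs (Φ i) := by
  induction Cs generalizing Φ with
  | nil => rfl
  | cons C Cs ih =>
    simp only [TS]
    rw [← ih]
    congr 1
    funext ps
    exact sum_comm

theorem L33TS_count (P : Finset ℕ) (k : ℕ) (φ : Finset ℕ → ℝ) :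
    ∑ A ∈ powersetCard k P, ∑ p ∈ P.filter (fun p => p ∉ A), φ (insert p A)
      = ∑ B ∈ powersetCard (k + 1) P, ∑ _p ∈ B, φ B := by
  rw [sum_sigma', sum_sigma']
  refine sum_bij' (fun x _ => (⟨insert x.2 x.1, x.2⟩ : Σ _ : Finset ℕ, ℕ))
    (fun x _ => (⟨x.1.erase x.2, x.2⟩ : Σ _ : Finset ℕ, ℕ)) ?_ ?_ ?_ ?_ fun _ _ => rfl
  · rintro ⟨A, p⟩ h
    simp only [mem_sigma, mem_powersetCard, mem_filter] at h ⊢
    exact ⟨⟨insert_subset h.2.1 h.1.1, by rw [card_insert_of_notMem h.2.2, h.1.2]⟩,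
      mem_insert_self _ _⟩
  · rintro ⟨B, p⟩ h
    simp only [mem_sigma, mem_powersetCard, mem_filter] at h ⊢
    exact ⟨⟨(erase_subset _ _).trans h.1.1, by rw [card_erase_of_mem h.2, h.1.2]; rfl⟩,
      h.1.1 h.2, notMem_erase _ _⟩
  · rintro ⟨A, p⟩ h
    simp only [mem_sigma, mem_powersetCard, mem_filter] at h
    simp only [erase_insert h.2.2]
  · rintro ⟨B, p⟩ h
    simp only [mem_sigma, mem_powersetCard] at h
    simp only [insert_erase h.2]

/-- Hint: induction on `k` generalizing `φ`, double counting of the pairs `(A, p ∈ A)`. -/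
theorem TS_replicate (P : Finset ℕ) (k : ℕ) (φ : Finset ℕ → ℝ) :
    TS (List.replicate k P) (fun ps => φ ps.toFinset)
      = k.factorial * ∑ A ∈ powersetCard k P, φ A := by
  induction k generalizing φ with
  | zero => simp [TS]
  | succ k ih =>
    have h := ih fun A => ∑ p ∈ P.filter (fun p => p ∉ A), φ (insert p A)
    simp only [List.mem_toFinset] at h
    simp only [List.replicate_succ, TS, List.toFinset_cons]
    rw [h, L33TS_count, sum_congr rfl fun B hB => by
      rw [sum_const, (mem_powersetCard.1 hB).2, nsmul_eq_mul], ← mul_sum, Nat.factorial_succ]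
    push_cast
    ring

theorem L33TS_SL_sum {ι : Type*} (m k : ℕ) (s : Finset ι) (f : ι → List ℕ → ℝ) :
    SL m k (fun as => ∑ i ∈ s, f i as) = ∑ i ∈ s, SL m k (f i) := by
  induction k generalizing f with
  | zero => rfl
  | succ k ih =>
    simp only [SL, ih]
    exact sum_comm

theorem TS_part (m : ℕ) (C : ℕ → Finset ℕ) (hC : ∀ a b, a ≠ b → Disjoint (C a) (C b)) (k : ℕ)
    (Φ : List ℕ → ℝ) :
    TS (List.replicate k ((range m).biUnion C)) Φ = SL m k (fun as => TS (as.map C) Φ) := by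
  induction k generalizing Φ with
  | zero => rfl
  | succ k ih =>
    simp only [List.replicate_succ, TS, SL, List.map_cons]
    rw [ih, ← L33TS_SL_sum]
    congr 1
    funext as
    rw [← TS_sum]
    congr 1
    funext ps
    rw [filter_biUnion, sum_biUnion fun a _ b _ hab => disjoint_filter_filter (hC a b hab)]

theorem SL_mono (m k : ℕ) {f g : List ℕ → ℝ}
    (h : ∀ as, as.length = k → (∀ a ∈ as, a < m) → f as ≤ g as) : SL m k f ≤ SL m k g := by
  induction k generalizing f g with
  | zero => exact h [] rfl fun a ha => absurd ha List.not_mem_nil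
  | succ k ih =>
    refine sum_le_sum fun a ha => ih fun as h1 h2 => h (a :: as) (by rw [List.length_cons, h1]) ?_
    exact List.forall_mem_cons.2 ⟨mem_range.1 ha, h2⟩

theorem SL_add (m k : ℕ) (f g : List ℕ → ℝ) :
    SL m k (fun as => f as + g as) = SL m k f + SL m k g := by
  induction k generalizing f g with
  | zero => rfl
  | succ k ih => simp only [SL, ih, sum_add_distrib]

theorem SL_mul (m k : ℕ) (c : ℝ) (f : List ℕ → ℝ) :
    SL m k (fun as => c * f as) = c * SL m k f := by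
  induction k generalizing f with
  | zero => rfl
  | succ k ih => simp only [SL, ih, mul_sum]

theorem SL_const (m k : ℕ) (c : ℝ) : SL m k (fun _ => c) = (m : ℝ) ^ k * c := by
  induction k with
  | zero => simp [SL]
  | succ k ih =>
    simp only [SL, ih, sum_const, card_range, nsmul_eq_mul]
    ring

theorem SL_sum {ι : Type*} (m k : ℕ) (s : Finset ι) (f : ι → List ℕ → ℝ) :
    SL m k (fun as => ∑ i ∈ s, f i as) = ∑ i ∈ s, SL m k (f i) := by
  exact L33TS_SL_sum m k s f

/-- A property that holds for large `l` for each list holds for large `l` for all lists. -/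
theorem ev_all_lists (m k : ℕ) {Q : List ℕ → ℝ → Prop}
    (h : ∀ as, as.length = k → (∀ a ∈ as, a < m) → ∀ᶠ l : ℝ in atTop, Q as l) :
    ∀ᶠ l : ℝ in atTop, ∀ as, as.length = k → (∀ a ∈ as, a < m) → Q as l := by
  induction k generalizing Q with
  | zero =>
    filter_upwards [h [] rfl fun a ha => absurd ha List.not_mem_nil] with l hl as h1 _
    rwa [List.length_eq_zero_iff.1 h1]
  | succ k ih =>
    have h1 := (eventually_all_finset (range m)).2 fun a ha =>
      ih (Q := fun as => Q (a :: as)) fun as h1 h2 => h (a :: as) (by rw [List.length_cons, h1])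
        (List.forall_mem_cons.2 ⟨mem_range.1 ha, h2⟩)
    filter_upwards [h1] with l hl as h2 h3
    cases as with
    | nil => cases h2
    | cons a as =>
      obtain ⟨h4, h5⟩ := List.forall_mem_cons.1 h3
      exact hl a (mem_range.2 h4) as (Nat.succ_injective h2) h5

theorem GA_insert (l : ℝ) (g : ℝ → ℝ) {A : Finset ℕ} {p : ℕ} (hp : p ∉ A) (u : ℝ) :
    GA l g (insert p A) u = GA l g A u - GA l g A (u + lg l p) := by
  unfold GA
  rw [sum_powerset_insert hp, sub_eq_add_neg, ← sum_neg_distrib]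
  congr 1
  refine sum_congr rfl fun S hS => ?_
  have h : p ∉ S := fun h => hp (mem_powerset.1 hS h)
  rw [card_insert_of_notMem h, sz, sum_insert h, add_div, ← add_assoc, pow_succ, lg, sz]
  ring

theorem GA_list (l : ℝ) (g : ℝ → ℝ) {ps : List ℕ} (hp : ps.Nodup) (u : ℝ) :
    GA l g ps.toFinset u = evG g (ps.map (lg l)) u := by
  induction ps generalizing u with
  | nil => simp [GA, evG, ev, sz]
  | cons p ps ih =>
    obtain ⟨h1, h2⟩ := List.nodup_cons.1 hp
    rw [List.toFinset_cons, GA_insert l g (fun h => h1 (List.mem_toFinset.1 h)), ih h2, ih h2]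
    simp only [evG, List.map_cons, ev]
    ring

/-- Big primes are not seen. -/
theorem GA_union {l : ℝ} (hl : 0 < l) {g : ℝ → ℝ} (hg : ∀ t, 1 ≤ t → g t = 0) {A B : Finset ℕ}
    (hAB : Disjoint A B) (hB : ∀ p ∈ B, 1 ≤ lg l p) : GA l g (A ∪ B) 0 = GA l g A 0 := by
  induction B using Finset.induction with
  | empty => rw [union_empty]
  | insert p B hp ih =>
    obtain ⟨h1, h2⟩ := disjoint_insert_right.1 hAB
    have h3 : GA l g (A ∪ B) (0 + lg l p) = 0 := by
      refine sum_eq_zero fun S _ => ?_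
      have h4 : 0 ≤ sz S / l := div_nonneg (sum_nonneg fun q _ => log_natCast_nonneg q) hl.le
      rw [hg _ (by linarith [hB p (mem_insert_self _ _)]), mul_zero]
    rw [union_insert, GA_insert l g (fun h => (mem_union.1 h).elim h1 hp), h3, sub_zero,
      ih h2 fun q hq => hB q (mem_insert_of_mem hq)]

end Pool.Agent.P.MP_dddec0_nt.L33
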