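import Pool.Agent.P.MP_dddec0_nt.L33CertD
import Pool.Agent.P.MP_dddec0_nt.L33TS
import Pool.Agent.P.MP_dddec0_nt.L33Big3

namespace Pool.Agent.P.MP_dddec0_nt.L33
open Finset Real

def momN : List ℕ → ℕ × ℕ × ℕ
  | [] => (1, 0, 0)
  | a :: as => ((momN as).1 * u1 a, (momN as).2.1 * u1 a + (momN as).1 * u2 a,
      (momN as).2.2 * u1 a + 2 * (momN as).2.1 * u2 a + (momN as).1 * u3 a)

def mm (k : ℕ) : ℕ := if k ≤ 2 then 60 else if k = 3 then 30 else 15

noncomputable section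

def QK (J m k : ℕ) (g : ℝ → ℝ) : ℝ :=
  Qk (40001 / 10000) m k (fun σ => n0 J m k σ / 10 ^ 9) (fun σ => n1 J m k σ / 10 ^ 9) g

def QQ (R K : ℕ) (g : ℝ → ℝ) : ℝ :=
  Qsh (40001 / 10000) R K mm (fun k σ => n0 (R - k) (mm k) k σ / 10 ^ 9)
    (fun k σ => n1 (R - k) (mm k) k σ / 10 ^ 9) g

end

theorem QQ_three (g : ℝ → ℝ) :
    QQ 3 2 g = g 0 ^ 2 * Wt (40001 / 10000) 3 0 + QK 2 60 1 g + QK 1 60 2 g := by
  unfold QQ Qsh QK
  rw [show Icc 1 2 = ({1, 2} : Finset ℕ) from rfl, sum_pair (by decide), ← add_assoc]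
  rfl

theorem QQ_five (g : ℝ → ℝ) : QQ 5 4 g = g 0 ^ 2 * Wt (40001 / 10000) 5 0 + QK 4 60 1 g
    + QK 3 60 2 g + QK 2 30 3 g + QK 1 15 4 g := by
  unfold QQ Qsh QK
  rw [sum_Icc_succ_top (by decide), sum_Icc_succ_top (by decide),
    show Icc 1 2 = ({1, 2} : Finset ℕ) from rfl, sum_pair (by decide), ← add_assoc, ← add_assoc,
    ← add_assoc]
  rfl

theorem QQ_nonneg (R K : ℕ) (g : ℝ → ℝ) : 0 ≤ QQ R K g := by
  unfold QQ Qsh
  refine add_nonneg (mul_nonneg (sq_nonneg _) ?_) (sum_nonneg fun k _ => ?_)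
  · exact Wt_nonneg (by norm_num) _ _
  · unfold Qk
    refine div_nonneg (le_trans ?_ (SL_mono _ _ (f := fun _ => 0) fun as _ _ => ?_))
      (Nat.cast_nonneg _)
    · rw [SL_const, mul_zero]
    · split_ifs
      · exact le_max_left _ _
      · exact le_rfl

theorem mom_eq (w : ℝ) (as : List ℕ) : mom w as =
    (w ^ (2 * as.length) * (momN as).1 / 12 ^ as.length,
      w ^ (2 * as.length + 1) * (momN as).2.1 / 12 ^ as.length,
      w ^ (2 * as.length + 2) * (momN as).2.2 / 12 ^ as.length) := by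
  induction as with
  | nil => simp [mom, momN]
  | cons a as ih =>
    simp only [mom, momN, ih, List.length_cons, mI, u1, u2, u3]
    refine Prod.ext ?_ (Prod.ext ?_ ?_) <;> push_cast <;> ring

theorem l33cb_cM (J m k r D σ M0 M1 M2 : ℕ) : cM J m k r D σ M0 M1 M2 = cnum J m k r D σ /
    (M0 * (40001 * m * (σ + k) * n0 J m k σ) + M1 * ((40001 * m + 10000 * σ) * n1 J m k σ)
      + M2 * (10000 * n0 J m k σ) - (M0 * (40001 * m * σ * n1 J m k σ)
      + M1 * ((40001 * m + 10000 * (σ + k)) * n0 J m k σ) + M2 * (10000 * n1 J m k σ))) := by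
  unfold cM ca
  generalize cnum J m k r D σ = c
  generalize n0 J m k σ = a
  generalize n1 J m k σ = b
  simp only [List.getD_cons_zero, List.getD_cons_succ, Nat.add_eq, Nat.mul_eq, Nat.sub_eq]
  rfl

theorem l33cb_V {m k : ℕ} (hm : 0 < m) (hk : 1 ≤ k) {as : List ℕ} (hl : as.length = k) {a b : ℝ}
    (ha : 0 < a) (hb : 0 < b) : Vbox (40001 / 10000) (1 / m) (a / 10 ^ 9) (b / 10 ^ 9) as
      = (1 / m) ^ (2 * k) / m * 10 ^ 9 * ((momN as).1 * (40001 * m * ((as.sum : ℕ) + k) * a)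
        + (momN as).2.1 * ((40001 * m + 10000 * (as.sum : ℕ)) * b) + (momN as).2.2 * (10000 * a)
        - ((momN as).1 * (40001 * m * (as.sum : ℕ) * b)
          + (momN as).2.1 * ((40001 * m + 10000 * ((as.sum : ℕ) + k)) * a)
          + (momN as).2.2 * (10000 * b))) / (12 ^ k * k * 10000 * a * b) := by
  have hM : (0 : ℝ) < m := by exact_mod_cast hm
  have hK : (0 : ℝ) < k := by exact_mod_cast hk
  have hE : (0 : ℝ) < 12 ^ k := by positivity
  unfold Vbox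
  rw [mom_eq, hl]
  simp only [pow_succ _ (2 * k + 1), pow_succ _ (2 * k)]
  generalize (1 / m : ℝ) ^ (2 * k) = W
  generalize (12 : ℝ) ^ k = E at hE ⊢
  field_simp
  ring

/-- Hint: let `P`, `N` be the two natural numbers subtracted in `cM`. If `P - N = 0` or
`3 m < sum + k`, then `cM = 0`. Otherwise, with `w = 1 / m`,
`Vbox = w ^ (2 k + 1) * 10 ^ 9 * (P - N) / (12 ^ k * k * 10000 * n0 * n1)` (`mom_eq`, `0 < n0 ≤ n1`),
hence `bx / k! = L ^ 2 / 60 * (12 ^ k k 10000 n0 n1) / (k! r D ^ 2 10 ^ 9 (P - N))`; use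
`Nat.cast_div_le` twice. -/
theorem bx_ge {J m k r D : ℕ} (hm : m * r = 60) (hk : 1 ≤ k) (hD : 0 < D) {as : List ℕ}
    (hl : as.length = k) {g : ℝ → ℝ} {L : ℝ} (hL : Lf (1 / m) as g 0 = L / (60 * D)) :
    (cM J m k r D as.sum (momN as).1 (momN as).2.1 (momN as).2.2 : ℝ) * L ^ 2 / (2 ^ 160 * 60)
      ≤ (if as.sum + k ≤ 3 * m then max 0 (bx (40001 / 10000) (1 / m) (n0 J m k as.sum / 10 ^ 9)
          (n1 J m k as.sum / 10 ^ 9) g as) else 0) / k.factorial := by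
  have hm0 : 0 < m := Nat.pos_of_mul_pos_right (hm ▸ by decide : 0 < m * r)
  have hM : (0 : ℝ) < m := by exact_mod_cast hm0
  have hK : (0 : ℝ) < k := by exact_mod_cast hk
  have hD' : (0 : ℝ) < D := by exact_mod_cast hD
  have hF : (0 : ℝ) < k.factorial := by exact_mod_cast k.factorial_pos
  have hr : (r : ℝ) = 60 / m := by
    rw [eq_div_iff hM.ne', mul_comm]
    exact_mod_cast hm
  rw [l33cb_cM]
  unfold cnum
  split_ifs with h3
  swap
  · simp
  have p0 : 0 < n0 J m k as.sum := by unfold n0; omega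
  have p1 : 0 < n1 J m k as.sum := by unfold n1; omega
  generalize n0 J m k as.sum = a at p0 ⊢
  generalize n1 J m k as.sum = b at p1 ⊢
  have ha : (0 : ℝ) < a := by exact_mod_cast p0
  have hb : (0 : ℝ) < b := by exact_mod_cast p1
  have hV := l33cb_V hm0 hk hl ha hb
  set P := (momN as).1 * (40001 * m * (as.sum + k) * a)
    + (momN as).2.1 * ((40001 * m + 10000 * as.sum) * b) + (momN as).2.2 * (10000 * a) with hP
  set N := (momN as).1 * (40001 * m * as.sum * b)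
    + (momN as).2.1 * ((40001 * m + 10000 * (as.sum + k)) * a) + (momN as).2.2 * (10000 * b) with hN
  rcases Nat.eq_zero_or_pos (P - N) with h0 | h0
  · rw [h0, Nat.div_zero, Nat.cast_zero, zero_mul, zero_div]
    exact div_nonneg (le_max_left _ _) hF.le
  have hV' : Vbox (40001 / 10000) (1 / m) (a / 10 ^ 9) (b / 10 ^ 9) as
      = (1 / m) ^ (2 * k) / m * 10 ^ 9 * ((P - N : ℕ) : ℝ) / (12 ^ k * k * 10000 * a * b) := by
    rw [hV, Nat.cast_sub (by omega), hP, hN]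
    push_cast
    rfl
  generalize P - N = X at h0 hV' ⊢
  have hX : (0 : ℝ) < X := by exact_mod_cast h0
  have h1 : ((2 ^ 160 * 12 ^ k * k * 10000 * a * b / (k.factorial * r * D * D * 10 ^ 9) / X : ℕ) : ℝ)
      ≤ 2 ^ 160 * 12 ^ k * k * 10000 * a * b / (k.factorial * r * D * D * 10 ^ 9) / X :=
    Nat.cast_div_le.trans (div_le_div_of_nonneg_right
      (Nat.cast_div_le.trans (le_of_eq (by simp only [Nat.cast_mul, Nat.cast_pow, Nat.cast_ofNat])))
      hX.le)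
  refine le_trans ?_ (div_le_div_of_nonneg_right (le_max_right _ _) hF.le)
  refine (div_le_div_of_nonneg_right (mul_le_mul_of_nonneg_right h1 (sq_nonneg L))
    (by positivity)).trans (le_of_eq ?_)
  unfold bx
  rw [hV', hL, hl, hr, mul_pow, ← pow_mul, mul_comm k 2]
  have hW : (0 : ℝ) < (1 / m) ^ (2 * k) := by positivity
  have hT : (0 : ℝ) < 2 ^ 160 := by positivity
  have hE : (0 : ℝ) < 12 ^ k := by positivity
  generalize (1 / m : ℝ) ^ (2 * k) = W at hW ⊢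
  generalize (2 : ℝ) ^ 160 = T at hT ⊢
  generalize (12 : ℝ) ^ k = E at hE ⊢
  field_simp

/-- Hint: `bx_ge`, `SL_mono`, `SL_sum`, `SL_mul`. -/
theorem qk_ge {J m k r D : ℕ} (hm : m * r = 60) (hk : 1 ≤ k) (hD : 0 < D) {ι : Type*}
    (s : Finset ι) (μ : ι → ℝ) (hμ : ∀ x ∈ s, 0 ≤ μ x) (g : ι → ℝ → ℝ) (L : ι → List ℕ → ℝ)
    (hL : ∀ x ∈ s, ∀ as : List ℕ, as.length = k → (∀ a ∈ as, a < m) →
      Lf (1 / m) as (g x) 0 = L x as / (60 * D))
    (Z : List ℕ → ℝ) (hZ : ∀ as : List ℕ, as.length = k → (∀ a ∈ as, a < m) →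
      Z as ≤ ∑ x ∈ s, μ x * L x as ^ 2) :
    SL m k (fun as => (cM J m k r D as.sum (momN as).1 (momN as).2.1 (momN as).2.2 : ℝ) * Z as)
        / (2 ^ 160 * 60) ≤ ∑ x ∈ s, μ x * QK J m k (g x) := by
  have e1 : ∀ x, μ x * QK J m k (g x) = SL m k (fun as => μ x / k.factorial *
      (if as.sum + k ≤ 3 * m then max 0 (bx (40001 / 10000) (1 / m) (n0 J m k as.sum / 10 ^ 9)
        (n1 J m k as.sum / 10 ^ 9) (g x) as) else 0)) := fun x => by
    rw [SL_mul]
    unfold QK Qk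
    ring
  simp only [e1]
  rw [← SL_sum, div_eq_inv_mul, ← SL_mul]
  refine SL_mono _ _ fun as h1 h2 => ?_
  have hT : (0 : ℝ) ≤ (2 ^ 160 * 60)⁻¹ := by positivity
  refine (mul_le_mul_of_nonneg_left (mul_le_mul_of_nonneg_left (hZ as h1 h2) (Nat.cast_nonneg _))
    hT).trans ?_
  rw [mul_sum, mul_sum]
  refine sum_le_sum fun x hx => ?_
  have h3 := mul_le_mul_of_nonneg_left (bx_ge (J := J) hm hk hD h1 (hL x hx as h1 h2)) (hμ x hx)
  refine le_trans (le_of_eq ?_) (h3.trans (le_of_eq ?_))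
  · generalize ((2 : ℝ) ^ 160 * 60) = T
    ring
  · ring

/-- Hint: `wt_zero`. -/
theorem q0_ge {R D : ℕ} (hR : 3 ≤ R) (hD : 0 < D) {g0 L : ℝ} (hL : g0 = L / (60 * D)) :
    (c0 D : ℝ) * L ^ 2 / (2 ^ 160 * 60) ≤ g0 ^ 2 * Wt (40001 / 10000) R 0 := by
  have hD' : (0 : ℝ) < D := by exact_mod_cast hD
  refine le_trans ?_ (mul_le_mul_of_nonneg_left (wt_zero hR) (sq_nonneg _))
  unfold c0
  generalize n0 3 60 0 0 = a
  have h1 : ((2 ^ 160 * a * 10000 / (D * D * 10 ^ 9 * 40001 * 60) : ℕ) : ℝ)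
      ≤ 2 ^ 160 * a * 10000 / (D * D * 10 ^ 9 * 40001 * 60) :=
    Nat.cast_div_le.trans (le_of_eq (by simp only [Nat.cast_mul, Nat.cast_pow, Nat.cast_ofNat]))
  refine (div_le_div_of_nonneg_right (mul_le_mul_of_nonneg_right h1 (sq_nonneg L))
    (by positivity)).trans (le_of_eq ?_)
  rw [hL]
  have hT : (0 : ℝ) < 2 ^ 160 := by positivity
  generalize (2 : ℝ) ^ 160 = T at hT ⊢
  field_simp

end Pool.Agent.P.MP_dddec0_nt.L33
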