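import Pool.Agent.P.MP_dddec0_nt.L33CertA

namespace Pool.Agent.P.MP_dddec0_nt.L33
open Finset Real

/-- `X` packs `wx * v` forwards and `Y` packs `v` backwards. -/
def Rep (X Y : ℕ) (v : ℕ → ℕ) : Prop :=
  X = ∑ x ∈ range 900, wx x * v x * 2 ^ (64 * x) ∧ Y = ∑ x ∈ range 900, v (899 - x) * 2 ^ (64 * x)

attribute [local irreducible] tcol

theorem cc_block (f : ℕ → ℕ) (m n : ℕ) :
    ∑ x ∈ range (m * n), f x = ∑ q ∈ range n, ∑ t ∈ range m, f (m * q + t) := by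
  induction n with
  | zero => simp
  | succ n ih => rw [Nat.mul_succ, sum_range_add, ih, sum_range_succ]

theorem cc_lt {B : ℕ} (g : ℕ → ℕ) (n : ℕ) (hg : ∀ i < n, g i < B) :
    ∑ i ∈ range n, g i * B ^ i < B ^ n := by
  induction n with
  | zero => simp
  | succ n ih =>
    have h1 := ih fun i hi => hg i (by omega)
    have h2 := Nat.mul_le_mul_right (B ^ n) (Nat.succ_le_of_lt (hg n (by omega)))
    rw [sum_range_succ, pow_succ]
    rw [Nat.succ_mul] at h2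
    nlinarith

theorem cc_mul (B : ℕ) (a b : ℕ → ℕ) (n : ℕ) :
    ∃ R, (∑ i ∈ range n, a i * B ^ i) * ∑ j ∈ range n, b j * B ^ j =
      ∑ s ∈ range n, (∑ i ∈ range (s + 1), a i * b (s - i)) * B ^ s + B ^ n * R := by
  refine ⟨∑ i ∈ range n, ∑ j ∈ range i, a i * b (n - i + j) * B ^ j, ?_⟩
  have e : ∑ s ∈ range n, (∑ i ∈ range (s + 1), a i * b (s - i)) * B ^ s =
      ∑ i ∈ range n, ∑ j ∈ range (n - i), a i * b j * B ^ (i + j) := by
    rw [← sum_range_diag_flip n (fun i j => a i * b j * B ^ (i + j))]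
    refine sum_congr rfl fun s _ => ?_
    rw [sum_mul]
    refine sum_congr rfl fun i hi => ?_
    rw [Nat.add_sub_cancel' (Nat.lt_succ_iff.1 (mem_range.1 hi))]
  rw [e, sum_mul, mul_sum, ← sum_add_distrib]
  refine sum_congr rfl fun i hi => ?_
  obtain ⟨k, rfl⟩ := Nat.exists_eq_add_of_le' (mem_range.1 hi).le
  rw [Nat.add_sub_cancel, sum_range_add, mul_add, mul_sum, mul_sum, mul_sum]
  congr 1 <;> exact sum_congr rfl fun j _ => by ring

theorem cc_digit {B : ℕ} (a b : ℕ → ℕ) (n : ℕ)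
    (h : ∀ s < n + 1, ∑ i ∈ range (s + 1), a i * b (s - i) < B) :
    ((∑ i ∈ range (n + 1), a i * B ^ i) * ∑ j ∈ range (n + 1), b j * B ^ j) / B ^ n % B =
      ∑ i ∈ range (n + 1), a i * b (n - i) := by
  obtain ⟨R, hR⟩ := cc_mul B a b (n + 1)
  have hn := h n n.lt_succ_self
  have hB : 0 < B := lt_of_le_of_lt (Nat.zero_le _) hn
  have h1 := cc_lt (fun s => ∑ i ∈ range (s + 1), a i * b (s - i)) n fun s hs => h s (by omega)
  rw [hR, sum_range_succ _ n, pow_succ, add_assoc, mul_comm _ (B ^ n), mul_assoc, ← mul_add,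
    Nat.add_mul_div_left _ _ (pow_pos hB n), Nat.div_eq_of_lt h1, zero_add,
    Nat.add_mul_mod_self_left, Nat.mod_eq_of_lt hn]

theorem pack_eq (v : ℕ → ℕ) : pack v = ∑ x ∈ range 900, v x * 2 ^ (64 * x) := by
  rw [pack, sT_eq]
  refine Eq.trans ?_ (cc_block (fun x => v x * 2 ^ (64 * x)) 60 15).symm
  refine sum_congr rfl fun q _ => ?_
  rw [sT_eq, Nat.shiftLeft_eq', Nat.shiftLeft_eq, sum_mul]
  refine sum_congr rfl fun t _ => ?_
  rw [Nat.shiftLeft_eq', Nat.shiftLeft_eq, Nat.add_eq, Nat.mul_eq, Nat.mul_eq, Nat.mul_eq, mul_assoc,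
    ← pow_add]
  congr 2
  omega

theorem Rep.add {X Y X' Y' : ℕ} {v v' : ℕ → ℕ} (h : Rep X Y v) (h' : Rep X' Y' v') :
    Rep (X + X') (Y + Y') (fun x => v x + v' x) := by
  rw [h.1, h.2, h'.1, h'.2, ← sum_add_distrib, ← sum_add_distrib]
  exact ⟨sum_congr rfl fun x _ => by rw [← add_mul, ← mul_add],
    sum_congr rfl fun x _ => by rw [← add_mul]⟩

theorem Rep.mul {X Y : ℕ} {v : ℕ → ℕ} (c : ℕ) (h : Rep X Y v) :
    Rep (c * X) (c * Y) (fun x => c * v x) := by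
  rw [h.1, h.2, mul_sum, mul_sum]
  exact ⟨sum_congr rfl fun x _ => by rw [← mul_assoc, mul_left_comm],
    sum_congr rfl fun x _ => by rw [← mul_assoc]⟩

theorem Rep.sum {X Y : ℕ → ℕ} {v : ℕ → ℕ → ℕ} (h : ∀ j, Rep (X j) (Y j) (v j)) (n : ℕ) :
    Rep (∑ j ∈ range n, X j) (∑ j ∈ range n, Y j) (fun x => ∑ j ∈ range n, v j x) := by
  induction n with
  | zero => exact ⟨by simp, by simp⟩
  | succ n ih =>
    simp only [sum_range_succ]
    exact ih.add (h n)

theorem rep_col (c : ℕ) : Rep (fw c) (rv c) (fun x => d8 (tcol c) x) := by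
  constructor
  · rw [fw, pack_eq]
    exact sum_congr rfl fun x _ => by rw [force_eq, Nat.mul_eq]
  · rw [rv, pack_eq]
    exact sum_congr rfl fun x _ => by rw [Nat.sub_eq]

/-- Hint: the product is `∑ k < 1799, (∑ x + y = k, ..) * 2 ^ (64 k)` with coefficients below
`900 * 2 * 10 ^ 12 < 2 ^ 64`; see `pk_mul` in `Pack.lean` and `digit_eq` in `CertB.lean` of this
folder (copy what is needed, do not import them). -/
theorem ip_eq {X Y X' Y' : ℕ} {v v' : ℕ → ℕ} (h : Rep X Y v) (h' : Rep X' Y' v')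
    (hv : ∀ x < 900, v x ≤ 10 ^ 6) (hv' : ∀ x < 900, v' x ≤ 10 ^ 6) :
    ip X Y' = ∑ x ∈ range 900, wx x * v x * v' x := by
  have key := cc_digit (B := 2 ^ 64) (fun x => wx x * v x) (fun x => v' (899 - x)) 899
    fun s hs => by
      refine lt_of_le_of_lt (sum_le_card_nsmul _ _ (2 * 10 ^ 6 * 10 ^ 6) fun i hi => ?_) ?_
      · have hw : wx i ≤ 2 := by unfold wx; split_ifs <;> omega
        have hi' := mem_range.1 hi
        exact Nat.mul_le_mul (Nat.mul_le_mul hw (hv i (by omega))) (hv' _ (by omega))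
      · rw [card_range, smul_eq_mul]
        omega
  rw [ip, dg_eq, Nat.mul_eq, h.1, h'.2]
  simp only [pow_mul 2 64]
  refine key.trans (sum_congr rfl fun x hx => ?_)
  have := mem_range.1 hx
  rw [show 899 - (899 - x) = x by omega]

theorem zz_eq {X Y X' Y' : ℕ} {v v' : ℕ → ℕ} (h : Rep X Y v) (h' : Rep X' Y' v')
    (hv : ∀ x < 900, v x ≤ 10 ^ 6) (hv' : ∀ x < 900, v' x ≤ 10 ^ 6) :
    (zz X Y X' Y' : ℝ) = ∑ x ∈ range 900, (wx x : ℝ) * ((v x : ℝ) - v' x) ^ 2 := by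
  have e : ((ip X Y + ip X' Y' : ℕ) : ℝ) - (2 * ip X Y' : ℕ) =
      ∑ x ∈ range 900, (wx x : ℝ) * ((v x : ℝ) - v' x) ^ 2 := by
    rw [ip_eq h h hv hv, ip_eq h' h' hv' hv', ip_eq h h' hv hv']
    push_cast
    rw [mul_sum, ← sum_add_distrib, ← sum_sub_distrib]
    exact sum_congr rfl fun x _ => by ring
  have h0 : (0 : ℝ) ≤ ∑ x ∈ range 900, (wx x : ℝ) * ((v x : ℝ) - v' x) ^ 2 :=
    sum_nonneg fun x _ => mul_nonneg (Nat.cast_nonneg _) (sq_nonneg _)
  rw [← e] at h0 ⊢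
  rw [zz, Nat.sub_eq, Nat.add_eq, Nat.mul_eq, Nat.cast_sub (Nat.cast_le.1 (sub_nonneg.1 h0))]

/-- Padded tail sums of the fibre number `x`. -/
def tau (o x : ℕ) : ℕ := ∑ j ∈ range (60 - o), d8 (tcol (59 - j)) x + min o 60 * d8 (tcol 59) x

theorem rep_tl (o : ℕ) : Rep (tl fw o) (tl rv o) (tau o) := by
  have e : ∀ v : ℕ → ℕ, tl v o = ∑ j ∈ range (60 - o), v (59 - j) + min o 60 * v 59 := fun v => by
    rw [tl, force_eq, sT_eq]
    exact congrArg (· + _) (sum_congr rfl fun j _ => force_eq _ _)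
  rw [e, e]
  exact (Rep.sum (fun j => rep_col (59 - j)) _).add ((rep_col 59).mul _)

theorem tau_le (o x : ℕ) : tau o x ≤ 15300 := by
  have h1 := sum_le_card_nsmul (range (60 - o)) (fun j => d8 (tcol (59 - j)) x) 255
    fun j _ => Nat.le_of_lt_succ (d8_lt _ _)
  have h2 := Nat.mul_le_mul_left (min o 60) (Nat.le_of_lt_succ (d8_lt (tcol 59) x))
  rw [card_range, smul_eq_mul] at h1
  unfold tau
  omega

noncomputable def Pt (f : ℕ → ℝ) (o : ℕ) : ℝ := ∑ c ∈ range 60, if o ≤ c then f c else 0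

/-- Hint: `Fr_x`, `col_last`. -/
theorem tau_eq (o : ℕ) {x : ℕ} (hx : x < 900) :
    (tau o x : ℝ) = Pt (Fr (xa x) (xb x)) o + 1260 := by
  have e : Pt (Fr (xa x) (xb x)) o = ∑ j ∈ range (60 - o), ((d8 (tcol (59 - j)) x : ℝ) - 21) := by
    rw [Pt, ← sum_range_reflect, ← sum_filter]
    refine sum_congr ?_ fun j hj => Fr_x hx (by omega)
    ext j
    simp only [mem_filter, mem_range]
    omega
  have e2 : ((min o 60 : ℕ) : ℝ) + (60 - o : ℕ) = 60 := by
    exact_mod_cast (show min o 60 + (60 - o) = 60 by omega)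
  rw [e, tau, col_last hx, sum_sub_distrib, sum_const, card_range, nsmul_eq_mul, Nat.cast_add,
    Nat.cast_sum, Nat.cast_mul, Nat.cast_ofNat]
  linarith

/-- Hint: `Fr_supp`, `sum_fold`, `zz_eq`, `rep_col`, `Fr_x`, `col_last`, `kF`. -/
theorem sq3_Fr : sq3 60 Fr ≤ 568091613 := by
  have e1 : sq3 60 Fr = ∑ a ∈ range 60, ∑ b ∈ range 60,
      if a + b ≤ 58 then ∑ c ∈ range 60, Fr a b c ^ 2 else 0 := by
    refine sum_congr rfl fun a _ => sum_congr rfl fun b _ => ?_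
    split_ifs with h
    · rfl
    · refine sum_eq_zero fun c _ => ?_
      by_contra hc
      exact h (Fr_supp fun h0 => hc (by rw [h0]; norm_num)).1
  have hd : ∀ c, ∀ x < 900, d8 (tcol c) x ≤ 10 ^ 6 := fun c x _ =>
    (d8_lt _ _).le.trans (by norm_num)
  have e2 : (sqFn : ℝ) = ∑ x ∈ range 900, (wx x : ℝ) * ∑ c ∈ range 60, Fr (xa x) (xb x) c ^ 2 := by
    rw [sqFn, sT_eq, Nat.cast_sum,
      sum_congr rfl fun c _ => zz_eq (rep_col c) (rep_col 59) (hd c) (hd 59), sum_comm]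
    refine sum_congr rfl fun x hx => ?_
    rw [mul_sum]
    refine sum_congr rfl fun c hc => ?_
    rw [Fr_x (mem_range.1 hx) (mem_range.1 hc), col_last (mem_range.1 hx), Nat.cast_ofNat]
  rw [e1, sum_fold (fun a b => ∑ c ∈ range 60, Fr a b c ^ 2)
    fun a b => sum_congr rfl fun c _ => by rw [Fr_symm], ← e2]
  exact_mod_cast Nat.le_of_ble_eq_true kF

end Pool.Agent.P.MP_dddec0_nt.L33
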