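import Pool.Agent.P.MP_dddec0_nt.L33CertB
import Pool.Agent.P.MP_dddec0_nt.L33CertC
import Pool.Agent.P.MP_dddec0_nt.L33Avg

namespace Pool.Agent.P.MP_dddec0_nt.L33
open Finset Real

theorem C2_cz (c : ℤ) : cz 1 0 c = (if 0 ≤ c then 1 else 0) ∧
    cz 1 1 c = (if 0 ≤ c then 1 else 0) + (if 1 ≤ c then 1 else 0) ∧
    cz 1 2 c = (if 0 ≤ c then 1 else 0) + 4 * (if 1 ≤ c then 1 else 0)
      + (if 2 ≤ c then 1 else 0) := by
  simp only [cz, dZ, Nat.cast_one, Int.toNat_eq_max, add_sub_cancel_right]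
  rcases lt_or_ge c 0 with h | h
  · rw [max_eq_right (by omega : c + 1 ≤ 0), max_eq_right h.le, max_eq_right (by omega : c - 1 ≤ 0),
      max_eq_right (by omega : c - 1 - 1 ≤ 0), if_neg (by omega), if_neg (by omega),
      if_neg (by omega)]
    norm_num
  rcases lt_or_ge c 2 with h' | h'
  · interval_cases c <;> decide
  · rw [max_eq_left (by omega : 0 ≤ c + 1), max_eq_left h, max_eq_left (by omega : 0 ≤ c - 1),
      max_eq_left (by omega : 0 ≤ c - 1 - 1), if_pos h, if_pos (by omega), if_pos h']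
    refine ⟨by ring, by ring, by ring⟩

theorem C2_Pt (f : ℕ → ℝ) (o i : ℕ) :
    ∑ a ∈ range 60, f a * ((if (i : ℤ) ≤ (a : ℤ) - (1 : ℕ) * o then 1 else 0 : ℤ) : ℝ)
      = Pt f (o + i) := by
  refine sum_congr rfl fun a _ => ?_
  by_cases h : o + i ≤ a
  · rw [if_pos h, if_pos (by omega), Int.cast_one, mul_one]
  · rw [if_neg h, if_neg (by omega), Int.cast_zero, mul_zero]

/-- Hint: `avg_Rf` with `r = 1`; for an integer `c`, `cz 1 0 c = [0 ≤ c]`,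
`cz 1 1 c = [0 ≤ c] + [1 ≤ c]`, `cz 1 2 c = [0 ≤ c] + 4 [1 ≤ c] + [2 ≤ c]`. -/
theorem avg_Pt (f : ℕ → ℝ) (o : ℕ) :
    (avg (1 / 60))^[0] (Rf (1 / 60) 60 f) (o * (1 / 60)) = Pt f o / 60 ∧
    (avg (1 / 60))^[1] (Rf (1 / 60) 60 f) (o * (1 / 60)) = (Pt f o + Pt f (o + 1)) / 120 ∧
    (avg (1 / 60))^[2] (Rf (1 / 60) 60 f) (o * (1 / 60))
      = (Pt f o + 4 * Pt f (o + 1) + Pt f (o + 2)) / 360 := by
  have h := fun j => avg_Rf (h := 1 / 60) (by norm_num) one_pos 60 f j o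
  have e : ((1 : ℕ) : ℝ) * (1 / 60) = 1 / 60 := by norm_num
  rw [e] at h
  have p0 : _ = Pt f o := C2_Pt f o 0
  have p1 := C2_Pt f o 1
  have p2 := C2_Pt f o 2
  rw [h, h, h, ← p0, ← p1, ← p2, ← sum_add_distrib, mul_sum _ _ (4 : ℝ), ← sum_add_distrib,
    ← sum_add_distrib]
  refine ⟨?_, ?_, ?_⟩
  · rw [sum_congr rfl fun a _ => by rw [(C2_cz _).1]]
    norm_num [Nat.factorial]
    ring
  · rw [sum_congr rfl fun a _ => by rw [(C2_cz _).2.1, Int.cast_add, mul_add]]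
    norm_num [Nat.factorial]
    ring
  · rw [sum_congr rfl fun a _ => by
      rw [(C2_cz _).2.2, Int.cast_add, Int.cast_add, Int.cast_mul, mul_add, mul_add,
        mul_left_comm]]
    norm_num [Nat.factorial]
    ring

theorem C2_Lf1 (f : ℕ → ℝ) (a : ℕ) : 360 * Lf (1 / (60 : ℕ)) [a] (Rf (1 / 60) 60 f) 0
    = 6 * Pt f 0 - 3 * (Pt f a + Pt f (a + 1)) := by
  have h := Lf_eq (1 / 60) (Rf_cont (1 / 60) 60 f) [a] 0 0
  simp only [ellR, zero_add, (avg_Pt f _).1, (avg_Pt f _).2.1] at h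
  rw [Function.iterate_zero_apply, Nat.cast_zero, zero_mul] at h
  rw [Nat.cast_ofNat, h]
  ring

theorem C2_Lf2 (f : ℕ → ℝ) (a b : ℕ) : 360 * Lf (1 / (60 : ℕ)) [a, b] (Rf (1 / 60) 60 f) 0
    = 6 * Pt f 0 + (Pt f (a + b) + 4 * Pt f (a + b + 1) + Pt f (a + b + 2))
      - (3 * (Pt f a + Pt f (a + 1)) + 3 * (Pt f b + Pt f (b + 1))) := by
  have h := Lf_eq (1 / 60) (Rf_cont (1 / 60) 60 f) [a, b] 0 0
  simp only [ellR, zero_add, Nat.reduceAdd, (avg_Pt f _).1, (avg_Pt f _).2.1,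
    (avg_Pt f _).2.2] at h
  rw [Function.iterate_zero_apply, Nat.cast_zero, zero_mul] at h
  rw [Nat.cast_ofNat, h]
  ring

attribute [local irreducible] fw rv tl tcol cM c0 zz tau

theorem C2_rep1 (a : ℕ) : Rep (e1 fw a) (e1 rv a) (fun x => 3 * (tau a x + tau (a + 1) x)) := by
  rw [e1, e1, force_eq, force_eq, force_eq, force_eq]
  exact ((rep_tl a).add (rep_tl (a + 1))).mul 3

theorem C2_rep2 (o : ℕ) : Rep (e02 fw o) (e02 rv o)
    (fun x => 6 * tau 0 x + (tau o x + 4 * tau (o + 1) x + tau (o + 2) x)) := by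
  rw [e02, e02, force_eq, force_eq, force_eq, force_eq, force_eq, force_eq]
  exact ((rep_tl 0).mul 6).add (((rep_tl o).add ((rep_tl (o + 1)).mul 4)).add (rep_tl (o + 2)))

theorem C2_q0 : (q30 : ℝ) / (2 ^ 160 * 60) ≤ ∑ x ∈ range 900,
    (wx x : ℝ) * (Rf (1 / 60) 60 (Fr (xa x) (xb x)) 0 ^ 2 * Wt (40001 / 10000) 3 0) := by
  rw [q30, Nat.cast_mul, zz_eq (rep_tl 0) (rep_tl 60)
    (fun x _ => (tau_le _ x).trans (by norm_num)) (fun x _ => (tau_le _ x).trans (by norm_num)),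
    mul_sum, sum_div]
  refine sum_le_sum fun x hx => ?_
  have h0 := (avg_Pt (Fr (xa x) (xb x)) 0).1
  rw [Function.iterate_zero_apply, Nat.cast_zero, zero_mul] at h0
  have h1 : Pt (Fr (xa x) (xb x)) 60 = 0 :=
    sum_eq_zero fun c hc => if_neg (not_le.2 (mem_range.1 hc))
  have h2 := q0_ge (R := 3) (D := 1) le_rfl one_pos (L := Pt (Fr (xa x) (xb x)) 0)
    (h0.trans (by rw [Nat.cast_one, mul_one]))
  rw [tau_eq 0 (mem_range.1 hx), tau_eq 60 (mem_range.1 hx), h1, zero_add, add_sub_cancel_right,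
    mul_left_comm, mul_div_assoc]
  exact mul_le_mul_of_nonneg_left h2 (Nat.cast_nonneg _)

theorem C2_qk (J k : ℕ) (hk : 1 ≤ k) :
    SL 60 k (fun as => (cM J 60 k 1 6 as.sum (momN as).1 (momN as).2.1 (momN as).2.2 : ℝ) *
      ∑ x ∈ range 900, (wx x : ℝ) *
        (360 * Lf (1 / (60 : ℕ)) as (Rf (1 / 60) 60 (Fr (xa x) (xb x))) 0) ^ 2) / (2 ^ 160 * 60)
      ≤ ∑ x ∈ range 900, (wx x : ℝ) * QK J 60 k (Rf (1 / 60) 60 (Fr (xa x) (xb x))) :=
  qk_ge (r := 1) (D := 6) rfl hk (by norm_num) (range 900) (fun x => (wx x : ℝ))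
    (fun _ _ => Nat.cast_nonneg _) (fun x => Rf (1 / 60) 60 (Fr (xa x) (xb x)))
    (fun x as => 360 * Lf (1 / (60 : ℕ)) as (Rf (1 / 60) 60 (Fr (xa x) (xb x))) 0)
    (fun x _ as _ _ => by rw [show (60 : ℝ) * (6 : ℕ) = 360 by norm_num]; ring) _
    (fun _ _ _ => le_rfl)

theorem C2_q1 : (q31 : ℝ) / (2 ^ 160 * 60)
    ≤ ∑ x ∈ range 900, (wx x : ℝ) * QK 2 60 1 (Rf (1 / 60) 60 (Fr (xa x) (xb x))) := by
  refine le_of_eq_of_le (congrArg (· / _) ?_) (C2_qk 2 1 le_rfl)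
  rw [q31, sT_eq, Nat.cast_sum, SL]
  refine sum_congr rfl fun a _ => ?_
  rw [SL, Nat.cast_mul, zz_eq ((rep_tl 0).mul 6) (C2_rep1 a)
    (fun x _ => by have := tau_le 0 x; omega)
    (fun x _ => by have := tau_le a x; have := tau_le (a + 1) x; omega)]
  simp only [momN, List.sum_cons, List.sum_nil, add_zero, one_mul, zero_mul, mul_zero, zero_add]
  refine congrArg _ (sum_congr rfl fun x hx => ?_)
  rw [C2_Lf1]
  push_cast
  rw [tau_eq _ (mem_range.1 hx), tau_eq _ (mem_range.1 hx), tau_eq _ (mem_range.1 hx)]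
  ring

theorem C2_q2 : (q32 : ℝ) / (2 ^ 160 * 60)
    ≤ ∑ x ∈ range 900, (wx x : ℝ) * QK 1 60 2 (Rf (1 / 60) 60 (Fr (xa x) (xb x))) := by
  refine le_of_eq_of_le (congrArg (· / _) ?_) (C2_qk 1 2 one_le_two)
  rw [q32, sT_eq, Nat.cast_sum, SL]
  refine sum_congr rfl fun a _ => ?_
  rw [sT_eq, Nat.cast_sum, SL]
  refine sum_congr rfl fun b _ => ?_
  rw [SL, force_eq, Nat.mul_eq, Nat.add_eq, Nat.add_eq, Nat.add_eq, Nat.cast_mul,
    zz_eq (C2_rep2 (a + b)) ((C2_rep1 a).add (C2_rep1 b))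
    (fun x _ => by
      have := tau_le 0 x; have := tau_le (a + b) x; have := tau_le (a + b + 1) x
      have := tau_le (a + b + 2) x; omega)
    (fun x _ => by
      have := tau_le a x; have := tau_le (a + 1) x; have := tau_le b x; have := tau_le (b + 1) x
      omega)]
  simp only [momN, List.sum_cons, List.sum_nil, add_zero, one_mul, zero_mul, mul_zero, zero_add]
  rw [show u1 b * u1 a = u1 a * u1 b by ring,
    show u2 b * u1 a + u1 b * u2 a = u2 a * u1 b + u1 a * u2 b by ring,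
    show u3 b * u1 a + 2 * u2 b * u2 a + u1 b * u3 a
      = u3 a * u1 b + 2 * u2 a * u2 b + u1 a * u3 b by ring]
  refine congrArg _ (sum_congr rfl fun x hx => ?_)
  rw [C2_Lf2]
  push_cast
  simp only [tau_eq _ (mem_range.1 hx)]
  ring

/-- Hint: drop the pairs with `58 < a + b` (`QQ_nonneg`), `sum_fold`, `QQ_three`; `q0_ge` with
`D = 1`, `L = Pt f 0` (`Pt f 60 = 0`); `qk_ge` with `s = range 900`, `μ = wx`, `D = 6`, `r = 1`,
`L x as = 360 * Lf (1 / 60) as g 0`, evaluated by `Lf_eq` (`j = o = 0`) and `avg_Pt`; `zz_eq`,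
`rep_tl`, `Rep.add`, `Rep.mul`, `tau_eq`, `tau_le`, `k3`. Mark `fw rv tl tcol` as locally
irreducible. -/
theorem q3_le : (487381914 : ℝ) / 60
    ≤ ∑ a ∈ range 60, ∑ b ∈ range 60, QQ 3 2 (Rf (1 / 60) 60 (Fr a b)) := by
  have h1 := sum_fold (fun a b => QQ 3 2 (Rf (1 / 60) 60 (Fr a b)))
    (fun a b => by rw [show Fr a b = Fr b a from funext (Fr_symm a b)])
  have h2 : ∑ a ∈ range 60, ∑ b ∈ range 60,
      (if a + b ≤ 58 then QQ 3 2 (Rf (1 / 60) 60 (Fr a b)) else 0)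
      ≤ ∑ a ∈ range 60, ∑ b ∈ range 60, QQ 3 2 (Rf (1 / 60) 60 (Fr a b)) :=
    sum_le_sum fun a _ => sum_le_sum fun b _ => by
      split_ifs
      exacts [le_rfl, QQ_nonneg _ _ _]
  refine le_trans ?_ (h1.symm.trans_le h2)
  rw [sum_congr rfl fun x _ => by rw [QQ_three, mul_add, mul_add], sum_add_distrib,
    sum_add_distrib]
  refine le_trans ?_ (add_le_add (add_le_add C2_q0 C2_q1) C2_q2)
  have h3 := Nat.le_of_ble_eq_true k3
  generalize q30 = A, q31 = B, q32 = C at h3 ⊢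
  have h4 : (487381914 : ℝ) * 2 ^ 160 ≤ A + B + C := by exact_mod_cast h3
  rw [← add_div, ← add_div, div_le_div_iff₀ (by norm_num) (by positivity)]
  linarith

end Pool.Agent.P.MP_dddec0_nt.L33
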