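import Pool.Agent.P.MP_dddec0_nt.L33N
import Pool.Agent.P.MP_dddec0_nt.L33Tab

/-! The certificate as a computation with natural numbers. -/

namespace Pool.Agent.P.MP_dddec0_nt.L33

def sT (n : ℕ) (f : ℕ → ℕ) : ℕ := Nat.rec 0 (fun i acc => Nat.add acc (f i)) n

def allTo (n : ℕ) (p : ℕ → Bool) : Bool := Nat.rec true (fun i acc => cond acc (p i) false) n

/-- Evaluates `x` before it is passed on. -/
def force (x : ℕ) (f : ℕ → ℕ) : ℕ := Nat.rec (f 0) (fun n _ => f (Nat.succ n)) x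

/-- Digit number `i` in base `2 ^ w`. -/
def dg (x w i : ℕ) : ℕ := Nat.mod (Nat.shiftRight x (Nat.mul w i)) (Nat.pow 2 w)

def d8 (x i : ℕ) : ℕ := Nat.mod (Nat.shiftRight x (Nat.mul 8 i)) 256

/-- The pairs `a ≤ b`, `a + b ≤ 58` are numbered by `x < 900`. -/
def xa (x : ℕ) : ℕ := if x % 60 + 2 * (x / 60) < 59 then x / 60 else 29 - x / 60

def xb (x : ℕ) : ℕ :=
  if x % 60 + 2 * (x / 60) < 59 then x / 60 + x % 60 else 88 - x / 60 - x % 60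

def idx (a b : ℕ) : ℕ :=
  if a + b ≤ 58 then
    (if min a b < 15 then 60 * min a b + (max a b - min a b)
      else 60 * (29 - min a b) + (59 - (max a b - min a b)))
  else 900

def wx (x : ℕ) : ℕ := if xa x = xb x then 1 else 2

def raw (a b c : ℕ) : ℕ := d8 (tcol c) (idx a b)

def tN (b c : ℕ) : ℕ := sT 60 fun a => raw a b c

def psi (s c : ℕ) : ℕ := dg (tp s) 20 c

def lenX (x : ℕ) : ℕ := if x < 900 then min 59 (98 - xa x - xb x) else 0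

def chkS : Bool := allTo 901 fun x => allTo (60 - lenX x) fun j =>
  Nat.beq (d8 (force (59 - j) tcol) x) 21

def chkT : Bool := allTo 60 fun b => allTo 60 fun c =>
  tN b c == tN c b && (decide (b + c ≤ 74) || tN b c == 1260)

def chkU : Bool := allTo 60 fun c => 820 * sT 60 (fun b => tN b c)
  == 820 * psi 0 c + 455 * psi 1 c + 495 * psi 2 c + 820 * 3600 * 21

def TTn : ℕ := sT 60 fun a => sT 60 fun b =>
  if a + b + 2 + 16 ≤ 60 then (tN a b - 1260) ^ 2 else 0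

def mu (s : ℕ) : ℕ := if s = 0 then 820 else if s = 1 then 455 else 495

def sqP : ℕ := sT 3 fun s => mu s * sT 60 fun c => psi s c ^ 2

def pack (v : ℕ → ℕ) : ℕ := sT 15 fun q =>
  Nat.shiftLeft (sT 60 fun t => Nat.shiftLeft (v (Nat.add (Nat.mul 60 q) t)) (Nat.mul 64 t))
    (Nat.mul 3840 q)

def fw (c : ℕ) : ℕ := pack fun x => force x fun y => Nat.mul (wx y) (d8 (tcol c) y)

def rv (c : ℕ) : ℕ := pack fun x => d8 (tcol c) (Nat.sub 899 x)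

def ip (X Y : ℕ) : ℕ := dg (Nat.mul X Y) 64 899

def zz (A A' B B' : ℕ) : ℕ := Nat.sub (Nat.add (ip A A') (ip B B')) (Nat.mul 2 (ip A B'))

def sqFn : ℕ := sT 60 fun c => zz (fw c) (rv c) (fw 59) (rv 59)

/-- Tail sums, padded with the constant column. -/
def tl (v : ℕ → ℕ) (o : ℕ) : ℕ :=
  force (60 - o) (fun k => sT k fun j => force (59 - j) v) + min o 60 * v 59

def e1 (v : ℕ → ℕ) (a : ℕ) : ℕ := 3 * (force a (tl v) + force (a + 1) (tl v))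

def e02 (v : ℕ → ℕ) (o : ℕ) : ℕ :=
  6 * tl v 0 + (force o (tl v) + 4 * force (o + 1) (tl v) + force (o + 2) (tl v))

def u1 (a : ℕ) : ℕ := 6 * (2 * a + 1)

def u2 (a : ℕ) : ℕ := 4 * (3 * a * a + 3 * a + 1)

def u3 (a : ℕ) : ℕ := 3 * (4 * a * a * a + 6 * a * a + 4 * a + 1)

def ca (J m k σ i : ℕ) : ℕ :=
  [40001 * m * (σ + k) * n0 J m k σ, (40001 * m + 10000 * σ) * n1 J m k σ, 10000 * n0 J m k σ,
    40001 * m * σ * n1 J m k σ, (40001 * m + 10000 * (σ + k)) * n0 J m k σ,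
    10000 * n1 J m k σ].getD i 0

def cnum (J m k r D σ : ℕ) : ℕ :=
  if σ + k ≤ 3 * m then 2 ^ 160 * 12 ^ k * k * 10000 * n0 J m k σ * n1 J m k σ
    / (k.factorial * r * D * D * 10 ^ 9) else 0

def cM (J m k r D σ M0 M1 M2 : ℕ) : ℕ :=
  Nat.div (cnum J m k r D σ) (Nat.sub
    (Nat.add (Nat.add (Nat.mul M0 (ca J m k σ 0)) (Nat.mul M1 (ca J m k σ 1)))
      (Nat.mul M2 (ca J m k σ 2)))
    (Nat.add (Nat.add (Nat.mul M0 (ca J m k σ 3)) (Nat.mul M1 (ca J m k σ 4)))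
      (Nat.mul M2 (ca J m k σ 5))))

def c0 (D : ℕ) : ℕ := 2 ^ 160 * n0 3 60 0 0 * 10000 / (D * D * 10 ^ 9 * 40001 * 60)

def q30 : ℕ := c0 1 * zz (tl fw 0) (tl rv 0) (tl fw 60) (tl rv 60)

def q31 : ℕ := sT 60 fun a => cM 2 60 1 1 6 a (u1 a) (u2 a) (u3 a) *
  zz (6 * tl fw 0) (6 * tl rv 0) (e1 fw a) (e1 rv a)

def q32 : ℕ := sT 60 fun a => sT 60 fun b => force (Nat.add a b) fun σ =>
  Nat.mul (cM 1 60 2 1 6 σ (u1 a * u1 b) (u2 a * u1 b + u1 a * u2 b)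
      (u3 a * u1 b + 2 * u2 a * u2 b + u1 a * u3 b))
    (zz (e02 fw σ) (e02 rv σ) (Nat.add (e1 fw a) (e1 fw b)) (Nat.add (e1 rv a) (e1 rv b)))

def czT (r j c : ℕ) : ℕ := (cz r j c).toNat

def DK (r k : ℕ) : ℕ := (k + 1).factorial * r ^ k

def eS (r k j o s : ℕ) : ℕ := DK r k / DK r j * sT (60 - r * o) fun c =>
  Nat.mul (psi s (Nat.add (Nat.mul r o) c)) (czT r j c)

def eRow (m r k j : ℕ) : ℕ := sT m fun o =>
  (eS r k j o 0 + eS r k j o 1 * 2 ^ 64 + eS r k j o 2 * 2 ^ 128) * 2 ^ (192 * o)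

def upd (P N : ℕ → ℕ) (a j : ℕ) : ℕ :=
  Nat.add (P j) (Nat.shiftRight (N (Nat.succ j)) (Nat.mul 192 a))

def lp (m : ℕ) (fin : ℕ → ℕ → ℕ → ℕ → ℕ → ℕ → ℕ) (k : ℕ) :
    ℕ → ℕ → ℕ → ℕ → (ℕ → ℕ) → (ℕ → ℕ) → ℕ :=
  Nat.rec (fun σ M0 M1 M2 P N => fin σ M0 M1 M2 (P 0) (N 0))
    (fun _ ih σ M0 M1 M2 P N => sT m fun a => force (Nat.add σ a) fun σ' =>
      ih σ' (Nat.mul M0 (u1 a)) (Nat.add (Nat.mul M1 (u1 a)) (Nat.mul M0 (u2 a)))
        (Nat.add (Nat.add (Nat.mul M2 (u1 a)) (Nat.mul (Nat.mul 2 M1) (u2 a))) (Nat.mul M0 (u3 a)))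
        (upd P N a) (upd N P a)) k

def dsq (x y : ℕ) : ℕ := Nat.pow (Nat.add (Nat.sub x y) (Nat.sub y x)) 2

def zP (p q : ℕ) : ℕ :=
  Nat.add (Nat.add (Nat.mul 820 (dsq (dg p 64 0) (dg q 64 0)))
    (Nat.mul 455 (dsq (dg p 64 1) (dg q 64 1)))) (Nat.mul 495 (dsq (dg p 64 2) (dg q 64 2)))

def q50 : ℕ := c0 820 * sT 3 fun s => mu s * (sT 60 fun c => psi s c) ^ 2

def q5 (m k r : ℕ) : ℕ :=
  lp m (fun σ M0 M1 M2 p q => Nat.mul (cM (5 - k) m k r (820 * DK r k) σ M0 M1 M2) (zP p q)) k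
    0 1 0 0 (eRow m r k) (fun _ => 0)

end Pool.Agent.P.MP_dddec0_nt.L33
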