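import Pool.Agent.P.MP_dddec0_nt.L33CertA
import Pool.Agent.P.MP_dddec0_nt.L33CertB

namespace Pool.Agent.P.MP_dddec0_nt.L33
open Finset Real

theorem ce_succ (X w i : ℕ) : dg X w (i + 1) = dg (X / 2 ^ w) w i := by
  rw [dg_eq, dg_eq, Nat.div_div_eq_div_mul, ← pow_add, mul_add, mul_one, add_comm]

theorem ce_zero (X w : ℕ) : dg X w 0 = X % 2 ^ w := by
  rw [dg_eq, mul_zero, pow_zero, Nat.div_one]

theorem dg_add {X Y w : ℕ} (h : ∀ i, dg X w i + dg Y w i < 2 ^ w) (i : ℕ) :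
    dg (X + Y) w i = dg X w i + dg Y w i := by
  induction i generalizing X Y with
  | zero =>
    have h0 := h 0
    simp only [ce_zero] at h0 ⊢
    exact Nat.add_mod_of_add_mod_lt h0
  | succ i ih =>
    have h0 := h 0
    simp only [ce_zero] at h0
    simp only [ce_succ]
    rw [Nat.add_div_eq_of_add_mod_lt h0]
    exact ih fun t => by simpa only [ce_succ] using h (t + 1)

theorem dg_shift (X w c i : ℕ) : dg (Nat.shiftRight X (w * c)) w i = dg X w (i + c) := by
  have e : Nat.shiftRight X (w * c) = X / 2 ^ (w * c) := Nat.shiftRight_eq_div_pow _ _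
  rw [e, dg_eq, dg_eq, Nat.div_div_eq_div_mul, ← pow_add, mul_add, add_comm]

/-- Digits of a packed sum. -/
theorem dg_sum {w n : ℕ} (d : ℕ → ℕ) (hd : ∀ i < n, d i < 2 ^ w) (i : ℕ) :
    dg (∑ j ∈ range n, d j * 2 ^ (w * j)) w i = if i < n then d i else 0 := by
  induction n generalizing d i with
  | zero => simp [dg_eq]
  | succ n ih =>
    have e : ∑ j ∈ range (n + 1), d j * 2 ^ (w * j)
        = d 0 + 2 ^ w * ∑ j ∈ range n, d (j + 1) * 2 ^ (w * j) := by
      rw [sum_range_succ', mul_sum, add_comm, mul_zero, pow_zero, mul_one]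
      congr 1
      exact sum_congr rfl fun j _ => by ring
    have h0 := hd 0 n.succ_pos
    rw [e]
    cases i with
    | zero => rw [ce_zero, Nat.add_mul_mod_self_left, Nat.mod_eq_of_lt h0, if_pos n.succ_pos]
    | succ i =>
      rw [ce_succ, Nat.add_mul_div_left _ _ (Nat.two_pow_pos w), Nat.div_eq_of_lt h0, zero_add,
        ih (fun j => d (j + 1)) fun j hj => hd (j + 1) (Nat.succ_lt_succ hj)]
      simp only [Nat.add_lt_add_iff_right]

def updL : List ℕ → (ℕ → ℕ) → (ℕ → ℕ) → ℕ → ℕ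
  | [], P, _ => P
  | a :: as, P, N => updL as (upd P N a) (upd N P a)

theorem ce_lp (m : ℕ) (fin : ℕ → ℕ → ℕ → ℕ → ℕ → ℕ → ℕ) (k σ M0 M1 M2 : ℕ) (P N : ℕ → ℕ) :
    lp m fin (k + 1) σ M0 M1 M2 P N = sT m fun a => force (σ + a) fun σ' =>
      lp m fin k σ' (M0 * u1 a) (M1 * u1 a + M0 * u2 a) (M2 * u1 a + 2 * M1 * u2 a + M0 * u3 a)
        (upd P N a) (upd N P a) := rfl

/-- Hint: induction on `k` generalizing `σ M0 M1 M2 P N`. -/
theorem lp_eq (m : ℕ) (fin : ℕ → ℕ → ℕ → ℕ → ℕ → ℕ → ℕ) (k σ M0 M1 M2 : ℕ) (P N : ℕ → ℕ) :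
    (lp m fin k σ M0 M1 M2 P N : ℝ) = SL m k (fun as => (fin (σ + as.sum) (M0 * (momN as).1)
      (M1 * (momN as).1 + M0 * (momN as).2.1)
      (M2 * (momN as).1 + 2 * M1 * (momN as).2.1 + M0 * (momN as).2.2)
      (updL as P N 0) (updL as N P 0) : ℝ)) := by
  induction k generalizing σ M0 M1 M2 P N with
  | zero =>
    simp only [SL, momN, updL, List.sum_nil, add_zero, mul_one, mul_zero]
    rfl
  | succ k ih =>
    rw [ce_lp, sT_eq, Nat.cast_sum, SL]
    refine sum_congr rfl fun a _ => ?_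
    rw [force_eq, ih]
    congr 1
    funext as
    simp only [momN, updL, List.sum_cons]
    congr 2 <;> ring

theorem ce_congr {E E' : ℕ → ℕ → ℝ} (as : List ℕ) (j o : ℕ)
    (h : ∀ j' ≤ j + as.length, ∀ o', E j' o' = E' j' o') : ellR E as j o = ellR E' as j o := by
  induction as generalizing j o with
  | nil => exact h j le_rfl o
  | cons a as ih =>
    rw [List.length_cons] at h
    simp only [ellR]
    rw [ih j o fun j' hj => h j' (by omega), ih (j + 1) (o + a) fun j' hj => h j' (by omega)]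

theorem ce_sub (E : ℕ → ℕ → ℝ) (a : ℕ) (as : List ℕ) (j o : ℕ) :
    ellR (fun j o => E j o - E (j + 1) (o + a)) as j o
      = ellR E as j o - ellR E as (j + 1) (o + a) := by
  induction as generalizing j o with
  | nil => rfl
  | cons b as ih =>
    simp only [ellR]
    rw [ih, ih, add_right_comm o b a]
    ring

theorem ce_upd {P N : ℕ → ℕ} {B j : ℕ} (a : ℕ) (hB : 2 * B < 2 ^ 64)
    (h1 : ∀ i, dg (P j) 64 i ≤ B) (h2 : ∀ i, dg (N (j + 1)) 64 i ≤ B) (i : ℕ) :
    dg (upd P N a j) 64 i = dg (P j) 64 i + dg (N (j + 1)) 64 (i + 3 * a) := by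
  have e : upd P N a j = P j + Nat.shiftRight (N (j + 1)) (64 * (3 * a)) := by
    rw [← mul_assoc]
    rfl
  rw [e, dg_add, dg_shift]
  intro t
  rw [dg_shift]
  have := h1 t
  have := h2 (t + 3 * a)
  omega

/-- Hint: induction on `as` generalizing `P N B`; `dg_add`, `dg_shift` (`192 a = 64 (3 a)`), and
`ellR (fun j o => E j o - E (j + 1) (o + a)) as j o = ellR E as j o - ellR E as (j + 1) (o + a)`;
`ellR E as j o` only depends on the values `E j'` with `j' ≤ j + as.length`. -/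
theorem updL_dg (as : List ℕ) (P N : ℕ → ℕ) (B j o s : ℕ) (hB : 2 ^ as.length * B < 2 ^ 64)
    (h : ∀ j' ≤ j + as.length, ∀ i, dg (P j') 64 i ≤ B ∧ dg (N j') 64 i ≤ B) :
    (dg (updL as P N j) 64 (3 * o + s) : ℝ) - dg (updL as N P j) 64 (3 * o + s)
      = ellR (fun j o => (dg (P j) 64 (3 * o + s) : ℝ) - dg (N j) 64 (3 * o + s)) as j o := by
  induction as generalizing P N B with
  | nil => rfl
  | cons a as ih =>
    rw [List.length_cons] at h hB
    have hB1 : 2 ^ as.length * (2 * B) < 2 ^ 64 := by rwa [← mul_assoc, ← pow_succ]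
    have hB2 : 2 * B < 2 ^ 64 :=
      lt_of_le_of_lt (Nat.le_mul_of_pos_left _ (Nat.two_pow_pos _)) hB1
    have hP : ∀ j' ≤ j + as.length, ∀ i, dg (upd P N a j') 64 i
        = dg (P j') 64 i + dg (N (j' + 1)) 64 (i + 3 * a) := fun j' hj =>
      ce_upd a hB2 (fun t => (h j' (by omega) t).1) fun t => (h (j' + 1) (by omega) t).2
    have hN : ∀ j' ≤ j + as.length, ∀ i, dg (upd N P a j') 64 i
        = dg (N j') 64 i + dg (P (j' + 1)) 64 (i + 3 * a) := fun j' hj =>
      ce_upd a hB2 (fun t => (h j' (by omega) t).2) fun t => (h (j' + 1) (by omega) t).1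
    simp only [updL, ellR]
    rw [ih (upd P N a) (upd N P a) (2 * B) hB1, ← ce_sub]
    · refine ce_congr as j o fun j' hj o' => ?_
      rw [hP j' hj, hN j' hj, show 3 * (o' + a) + s = 3 * o' + s + 3 * a by ring]
      push_cast
      ring
    · intro j' hj i
      rw [hP j' hj, hN j' hj]
      have h1 := h j' (by omega) i
      have h2 := h (j' + 1) (by omega) (i + 3 * a)
      omega

theorem ce_dsq (x y : ℕ) : (dsq x y : ℝ) = ((x : ℝ) - y) ^ 2 := by
  have e : dsq x y = (x - y + (y - x)) ^ 2 := rfl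
  rw [e]
  rcases le_total x y with h | h
  · rw [Nat.sub_eq_zero_of_le h, zero_add, Nat.cast_pow, Nat.cast_sub h]
    ring
  · rw [Nat.sub_eq_zero_of_le h, add_zero, Nat.cast_pow, Nat.cast_sub h]

theorem zP_eq (p q : ℕ) : (zP p q : ℝ) = 820 * ((dg p 64 0 : ℝ) - dg q 64 0) ^ 2
    + 455 * ((dg p 64 1 : ℝ) - dg q 64 1) ^ 2 + 495 * ((dg p 64 2 : ℝ) - dg q 64 2) ^ 2 := by
  have e : zP p q = 820 * dsq (dg p 64 0) (dg q 64 0) + 455 * dsq (dg p 64 1) (dg q 64 1)
      + 495 * dsq (dg p 64 2) (dg q 64 2) := rfl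
  rw [e]
  push_cast
  rw [ce_dsq, ce_dsq, ce_dsq]

theorem ce_row (e : ℕ → ℕ → ℕ) (m : ℕ) :
    ∑ o ∈ range m, (e o 0 + e o 1 * 2 ^ 64 + e o 2 * 2 ^ 128) * 2 ^ (192 * o)
      = ∑ i ∈ range (3 * m), e (i / 3) (i % 3) * 2 ^ (64 * i) := by
  induction m with
  | zero => rfl
  | succ m ih =>
    rw [sum_range_succ, ih, show 3 * (m + 1) = 3 * m + 1 + 1 + 1 by ring, sum_range_succ,
      sum_range_succ, sum_range_succ, show 3 * m / 3 = m by omega, show 3 * m % 3 = 0 by omega,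
      show (3 * m + 1) / 3 = m by omega, show (3 * m + 1) % 3 = 1 by omega,
      show (3 * m + 1 + 1) / 3 = m by omega, show (3 * m + 1 + 1) % 3 = 2 by omega,
      show 64 * (3 * m) = 192 * m by ring, show 64 * (3 * m + 1) = 64 + 192 * m by ring,
      show 64 * (3 * m + 1 + 1) = 128 + 192 * m by ring, pow_add, pow_add]
    generalize (2 : ℕ) ^ 64 = A
    generalize (2 : ℕ) ^ 128 = C
    ring

/-- Hint: regroup as one sum over `i < 3 m` in base `2 ^ 64`, `dg_sum`. -/
theorem eRow_dg {m r k j : ℕ} (h : ∀ o < m, ∀ s < 3, eS r k j o s ≤ 2 ^ 50) (o : ℕ) {s : ℕ}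
    (hs : s < 3) : dg (eRow m r k j) 64 (3 * o + s) = if o < m then eS r k j o s else 0 := by
  rw [eRow, sT_eq]
  generalize eS r k j = e at h ⊢
  rw [ce_row, dg_sum (fun i => e (i / 3) (i % 3)) fun i hi =>
    lt_of_le_of_lt (h _ (by omega) _ (by omega)) (by norm_num),
    show (3 * o + s) / 3 = o by omega, show (3 * o + s) % 3 = s by omega]
  exact if_congr (by omega) rfl rfl

end Pool.Agent.P.MP_dddec0_nt.L33
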