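import Pool.Agent.P.MP_dddec0_nt.L33CertD

namespace Pool.Agent.P.MP_dddec0_nt.L33

def chkE (m k r : ℕ) : Bool := allTo (k + 1) fun j => allTo m fun o => allTo 3 fun s =>
  Nat.ble (eS r k j o s) (2 ^ 50)

theorem k50 : Nat.ble (215517003 * 2 ^ 160) q50 = true := by decide +kernel

theorem k51 : (chkE 60 1 1 && Nat.ble (227958427 * 2 ^ 160) (q5 60 1 1)) = true := by
  decide +kernel

theorem k52 : (chkE 60 2 1 && Nat.ble (108213717 * 2 ^ 160) (q5 60 2 1)) = true := by
  decide +kernel

theorem k53 : (chkE 30 3 2 && Nat.ble (29489632 * 2 ^ 160) (q5 30 3 2)) = true := by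
  decide +kernel

theorem k54 : (chkE 15 4 4 && Nat.ble (5338974 * 2 ^ 160) (q5 15 4 4)) = true := by
  decide +kernel

theorem kcz : allTo 5 (fun r => allTo 5 fun j => allTo 60 fun c => decide (0 ≤ cz r j c))
    = true := by decide +kernel

end Pool.Agent.P.MP_dddec0_nt.L33
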