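import Pool.Agent.P.MP_dddec0_nt.L33CertE
import Pool.Agent.P.MP_dddec0_nt.L33CertL
import Pool.Agent.P.MP_dddec0_nt.L33Avg

namespace Pool.Agent.P.MP_dddec0_nt.L33
open Finset Real

attribute [local irreducible] tcol tp fw rv tl eRow raw psi

theorem e2_dZ (r e i : ℕ) {c : ℤ} (hc : c ≤ 0) : dZ r (e + 1) i c = 0 := by
  induction i generalizing c with
  | zero =>
    unfold dZ
    rw [Int.toNat_eq_zero.2 hc]
    simp
  | succ i ih =>
    unfold dZ
    rw [ih hc, ih (by omega), sub_zero]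

theorem e2_shift (t : ℕ) {F : ℕ → ℝ} (h : ∀ a < t, F a = 0) :
    ∑ a ∈ range 60, F a = ∑ c ∈ range (60 - t), F (t + c) := by
  rcases le_total t 60 with ht | ht
  · have e : ∑ a ∈ range 60, F a = ∑ a ∈ range (t + (60 - t)), F a := by
      rw [Nat.add_sub_cancel' ht]
    rw [e, sum_range_add, sum_eq_zero fun a ha => h a (mem_range.1 ha), zero_add]
  · rw [Nat.sub_eq_zero_of_le ht, sum_range_zero]
    exact sum_eq_zero fun a ha => h a ((mem_range.1 ha).trans_le ht)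

theorem e2_cz {r j c : ℕ} (hr : r ≤ 4) (hj : j ≤ 4) (hc : c < 60) :
    ((cz r j c : ℤ) : ℝ) = (czT r j c : ℝ) := by
  have h1 := (allTo_iff _ _).1 ((allTo_iff _ _).1 ((allTo_iff _ _).1 kcz r (by omega)) j
    (by omega)) c hc
  have h2 : 0 ≤ cz r j c := of_decide_eq_true h1
  unfold czT
  generalize cz r j c = z at h2 ⊢
  rw [← Int.cast_natCast, Int.toNat_of_nonneg h2]

theorem e2_ell {E E' : ℕ → ℕ → ℝ} (c : ℝ) (as : List ℕ) (j o : ℕ)
    (h : ∀ j' ≤ j + as.length, ∀ o, E j' o = E' j' o / c) :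
    ellR E as j o = ellR E' as j o / c := by
  induction as generalizing j o with
  | nil => exact h j (by simp) o
  | cons a as ih =>
    rw [List.length_cons] at h
    unfold ellR
    rw [ih j o fun j' hj => h j' (by omega), ih (j + 1) (o + a) fun j' hj => h j' (by omega),
      sub_div]

theorem e2_ble {c q : ℕ} (h : Nat.ble (c * 2 ^ 160) q = true) :
    (c : ℝ) / 60 ≤ (q : ℝ) / (2 ^ 160 * 60) := by
  have h1 : c * 2 ^ 160 ≤ q := Nat.le_of_ble_eq_true h
  have h2 : (c : ℝ) * 2 ^ 160 ≤ q := by exact_mod_cast h1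
  have h3 : (0 : ℝ) < 2 ^ 160 := by positivity
  generalize (2 : ℝ) ^ 160 = T at h2 h3 ⊢
  rw [div_le_div_iff₀ (by norm_num) (by positivity)]
  nlinarith

theorem e2_Rf (s : ℕ) : Rf (1 / 60) 60 (Gr s) 0
    = (∑ c ∈ range 60, (psi s c : ℝ)) / (60 * (820 : ℕ)) := by
  unfold Rf
  rw [sum_div]
  refine sum_congr rfl fun a _ => ?_
  unfold Gr Pool.Agent.Lib.Tup.rho
  rw [sub_zero, sub_zero, max_eq_left (by positivity), max_eq_left (by positivity)]
  push_cast
  ring

theorem cz_neg (r j : ℕ) {c : ℤ} (hc : c < 0) : cz r j c = 0 := by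
  unfold cz
  rw [e2_dZ r j j (by omega), e2_dZ r j j hc.le, sub_zero]

/-- Hint: `avg_Rf` (`1 / m = r * (1 / 60)`), `cz_neg`, `kcz`, `DK r j ∣ DK r k`; for `m ≤ o`
both sides vanish. -/
theorem avg_eS {m r k j : ℕ} (hm : m * r = 60) (hr : r ≤ 4) (hk : k ≤ 4) (hj : j ≤ k) (o s : ℕ) :
    (avg (1 / m))^[j] (Rf (1 / 60) 60 (Gr s)) (o * (1 / m))
      = ((if o < m then eS r k j o s else 0 : ℕ) : ℝ) / (60 * (820 * DK r k : ℕ)) := by
  have hr0 : 0 < r := Nat.pos_of_ne_zero fun h => by simp [h] at hm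
  have hm0 : 0 < m := Nat.pos_of_ne_zero fun h => by simp [h] at hm
  have hw : (1 / m : ℝ) = r * (1 / 60) := by
    have h1 : (m : ℝ) * r = 60 := by exact_mod_cast hm
    have h2 : (m : ℝ) ≠ 0 := by positivity
    rw [← h1]
    field_simp
  have hif : (if o < m then eS r k j o s else 0) = eS r k j o s := by
    split_ifs with h
    · rfl
    · have h1 : 60 - r * o = 0 := by
        have := Nat.mul_le_mul_left r (not_lt.1 h)
        rw [mul_comm r m, hm] at this
        omega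
      unfold eS
      rw [h1, sT_eq, sum_range_zero, mul_zero]
  obtain ⟨q, hq⟩ : DK r j ∣ DK r k :=
    mul_dvd_mul (Nat.factorial_dvd_factorial (by omega)) (pow_dvd_pow r hj)
  have hj0 : 0 < DK r j := Nat.mul_pos (Nat.factorial_pos _) (pow_pos hr0 _)
  have hk0 : 0 < DK r k := Nat.mul_pos (Nat.factorial_pos _) (pow_pos hr0 _)
  have hq0 : 0 < q := Nat.pos_of_ne_zero fun h => by rw [h, mul_zero] at hq; omega
  have hD : (((j + 1).factorial : ℕ) : ℝ) * (r : ℝ) ^ j = (DK r j : ℝ) := by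
    unfold DK
    push_cast
    rfl
  have hS : ∑ a ∈ range 60, Gr s a * (cz r j ((a : ℤ) - r * o) : ℝ)
      = (∑ c ∈ range (60 - r * o), (psi s (r * o + c) : ℝ) * (czT r j c : ℝ)) / 820 := by
    rw [e2_shift (r * o), sum_div]
    · refine sum_congr rfl fun c hc => ?_
      have e : ((r * o + c : ℕ) : ℤ) - r * o = c := by
        push_cast
        ring
      rw [e, e2_cz hr (by omega) (by have := mem_range.1 hc; omega)]
      unfold Gr
      ring
    · intro a ha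
      have e : (a : ℤ) - r * o < 0 := by
        have : (a : ℤ) < ((r * o : ℕ) : ℤ) := by exact_mod_cast ha
        push_cast at this
        omega
      rw [cz_neg r j e, Int.cast_zero, mul_zero]
  rw [hif, hw, avg_Rf (by norm_num) hr0, hS, hD]
  unfold eS
  rw [sT_eq, hq, Nat.mul_div_cancel_left q hj0]
  simp only [Nat.mul_eq, Nat.add_eq]
  push_cast
  have h1 : (DK r j : ℝ) ≠ 0 := by positivity
  have h2 : (q : ℝ) ≠ 0 := by positivity
  field_simp

/-- Hint: `lp_eq`, `zP_eq`, `updL_dg` with `B = 2 ^ 50`, `j = o = 0`, `eRow_dg`, `Lf_eq`, `avg_eS`,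
`qk_ge` with `s = range 3`, `μ = mu`, `D = 820 * DK r k`. -/
theorem q5_level {m r k : ℕ} (hm : m * r = 60) (hr : r ≤ 4) (hk1 : 1 ≤ k) (hk : k ≤ 4)
    (hE : chkE m k r = true) :
    (q5 m k r : ℝ) / (2 ^ 160 * 60) ≤ 820 * QK (5 - k) m k (Rf (1 / 60) 60 (Gr 0))
      + 455 * QK (5 - k) m k (Rf (1 / 60) 60 (Gr 1))
      + 495 * QK (5 - k) m k (Rf (1 / 60) 60 (Gr 2)) := by
  have hr0 : 0 < r := Nat.pos_of_ne_zero fun h => by simp [h] at hm
  have hk0 : 0 < 820 * DK r k :=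
    Nat.mul_pos (by norm_num) (Nat.mul_pos (Nat.factorial_pos _) (pow_pos hr0 _))
  have hb : ∀ j ≤ k, ∀ o < m, ∀ s < 3, eS r k j o s ≤ 2 ^ 50 := fun j hj o ho s hs =>
    Nat.le_of_ble_eq_true ((allTo_iff _ _).1 ((allTo_iff _ _).1 ((allTo_iff _ _).1 hE j
      (Nat.lt_succ_of_le hj)) o ho) s hs)
  have hz : ∀ i, dg 0 64 i = 0 := fun i => by rw [dg_eq, Nat.zero_div, Nat.zero_mod]
  have key := qk_ge (J := 5 - k) hm hk1 hk0 (range 3) (fun s => (mu s : ℝ))
    (fun s _ => Nat.cast_nonneg _) (fun s => Rf (1 / 60) 60 (Gr s))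
    (fun s as => (dg (updL as (eRow m r k) (fun _ => 0) 0) 64 (3 * 0 + s) : ℝ)
      - dg (updL as (fun _ => 0) (eRow m r k) 0) 64 (3 * 0 + s)) ?_
    (fun as => (zP (updL as (eRow m r k) (fun _ => 0) 0)
      (updL as (fun _ => 0) (eRow m r k) 0) : ℝ)) ?_
  · have e1 : ∑ x ∈ range 3, (mu x : ℝ) * QK (5 - k) m k (Rf (1 / 60) 60 (Gr x))
        = 820 * QK (5 - k) m k (Rf (1 / 60) 60 (Gr 0))
          + 455 * QK (5 - k) m k (Rf (1 / 60) 60 (Gr 1))
          + 495 * QK (5 - k) m k (Rf (1 / 60) 60 (Gr 2)) := by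
      rw [sum_range_succ, sum_range_succ, sum_range_one]
      norm_num [mu]
    rw [← e1]
    refine le_trans (le_of_eq ?_) key
    unfold q5
    rw [lp_eq]
    simp only [zero_add, one_mul, zero_mul, mul_zero, Nat.mul_eq, Nat.cast_mul]
  · intro s hs as hl _
    have hs3 : s < 3 := mem_range.1 hs
    have h1 := Lf_eq (1 / m) (Rf_cont (1 / 60) 60 (Gr s)) as 0 0
    rw [Function.iterate_zero_apply, Nat.cast_zero, zero_mul] at h1
    have hB : 2 ^ as.length * 2 ^ 50 < 2 ^ 64 := by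
      rw [← pow_add]
      exact Nat.pow_lt_pow_right (by norm_num) (by omega)
    rw [h1, updL_dg as (eRow m r k) (fun _ => 0) (2 ^ 50) 0 0 s hB]
    · refine e2_ell _ as 0 0 fun j hj o => ?_
      have hjk : j ≤ k := by omega
      rw [avg_eS hm hr hk hjk, eRow_dg (hb j hjk) o hs3, hz, Nat.cast_zero, sub_zero]
    · intro j hj i
      have hjk : j ≤ k := by omega
      refine ⟨?_, by rw [hz]; exact Nat.zero_le _⟩
      have h3 : i % 3 < 3 := Nat.mod_lt _ (by norm_num)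
      rw [← Nat.div_add_mod i 3, eRow_dg (hb j hjk) (i / 3) h3]
      split_ifs with h
      · exact hb j hjk _ h _ h3
      · exact Nat.zero_le _
  · intro as _ _
    rw [zP_eq, sum_range_succ, sum_range_succ, sum_range_one]
    generalize updL as (eRow m r k) (fun _ => 0) 0 = X
    generalize updL as (fun _ => 0) (eRow m r k) 0 = Y
    norm_num [mu]

/-- Hint: drop the pairs with `58 < a + b` (`QQ_nonneg`), `sum_blk`, `QQ_five`, `q0_ge` with
`D = 820`, `q5_level`, `k50 .. k54`. -/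
theorem q5_le : (586517753 : ℝ) / 60
    ≤ ∑ a ∈ range 60, ∑ b ∈ range 60, QQ 5 4 (Rf (1 / 60) 60 (Fr' a b)) := by
  have h1 : ∑ a ∈ range 60, ∑ b ∈ range 60,
      (if a + b ≤ 58 then QQ 5 4 (Rf (1 / 60) 60 (Gr (blk (a + b)))) else 0)
      ≤ ∑ a ∈ range 60, ∑ b ∈ range 60, QQ 5 4 (Rf (1 / 60) 60 (Fr' a b)) := by
    refine sum_le_sum fun a _ => sum_le_sum fun b _ => ?_
    split_ifs with h
    · have e : Fr' a b = Gr (blk (a + b)) := funext fun c => if_pos h
      rw [e]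
    · exact QQ_nonneg _ _ _
  refine le_trans ?_ h1
  rw [sum_blk fun s => QQ 5 4 (Rf (1 / 60) 60 (Gr s)), QQ_five, QQ_five, QQ_five]
  have a0 := fun s => q0_ge (R := 5) (D := 820) (by norm_num) (by norm_num) (e2_Rf s)
  have b0 := e2_ble k50
  have c0' : (q50 : ℝ) = c0 820 * (820 * (∑ c ∈ range 60, (psi 0 c : ℝ)) ^ 2
      + 455 * (∑ c ∈ range 60, (psi 1 c : ℝ)) ^ 2 + 495 * (∑ c ∈ range 60, (psi 2 c : ℝ)) ^ 2) := by
    unfold q50
    rw [sT_eq, sum_range_succ, sum_range_succ, sum_range_one, sT_eq, sT_eq, sT_eq]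
    generalize c0 820 = c
    have m0 : mu 0 = 820 := rfl
    have m1 : mu 1 = 455 := rfl
    have m2 : mu 2 = 495 := rfl
    rw [m0, m1, m2]
    simp only [Nat.cast_mul, Nat.cast_add, Nat.cast_pow, Nat.cast_sum, Nat.cast_ofNat]
  have k1 := Bool.and_eq_true_iff.1 k51
  have k2 := Bool.and_eq_true_iff.1 k52
  have k3' := Bool.and_eq_true_iff.1 k53
  have k4 := Bool.and_eq_true_iff.1 k54
  have l1 := (e2_ble k1.2).trans (q5_level rfl (by norm_num) le_rfl (by norm_num) k1.1)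
  have l2 := (e2_ble k2.2).trans (q5_level rfl (by norm_num) (by norm_num) (by norm_num) k2.1)
  have l3 := (e2_ble k3'.2).trans (q5_level rfl (by norm_num) (by norm_num) (by norm_num) k3'.1)
  have l4 := (e2_ble k4.2).trans (q5_level rfl (by norm_num) (by norm_num) (by norm_num) k4.1)
  have a1 := a0 0
  have a2 := a0 1
  have a3 := a0 2
  rw [c0'] at b0
  clear a0 c0' k1 k2 k3' k4 h1
  rw [show 5 - 1 = 4 from rfl] at l1
  rw [show 5 - 2 = 3 from rfl] at l2
  rw [show 5 - 3 = 2 from rfl] at l3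
  rw [show 5 - 4 = 1 from rfl] at l4
  simp only [Nat.cast_ofNat] at l1 l2 l3 l4 b0
  generalize (∑ c ∈ range 60, (psi 0 c : ℝ)) ^ 2 = x0 at *
  generalize (∑ c ∈ range 60, (psi 1 c : ℝ)) ^ 2 = x1 at *
  generalize (∑ c ∈ range 60, (psi 2 c : ℝ)) ^ 2 = x2 at *
  generalize (c0 820 : ℝ) = c at *
  generalize (2 : ℝ) ^ 160 * 60 = T at *
  have e : c * (820 * x0 + 455 * x1 + 495 * x2) / T
      = 820 * (c * x0 / T) + 455 * (c * x1 / T) + 495 * (c * x2 / T) := by ring
  rw [e] at b0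
  linarith

end Pool.Agent.P.MP_dddec0_nt.L33
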