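import Pool.Agent.P.MP_dddec0_nt.L33CertD

namespace Pool.Agent.P.MP_dddec0_nt.L33

theorem kS : chkS = true := by decide +kernel

theorem kT : (chkT && chkU && Nat.ble 20300422825 TTn) = true := by decide +kernel

theorem kF : Nat.ble sqFn 568091613 = true := by decide +kernel

theorem kP : Nat.ble sqP 396180585762560 = true := by decide +kernel

theorem k3 : Nat.ble (487381914 * 2 ^ 160) (q30 + q31 + q32) = true := by decide +kernel

theorem kx : allTo 900 (fun x => decide (idx (xa x) (xb x) = x ∧ xa x ≤ xb x ∧ xa x + xb x ≤ 58))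
    = true := by decide +kernel

theorem ky : allTo 59 (fun a => allTo (59 - a) fun b => decide (idx a b < 900 ∧
    xa (idx a b) = min a b ∧ xb (idx a b) = max a b)) = true := by decide +kernel

theorem ktp : tp 0 < 2 ^ (20 * 59) ∧ tp 1 < 2 ^ (20 * 49) ∧ tp 2 < 2 ^ (20 * 40) := by
  decide +kernel

end Pool.Agent.P.MP_dddec0_nt.L33
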