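import Pool.Agent.P.MP_dddec0_nt.L33Box

namespace Pool.Agent.P.MP_dddec0_nt.L33
open Finset Real Filter Pool.Agent.Lib.Tup

theorem dec_esymm {f : ℕ → ℝ} (P : Finset ℕ) (hf : ∀ p ∈ P, 0 ≤ f p) (k : ℕ) :
    ∑ A ∈ powersetCard k P, ∏ p ∈ A, f p ≤ (∑ p ∈ P, f p) ^ k := by
  induction P using Finset.induction_on generalizing k with
  | empty =>
    cases k with
    | zero => simp
    | succ k => rw [powersetCard_eq_empty.2 (by simp)]; simp
  | insert a P ha ih =>
    cases k with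
    | zero => simp
    | succ k =>
      have hP : ∀ p ∈ P, 0 ≤ f p := fun p hp => hf p (mem_insert_of_mem hp)
      have hfa : 0 ≤ f a := hf a (mem_insert_self _ _)
      have hS : 0 ≤ ∑ p ∈ P, f p := sum_nonneg hP
      rw [powersetCard_succ_insert ha, sum_union, sum_image, sum_insert ha]
      · have e : ∑ A ∈ powersetCard k P, ∏ p ∈ insert a A, f p
            = f a * ∑ A ∈ powersetCard k P, ∏ p ∈ A, f p := by
          rw [mul_sum]
          refine sum_congr rfl fun A hA => ?_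
          rw [prod_insert fun h => ha ((mem_powersetCard.1 hA).1 h)]
        rw [e]
        have h1 := ih hP (k + 1)
        have h2 := mul_le_mul_of_nonneg_left (ih hP k) hfa
        have h3 : (∑ p ∈ P, f p) ^ k ≤ (f a + ∑ p ∈ P, f p) ^ k :=
          pow_le_pow_left₀ hS (by linarith) k
        have h4 := mul_le_mul_of_nonneg_left h3 (add_nonneg hfa hS)
        rw [pow_succ'] at h1 ⊢
        linarith
      · intro A hA A' hA' h
        have h1 : a ∉ A := fun h => ha ((mem_powersetCard.1 hA).1 h)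
        have h2 : a ∉ A' := fun h => ha ((mem_powersetCard.1 hA').1 h)
        rw [← erase_insert h1, ← erase_insert h2, h]
      · rw [disjoint_left]
        intro A hA hA'
        obtain ⟨A', -, rfl⟩ := mem_image.1 hA'
        exact ha ((mem_powersetCard.1 hA).1 (mem_insert_self _ _))

theorem dec_GA_le {B : ℝ} {g : ℝ → ℝ} (hg : ∀ u, |g u| ≤ B) (l : ℝ) (A : Finset ℕ) (u : ℝ) :
    |GA l g A u| ≤ 2 ^ A.card * B := by
  unfold GA
  refine (abs_sum_le_sum_abs _ _).trans ?_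
  refine (sum_le_card_nsmul _ _ B fun S _ => ?_).trans ?_
  · rw [abs_mul, abs_pow, abs_neg, abs_one, one_pow, one_mul]
    exact hg _
  · rw [card_powerset, nsmul_eq_mul]
    push_cast
    exact le_rfl

theorem dec_merge (s P : Finset ℕ) {h : Finset ℕ → ℝ} (hh : ∀ A, 0 ≤ h A) :
    ∑ k ∈ s, ∑ A ∈ powersetCard k P, h A ≤ ∑ A ∈ P.powerset, h A := by
  rw [← sum_biUnion fun i _ j _ hij => pairwise_disjoint_powersetCard P hij]
  refine sum_le_sum_of_subset_of_nonneg (fun A hA => ?_) fun A _ _ => hh A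
  obtain ⟨k, -, hk⟩ := mem_biUnion.1 hA
  exact mem_powerset.2 (mem_powersetCard.1 hk).1

/-- Hint: `|GA| ≤ 2 ^ k B`, `∑ 1 / p` over `cellP l η 1` is at most `2 / η` (`cell_test` with
`φ = 1`, `1 / p ≤ (lg l p / p) / η`), and the sum over the sets of `∏ 1 / p` is at most
`(∑ 1 / p) ^ k` (or use `TS_replicate`). -/
theorem level_le {B : ℝ} (k : ℕ) {g : ℝ → ℝ} (hg : ∀ u, |g u| ≤ B) {η : ℝ} (hη : 0 < η)
    (hη1 : η ≤ 1) :
    ∀ᶠ l : ℝ in atTop, ∑ A ∈ powersetCard k (cellP l η 1),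
      GA l g A 0 ^ 2 / (∏ p ∈ A, p : ℕ) ≤ (2 ^ k * B) ^ 2 * (2 / η) ^ k := by
  filter_upwards [cell_test (e := 1) one_pos, eventually_gt_atTop (0 : ℝ)] with l h1 hl
  have h2 := h1 η 1 1 (fun _ => 1) hη.le hη1 (by norm_num) (fun _ _ _ => by simp)
    (fun s t _ _ _ _ => by simp)
  have h3 : ∑ p ∈ cellP l η 1, lg l p / p ≤ 2 := by
    have := (abs_le.1 h2).2
    simp only [mul_one, intervalIntegral.integral_const, smul_eq_mul] at this
    linarith
  have h4 : ∑ p ∈ cellP l η 1, (1 : ℝ) / p ≤ 2 / η := by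
    rw [le_div_iff₀ hη, sum_mul]
    refine le_trans (sum_le_sum fun p hp => ?_) h3
    have h5 := ((mem_cellP hl (by norm_num)).1 hp).2.1
    rw [one_div_mul_eq_div]
    exact div_le_div_of_nonneg_right h5 (Nat.cast_nonneg _)
  have h5 := dec_esymm (f := fun p => (1 : ℝ) / p) (cellP l η 1) (fun p _ => by positivity) k
  have h6 : (∑ p ∈ cellP l η 1, (1 : ℝ) / p) ^ k ≤ (2 / η) ^ k :=
    pow_le_pow_left₀ (sum_nonneg fun p _ => by positivity) h4 k
  refine le_trans ?_ (mul_le_mul_of_nonneg_left (h5.trans h6) (sq_nonneg (2 ^ k * B)))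
  rw [mul_sum]
  refine sum_le_sum fun A hA => ?_
  have h7 := dec_GA_le hg l A 0
  rw [(mem_powersetCard.1 hA).2] at h7
  have h8 : GA l g A 0 ^ 2 ≤ (2 ^ k * B) ^ 2 := sq_le_sq' (abs_le.1 h7).1 (abs_le.1 h7).2
  rw [prod_div_distrib, prod_const_one, mul_one_div, Nat.cast_prod]
  exact div_le_div_of_nonneg_right h8 (prod_nonneg fun p _ => Nat.cast_nonneg _)

open Classical in
/-- Small part times big part. Hint: the map `(A, B) ↦ ∏ A * ∏ B` is injective on pairs of a set
of small primes and a set of big primes (`Nat.primeFactors_prod`), `GA_union`; drop the terms with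
`ψ = 0`, the others give `m < NN l` (`lt_NN`, `Bump.supp`). -/
theorem decomp {ψ : ℝ → ℝ} {s0 s1 : ℝ} (hψ : Bump ψ s0 s1) {l η : ℝ} (hl : 0 < l) (hη : 0 < η)
    (hη1 : η ≤ 1 / 2) (W b R K : ℕ) {g : ℝ → ℝ} (hg : ∀ t, 1 ≤ t → g t = 0) :
    ∑ k ∈ range (K + 1), ∑ A ∈ powersetCard k (cellP l (2 * η) 1),
        GA l g A 0 ^ 2 / (∏ p ∈ A, p : ℕ) * ∑ j ∈ Icc 1 (R - k), BM ψ l W b (∏ p ∈ A, p) j
      ≤ ∑ m ∈ (cls l W b).filter (RS η l),
          wg ψ l m * gR R m.primeFactors.card * GA l g m.primeFactors 0 ^ 2 := by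
  set P := cellP l (2 * η) 1 with hP
  set Q := cellP l 1 5 with hQ
  set S := (cls l W b).filter (RS η l) with hS
  set t : ℕ → ℝ := fun m =>
    wg ψ l m * gR R m.primeFactors.card * GA l g m.primeFactors 0 ^ 2 with ht
  have ht0 : ∀ m, 0 ≤ t m := fun m => by
    refine mul_nonneg (mul_nonneg (div_nonneg (hψ.nonneg _) (Nat.cast_nonneg _)) ?_) (sq_nonneg _)
    unfold gR
    split_ifs <;> norm_num
  set F : ℕ → ℝ := fun m => if m ∈ S then t m else 0 with hF
  have hF0 : ∀ m, 0 ≤ F m := fun m => by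
    simp only [hF]
    split_ifs
    · exact ht0 m
    · exact le_rfl
  have mP : ∀ p ∈ P, p.Prime ∧ 2 * η ≤ lg l p ∧ lg l p < 1 := fun p hp =>
    (mem_cellP hl (by norm_num)).1 hp
  have mQ : ∀ p ∈ Q, p.Prime ∧ 1 ≤ lg l p ∧ lg l p < 5 := fun p hp =>
    (mem_cellP hl le_rfl).1 hp
  have hPQ : Disjoint P Q := disjoint_left.2 fun p h1 h2 => by
    have := (mP p h1).2.2
    have := (mQ p h2).2.1
    linarith
  have hun : ∀ A ⊆ P, ∀ C ⊆ Q, Disjoint A C ∧ (∀ p ∈ A ∪ C, p.Prime ∧ η * l < log p) ∧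
      (∏ p ∈ A, p) * (∏ p ∈ C, p) = ∏ p ∈ A ∪ C, p := fun A hA C hC => by
    have hd : Disjoint A C := hPQ.mono hA hC
    refine ⟨hd, fun p hp => ?_, (prod_union hd).symm⟩
    rcases mem_union.1 hp with h | h
    · obtain ⟨a1, a2, -⟩ := mP p (hA h)
      refine ⟨a1, ?_⟩
      rw [lg, le_div_iff₀ hl] at a2
      nlinarith [mul_pos hη hl]
    · obtain ⟨a1, a2, -⟩ := mQ p (hC h)
      refine ⟨a1, ?_⟩
      rw [lg, le_div_iff₀ hl] at a2
      nlinarith [mul_pos hη hl]
  have hpt : ∀ k, ∀ A ∈ powersetCard k P, ∀ j ∈ Icc 1 (R - k), ∀ C ∈ powersetCard j Q,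
      GA l g A 0 ^ 2 / (∏ p ∈ A, p : ℕ) *
        (if (∏ p ∈ A, p) * ∏ p ∈ C, p ≡ b [MOD W] then
          ψ (log ((∏ p ∈ A, p) * ∏ p ∈ C, p : ℕ) / l) / (∏ p ∈ C, p : ℕ) else 0)
        ≤ F ((∏ p ∈ A, p) * ∏ p ∈ C, p) := by
    intro k A hA j hj C hC
    obtain ⟨hA1, hA2⟩ := mem_powersetCard.1 hA
    obtain ⟨hC1, hC2⟩ := mem_powersetCard.1 hC
    obtain ⟨hd, hpr, he⟩ := hun A hA1 C hC1
    split_ifs with hc
    swap
    · rw [mul_zero]
      exact hF0 _
    by_cases h0 : ψ (log ((∏ p ∈ A, p) * ∏ p ∈ C, p : ℕ) / l) = 0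
    · rw [h0, zero_div, mul_zero]
      exact hF0 _
    have hpf : ((∏ p ∈ A, p) * ∏ p ∈ C, p).primeFactors = A ∪ C := by
      rw [he]
      exact Nat.primeFactors_prod fun p hp => (hpr p hp).1
    have hm0 : (∏ p ∈ A, p) * ∏ p ∈ C, p ≠ 0 := by
      rw [he]
      exact prod_ne_zero_iff.2 fun p hp => (hpr p hp).1.ne_zero
    have hmem : (∏ p ∈ A, p) * ∏ p ∈ C, p ∈ S := by
      refine mem_filter.2 ⟨mem_filter.2 ⟨mem_range.2 ((lt_NN hm0).2 ?_), hc⟩, ?_, ?_⟩
      · have h1 := (hψ.supp _ h0).2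
        have h2 := hψ.hi
        rw [div_le_iff₀ hl] at h1
        nlinarith
      · rw [he]
        refine Finset.squarefree_prod_of_pairwise_isCoprime (fun p hp q hq hpq => ?_)
          fun p hp => (hpr p hp).1.squarefree
        exact Nat.coprime_iff_isRelPrime.1
          ((Nat.coprime_primes (hpr p hp).1 (hpr q hq).1).2 hpq)
      · intro p hp hdv
        have : p ∈ A ∪ C := by
          rw [← hpf]
          exact Nat.mem_primeFactors.2 ⟨hp, hdv, hm0⟩
        exact (hpr p this).2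
    have hR : gR R (A ∪ C).card = 1 := by
      rw [card_union_of_disjoint hd, hA2, hC2, gR, if_pos]
      have := mem_Icc.1 hj
      omega
    simp only [hF, ht, if_pos hmem, hpf, hR, wg]
    rw [GA_union hl hg hd fun p hp => (mQ p (hC1 hp)).2.1]
    refine le_of_eq ?_
    rw [mul_one, div_mul_div_comm, ← Nat.cast_mul, mul_comm (GA l g A 0 ^ 2), mul_div_right_comm]
  calc _ ≤ ∑ k ∈ range (K + 1), ∑ A ∈ powersetCard k P,
        ∑ C ∈ Q.powerset, F ((∏ p ∈ A, p) * ∏ p ∈ C, p) := by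
        refine sum_le_sum fun k _ => sum_le_sum fun A hA => ?_
        refine le_trans ?_ (dec_merge (Icc 1 (R - k)) Q
          (h := fun C => F ((∏ p ∈ A, p) * ∏ p ∈ C, p)) fun C => hF0 _)
        rw [mul_sum]
        refine sum_le_sum fun j hj => ?_
        rw [BM, mul_sum]
        exact sum_le_sum fun C hC => hpt k A hA j hj C hC
    _ ≤ ∑ A ∈ P.powerset, ∑ C ∈ Q.powerset, F ((∏ p ∈ A, p) * ∏ p ∈ C, p) :=
        dec_merge _ P fun A => sum_nonneg fun C _ => hF0 _
    _ = ∑ x ∈ P.powerset ×ˢ Q.powerset, F ((∏ p ∈ x.1, p) * ∏ p ∈ x.2, p) :=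
        (sum_product' _ _ fun A C => F ((∏ p ∈ A, p) * ∏ p ∈ C, p)).symm
    _ = ∑ m ∈ (P.powerset ×ˢ Q.powerset).image
          (fun x => (∏ p ∈ x.1, p) * ∏ p ∈ x.2, p), F m := by
        refine (sum_image (g := fun x : Finset ℕ × Finset ℕ => (∏ p ∈ x.1, p) * ∏ p ∈ x.2, p)
          fun x hx y hy hxy => ?_).symm
        obtain ⟨x1, x2⟩ := mem_product.1 hx
        obtain ⟨y1, y2⟩ := mem_product.1 hy
        rw [mem_powerset] at x1 x2 y1 y2
        obtain ⟨-, a2, a3⟩ := hun _ x1 _ x2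
        obtain ⟨-, b2, b3⟩ := hun _ y1 _ y2
        have hu : x.1 ∪ x.2 = y.1 ∪ y.2 := by
          rw [← Nat.primeFactors_prod fun p hp => (a2 p hp).1,
            ← Nat.primeFactors_prod fun p hp => (b2 p hp).1, ← a3, ← b3]
          exact congrArg _ hxy
        have hd := disjoint_left.1 hPQ
        refine Prod.ext ?_ ?_
        · ext p
          constructor
          · intro h
            rcases mem_union.1 (hu ▸ mem_union_left x.2 h) with h' | h'
            · exact h'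
            · exact absurd (y2 h') (hd (x1 h))
          · intro h
            rcases mem_union.1 (hu ▸ mem_union_left y.2 h : p ∈ x.1 ∪ x.2) with h' | h'
            · exact h'
            · exact absurd (x2 h') (hd (y1 h))
        · ext p
          constructor
          · intro h
            rcases mem_union.1 (hu ▸ mem_union_right x.1 h) with h' | h'
            · exact absurd (x2 h) (hd (y1 h'))
            · exact h'
          · intro h
            rcases mem_union.1 (hu ▸ mem_union_right y.1 h : p ∈ x.1 ∪ x.2) with h' | h'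
            · exact absurd (y2 h) (hd (x1 h'))
            · exact h'
    _ ≤ ∑ m ∈ S, t m := by
        simp only [hF]
        rw [← sum_filter]
        exact sum_le_sum_of_subset_of_nonneg (fun m hm => (mem_filter.1 hm).2) fun m _ _ => ht0 m

end Pool.Agent.P.MP_dddec0_nt.L33
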