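import Pool.Agent.Lib.Tup.Defs

/-! Definitions for the lifted sieve (one prime and two almost primes). -/

namespace Pool.Agent.P.MP_dddec0_nt.L33
open Finset Real Filter Pool.Agent.Lib.Tup

noncomputable section

/-- Recursion over a list of sizes. -/
def ev (α : ℝ) (β g : ℝ → ℝ) : List ℝ → ℝ → ℝ
  | [], u => g u
  | t :: ts, u => α * ev α β g ts u + β t * ev α β g ts (u + t)

/-- Alternating sum of `g (u + ∑ S)` over the sublists `S`. -/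
def evG (g : ℝ → ℝ) : List ℝ → ℝ → ℝ := ev 1 (fun _ => -1) g

/-- The product of the list times `v (u + sum)`. -/
def evV (v : ℝ → ℝ) : List ℝ → ℝ → ℝ := ev 0 (fun t => t) v

/-- Iterated integral over a box of cells of width `w`. -/
def BI (w : ℝ) : List ℕ → (List ℝ → ℝ) → ℝ
  | [], Φ => Φ []
  | a :: as, Φ => BI w as (fun ts => ∫ t in ((a : ℝ) * w)..(((a : ℝ) + 1) * w), Φ (t :: ts))

/-- Sum over tuples of distinct numbers, one from each set. -/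
def TS : List (Finset ℕ) → (List ℕ → ℝ) → ℝ
  | [], Φ => Φ []
  | C :: Cs, Φ => TS Cs (fun ps => ∑ p ∈ C.filter (fun p => p ∉ ps), Φ (p :: ps))

/-- The tuples summed over in `TS`. -/
def Val (Cs : List (Finset ℕ)) (ps : List ℕ) : Prop :=
  List.Forall₂ (fun p C => p ∈ C) ps Cs ∧ ps.Nodup

/-- Sum over all lists of length `k` with entries below `m`. -/
def SL (m : ℕ) : ℕ → (List ℕ → ℝ) → ℝ
  | 0, f => f []
  | k + 1, f => ∑ a ∈ range m, SL m k (fun as => f (a :: as))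

def dl : List ℝ → List ℝ → ℝ
  | s :: ss, t :: ts => |s - t| + dl ss ts
  | _, _ => 0

def In01 (k : ℕ) (ts : List ℝ) : Prop := ts.length = k ∧ ∀ t ∈ ts, 0 ≤ t ∧ t ≤ 1

/-- Bounded and Lipschitz on the unit cube. -/
def LipL (k : ℕ) (B : ℝ) (Φ : List ℝ → ℝ) : Prop :=
  ∀ ss, In01 k ss → |Φ ss| ≤ B ∧ ∀ ts, In01 k ts → |Φ ss - Φ ts| ≤ B * dl ss ts

/-- Primes of size in `[x, y)`. -/
def cellP (l x y : ℝ) : Finset ℕ :=
  (range (NN l)).filter (fun p => p.Prime ∧ x * l ≤ log p ∧ log p < y * l)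

def cellW (l η w : ℝ) (a : ℕ) : Finset ℕ := cellP l (max (a * w) η) ((a + 1) * w)

def lg (l : ℝ) (p : ℕ) : ℝ := log p / l

def aws (l : ℝ) (ps : List ℕ) : ℝ := (ps.map (fun p => lg l p / p)).prod

def avg (w : ℝ) (g : ℝ → ℝ) (v : ℝ) : ℝ := (∫ t in (0 : ℝ)..w, g (v + t)) / w

/-- Mean of `evG` over a box. -/
def Lf (w : ℝ) : List ℕ → (ℝ → ℝ) → ℝ → ℝ
  | [], g => g
  | a :: as, g => Lf w as (fun v => g v - avg w g (v + a * w))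

def ellR (E : ℕ → ℕ → ℝ) : List ℕ → ℕ → ℕ → ℝ
  | [], j, o => E j o
  | a :: as, j, o => ellR E as j o - ellR E as (j + 1) (o + a)

def Rf (h : ℝ) (n : ℕ) (f : ℕ → ℝ) (t : ℝ) : ℝ :=
  ∑ a ∈ range n, f a * rho (a * h) ((a + 1) * h) t

/-- Iterated differences of a truncated power. -/
def dZ (r e : ℕ) : ℕ → ℤ → ℤ
  | 0, c => (c.toNat : ℤ) ^ e
  | i + 1, c => dZ r e i c - dZ r e i (c - r)

def cz (r j : ℕ) (c : ℤ) : ℤ := dZ r (j + 1) j (c + 1) - dZ r (j + 1) j c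

def mI (w : ℝ) (a j : ℕ) : ℝ := ((((a : ℝ) + 1) * w) ^ (j + 1) - (a * w) ^ (j + 1)) / (j + 1)

/-- Moments `∫ ∏ t * (1, ∑ t, (∑ t) ^ 2)` over a box. -/
def mom (w : ℝ) : List ℕ → ℝ × ℝ × ℝ
  | [] => (1, 0, 0)
  | a :: as => ((mom w as).1 * mI w a 1, (mom w as).2.1 * mI w a 1 + (mom w as).1 * mI w a 2,
      (mom w as).2.2 * mI w a 1 + 2 * (mom w as).2.1 * mI w a 2 + (mom w as).1 * mI w a 3)

def E3 (s d : ℝ) : ℝ := (s - 3) * (1 + d + d ^ 2 / 4 + d ^ 3 / 60)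

def w1 (s τ : ℝ) : ℝ := if τ ≤ 3 then 1 / (s - τ) else 0

def w2 (s τ : ℝ) : ℝ := if τ ≤ 2 then max 0 (log (3 - τ) - (s - 4) / 2) / (s - τ) else 0

def w3 (s τ : ℝ) : ℝ := if τ ≤ 1 then (1 - τ) ^ 2 / (12 * E3 s (1 - τ)) else 0

/-- Lower bound for the density of products of at most `J` big primes. -/
def Wt (s : ℝ) (J : ℕ) (τ : ℝ) : ℝ :=
  w1 s τ + (if 2 ≤ J then w2 s τ else 0) + (if 3 ≤ J then w3 s τ else 0)

/-- Mass of the products of `j` big primes. -/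
def BM (ψ : ℝ → ℝ) (l : ℝ) (W b κ j : ℕ) : ℝ :=
  ∑ B ∈ powersetCard j (cellP l 1 5), if κ * ∏ p ∈ B, p ≡ b [MOD W] then
    ψ (log (κ * ∏ p ∈ B, p : ℕ) / l) / (∏ p ∈ B, p : ℕ) else 0

def CondN (s : ℝ) (J : ℕ) (w : ℝ) (k σ : ℕ) (N0 N1 : ℝ) : Prop :=
  0 < N0 ∧ 0 < N1 ∧ ∀ τ : ℝ, σ * w ≤ τ → τ ≤ (σ + k) * w →
    N0 * (τ - σ * w) + N1 * ((σ + k) * w - τ) ≤ k * w * ((s - τ) * Wt s J τ)

def Vbox (s w N0 N1 : ℝ) (as : List ℕ) : ℝ :=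
  ((-(mom w as).2.2 + (s + as.sum * w) * (mom w as).2.1 - s * (as.sum * w) * (mom w as).1) / N0
    + ((mom w as).2.2 - (s + (as.sum + as.length) * w) * (mom w as).2.1
      + s * ((as.sum + as.length) * w) * (mom w as).1) / N1) / (as.length * w)

def bx (s w N0 N1 : ℝ) (g : ℝ → ℝ) (as : List ℕ) : ℝ :=
  (w ^ as.length * Lf w as g 0) ^ 2 / Vbox s w N0 N1 as

/-- Contribution of the numbers with `k` small prime factors. -/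
def Qk (s : ℝ) (m k : ℕ) (N0 N1 : ℕ → ℝ) (g : ℝ → ℝ) : ℝ :=
  SL m k (fun as => if as.sum + k ≤ 3 * m then
    max 0 (bx s (1 / m) (N0 as.sum) (N1 as.sum) g as) else 0) / k.factorial

def Qsh (s : ℝ) (R K : ℕ) (m : ℕ → ℕ) (N0 N1 : ℕ → ℕ → ℝ) (g : ℝ → ℝ) : ℝ :=
  g 0 ^ 2 * Wt s R 0 + ∑ k ∈ Icc 1 K, Qk s (m k) k (N0 k) (N1 k) g

def gR (R r : ℕ) : ℝ := if r ≤ R then 1 else 0

/-- Alternating sum over the subsets of a set of primes. -/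
def GA (l : ℝ) (g : ℝ → ℝ) (A : Finset ℕ) (u : ℝ) : ℝ :=
  ∑ S ∈ A.powerset, (-1) ^ S.card * g (u + sz S / l)

open Classical in
/-- Lower bound on one fibre. -/
def FibGe (ψ : ℝ → ℝ) (s0 s1 : ℝ) (n : ℕ) (h : ℝ) (R : ℕ) (f : ℕ → ℝ) (Q : ℝ) : Prop :=
  ∀ ε : ℝ, 0 < ε → ∃ η1 : ℝ, 0 < η1 ∧ ∀ η : ℝ, 0 < η → η ≤ η1 → ∃ D1 : ℕ, ∀ D ≥ D1,
    ∀ᶠ l : ℝ in atTop, ∀ b : ℕ, Nat.Coprime b (primorial D) →
      scale D l 1 * ((∫ s in s0..s1, ψ s) * Q - ε)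
        ≤ ∑ m ∈ (cls l (primorial D) b).filter (RS η l), wg ψ l m * gR R m.primeFactors.card *
          (∑ a : Fin n, f a * XC D l h a m) ^ 2

/-- Three variable sieve sum. -/
def S3 (D : ℕ) (l h : ℝ) (n : ℕ) (F : ℕ → ℕ → ℕ → ℝ) (u v z : ℤ) : ℝ :=
  ∑ a ∈ range n, ∑ b ∈ range n, ∑ c ∈ range n,
    F a b c * (XC D l h a u * XC D l h b v * XC D l h c z)

def Sup (h : ℝ) (F : ℕ → ℕ → ℕ → ℝ) : Prop :=
  ∀ a b c : ℕ, F a b c ≠ 0 → ((a : ℝ) + b + c + 3) * h ≤ 5 / 3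

def sq3 (n : ℕ) (F : ℕ → ℕ → ℕ → ℝ) : ℝ :=
  ∑ a ∈ range n, ∑ b ∈ range n, ∑ c ∈ range n, F a b c ^ 2

/-- One prime and two almost primes, in this order. -/
def Pat (x y z : ℕ) : Prop :=
  x.Prime ∧ ((ArithmeticFunction.cardFactors y ≤ 3 ∧ ArithmeticFunction.cardFactors z ≤ 3) ∨
    (y.Prime ∧ ArithmeticFunction.cardFactors z ≤ 5))

def Good (x y z : ℕ) : Prop :=
  Pat x y z ∨ Pat x z y ∨ Pat y x z ∨ Pat y z x ∨ Pat z x y ∨ Pat z y x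

end

end Pool.Agent.P.MP_dddec0_nt.L33
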