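import Pool.Agent.P.MP_dddec0_nt.L33Defs
import Pool.Agent.Lib.Tup.Xap

namespace Pool.Agent.P.MP_dddec0_nt.L33
open Finset Real Filter Pool.Agent.Lib.Tup

theorem ev_aux_L33Ev {α B : ℝ} {β g : ℝ → ℝ} (hα : |α| ≤ 1)
    (hβ : ∀ t, 0 ≤ t → t ≤ 1 → |β t| ≤ 1) (hβ' : ∀ s t, |β s - β t| ≤ |s - t|)
    (hg : ∀ u, 0 ≤ u → u ≤ 5 → |g u| ≤ B)
    (hg' : ∀ u v, 0 ≤ u → u ≤ 5 → 0 ≤ v → v ≤ 5 → |g u - g v| ≤ B * |u - v|) (k : ℕ) :
    ∀ ss, In01 k ss → ∀ u : ℝ, 0 ≤ u → u + k ≤ 5 → |ev α β g ss u| ≤ 3 ^ k * B ∧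
      ∀ ts, In01 k ts → ∀ u' : ℝ, 0 ≤ u' → u' + k ≤ 5 →
        |ev α β g ss u - ev α β g ts u'| ≤ 3 ^ k * B * (|u - u'| + dl ss ts) := by
  have hB : 0 ≤ B := (abs_nonneg _).trans (hg 0 le_rfl (by norm_num))
  induction k with
  | zero =>
    intro ss hs u h0 h1
    obtain rfl := List.length_eq_zero_iff.1 hs.1
    rw [Nat.cast_zero, add_zero] at h1
    refine ⟨by simpa [ev] using hg u h0 h1, fun ts ht u' h0' h1' => ?_⟩
    obtain rfl := List.length_eq_zero_iff.1 ht.1
    rw [Nat.cast_zero, add_zero] at h1'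
    simpa [ev, dl] using hg' u u' h0 h1 h0' h1'
  | succ k ih =>
    have hK : 0 ≤ 3 ^ k * B := by positivity
    have key : ∀ (s : ℝ) (ss : List ℝ), In01 (k + 1) (s :: ss) → In01 k ss ∧ 0 ≤ s ∧ s ≤ 1 :=
      fun s ss h => ⟨⟨by simpa using h.1, fun t ht => h.2 t (List.mem_cons_of_mem _ ht)⟩,
        h.2 s List.mem_cons_self⟩
    have mul : ∀ a x K : ℝ, |a| ≤ 1 → |x| ≤ K → |a * x| ≤ K := fun a x K ha hx => by
      rw [abs_mul]
      exact (mul_le_of_le_one_left (abs_nonneg _) ha).trans hx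
    intro ss hs u h0 h1
    rcases ss with _ | ⟨s, ss⟩
    · exact absurd hs.1 (by simp)
    obtain ⟨hs', s0, s1⟩ := key s ss hs
    push_cast at h1
    obtain ⟨a1, a2⟩ := ih ss hs' u h0 (by linarith)
    obtain ⟨b1, b2⟩ := ih ss hs' (u + s) (by linarith) (by linarith)
    constructor
    · have e := abs_add_le (α * ev α β g ss u) (β s * ev α β g ss (u + s))
      have c1 := mul _ _ _ hα a1
      have c2 := mul _ _ _ (hβ s s0 s1) b1
      rw [ev, pow_succ]
      linarith
    · intro ts ht u' h0' h1'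
      rcases ts with _ | ⟨t, ts⟩
      · exact absurd ht.1 (by simp)
      obtain ⟨ht', t0, t1⟩ := key t ts ht
      push_cast at h1'
      have c1 := mul _ _ _ hα (a2 ts ht' u' h0' (by linarith))
      have c2 := mul _ _ _ (hβ s s0 s1) (b2 ts ht' (u' + t) (by linarith) (by linarith))
      have c3 : |(β s - β t) * ev α β g ts (u' + t)| ≤ |s - t| * (3 ^ k * B) := by
        rw [abs_mul]
        exact mul_le_mul (hβ' s t) (ih ts ht' (u' + t) (by linarith) (by linarith)).1
          (abs_nonneg _) (abs_nonneg _)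
      have c4 : |u + s - (u' + t)| ≤ |u - u'| + |s - t| := by
        rw [show u + s - (u' + t) = u - u' + (s - t) by ring]
        exact abs_add_le _ _
      have c5 := mul_le_mul_of_nonneg_left c4 hK
      have c6 := mul_nonneg hK (abs_nonneg (s - t))
      have c7 := (abs_nonneg _).trans c1
      rw [ev, ev, dl, pow_succ, show α * ev α β g ss u + β s * ev α β g ss (u + s) -
        (α * ev α β g ts u' + β t * ev α β g ts (u' + t)) =
        α * (ev α β g ss u - ev α β g ts u') + β s * (ev α β g ss (u + s) - ev α β g ts (u' + t)) +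
          (β s - β t) * ev α β g ts (u' + t) by ring]
      refine (abs_add_three _ _ _).trans ?_
      linarith

/-- Hint: prove by induction on `ss`, generalizing `ts u u'`, for `0 ≤ u, u'` and
`u + length ≤ 5`, `u' + length ≤ 5`: `|ev ss u| ≤ 3 ^ len * B` and
`|ev ss u - ev ts u'| ≤ 3 ^ len * B * (|u - u'| + dl ss ts)`. -/
theorem ev_lip {α B : ℝ} {β g : ℝ → ℝ} (hα : |α| ≤ 1) (hβ : ∀ t, 0 ≤ t → t ≤ 1 → |β t| ≤ 1)
    (hβ' : ∀ s t, |β s - β t| ≤ |s - t|) (hg : ∀ u, 0 ≤ u → u ≤ 5 → |g u| ≤ B)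
    (hg' : ∀ u v, 0 ≤ u → u ≤ 5 → 0 ≤ v → v ≤ 5 → |g u - g v| ≤ B * |u - v|) {k : ℕ}
    (hk : k ≤ 5) : LipL k (3 ^ k * B) (fun ts => ev α β g ts 0) := by
  have hk' : (0 : ℝ) + k ≤ 5 := by
    rw [zero_add]
    exact_mod_cast hk
  intro ss hs
  obtain ⟨h1, h2⟩ := ev_aux_L33Ev hα hβ hβ' hg hg' k ss hs 0 le_rfl hk'
  refine ⟨h1, fun ts ht => ?_⟩
  simpa using h2 ts ht 0 le_rfl hk'

theorem evV_eq (v : ℝ → ℝ) (ts : List ℝ) (u : ℝ) : evV v ts u = ts.prod * v (u + ts.sum) := by
  unfold evV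
  induction ts generalizing u with
  | nil => simp [ev]
  | cons t ts ih => rw [ev, ih (u + t), zero_mul, zero_add, List.prod_cons, List.sum_cons,
      mul_assoc, add_assoc]

theorem avg_cont {w : ℝ} {g : ℝ → ℝ} (hg : Continuous g) : Continuous (avg w g) := by
  unfold avg
  refine Continuous.div_const ?_ w
  exact intervalIntegral.continuous_parametric_intervalIntegral_of_continuous'
    (f := fun v t => g (v + t)) (hg.comp (continuous_fst.add continuous_snd)) 0 w

theorem evG_cons_L33Ev (g : ℝ → ℝ) (t : ℝ) (ts : List ℝ) (u : ℝ) :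
    evG g (t :: ts) u = evG g ts u - evG g ts (u + t) := by
  unfold evG
  rw [ev]
  ring

theorem evG_cont_L33Ev {g : ℝ → ℝ} (hg : Continuous g) (ts : List ℝ) : Continuous (evG g ts) := by
  induction ts with
  | nil => exact hg
  | cons t ts ih =>
    rw [show evG g (t :: ts) = fun u => evG g ts u - evG g ts (u + t) from
      funext (evG_cons_L33Ev g t ts)]
    fun_prop

theorem evG_int_L33Ev {w : ℝ} (hw : 0 < w) (a : ℝ) {g : ℝ → ℝ} (hg : Continuous g) (ts : List ℝ)
    (u : ℝ) : ∫ t in (a * w)..((a + 1) * w), (evG g ts u - evG g ts (u + t)) =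
      w * evG (fun v => g v - avg w g (v + a * w)) ts u := by
  induction ts generalizing u with
  | nil =>
    have h1 : ∫ t in (0 : ℝ)..w, g (u + a * w + t) = ∫ t in (a * w)..((a + 1) * w), g (u + t) := by
      rw [intervalIntegral.integral_comp_add_left, intervalIntegral.integral_comp_add_left]
      congr 1 <;> ring
    change ∫ t in (a * w)..((a + 1) * w), (g u - g (u + t)) = w * (g u - avg w g (u + a * w))
    rw [intervalIntegral.integral_sub (by simp)
      ((by fun_prop : Continuous fun t => g (u + t)).intervalIntegrable _ _), avg, h1,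
      intervalIntegral.integral_const, smul_eq_mul]
    field_simp
    ring
  | cons r ts ih =>
    have hc := evG_cont_L33Ev hg ts
    have hi : ∀ v : ℝ, IntervalIntegrable (fun t => evG g ts v - evG g ts (v + t))
        MeasureTheory.volume (a * w) ((a + 1) * w) := fun v =>
      (by fun_prop : Continuous fun t => evG g ts v - evG g ts (v + t)).intervalIntegrable _ _
    rw [evG_cons_L33Ev (fun v => g v - avg w g (v + a * w)), mul_sub, ← ih u, ← ih (u + r),
      ← intervalIntegral.integral_sub (hi _) (hi _)]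
    refine intervalIntegral.integral_congr fun t _ => ?_
    simp only [evG_cons_L33Ev, add_right_comm u t r]
    ring

theorem BI_mul_L33Ev (w c : ℝ) (as : List ℕ) (Φ : List ℝ → ℝ) :
    BI w as (fun ts => c * Φ ts) = c * BI w as Φ := by
  induction as generalizing Φ with
  | nil => rfl
  | cons a as ih =>
    rw [BI, BI, ← ih]
    simp only [intervalIntegral.integral_const_mul]

/-- Hint: induction on `as` generalizing `g`; first show
`∫ t in a w..(a+1) w, evG g (t :: ts) u = w * evG (fun v => g v - avg w g (v + a * w)) ts u`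
by induction on `ts` generalizing `u` (`evG g ts` is continuous, and linear in `g`), and
`BI w as (fun ts => c * Φ ts) = c * BI w as Φ`. -/
theorem BI_evG {w : ℝ} (hw : 0 < w) (as : List ℕ) {g : ℝ → ℝ} (hg : Continuous g) (u : ℝ) :
    BI w as (fun ts => evG g ts u) = w ^ as.length * Lf w as g u := by
  induction as generalizing g with
  | nil => simp [BI, Lf, evG, ev]
  | cons a as ih =>
    have hc := avg_cont (w := w) hg
    rw [BI, Lf, List.length_cons, pow_succ', mul_assoc, ← ih (by fun_prop), ← BI_mul_L33Ev]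
    simp only [evG_cons_L33Ev, evG_int_L33Ev hw (a : ℝ) hg]

theorem int_L33Ev (w : ℝ) (a : ℕ) (A B C : ℝ) :
    ∫ t in ((a : ℝ) * w)..(((a : ℝ) + 1) * w), (A * t ^ 1 + B * t ^ 2 + C * t ^ 3) =
      A * mI w a 1 + B * mI w a 2 + C * mI w a 3 := by
  have hi : ∀ (c : ℝ) (j : ℕ), IntervalIntegrable (fun t : ℝ => c * t ^ j) MeasureTheory.volume
      ((a : ℝ) * w) (((a : ℝ) + 1) * w) := fun c j =>
    (by fun_prop : Continuous fun t : ℝ => c * t ^ j).intervalIntegrable _ _
  rw [intervalIntegral.integral_add ((hi _ _).add (hi _ _)) (hi _ _),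
    intervalIntegral.integral_add (hi _ _) (hi _ _)]
  simp only [intervalIntegral.integral_const_mul, integral_pow, mI]

/-- Hint: use `evV_eq`; induction on `as` generalizing `c0 c1 c2`: integrating
`t * (c0 + c1 (t + x) + c2 (t + x) ^ 2)` over the cell gives the quadratic in `x` with
coefficients `c0 m1 + c1 m2 + c2 m3`, `c1 m1 + 2 c2 m2`, `c2 m1`, `mj = mI w a j`. -/
theorem BI_evV (w : ℝ) (as : List ℕ) (c0 c1 c2 : ℝ) :
    BI w as (fun ts => evV (fun x => c0 + c1 * x + c2 * x ^ 2) ts 0)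
      = c0 * (mom w as).1 + c1 * (mom w as).2.1 + c2 * (mom w as).2.2 := by
  simp only [evV_eq, zero_add]
  induction as generalizing c0 c1 c2 with
  | nil => simp [BI, mom]
  | cons a as ih =>
    have h1 : ∀ ts : List ℝ, ∫ t in ((a : ℝ) * w)..(((a : ℝ) + 1) * w),
        (t :: ts).prod * (c0 + c1 * (t :: ts).sum + c2 * (t :: ts).sum ^ 2) =
        ts.prod * ((c0 * mI w a 1 + c1 * mI w a 2 + c2 * mI w a 3) +
          (c1 * mI w a 1 + 2 * c2 * mI w a 2) * ts.sum + c2 * mI w a 1 * ts.sum ^ 2) := by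
      intro ts
      have h2 := int_L33Ev w a (ts.prod * (c0 + c1 * ts.sum + c2 * ts.sum ^ 2))
        (ts.prod * (c1 + 2 * c2 * ts.sum)) (ts.prod * c2)
      refine Eq.trans (intervalIntegral.integral_congr fun t _ => ?_) (h2.trans (by ring))
      simp only [List.prod_cons, List.sum_cons]
      ring
    rw [BI]
    simp only [h1]
    rw [ih, mom]
    ring

theorem Lf_shift_L33Ev (w c : ℝ) (as : List ℕ) (g : ℝ → ℝ) (u : ℝ) :
    Lf w as (fun v => g (v + c)) u = Lf w as g (u + c) := by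
  induction as generalizing g with
  | nil => rfl
  | cons a as ih =>
    rw [Lf, Lf, ← ih]
    simp only [avg, add_right_comm _ c]

theorem Lf_sub_L33Ev (w : ℝ) (as : List ℕ) {g g' : ℝ → ℝ} (hg : Continuous g) (hg' : Continuous g')
    (u : ℝ) : Lf w as (fun v => g v - g' v) u = Lf w as g u - Lf w as g' u := by
  induction as generalizing g g' with
  | nil => rfl
  | cons a as ih =>
    have hc := avg_cont (w := w) hg
    have hc' := avg_cont (w := w) hg'
    rw [Lf, Lf, Lf, ← ih (by fun_prop) (by fun_prop)]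
    congr 1
    funext v
    unfold avg
    rw [intervalIntegral.integral_sub
      ((by fun_prop : Continuous fun t => g (v + a * w + t)).intervalIntegrable _ _)
      ((by fun_prop : Continuous fun t => g' (v + a * w + t)).intervalIntegrable _ _)]
    ring

/-- Hint: `Lf w as` is additive on continuous functions and commutes with shifts. -/
theorem Lf_eq (w : ℝ) {g : ℝ → ℝ} (hg : Continuous g) (as : List ℕ) (j o : ℕ) :
    Lf w as ((avg w)^[j] g) (o * w) = ellR (fun j o => (avg w)^[j] g (o * w)) as j o := by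
  have hc : ∀ j, Continuous ((avg w)^[j] g) := by
    intro j
    induction j with
    | zero => exact hg
    | succ j ih =>
      rw [Function.iterate_succ_apply']
      exact avg_cont ih
  induction as generalizing j o with
  | nil => rfl
  | cons a as ih =>
    have h1 := hc j
    have h2 := avg_cont (w := w) h1
    rw [Lf, ellR, Lf_sub_L33Ev w as h1 (by fun_prop), Lf_shift_L33Ev, ← ih, ← ih,
      Function.iterate_succ_apply', Nat.cast_add, add_mul]

theorem Rf_cont (h : ℝ) (n : ℕ) (f : ℕ → ℝ) : Continuous (Rf h n f) := by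
  unfold Rf rho
  fun_prop

theorem Rf_big {h : ℝ} (hh : 0 < h) (n : ℕ) (f : ℕ → ℝ) {t : ℝ} (ht : n * h ≤ t) :
    Rf h n f t = 0 := by
  refine Finset.sum_eq_zero fun a ha => ?_
  have h1 : (a : ℝ) + 1 ≤ n := by exact_mod_cast Finset.mem_range.1 ha
  have h2 := mul_le_mul_of_nonneg_right h1 hh.le
  rw [rho, max_eq_right (by linarith), max_eq_right (by linarith), sub_zero, mul_zero]

theorem Rf_bd {h : ℝ} (hh : 0 < h) (hh1 : h ≤ 1) (n : ℕ) (f : ℕ → ℝ) (s t : ℝ) :
    |Rf h n f s| ≤ ∑ a ∈ range n, |f a| ∧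
      |Rf h n f s - Rf h n f t| ≤ (∑ a ∈ range n, |f a|) * |s - t| := by
  have h1 : ∀ a : ℕ, (a : ℝ) * h ≤ (a + 1) * h := fun a => by linarith
  unfold Rf
  constructor
  · refine (Finset.abs_sum_le_sum_abs _ _).trans (Finset.sum_le_sum fun a _ => ?_)
    rw [abs_mul]
    exact mul_le_of_le_one_right (abs_nonneg _) ((abs_rho_le (h1 a) s).trans (by linarith))
  · rw [← Finset.sum_sub_distrib, Finset.sum_mul]
    refine (Finset.abs_sum_le_sum_abs _ _).trans (Finset.sum_le_sum fun a _ => ?_)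
    rw [← mul_sub, abs_mul]
    exact mul_le_mul_of_nonneg_left (rho_lip (h1 a) s t) (abs_nonneg _)

end Pool.Agent.P.MP_dddec0_nt.L33
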