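import Pool.Agent.P.MP_dddec0_nt.L33Shape
import Pool.Agent.Lib.Tup.Maynard

namespace Pool.Agent.P.MP_dddec0_nt.L33
open Finset Real Filter Pool.Agent.Lib.Tup

theorem gR_nonneg (R r : ℕ) : 0 ≤ gR R r := by unfold gR; split_ifs <;> norm_num

theorem gR_le_one (R r : ℕ) : gR R r ≤ 1 := by unfold gR; split_ifs <;> norm_num

theorem fib_uniform {J : Type*} [Fintype J] {Q : J → ℕ → ℝ → Prop}
    (h : ∀ j, ∃ D1 : ℕ, ∀ D ≥ D1, ∀ᶠ l : ℝ in atTop, Q j D l) :
    ∃ D1 : ℕ, ∀ D ≥ D1, ∀ᶠ l : ℝ in atTop, ∀ j, Q j D l := by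
  choose D1 h using h
  exact ⟨univ.sup D1, fun D hD => eventually_all.2 fun j =>
    h j D ((le_sup (mem_univ j)).trans hD)⟩

theorem fib_small {J : Type*} [Fintype J] {a : ℝ} (ha : 0 < a) {f : J → ℝ} (hf : ∀ j, 0 < f j) :
    ∃ η : ℝ, 0 < η ∧ η ≤ a ∧ ∀ j, η ≤ f j := by
  have h1 : ∀ᶠ η in nhdsWithin (0 : ℝ) (Set.Ioi 0), ∀ j, η ∈ Set.Ioc 0 (f j) :=
    eventually_all.2 fun j => Ioc_mem_nhdsGT (hf j)
  have h2 : ∀ᶠ η in nhdsWithin (0 : ℝ) (Set.Ioi 0), η ∈ Set.Ioc 0 a := Ioc_mem_nhdsGT ha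
  obtain ⟨η, h3, h4⟩ := (h1.and h2).exists
  exact ⟨η, h4.1, h4.2, fun j => (h3 j).2⟩

theorem fib_sq_add_ge {G θ s : ℝ} (hs : 0 < s) : (1 - s) * G ^ 2 - θ ^ 2 / s ≤ (G + θ) ^ 2 := by
  have h1 : 0 ≤ (s * G + θ) ^ 2 / s := by positivity
  have h2 : (s * G + θ) ^ 2 / s = s * G ^ 2 + 2 * G * θ + θ ^ 2 / s := by field_simp; ring
  nlinarith [sq_nonneg θ]

theorem GA_Rf (l h : ℝ) (n : ℕ) (f : ℕ → ℝ) (m : ℕ) :
    GA l (Rf h n f) m.primeFactors 0 = ∑ a : Fin n, f a * Gt l (a * h) ((a + 1) * h) m := by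
  rw [Fin.sum_univ_eq_sum_range (fun a => f a * Gt l (a * h) ((a + 1) * h) m) n]
  unfold GA Rf Gt
  simp only [zero_add, mul_sum]
  rw [sum_comm]
  exact sum_congr rfl fun a _ => sum_congr rfl fun S _ => by ring

theorem sum_fin2 (n : ℕ) (t : ℕ → ℕ → ℝ) :
    ∑ b : Fin 2 → Fin n, t (b 0) (b 1) = ∑ a ∈ range n, ∑ b ∈ range n, t a b := by
  rw [← Fin.sum_univ_eq_sum_range (fun a => ∑ b ∈ range n, t a b) n]
  simp only [← fun a => Fin.sum_univ_eq_sum_range (fun b => t a b) n]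
  rw [← Fintype.sum_prod_type']
  exact Fintype.sum_equiv (finTwoArrowEquiv (Fin n)) _ _ fun b => rfl

theorem S3_eq (D : ℕ) (l h : ℝ) (n : ℕ) (F : ℕ → ℕ → ℕ → ℝ) (x y m : ℤ) :
    ∑ a : Fin n, ∑ b : Fin 2 → Fin n, F (b 0) (b 1) a *
      (XC D l h a m * ∏ i, XC D l h (b i) (m + ![x, y] i)) = S3 D l h n F (m + x) (m + y) m := by
  rw [sum_comm, S3, ← sum_fin2 n (fun a b => ∑ c ∈ range n,
    F a b c * (XC D l h a (m + x) * XC D l h b (m + y) * XC D l h c m))]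
  refine sum_congr rfl fun b _ => ?_
  rw [← Fin.sum_univ_eq_sum_range (fun c => F (b 0) (b 1) c *
    (XC D l h (b 0) (m + x) * XC D l h (b 1) (m + y) * XC D l h c m)) n]
  refine sum_congr rfl fun a _ => ?_
  rw [Fin.prod_univ_two]
  simp only [Matrix.cons_val_zero, Matrix.cons_val_one]
  ring

/-- Lower bound on one fibre. -/
theorem fib_ge {ψ : ℝ → ℝ} {s0 s1 : ℝ} (hψ : Bump ψ s0 s1) (h4 : 4 < s0) {R K : ℕ} (hK : K < R)
    (hK5 : K ≤ 5) (m : ℕ → ℕ) (hm : ∀ k, 0 < m k) (N0 N1 : ℕ → ℕ → ℝ)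
    (hN : ∀ k σ, 1 ≤ k → k ≤ K → σ + k ≤ 3 * m k →
      CondN s1 (R - k) (1 / m k) k σ (N0 k σ) (N1 k σ))
    {n : ℕ} {h : ℝ} (hh : 0 < h) (hh1 : h ≤ 1) (hn : n * h ≤ 1) (f : ℕ → ℝ) :
    FibGe ψ s0 s1 n h R f (Qsh s1 R K m N0 N1 (Rf h n f)) := by
  classical
  intro ε hε
  set Q := (∫ s in s0..s1, ψ s) * Qsh s1 R K m N0 N1 (Rf h n f) with hQ
  obtain ⟨η1, hη1, H3⟩ := shape hψ h4 hK hK5 m hm N0 N1 hN (Rf_cont h n f)
    (Rf_bd hh hh1 n f) (fun t ht => Rf_big hh n f (hn.trans ht)) (ε := ε / 3) (by positivity)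
  refine ⟨min η1 (1 / 10), lt_min hη1 (by norm_num), fun η hη hηm => ?_⟩
  set A := ∑ a : Fin n, |f a| with hA
  have hA0 : 0 ≤ A := sum_nonneg fun _ _ => abs_nonneg _
  obtain ⟨C, hC, D1, H1⟩ := rough_major (ι := Empty) (fun i => i.elim) (fun i => i.elim)
    (fun i => i.elim) hψ hη (hηm.trans (min_le_right _ _))
  set s := min 1 (ε / (3 * (|Q| + 1))) with hs
  have hs0 : 0 < s := lt_min one_pos (by positivity)
  have hs1 : s ≤ 1 := min_le_left _ _
  set e := min 1 (ε * s / (3 * (A ^ 2 * C + 1))) with he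
  have he0 : 0 < e := lt_min one_pos (by positivity)
  obtain ⟨D2, H2⟩ := Xapprox hη he0
  refine ⟨max D1 D2, fun D hD => ?_⟩
  have hW := primorial_pos D
  filter_upwards [H1 D (le_of_max_le_left hD), H2 D (le_of_max_le_right hD),
    H3 η hη (hηm.trans (min_le_left _ _)) _ hW, eventually_gt_atTop 0]
    with l h1 h2 h3 hl b hb
  have h4' := h1 b (fun i => i.elim) (fun i => i.elim) (fun i => i.elim) (by norm_num)
  simp only [univ_eq_empty, prod_empty, mul_one, Fintype.card_eq_zero, zero_add] at h4'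
  have h5 := h3 b hb
  set L := cW D * l with hL
  have hc := cW_pos D
  have hL0 : 0 < L := mul_pos hc hl
  have hφ : (0 : ℝ) < Nat.totient (primorial D) := by exact_mod_cast Nat.totient_pos.2 hW
  have hW' : (0 : ℝ) < primorial D := by exact_mod_cast hW
  have hsc : scale D l 1 = L ^ 2 / Nat.totient (primorial D) := by
    rw [scale, hL, cW]; field_simp
  have hsc0 : 0 ≤ scale D l 1 := Co.scale_nonneg D hl.le 1
  let G : ℕ → ℝ := fun k => GA l (Rf h n f) k.primeFactors 0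
  have hpt : ∀ k ∈ (cls l (primorial D) b).filter (RS η l),
      (1 - s) * (L ^ 2 * (wg ψ l k * gR R k.primeFactors.card * G k ^ 2))
        - (e * A) ^ 2 / s * (L ^ 2 * wg ψ l k)
      ≤ wg ψ l k * gR R k.primeFactors.card * (∑ a : Fin n, f a * XC D l h a k) ^ 2 := by
    intro k hk
    rw [mem_filter] at hk
    have hk1 : k < NN l := mem_range.1 (mem_filter.1 hk.1).1
    set θ := (∑ a : Fin n, f a * XC D l h a k) - L * G k with hθ
    have hθ1 : |θ| ≤ e * A * L := by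
      rw [hθ, show G k = ∑ a : Fin n, f a * Gt l (a * h) ((a + 1) * h) k from GA_Rf l h n f k,
        mul_sum, ← sum_sub_distrib, hA, mul_sum, sum_mul]
      refine (abs_sum_le_sum_abs _ _).trans (sum_le_sum fun a _ => ?_)
      have ha : (a : ℝ) + 1 ≤ n := by exact_mod_cast a.2
      have h6 := h2 k (a * h) ((a + 1) * h) hk.2 hk1 (by positivity) (by linarith)
        (by nlinarith)
      rw [show f a * XC D l h a k - L * (f a * Gt l (a * h) ((a + 1) * h) k)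
        = f a * (XW D l (a * h) ((a + 1) * h) k
          - L * Gt l (a * h) ((a + 1) * h) k) by rw [XC]; ring, abs_mul]
      nlinarith [abs_nonneg (f a)]
    have h7 : θ ^ 2 ≤ (e * A * L) ^ 2 := sq_le_sq' (abs_le.1 hθ1).1 (abs_le.1 hθ1).2
    have h8 := fib_sq_add_ge (G := L * G k) (θ := θ) hs0
    rw [show L * G k + θ = ∑ a : Fin n, f a * XC D l h a k by rw [hθ]; ring] at h8
    have hw := wg_nonneg hψ l k
    have h9 := mul_le_mul_of_nonneg_left h8 (mul_nonneg hw (gR_nonneg R k.primeFactors.card))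
    have h10 : wg ψ l k * gR R k.primeFactors.card * (θ ^ 2 / s)
        ≤ wg ψ l k * 1 * ((e * A * L) ^ 2 / s) := by
      gcongr; exact gR_le_one _ _
    have h11 : (e * A) ^ 2 / s * (L ^ 2 * wg ψ l k) = wg ψ l k * 1 * ((e * A * L) ^ 2 / s) := by
      ring
    nlinarith
  refine le_trans ?_ (sum_le_sum hpt)
  rw [sum_sub_distrib, ← mul_sum, ← mul_sum, ← mul_sum, ← mul_sum]
  have h12 : L ^ 2 * ∑ k ∈ (cls l (primorial D) b).filter (RS η l), wg ψ l k
      ≤ C * scale D l 1 := by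
    refine le_trans (mul_le_mul_of_nonneg_left (sum_le_sum_of_subset_of_nonneg
      (fun k hk => ?_) fun k _ _ => wg_nonneg hψ l k) (sq_nonneg _)) h4'
    rw [mem_filter] at hk ⊢
    exact ⟨hk.1, hk.2.2⟩
  have h13 : scale D l 1 * (Q - ε / 3) ≤ L ^ 2 * ∑ k ∈ (cls l (primorial D) b).filter (RS η l),
      wg ψ l k * gR R k.primeFactors.card * G k ^ 2 := by
    refine le_trans (le_of_eq ?_) (mul_le_mul_of_nonneg_left h5 (sq_nonneg L))
    rw [hsc]; ring
  have h14 : (e * A) ^ 2 / s * C ≤ ε / 3 := by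
    have e1 : e ≤ 1 := min_le_left _ _
    have e2 : e ≤ ε * s / (3 * (A ^ 2 * C + 1)) := min_le_right _ _
    rw [le_div_iff₀ (by positivity)] at e2
    rw [div_mul_eq_mul_div, div_le_iff₀ hs0]
    have : 0 ≤ A ^ 2 * C := by positivity
    nlinarith [mul_nonneg he0.le this, mul_le_mul_of_nonneg_right e1 (mul_nonneg he0.le this)]
  have h15 : Q - 2 * ε / 3 ≤ (1 - s) * (Q - ε / 3) := by
    have e2 : s ≤ ε / (3 * (|Q| + 1)) := min_le_right _ _
    rw [le_div_iff₀ (by positivity)] at e2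
    nlinarith [le_abs_self Q, mul_le_mul_of_nonneg_left (le_abs_self Q) hs0.le]
  have h16 := mul_le_mul_of_nonneg_left h13 (sub_nonneg.2 hs1)
  have h17 := mul_le_mul_of_nonneg_left h12 (show 0 ≤ (e * A) ^ 2 / s by positivity)
  nlinarith [mul_le_mul_of_nonneg_left h14 hsc0, mul_le_mul_of_nonneg_left h15 hsc0]

/-- All fibres. -/
theorem coord_fib {ψ : ℝ → ℝ} {s0 s1 : ℝ} (hψ : Bump ψ s0 s1) (h4 : 4 < s0) (h41 : s1 ≤ 41 / 10)
    {x y : ℤ} (hx : x ≠ 0) (hy : y ≠ 0) (hxy : x ≠ y) {n R : ℕ} (hR : 1 ≤ R) {h : ℝ} (hh : 0 < h)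
    (hn : n * h ≤ 1) (F : ℕ → ℕ → ℕ → ℝ) (hF : Sup h F)
    (hF' : ∀ a b c : ℕ, F a b c ≠ 0 → ((a : ℝ) + b + 2) * h ≤ 1) (Q : ℕ → ℕ → ℝ)
    (hQ : ∀ a b, FibGe ψ s0 s1 n h R (F a b) (Q a b)) {ε : ℝ} (hε : 0 < ε) :
    ∃ D1 : ℕ, ∀ D ≥ D1, ∀ᶠ l : ℝ in atTop, ∀ b0 : ℕ, Nat.Coprime b0 (primorial D) →
      scale D l 3 * ((∫ s in s0..s1, ψ s) * h ^ 2 * ∑ a ∈ range n, ∑ b ∈ range n, Q a b - ε)
        ≤ ∑ m ∈ cls l (primorial D) b0, wg ψ l m * (gR R (ArithmeticFunction.cardFactors m) *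
          S3 D l h n F (m + x) (m + y) m ^ 2) := by
  classical
  set I := ∫ s in s0..s1, ψ s with hI
  let P : (Fin 2 → Fin n) → ℝ := fun b => I * Q (b 0) (b 1)
  obtain ⟨η0, hη0, H1⟩ := coord ![x, y] (fun i => by fin_cases i <;> simpa)
    (fun i j e => by
      fin_cases i <;> fin_cases j
      · rfl
      · exact absurd e hxy
      · exact absurd e.symm hxy
      · rfl)
    hψ h4 h41 (n := n) hh (fun a b => F (b 0) (b 1) a) (fun _ => True)
    (fun a b h0 => by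
      have h1 := hF _ _ _ h0
      have h2 := hF' _ _ _ h0
      rw [Fin.sum_univ_two]
      constructor <;> linarith)
    (fun a b a' b' h0 _ h0' => by
      have h1 := hF' _ _ _ h0
      have h2 := hF' _ _ _ h0'
      rw [Fin.sum_univ_two]
      linarith)
    (gR R) (gR_nonneg R) (gR_le_one R) (by simp [gR]) (by simp [gR, hR]) (ε := ε / 2)
    (by positivity)
  set K := ∑ b, (2 * |P b| + 1) with hK
  have hK0 : 0 ≤ K := sum_nonneg fun _ _ => by positivity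
  set e := min h (ε / (2 * (K + 1))) with he
  have he0 : 0 < e := lt_min hh (by positivity)
  have he1 : e ≤ h := min_le_left _ _
  choose η1 hη1 H2 using fun b : Fin 2 → Fin n => hQ (b 0) (b 1) e he0
  obtain ⟨η, hη, hηa, hηb⟩ := fib_small hη0 hη1
  obtain ⟨D1, H1⟩ := H1 η hη hηa
  obtain ⟨D2, H2⟩ := fib_uniform fun b : Fin 2 → Fin n => H2 b η hη (hηb b)
  obtain ⟨D3, H3⟩ := ipW_approx he0
  refine ⟨max D1 (max D2 D3), fun D hD => ?_⟩
  simp only [ge_iff_le, max_le_iff] at hD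
  filter_upwards [H1 D hD.1, H2 D hD.2.1, H3 D hD.2.2, eventually_gt_atTop 0]
    with l h1 h2 h3 hl b0 hb
  have h5 := h1 b0 hb
  set L := cW D * l with hL
  have hL0 : 0 < L := mul_pos (cW_pos D) hl
  have hsc1 : 0 ≤ scale D l 1 := Co.scale_nonneg D hl.le 1
  have hsc : scale D l 3 = scale D l 1 * L ^ 2 := Co.scale_add D l 2 1
  have hN : ∀ a : Fin n, L * (h - e) ≤ NC D l h a := fun a => by
    have ha : (a : ℝ) + 1 ≤ n := by exact_mod_cast a.2
    have := (abs_le.1 (h3 (a * h) ((a + 1) * h) (by positivity) (by linarith)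
      (by nlinarith))).1
    unfold NC
    linarith
  have h6 : ∀ b ∈ (univ : Finset (Fin 2 → Fin n)), scale D l 3 * (h ^ 2 * P b - e * (2 * |P b| + 1))
      ≤ (∏ i, NC D l h (b i)) * ∑ m ∈ (cls l (primorial D) b0).filter (RS η l),
        wg ψ l m * gR R m.primeFactors.card *
          (∑ a : Fin n, F (b 0) (b 1) a * XC D l h a m) ^ 2 := by
    intro b _
    have hn1 : (1 : ℝ) ≤ n := by exact_mod_cast (b 0).pos
    have hh1 : h ≤ 1 := by nlinarith
    have h7 := h2 b b0 hb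
    have h0 : 0 ≤ L * (h - e) := mul_nonneg hL0.le (by linarith)
    have h8 : (L * (h - e)) ^ 2 ≤ ∏ i, NC D l h (b i) := by
      rw [Fin.prod_univ_two, sq]
      exact mul_le_mul (hN _) (hN _) h0 (h0.trans (hN _))
    refine le_trans ?_ (mul_le_mul_of_nonneg_right h8 (sum_nonneg fun m _ =>
      mul_nonneg (mul_nonneg (wg_nonneg hψ l m) (gR_nonneg _ _)) (sq_nonneg _)))
    refine le_trans ?_ (mul_le_mul_of_nonneg_left h7 (sq_nonneg _))
    have h9 : h ^ 2 * P b - e * (2 * |P b| + 1) ≤ (h - e) ^ 2 * (P b - e) := by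
      have h10 : 0 ≤ e * (2 * h - e) := mul_nonneg he0.le (by linarith)
      have h11 := mul_le_mul_of_nonneg_left (le_abs_self (P b)) h10
      have h12 : e * (2 * h - e) * |P b| ≤ e * 2 * |P b| := by gcongr; linarith
      have h13 : (h - e) ^ 2 ≤ 1 := by nlinarith
      nlinarith
    calc _ ≤ scale D l 3 * ((h - e) ^ 2 * (P b - e)) :=
          mul_le_mul_of_nonneg_left h9 (Co.scale_nonneg D hl.le 3)
      _ = _ := by rw [hsc]; simp only [P]; ring
  have h14 := sum_le_sum h6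
  rw [← mul_sum, sum_sub_distrib, ← mul_sum _ P, ← mul_sum _ (fun b => 2 * |P b| + 1)] at h14
  have h15 : ∑ b, P b = I * ∑ a ∈ range n, ∑ b ∈ range n, Q a b := by
    rw [← sum_fin2 n Q, mul_sum]
  have h16 : e * K ≤ ε / 2 := by
    have e2 : e ≤ ε / (2 * (K + 1)) := min_le_right _ _
    rw [le_div_iff₀ (by positivity)] at e2
    nlinarith
  rw [h15, ← hK] at h14
  have h17 := mul_le_mul_of_nonneg_left h16 (Co.scale_nonneg D hl.le 3)
  rw [Fintype.card_fin, filter_true] at h5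
  refine le_trans ?_ (h5.trans ?_)
  · rw [le_sub_iff_add_le]
    refine le_trans ?_ h14
    change _ + ε / 2 * scale D l 3 ≤ _
    nlinarith
  refine le_trans (le_of_eq (sum_congr rfl fun m hm => ?_)) (sum_le_sum_of_subset_of_nonneg
    (filter_subset (RS η l) _) fun m _ _ =>
      mul_nonneg (wg_nonneg hψ l m) (mul_nonneg (gR_nonneg _ _) (sq_nonneg _)))
  have hsq := (mem_filter.1 hm).2.1
  rw [← (ArithmeticFunction.cardDistinctFactors_eq_cardFactors_iff_squarefree hsq.ne_zero).2 hsq,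
    ArithmeticFunction.cardDistinctFactors_apply, ← List.card_toFinset, mul_assoc, S3_eq]
  rfl

end Pool.Agent.P.MP_dddec0_nt.L33
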