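import Pool.Agent.P.MP_dddec0_nt.L33Lift

namespace Pool.Agent.P.MP_dddec0_nt.L33
open Finset Real Filter Pool.Agent.Lib.Tup

/-- Moving the weight. Hint: part `b1` of `final_step` (`wg_shift`, `sum_cls_shift`, `total3`
for `bump_big`). -/
theorem shift3 {ψ : ℝ → ℝ} {s0 s1 : ℝ} (hψ : Bump ψ s0 s1) (h4 : 4 < s0) (h41 : s1 ≤ 41 / 10)
    {x y z : ℕ} (hxy : x ≠ y) (hxz : x ≠ z) (hyz : y ≠ z) (n : ℕ) {h : ℝ} (hh : 0 < h)
    (F : ℕ → ℕ → ℕ → ℝ) (hF : Sup h F) (G : ℕ → ℝ) (hG0 : ∀ m, 0 ≤ G m) (hG1 : ∀ m, G m ≤ 1)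
    (Λ : ℝ) (hΛ : ∀ ε : ℝ, 0 < ε → ∃ D1 : ℕ, ∀ D ≥ D1, ∀ᶠ l : ℝ in atTop, ∀ b : ℕ,
      Nat.Coprime b (primorial D) → scale D l 3 * (Λ - ε) ≤ ∑ m ∈ cls l (primorial D) b,
        wg ψ l m * (G m * S3 D l h n F (m + ((x : ℤ) - z)) (m + ((y : ℤ) - z)) m ^ 2))
    {ε : ℝ} (hε : 0 < ε) :
    ∃ D1 : ℕ, ∀ D ≥ D1, ∀ᶠ l : ℝ in atTop, ∀ b : ℕ, Nat.Coprime (b + z) (primorial D) →
      scale D l 3 * (Λ - ε) ≤ ∑ m ∈ cls l (primorial D) b,
        wg ψ l m * (G (m + z) * S3 D l h n F (m + x) (m + y) (m + z) ^ 2) := by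
  set T' := (∫ s in (19 / 5 : ℝ)..(21 / 5), big s) * h ^ 3 * sq3 n F with hT'
  have hA : 0 < |T'| + 2 := by positivity
  set e := ε / (|T'| + 2) with he
  have he0 : 0 < e := div_pos hε hA
  have he1 : e * (|T'| + 2) = ε := div_mul_cancel₀ _ hA.ne'
  obtain ⟨D1, H1⟩ := hΛ e he0
  obtain ⟨D2, H2⟩ := total3 bump_big (x := x) (y := y) (z := z) (by exact_mod_cast hxy)
    (by exact_mod_cast hxz) (by exact_mod_cast hyz) n hh F hF one_pos
  refine ⟨max D1 D2, fun D hD => ?_⟩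
  filter_upwards [H1 D (le_trans (le_max_left _ _) hD), H2 D (le_trans (le_max_right _ _) hD),
    wg_shift hψ (by linarith) h41 z he0, sum_cls_shift hψ z, one_le_scale D 3]
    with l a1 a2 a4 a5 a6
  intro b hb
  have c1 := a1 (b + z) hb
  rw [a5] at c1
  let S : ℕ → ℝ := fun m => S3 D l h n F (m + x) (m + y) (m + z) ^ 2
  have hS : ∀ m, 0 ≤ S m := fun m => sq_nonneg _
  have c2 : ∑ m ∈ cls l (primorial D) b, wg ψ l (m + z) * (G (m + z) *
      S3 D l h n F ((m + z : ℕ) + ((x : ℤ) - z)) ((m + z : ℕ) + ((y : ℤ) - z)) (m + z : ℕ) ^ 2)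
      ≤ ∑ m ∈ cls l (primorial D) b,
        (wg ψ l m * (G (m + z) * S m) + e * (wg big l m * S m)) := by
    refine sum_le_sum fun m _ => ?_
    have e1 : ((m + z : ℕ) : ℤ) + ((x : ℤ) - z) = m + (x : ℤ) := by push_cast; ring
    have e2 : ((m + z : ℕ) : ℤ) + ((y : ℤ) - z) = m + (y : ℤ) := by push_cast; ring
    have e3 : ((m + z : ℕ) : ℤ) = m + (z : ℤ) := by push_cast; ring
    rw [e1, e2, e3]
    change wg ψ l (m + z) * (G (m + z) * S m) ≤ _
    have c3 := (abs_le.1 (a4 m)).2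
    have c4 : 0 ≤ e * wg big l m := mul_nonneg he0.le (wg_nonneg bump_big l m)
    have c5 := mul_nonneg (hG0 (m + z)) (hS m)
    have c6 := mul_le_mul_of_nonneg_right (hG1 (m + z)) (hS m)
    nlinarith [mul_le_mul_of_nonneg_right c3 c5, mul_le_mul_of_nonneg_left c6 c4]
  rw [sum_add_distrib, ← mul_sum] at c2
  have c7 := mul_le_mul_of_nonneg_left (a2 b) he0.le
  change e * ∑ m ∈ cls l (primorial D) b, wg big l m * S m ≤ _ at c7
  change _ ≤ ∑ m ∈ cls l (primorial D) b, wg ψ l m * (G (m + z) * S m)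
  have c8 : 0 ≤ scale D l 3 * e := mul_nonneg (by linarith) he0.le
  have c9 := mul_le_mul_of_nonneg_left (le_abs_self T') c8
  rw [← hT'] at c7
  rw [← he1]
  nlinarith

theorem ratio_LiftB {n : ℕ} {h : ℝ} (hn0 : 0 < n) (hh : 0 < h) (hn : n * h ≤ 1) {δ : ℝ}
    (hδ : 0 < δ) : ∃ D1 : ℕ, ∀ D ≥ D1, ∀ᶠ l : ℝ in atTop, 0 < NC D l h 0 ∧
      ∀ a < n, |NC D l h a / NC D l h 0 - 1| ≤ δ := by
  set η := min (h / 2) (δ * h / 4) with hη
  have hη0 : 0 < η := lt_min (by positivity) (by positivity)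
  have hη1 : η ≤ h / 2 := min_le_left _ _
  have hη2 : η ≤ δ * h / 4 := min_le_right _ _
  obtain ⟨D1, H⟩ := ipW_approx hη0
  refine ⟨D1, fun D hD => ?_⟩
  filter_upwards [H D hD, eventually_gt_atTop (0 : ℝ)] with l h1 hl
  have hL : 0 < cW D * l := mul_pos (cW_pos D) hl
  set L := cW D * l with hLd
  have key : ∀ a < n, |NC D l h a - L * h| ≤ η * L := fun a ha => by
    have h2 : (a : ℝ) + 1 ≤ n := by exact_mod_cast ha
    have h3 := h1 (a * h) ((a + 1) * h) (by positivity) (by nlinarith) (by nlinarith)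
    rwa [show ((a : ℝ) + 1) * h - a * h = h by ring] at h3
  have k0 := abs_le.1 (key 0 hn0)
  have p0 : L * (h / 2) ≤ NC D l h 0 := by nlinarith [k0.1]
  have p1 : 0 < NC D l h 0 := lt_of_lt_of_le (by positivity) p0
  refine ⟨p1, fun a ha => ?_⟩
  have ka := abs_le.1 (key a ha)
  rw [div_sub_one p1.ne', abs_div, abs_of_pos p1, div_le_iff₀ p1]
  have p2 := mul_le_mul_of_nonneg_left p0 hδ.le
  have p3 := mul_le_mul_of_nonneg_right hη2 hL.le
  exact abs_le.2 ⟨by nlinarith [ka.1, k0.2], by nlinarith [ka.2, k0.1]⟩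

theorem sumF0_LiftB {n : ℕ} (hn0 : 0 < n) (T : ℕ → ℕ → ℝ) (a b : ℕ) (f : ℕ → ℝ) :
    ∑ c ∈ range n, F0 T a b c * f c = T a b * f 0 := by
  rw [sum_eq_single 0]
  · simp [F0]
  · intro c _ hc
    simp [F0, hc]
  · intro h
    exact absurd (mem_range.2 hn0) h

/-- The lift agrees with the weight at a prime. Hint: `may_XC_prime`, `ipW_approx`;
`d a b c = if a = 0 then ∑ a' < n, F a' b c * (NC a' - NC 0) / NC 0 else 0` for `b, c < n`
(and `0` otherwise). -/
theorem err1 {n : ℕ} (hn0 : 0 < n) {h : ℝ} (hh : 0 < h) (hn : n * h ≤ 1) (F : ℕ → ℕ → ℕ → ℝ)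
    (hF : Sup h F) (T : ℕ → ℕ → ℝ) (hT : ∀ b < n, ∀ c < n, ∑ a ∈ range n, F a b c = T b c)
    {e : ℝ} (he : 0 < e) :
    ∃ D1 : ℕ, ∀ D ≥ D1, ∀ᶠ l : ℝ in atTop, ∃ d : ℕ → ℕ → ℕ → ℝ, Sup h d ∧
      (∀ a b c, |d a b c| ≤ e) ∧ ∀ (p : ℕ) (v z : ℤ), p.Prime → 2 * l ≤ log p →
        S3 D l h n F p v z - S3 D l h n (F0 T) v z p = S3 D l h n d p v z := by
  set M := ∑ b ∈ range n, ∑ c ∈ range n, ∑ a ∈ range n, |F a b c| with hM
  have hM0 : 0 ≤ M := by positivity
  have hMb : ∀ b < n, ∀ c < n, ∑ a ∈ range n, |F a b c| ≤ M := fun b hb c hc =>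
    (single_le_sum (f := fun c => ∑ a ∈ range n, |F a b c|) (fun _ _ => by positivity)
      (mem_range.2 hc)).trans
      (single_le_sum (f := fun b => ∑ c ∈ range n, ∑ a ∈ range n, |F a b c|)
        (fun _ _ => by positivity) (mem_range.2 hb))
  have hA : 0 < M + 1 := by linarith
  obtain ⟨D1, H⟩ := ratio_LiftB hn0 hh hn (div_pos he hA)
  refine ⟨D1, fun D hD => ?_⟩
  filter_upwards [H D hD] with l ⟨h0, h1⟩
  refine ⟨fun a b c => if a = 0 ∧ b < n ∧ c < n then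
    ∑ a' ∈ range n, F a' b c * (NC D l h a' / NC D l h 0 - 1) else 0, ?_, ?_, ?_⟩
  · intro a b c hd
    by_cases hc : a = 0 ∧ b < n ∧ c < n
    · simp only [if_pos hc] at hd
      obtain ⟨a', -, ha'⟩ := exists_ne_zero_of_sum_ne_zero hd
      have h2 := hF a' b c (left_ne_zero_of_mul ha')
      have h3 : (0 : ℝ) ≤ a' * h := by positivity
      rw [hc.1]
      push_cast
      nlinarith
    · exact absurd (if_neg hc) hd
  · intro a b c
    by_cases hc : a = 0 ∧ b < n ∧ c < n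
    · simp only [if_pos hc]
      refine (abs_sum_le_sum_abs _ _).trans ?_
      have h2 : ∑ a' ∈ range n, |F a' b c * (NC D l h a' / NC D l h 0 - 1)|
          ≤ ∑ a' ∈ range n, |F a' b c| * (e / (M + 1)) := sum_le_sum fun a' ha' => by
        rw [abs_mul]
        exact mul_le_mul_of_nonneg_left (h1 a' (mem_range.1 ha')) (abs_nonneg _)
      refine h2.trans ?_
      rw [← sum_mul]
      refine (mul_le_mul_of_nonneg_right (hMb b hc.2.1 c hc.2.2) (div_pos he hA).le).trans ?_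
      rw [← mul_div_assoc, div_le_iff₀ hA]
      nlinarith
    · simp only [if_neg hc, abs_zero]
      exact he.le
  · intro p v z hp hl
    unfold S3
    simp only [may_XC_prime hp hl]
    rw [sum_eq_single 0 (f := fun a => ∑ b ∈ range n, ∑ c ∈ range n,
      (if a = 0 ∧ b < n ∧ c < n then
        ∑ a' ∈ range n, F a' b c * (NC D l h a' / NC D l h 0 - 1) else 0) *
        (NC D l h a * XC D l h b v * XC D l h c z)) (fun a _ ha => by simp [ha])
      (fun h => absurd (mem_range.2 hn0) h), sum_comm, ← sum_sub_distrib]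
    refine sum_congr rfl fun b hb => ?_
    rw [sum_comm, ← sum_sub_distrib]
    refine sum_congr rfl fun c hc => ?_
    rw [sumF0_LiftB hn0, if_pos ⟨rfl, mem_range.1 hb, mem_range.1 hc⟩,
      ← hT b (mem_range.1 hb) c (mem_range.1 hc), sum_mul, sum_mul, ← sum_sub_distrib]
    refine sum_congr rfl fun a _ => ?_
    field_simp

/-- The second lift agrees with the weight at two primes. Hint:
`d a b c = if a = 0 ∧ b = 0 then (∑ a' b', F a' b' c * NC a' * NC b'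
  - NC 0 * ∑ b', T b' c * NC b') / NC 0 ^ 2 else 0` for `c < n` (and `0` otherwise). -/
theorem err2 {n : ℕ} (hn0 : 0 < n) {h : ℝ} (hh : 0 < h) (hn : n * h ≤ 1) (hh3 : h ≤ 1 / 3)
    (F : ℕ → ℕ → ℕ → ℝ) (T : ℕ → ℕ → ℝ)
    (hT : ∀ c < n, ∑ a ∈ range n, ∑ b ∈ range n, F a b c = ∑ b ∈ range n, T b c)
    {e : ℝ} (he : 0 < e) :
    ∃ D1 : ℕ, ∀ D ≥ D1, ∀ᶠ l : ℝ in atTop, ∃ d : ℕ → ℕ → ℕ → ℝ, Sup h d ∧
      (∀ a b c, |d a b c| ≤ e) ∧ ∀ (p q : ℕ) (z : ℤ), p.Prime → 2 * l ≤ log p → q.Prime →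
        2 * l ≤ log q → S3 D l h n F p q z - S3 D l h n (F0 T) q z p = S3 D l h n d p q z := by
  set M := ∑ c ∈ range n, (3 * ∑ a ∈ range n, ∑ b ∈ range n, |F a b c| + ∑ b ∈ range n, |T b c|)
    with hM
  have hM0 : 0 ≤ M := by positivity
  have hMb : ∀ c < n, 3 * ∑ a ∈ range n, ∑ b ∈ range n, |F a b c| + ∑ b ∈ range n, |T b c| ≤ M :=
    fun c hc => single_le_sum (f := fun c =>
      3 * ∑ a ∈ range n, ∑ b ∈ range n, |F a b c| + ∑ b ∈ range n, |T b c|)
      (fun _ _ => by positivity) (mem_range.2 hc)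
  have hA : 0 < M + 1 := by linarith
  set δ := min 1 (e / (M + 1)) with hδ
  have hδ0 : 0 < δ := lt_min one_pos (div_pos he hA)
  have hδ1 : δ ≤ 1 := min_le_left _ _
  have hδ2 : δ * (M + 1) ≤ e := (le_div_iff₀ hA).1 (min_le_right _ _)
  obtain ⟨D1, H⟩ := ratio_LiftB hn0 hh hn hδ0
  refine ⟨D1, fun D hD => ?_⟩
  filter_upwards [H D hD] with l ⟨h0, h1⟩
  set r : ℕ → ℝ := fun a => NC D l h a / NC D l h 0 with hr
  have hr' : ∀ a, NC D l h a = r a * NC D l h 0 := fun a => (div_mul_cancel₀ _ h0.ne').symm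
  refine ⟨fun a b c => if a = 0 ∧ b = 0 ∧ c < n then
    ∑ a' ∈ range n, ∑ b' ∈ range n, F a' b' c * (r a' * r b' - 1)
      - ∑ b' ∈ range n, T b' c * (r b' - 1) else 0, ?_, ?_, ?_⟩
  · intro a b c hd
    by_cases hc : a = 0 ∧ b = 0 ∧ c < n
    · have h2 : (c : ℝ) + 1 ≤ n := by exact_mod_cast hc.2.2
      rw [hc.1, hc.2.1]
      push_cast
      nlinarith
    · exact absurd (if_neg hc) hd
  · intro a b c
    by_cases hc : a = 0 ∧ b = 0 ∧ c < n
    · simp only [if_pos hc]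
      have h2 : |∑ a' ∈ range n, ∑ b' ∈ range n, F a' b' c * (r a' * r b' - 1)|
          ≤ (∑ a' ∈ range n, ∑ b' ∈ range n, |F a' b' c|) * (3 * δ) := by
        rw [sum_mul]
        refine (abs_sum_le_sum_abs _ _).trans (sum_le_sum fun a' ha' => ?_)
        rw [sum_mul]
        refine (abs_sum_le_sum_abs _ _).trans (sum_le_sum fun b' hb' => ?_)
        rw [abs_mul]
        refine mul_le_mul_of_nonneg_left ?_ (abs_nonneg _)
        have k1 := abs_le.1 (h1 a' (mem_range.1 ha'))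
        have k2 := abs_le.1 (h1 b' (mem_range.1 hb'))
        change -δ ≤ r a' - 1 ∧ r a' - 1 ≤ δ at k1
        change -δ ≤ r b' - 1 ∧ r b' - 1 ≤ δ at k2
        have k3 : |(r a' - 1) * (r b' - 1)| ≤ δ := by
          rw [abs_mul]
          have := mul_le_mul (abs_le.2 k1) ((abs_le.2 k2).trans hδ1) (abs_nonneg _) hδ0.le
          linarith
        have k4 := abs_le.1 k3
        exact abs_le.2 ⟨by nlinarith [k1.1, k2.1, k4.1], by nlinarith [k1.2, k2.2, k4.2]⟩
      have h3 : |∑ b' ∈ range n, T b' c * (r b' - 1)| ≤ (∑ b' ∈ range n, |T b' c|) * δ := by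
        rw [sum_mul]
        refine (abs_sum_le_sum_abs _ _).trans (sum_le_sum fun b' hb' => ?_)
        rw [abs_mul]
        exact mul_le_mul_of_nonneg_left (h1 b' (mem_range.1 hb')) (abs_nonneg _)
      have h4 := mul_le_mul_of_nonneg_right (hMb c hc.2.2) hδ0.le
      refine (abs_sub _ _).trans ?_
      nlinarith
    · simp only [if_neg hc, abs_zero]
      exact he.le
  · intro p q z hp hl hq hl'
    unfold S3
    simp only [may_XC_prime hp hl, may_XC_prime hq hl', sumF0_LiftB hn0]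
    rw [sum_eq_single 0 (f := fun a => ∑ b ∈ range n, ∑ c ∈ range n,
      (if a = 0 ∧ b = 0 ∧ c < n then
        ∑ a' ∈ range n, ∑ b' ∈ range n, F a' b' c * (r a' * r b' - 1)
          - ∑ b' ∈ range n, T b' c * (r b' - 1) else 0) *
        (NC D l h a * NC D l h b * XC D l h c z)) (fun a _ ha => by simp [ha])
      (fun h => absurd (mem_range.2 hn0) h),
      sum_eq_single 0 (f := fun b => ∑ c ∈ range n,
      (if 0 = 0 ∧ b = 0 ∧ c < n then
        ∑ a' ∈ range n, ∑ b' ∈ range n, F a' b' c * (r a' * r b' - 1)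
          - ∑ b' ∈ range n, T b' c * (r b' - 1) else 0) *
        (NC D l h 0 * NC D l h b * XC D l h c z)) (fun a _ ha => by simp [ha])
      (fun h => absurd (mem_range.2 hn0) h)]
    have e1 : ∑ a ∈ range n, ∑ b ∈ range n, ∑ c ∈ range n,
        F a b c * (NC D l h a * NC D l h b * XC D l h c z) = ∑ c ∈ range n, ∑ a ∈ range n,
        ∑ b ∈ range n, F a b c * (NC D l h a * NC D l h b * XC D l h c z) := by
      rw [sum_congr rfl fun a _ => sum_comm, sum_comm]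
    rw [e1, sum_comm (f := fun a b => T a b * (NC D l h a * XC D l h b z * NC D l h 0)),
      ← sum_sub_distrib]
    refine sum_congr rfl fun c hc => ?_
    rw [if_pos ⟨rfl, rfl, mem_range.1 hc⟩]
    set N := NC D l h 0 with hN
    set Y := XC D l h c z with hY
    have e2 : ∑ a ∈ range n, ∑ b ∈ range n, F a b c * (NC D l h a * NC D l h b * Y)
        = (∑ a ∈ range n, ∑ b ∈ range n, F a b c * (r a * r b - 1)) * (N * N * Y)
          + (∑ a ∈ range n, ∑ b ∈ range n, F a b c) * (N * N * Y) := by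
      rw [sum_mul, sum_mul, ← sum_add_distrib]
      refine sum_congr rfl fun a _ => ?_
      rw [sum_mul, sum_mul, ← sum_add_distrib]
      refine sum_congr rfl fun b _ => ?_
      rw [hr' a, hr' b]
      ring
    have e3 : ∑ b ∈ range n, T b c * (NC D l h b * Y * N)
        = (∑ b ∈ range n, T b c * (r b - 1)) * (N * N * Y)
          + (∑ b ∈ range n, T b c) * (N * N * Y) := by
      rw [sum_mul, sum_mul, ← sum_add_distrib]
      refine sum_congr rfl fun b _ => ?_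
      rw [hr' b]
      ring
    rw [e2, e3, hT c (mem_range.1 hc)]
    ring

end Pool.Agent.P.MP_dddec0_nt.L33
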