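import Pool.Agent.P.MP_dddec0_nt.L33Defs
import Pool.Agent.Lib.Tup.Maynard

namespace Pool.Agent.P.MP_dddec0_nt.L33
open Finset Real Filter Pool.Agent.Lib.Tup

/-- The weight at a prime, in the third variable. -/
def F0 (T : ℕ → ℕ → ℝ) (a b c : ℕ) : ℝ := if c = 0 then T a b else 0

theorem lift_sq (n : ℕ) (t : ℕ → ℕ → ℝ) : ∑ a : Fin 2 → Fin n, t (a 0) (a 1)
    = ∑ a ∈ range n, ∑ b ∈ range n, t a b := by
  rw [← (finTwoArrowEquiv (Fin n)).symm.sum_comp, Fintype.sum_prod_type,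
    ← Fin.sum_univ_eq_sum_range (fun a => ∑ b ∈ range n, t a b)]
  refine sum_congr rfl fun y _ => ?_
  rw [← Fin.sum_univ_eq_sum_range (fun b => t y b)]
  rfl

theorem lift_cube (n : ℕ) (t : ℕ → ℕ → ℕ → ℝ) : ∑ a : Fin 3 → Fin n, t (a 0) (a 1) (a 2)
    = ∑ a ∈ range n, ∑ b ∈ range n, ∑ c ∈ range n, t a b c := by
  rw [← (Fin.insertNthEquiv (fun _ : Fin 3 => Fin n) 0).sum_comp, Fintype.sum_prod_type,
    ← Fin.sum_univ_eq_sum_range (fun a => ∑ b ∈ range n, ∑ c ∈ range n, t a b c)]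
  refine sum_congr rfl fun x _ => ?_
  rw [← lift_sq n (fun b c => t x b c)]
  rfl

open Classical in
/-- The indicator of an admissible cell. -/
noncomputable def liftInd (h : ℝ) (p : ℕ × ℕ × ℕ) (a b c : ℕ) : ℝ :=
  if a = p.1 then if b = p.2.1 then if c = p.2.2 then
    (if ((p.1 : ℝ) + p.2.1 + p.2.2 + 3) * h ≤ 5 / 3 then 1 else 0) else 0 else 0 else 0

theorem lift_sup (h : ℝ) (p : ℕ × ℕ × ℕ) : Sup h (liftInd h p) := by
  intro a b c H
  unfold liftInd at H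
  split_ifs at H with h1 h2 h3 h4 <;> first | exact absurd rfl H | skip
  rw [h1, h2, h3]
  exact h4

theorem lift_sum (n : ℕ) (h : ℝ) {p : ℕ × ℕ × ℕ} (hp : p ∈ range n ×ˢ range n ×ˢ range n)
    (t : ℝ → ℕ → ℕ → ℕ → ℝ) (ht : ∀ a b c, t 0 a b c = 0) :
    ∑ a ∈ range n, ∑ b ∈ range n, ∑ c ∈ range n, t (liftInd h p a b c) a b c =
      t (liftInd h p p.1 p.2.1 p.2.2) p.1 p.2.1 p.2.2 := by
  obtain ⟨h1, h2⟩ := mem_product.1 hp
  obtain ⟨h2, h3⟩ := mem_product.1 h2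
  rw [sum_eq_single_of_mem p.1 h1, sum_eq_single_of_mem p.2.1 h2, sum_eq_single_of_mem p.2.2 h3]
  · intro c _ hc
    simp [liftInd, hc, ht]
  · intro b _ hb
    simp [liftInd, hb, ht]
  · intro a _ ha
    simp [liftInd, ha, ht]

theorem lift_dec (D : ℕ) (l h : ℝ) (n : ℕ) {d : ℕ → ℕ → ℕ → ℝ} (hd : Sup h d) (u v z : ℤ) :
    S3 D l h n d u v z = ∑ p ∈ range n ×ˢ range n ×ˢ range n,
      d p.1 p.2.1 p.2.2 * S3 D l h n (liftInd h p) u v z := by
  have e : S3 D l h n d u v z = ∑ p ∈ range n ×ˢ range n ×ˢ range n,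
      d p.1 p.2.1 p.2.2 * (XC D l h p.1 u * XC D l h p.2.1 v * XC D l h p.2.2 z) := by
    rw [S3, sum_product]
    exact sum_congr rfl fun a _ => by rw [sum_product]
  rw [e]
  refine sum_congr rfl fun p hp => ?_
  rw [S3, lift_sum n h hp (fun r a b c => r * (XC D l h a u * XC D l h b v * XC D l h c z))
    (fun a b c => zero_mul _)]
  by_cases h0 : d p.1 p.2.1 p.2.2 = 0
  · rw [h0, zero_mul, zero_mul]
  · simp [liftInd, hd _ _ _ h0]

theorem lift_sq3 (n : ℕ) (h : ℝ) {p : ℕ × ℕ × ℕ} (hp : p ∈ range n ×ˢ range n ×ˢ range n) :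
    sq3 n (liftInd h p) ≤ 1 := by
  rw [sq3, lift_sum n h hp (fun r _ _ _ => r ^ 2) (fun a b c => by simp)]
  unfold liftInd
  split_ifs <;> norm_num

theorem lift_inj3 {x y z : ℤ} (hxy : x ≠ y) (hxz : x ≠ z) (hyz : y ≠ z) :
    Function.Injective ![x, y, z] := by
  intro i j hij
  fin_cases i <;> fin_cases j <;> simp_all [eq_comm]

theorem S3_swap (D : ℕ) (l h : ℝ) (n : ℕ) {F : ℕ → ℕ → ℕ → ℝ} (hF : ∀ a b c, F a b c = F b a c)
    (u v z : ℤ) : S3 D l h n F u v z = S3 D l h n F v u z := by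
  unfold S3
  rw [sum_comm]
  refine sum_congr rfl fun a _ => sum_congr rfl fun b _ => sum_congr rfl fun c _ => ?_
  rw [hF b a c]
  ring

/-- Hint: `total_le` with `κ = Fin 3`, `c = ![x, y, z]`, `fun a => F (a 0) (a 1) (a 2)`; see
`sum_cube` in `Main223.lean` of this folder. -/
theorem total3 {ψ : ℝ → ℝ} {s0 s1 : ℝ} (hψ : Bump ψ s0 s1) {x y z : ℤ} (hxy : x ≠ y) (hxz : x ≠ z)
    (hyz : y ≠ z) (n : ℕ) {h : ℝ} (hh : 0 < h) (F : ℕ → ℕ → ℕ → ℝ) (hF : Sup h F) {ε : ℝ}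
    (hε : 0 < ε) :
    ∃ D1 : ℕ, ∀ D ≥ D1, ∀ᶠ l : ℝ in atTop, ∀ b : ℕ,
      ∑ m ∈ cls l (primorial D) b, wg ψ l m * S3 D l h n F (m + x) (m + y) (m + z) ^ 2
        ≤ scale D l 3 * ((∫ s in s0..s1, ψ s) * h ^ 3 * sq3 n F + ε) := by
  obtain ⟨D1, H⟩ := total_le ![x, y, z] (lift_inj3 hxy hxz hyz) hψ (n := n) hh
    (fun a => F (a 0) (a 1) (a 2)) (fun a ha => by
      have := hF _ _ _ ha
      rw [Fin.sum_univ_three]
      linarith) hε
  refine ⟨D1, fun D hD => ?_⟩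
  filter_upwards [H D hD] with l hl b
  have h1 := hl b
  rw [lift_cube n (fun a b c => F a b c ^ 2), Fintype.card_fin] at h1
  refine le_of_eq_of_le (sum_congr rfl fun m _ => ?_) h1
  rw [S3, ← lift_cube n (fun a b c => F a b c *
    (XC D l h a (m + x) * XC D l h b (m + y) * XC D l h c (m + z)))]
  simp only [Fin.prod_univ_three]
  rfl

/-- Small coefficients, uniformly. Hint: `total3` for the indicator of each admissible cell
`(a, b, c)`, and `(∑ d Y) ^ 2 ≤ n ^ 3 ∑ d ^ 2 Y ^ 2`. -/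
theorem small3 {ψ : ℝ → ℝ} {s0 s1 : ℝ} (hψ : Bump ψ s0 s1) {x y z : ℤ} (hxy : x ≠ y) (hxz : x ≠ z)
    (hyz : y ≠ z) (n : ℕ) {h : ℝ} (hh : 0 < h) :
    ∃ C : ℝ, 0 ≤ C ∧ ∃ D1 : ℕ, ∀ D ≥ D1, ∀ᶠ l : ℝ in atTop, ∀ (b : ℕ) (d : ℕ → ℕ → ℕ → ℝ) (e : ℝ),
      Sup h d → (∀ a b c, |d a b c| ≤ e) →
      ∑ m ∈ cls l (primorial D) b, wg ψ l m * S3 D l h n d (m + x) (m + y) (m + z) ^ 2
        ≤ C * e ^ 2 * scale D l 3 := by
  set s := range n ×ˢ range n ×ˢ range n with hs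
  set I := ∫ s in s0..s1, ψ s with hI
  have hI0 : 0 ≤ I := fin_int_nonneg hψ
  choose D1 H using fun p : ℕ × ℕ × ℕ =>
    total3 hψ hxy hxz hyz n hh (liftInd h p) (lift_sup h p) one_pos
  refine ⟨s.card * (s.card * (I * h ^ 3 + 1)), by positivity, s.sup D1, fun D hD => ?_⟩
  have H2 := (eventually_all_finset s).2 fun p hp => H p D ((le_sup hp).trans hD)
  filter_upwards [H2, eventually_ge_atTop 0] with l hl hl0 b d e hd he
  have hsc : 0 ≤ scale D l 3 := Co.scale_nonneg D hl0 3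
  have hw : ∀ m : ℕ, 0 ≤ wg ψ l m := fun m => div_nonneg (hψ.nonneg _) (Nat.cast_nonneg _)
  have hd2 : ∑ p ∈ s, d p.1 p.2.1 p.2.2 ^ 2 ≤ s.card * e ^ 2 := by
    rw [← nsmul_eq_mul]
    refine sum_le_card_nsmul _ _ _ fun p _ => ?_
    rw [← sq_abs]
    exact pow_le_pow_left₀ (abs_nonneg _) (he _ _ _) 2
  calc _ ≤ ∑ m ∈ cls l (primorial D) b, wg ψ l m * (s.card * e ^ 2 *
          ∑ p ∈ s, S3 D l h n (liftInd h p) (m + x) (m + y) (m + z) ^ 2) := by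
        refine sum_le_sum fun m _ => mul_le_mul_of_nonneg_left ?_ (hw m)
        rw [lift_dec D l h n hd]
        exact (sum_mul_sq_le_sq_mul_sq _ _ _).trans
          (mul_le_mul_of_nonneg_right hd2 (sum_nonneg fun _ _ => sq_nonneg _))
    _ = s.card * e ^ 2 * ∑ p ∈ s, ∑ m ∈ cls l (primorial D) b,
          wg ψ l m * S3 D l h n (liftInd h p) (m + x) (m + y) (m + z) ^ 2 := by
        rw [sum_comm, mul_sum]
        refine sum_congr rfl fun m _ => ?_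
        rw [← mul_sum]
        ring
    _ ≤ s.card * e ^ 2 * (s.card * (scale D l 3 * (I * h ^ 3 + 1))) := by
        refine mul_le_mul_of_nonneg_left ?_ (by positivity)
        rw [← nsmul_eq_mul]
        refine sum_le_card_nsmul _ _ _ fun p hp => (hl p hp b).trans ?_
        refine mul_le_mul_of_nonneg_left ?_ hsc
        have h1 := mul_le_mul_of_nonneg_left (lift_sq3 n h hp)
          (show 0 ≤ I * h ^ 3 by positivity)
        linarith
    _ = _ := by ring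

open Classical in
/-- Hint: `coord_prime` with `ι = Fin 2`, `c = ![x, y]`, `fun a b => F0 T (b 0) (b 1) a`,
`good b = (b 0 + b 1 + 2 + E ≤ n)`. -/
theorem main3 {ψ : ℝ → ℝ} {s0 s1 : ℝ} (hψ : Bump ψ s0 s1) (h4 : 4 < s0) (h41 : s1 ≤ 41 / 10)
    {x y : ℤ} (hx : x ≠ 0) (hy : y ≠ 0) (hxy : x ≠ y) {n E : ℕ} (hn0 : 0 < n) {h : ℝ} (hh : 0 < h)
    (hn : n * h ≤ 1) (hE : ((n : ℝ) + E + 1) * h ≤ 3 / 2) (T : ℕ → ℕ → ℝ)
    (hT : ∀ a b, T a b ≠ 0 → a + b + 2 ≤ n + E) {ε : ℝ} (hε : 0 < ε) :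
    ∃ D1 : ℕ, ∀ D ≥ D1, ∀ᶠ l : ℝ in atTop, ∀ b0 : ℕ, Nat.Coprime b0 (primorial D) →
      scale D l 3 * ((∫ s in s0..s1, ψ s) / s1 * h ^ 4 * (∑ a ∈ range n, ∑ b ∈ range n,
          if a + b + 2 + E ≤ n then T a b ^ 2 else 0) - ε)
        ≤ ∑ m ∈ cls l (primorial D) b0, wg ψ l m * ((if m.Prime then 1 else 0) *
          S3 D l h n (F0 T) (m + x) (m + y) m ^ 2) := by
  have key : ∀ (a : Fin n) (b : Fin 2 → Fin n), F0 T (b 0) (b 1) a ≠ 0 →
      (a : ℝ) = 0 ∧ ((b 0 : ℝ) + b 1 + 2) ≤ n + E := by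
    intro a b H
    unfold F0 at H
    split_ifs at H with h0
    · exact ⟨by exact_mod_cast h0, by exact_mod_cast hT _ _ H⟩
    · exact absurd rfl H
  obtain ⟨D1, H⟩ := coord_prime ![x, y] (fun i => by fin_cases i <;> simpa)
    (fun i j hij => by fin_cases i <;> fin_cases j <;> simp_all [eq_comm]) hψ h4 h41 (n := n) hh
    (fun a b => F0 T (b 0) (b 1) a) (fun b => (b 0 : ℕ) + b 1 + 2 + E ≤ n)
    (fun a b H => by
      obtain ⟨h1, h2⟩ := key a b H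
      have h3 := mul_le_mul_of_nonneg_right h2 hh.le
      rw [Fin.sum_univ_two, h1]
      constructor <;> nlinarith)
    (fun a b a' b' _ hg H => by
      obtain ⟨-, h2⟩ := key a' b' H
      have h1 : (b 0 : ℝ) + b 1 + 2 + E ≤ n := by exact_mod_cast hg
      have h3 := mul_le_mul_of_nonneg_right h2 hh.le
      have h4 := mul_le_mul_of_nonneg_right h1 hh.le
      rw [Fin.sum_univ_two]
      nlinarith) hε
  refine ⟨D1, fun D hD => ?_⟩
  filter_upwards [H D hD] with l hl b0 hb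
  have h1 := hl b0 hb
  have e1 : ∀ a b : ℕ, ∑ c : Fin n, F0 T a b c = T a b := by
    intro a b
    rw [Fin.sum_univ_eq_sum_range (fun c => F0 T a b c)]
    exact (sum_eq_single_of_mem (f := fun c => F0 T a b c) 0 (mem_range.2 hn0)
      fun c _ hc => if_neg hc).trans (if_pos rfl)
  simp only [e1, Fintype.card_fin] at h1
  rw [sum_filter] at h1
  refine le_of_eq_of_le ?_ (h1.trans_eq (sum_congr rfl fun m _ => ?_))
  · rw [← lift_sq n (fun a b => if a + b + 2 + E ≤ n then T a b ^ 2 else 0)]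
    congr 3
    exact sum_congr rfl fun b _ => by congr
  · congr 3
    rw [sum_comm, S3, ← lift_sq n (fun a b => ∑ c ∈ range n, F0 T a b c *
      (XC D l h a (m + x) * XC D l h b (m + y) * XC D l h c m))]
    refine sum_congr rfl fun b _ => ?_
    rw [← Fin.sum_univ_eq_sum_range (fun c => F0 T (b 0) (b 1) c *
      (XC D l h (b 0) (m + x) * XC D l h (b 1) (m + y) * XC D l h c m))]
    refine sum_congr rfl fun c _ => ?_
    rw [Fin.prod_univ_two, mul_comm (XC D l h c m)]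
    rfl

end Pool.Agent.P.MP_dddec0_nt.L33
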