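import Pool.Agent.P.MP_dddec0_nt.L33Final
import Pool.Agent.P.MP_dddec0_nt.L33CertC2
import Pool.Agent.P.MP_dddec0_nt.L33CertE2
import Pool.Agent.Lib.Tup.Maynard

namespace Pool.Agent.P.MP_dddec0_nt.L33
open Finset Real Pool.Agent.Lib.Tup

theorem mm_pos (k : ℕ) : 0 < mm k := by
  unfold mm
  split_ifs <;> norm_num

theorem main {x y z : ℕ} (hxy : x ≠ y) (hxz : x ≠ z) (hyz : y ≠ z)
    (hadm : ∀ p : ℕ, p.Prime → ∃ r : ℕ, ¬ p ∣ r + x ∧ ¬ p ∣ r + y ∧ ¬ p ∣ r + z) :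
    {m : ℕ | Good (m + x) (m + y) (m + z)}.Infinite := by
  have hd : (0 : ℝ) < 1 / 30000 := by norm_num
  have e : (4 : ℝ) + 3 * (1 / 30000) = 40001 / 10000 := by norm_num
  have hψ := bump_tent hd (by norm_num)
  have hI := int_tent_pos hd
  rw [e] at hψ hI
  have sup : ∀ {a b c : ℕ}, a + b ≤ 58 ∧ a + b + c ≤ 97 →
      ((a : ℝ) + b + c + 3) * (1 / 60) ≤ 5 / 3 ∧ ((a : ℝ) + b + 2) * (1 / 60) ≤ 1 := fun h => by
    have h1 := (Nat.cast_le (α := ℝ)).2 h.1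
    have h2 := (Nat.cast_le (α := ℝ)).2 h.2
    push_cast at h1 h2
    constructor <;> linarith
  have fib : ∀ {R K : ℕ}, K < R → K ≤ 5 → ∀ f : ℕ → ℝ,
      FibGe (tent (1 / 30000)) (4 + 1 / 30000) (40001 / 10000) 60 (1 / 60) R f
        (QQ R K (Rf (1 / 60) 60 f)) := fun hK hK5 f =>
    fib_ge hψ (by norm_num) hK hK5 mm mm_pos _ _ (fun k σ _ _ h3 => condN _ (mm_pos k) h3)
      (by norm_num) (by norm_num) (by norm_num) f
  refine final hxy hxz hyz hadm hψ (by norm_num) (by norm_num) hI (n := 60) (E := 16)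
    (by norm_num) (h := 1 / 60) (by norm_num) (by norm_num) (by norm_num) (by norm_num) Fr Fr' Tr
    (fun a b c h => (sup (Fr_supp h)).1) (fun a b c h => (sup (Fr_supp h)).2)
    (fun a b c h => (sup (Fr'_supp h)).1) (fun a b c h => (sup (Fr'_supp h)).2)
    Fr_symm Tr_symm Tr_supp (fun _ _ _ _ => rfl) marg'
    (fun a b => QQ 3 2 (Rf (1 / 60) 60 (Fr a b))) (fun a b => QQ 5 4 (Rf (1 / 60) 60 (Fr' a b)))
    (fun a b => fib (by norm_num) (by norm_num) _) (fun a b => fib (by norm_num) (by norm_num) _) ?_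
  linarith [TT_ge, sq3_Fr, sq3_Fr', q3_le, q5_le]

end Pool.Agent.P.MP_dddec0_nt.L33
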