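import Pool.Agent.P.MP_dddec0_nt.L33Defs

namespace Pool.Agent.P.MP_dddec0_nt.L33
open Finset Real

def sumTo (n : ℕ) (f : ℕ → ℕ) : ℕ := Nat.rec 0 (fun i acc => acc + f i) n

theorem sumTo_eq (n : ℕ) (f : ℕ → ℕ) : sumTo n f = ∑ i ∈ range n, f i := by
  induction n with
  | zero => rfl
  | succ n ih => rw [sum_range_succ, ← ih]; rfl

/-- Lower bound for `10 ^ 9 * log (j / m)`. -/
def lgN (m j : ℕ) : ℕ := sumTo (j - m) (fun i => 2 * 10 ^ 9 / (2 * (m + i) + 1))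

def eD (m D : ℕ) : ℕ := 10001 * (60 * m ^ 3 + 60 * m ^ 2 * D + 15 * m * D ^ 2 + D ^ 3)

def n0 (J m k σ : ℕ) : ℕ :=
  999950000 + (if 2 ≤ J ∧ σ + k ≤ 2 * m then lgN m (3 * m - (σ + k)) else 0)
    + (if 3 ≤ J ∧ σ + k ≤ m then
        10 ^ 9 * 50000 * ((3 * m + (m - (σ + k))) * (m - (σ + k)) ^ 2) / eD m (m - σ) else 0)

def n1 (J m k σ : ℕ) : ℕ :=
  n0 J m k σ + (if 2 ≤ J ∧ σ + k ≤ 2 * m then 10 ^ 9 * k / (3 * m - σ) else 0)
    + (if 3 ≤ J ∧ σ + k ≤ m then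
        10 ^ 9 * 50000 * (k * (6 * m * (m - (σ + k)) + 3 * (m - (σ + k)) ^ 2)) / eD m (m - σ)
      else 0)

theorem l33n_aux (m n : ℕ) (hm : 0 < m) :
    ((∑ i ∈ range n, 2 * 10 ^ 9 / (2 * (m + i) + 1) : ℕ) : ℝ)
      ≤ 10 ^ 9 * log (((m + n : ℕ) : ℝ) / m) := by
  have hM : (0 : ℝ) < m := by exact_mod_cast hm
  induction n with
  | zero => simp [div_self hM.ne']
  | succ n ih =>
    rw [sum_range_succ, Nat.cast_add]
    have hy : (0 : ℝ) < (m : ℝ) + n := by positivity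
    have h1 : ((2 * 10 ^ 9 / (2 * (m + n) + 1) : ℕ) : ℝ) ≤ 2 * 10 ^ 9 / (2 * ((m : ℝ) + n) + 1) := by
      have := @Nat.cast_div_le ℝ _ _ _ (2 * 10 ^ 9) (2 * (m + n) + 1)
      refine this.trans (le_of_eq ?_)
      push_cast
      ring
    have h2 := Real.le_log_one_add_of_nonneg (x := 1 / ((m : ℝ) + n)) (by positivity)
    have h3 : 2 * (1 / ((m : ℝ) + n)) / (1 / ((m : ℝ) + n) + 2) = 2 / (2 * ((m : ℝ) + n) + 1) := by
      field_simp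
      ring
    have h4 : log (((m + (n + 1) : ℕ) : ℝ) / m)
        = log (((m + n : ℕ) : ℝ) / m) + log (1 + 1 / ((m : ℝ) + n)) := by
      rw [← Real.log_mul (by push_cast; positivity) (by positivity)]
      congr 1
      push_cast
      field_simp
      ring
    rw [h4, mul_add (10 ^ 9 : ℝ)]
    rw [h3] at h2
    have h5 : (2 : ℝ) * 10 ^ 9 / (2 * ((m : ℝ) + n) + 1) = 10 ^ 9 * (2 / (2 * ((m : ℝ) + n) + 1)) := by
      ring
    have h6 := mul_le_mul_of_nonneg_left h2 (show (0 : ℝ) ≤ 10 ^ 9 by positivity)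
    linarith

theorem lgN_le {m j : ℕ} (hm : 0 < m) (hj : m ≤ j) : (lgN m j : ℝ) ≤ 10 ^ 9 * log (j / m) := by
  obtain ⟨n, rfl⟩ := Nat.exists_eq_add_of_le hj
  unfold lgN
  rw [sumTo_eq, Nat.add_sub_cancel_left]
  exact l33n_aux m n hm

theorem l33n_comb {t0 t1 τ a0 a1 γ V : ℝ} (h0 : t0 ≤ τ) (h1 : τ ≤ t1)
    (ha : a1 ≤ γ * (t1 - t0)) (hV : a0 + γ * (t1 - τ) ≤ V) :
    a0 * (τ - t0) + (a0 + a1) * (t1 - τ) ≤ (t1 - t0) * V := by
  have e1 := mul_le_mul_of_nonneg_right ha (sub_nonneg.2 h1)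
  have e2 := mul_le_mul_of_nonneg_left hV (sub_nonneg.2 (h0.trans h1))
  nlinarith

theorem l33n_w2_nonneg {τ : ℝ} (h : τ ≤ 3) : 0 ≤ (40001 / 10000 - τ) * w2 (40001 / 10000) τ := by
  have hs : (0 : ℝ) < 40001 / 10000 - τ := by linarith
  unfold w2
  split_ifs
  · exact mul_nonneg hs.le (div_nonneg (le_max_left _ _) hs.le)
  · simp

theorem l33n_E3_pos {d : ℝ} (h : 0 ≤ d) : 0 < 12 * E3 (40001 / 10000) d := by
  unfold E3
  positivity

theorem l33n_w3_nonneg {τ : ℝ} (h : τ ≤ 3) : 0 ≤ (40001 / 10000 - τ) * w3 (40001 / 10000) τ := by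
  have hs : (0 : ℝ) < 40001 / 10000 - τ := by linarith
  unfold w3
  split_ifs with h1
  · exact mul_nonneg hs.le (div_nonneg (sq_nonneg _) (l33n_E3_pos (by linarith)).le)
  · simp

theorem l33n_w2_ge {t0 t1 τ : ℝ} (h0 : t0 ≤ τ) (h1 : τ ≤ t1) (h2 : t1 ≤ 2) :
    log (3 - t1) + 1 / (3 - t0) * (t1 - τ)
      ≤ (40001 / 10000 - τ) * w2 (40001 / 10000) τ + 1 / 20000 := by
  have hs : (0 : ℝ) < 40001 / 10000 - τ := by linarith
  have hx : (0 : ℝ) < 3 - τ := by linarith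
  have hy : (0 : ℝ) < 3 - t1 := by linarith
  unfold w2
  rw [if_pos (h1.trans h2), mul_div_cancel₀ _ hs.ne']
  have e1 := le_max_right (0 : ℝ) (log (3 - τ) - (40001 / 10000 - 4) / 2)
  have e2 := Real.log_le_sub_one_of_pos (div_pos hy hx)
  rw [Real.log_div hy.ne' hx.ne'] at e2
  have e3 : (3 - t1) / (3 - τ) - 1 = -(1 / (3 - τ) * (t1 - τ)) := by
    field_simp
    ring
  have e4 : 1 / (3 - t0) ≤ 1 / (3 - τ) := one_div_le_one_div_of_le hx (by linarith)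
  have e5 := mul_le_mul_of_nonneg_right e4 (sub_nonneg.2 h1)
  linarith

theorem l33n_w3_ge {t0 t1 τ : ℝ} (h0 : t0 ≤ τ) (h1 : τ ≤ t1) (h2 : t1 ≤ 1) :
    (3 + (1 - t1)) * (1 - t1) ^ 2 / (12 * E3 (40001 / 10000) (1 - t0))
      + (6 * (1 - t1) + 3 * (1 - t1) ^ 2) / (12 * E3 (40001 / 10000) (1 - t0)) * (t1 - τ)
      ≤ (40001 / 10000 - τ) * w3 (40001 / 10000) τ := by
  unfold w3
  rw [if_pos (h1.trans h2)]
  obtain ⟨d0, hd0⟩ : ∃ d0, d0 = 1 - t1 := ⟨_, rfl⟩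
  obtain ⟨d1, hd1⟩ : ∃ d1, d1 = 1 - t0 := ⟨_, rfl⟩
  obtain ⟨d, hd⟩ : ∃ d, d = 1 - τ := ⟨_, rfl⟩
  have a0 : 0 ≤ d0 := by linarith
  have a1 : d0 ≤ d := by linarith
  have a2 : d ≤ d1 := by linarith
  have a3 : 0 ≤ d := a0.trans a1
  have b1 : t1 - τ = d - d0 := by linarith
  have b2 : (40001 / 10000 : ℝ) - τ = 30001 / 10000 + d := by linarith
  rw [b1, b2, ← hd0, ← hd1, ← hd]
  have p1 := l33n_E3_pos a3
  have p2 : 12 * E3 (40001 / 10000) d ≤ 12 * E3 (40001 / 10000) d1 := by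
    unfold E3
    have q2 : d ^ 2 ≤ d1 ^ 2 := pow_le_pow_left₀ a3 a2 2
    have q3 : d ^ 3 ≤ d1 ^ 3 := pow_le_pow_left₀ a3 a2 3
    linarith
  have c1 : (3 + d0) * d0 ^ 2 + (6 * d0 + 3 * d0 ^ 2) * (d - d0) ≤ (30001 / 10000 + d) * d ^ 2 := by
    have u1 : 0 ≤ (d - d0) ^ 2 * (3 + d + 2 * d0) := by positivity
    nlinarith [sq_nonneg d]
  have c2 : 0 ≤ (30001 / 10000 + d) * d ^ 2 := by positivity
  rw [div_mul_eq_mul_div, ← add_div, ← mul_div_assoc]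
  exact div_le_div₀ c2 c1 p1 p2

theorem l33n_eD {m σ : ℕ} (hm : 0 < m) (h : σ ≤ m) :
    12 * E3 (40001 / 10000) (1 - σ * (1 / (m : ℝ))) = eD m (m - σ) / (50000 * (m : ℝ) ^ 3) := by
  have hM : (0 : ℝ) < m := by exact_mod_cast hm
  unfold E3 eD
  push_cast [Nat.cast_sub h]
  field_simp
  ring

theorem l33n_div (a b : ℕ) : ((10 ^ 9 * a / b : ℕ) : ℝ) / 10 ^ 9 ≤ (a : ℝ) / b := by
  have := @Nat.cast_div_le ℝ _ _ _ (10 ^ 9 * a) b
  rw [div_le_iff₀ (by positivity)]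
  refine this.trans (le_of_eq ?_)
  push_cast
  ring

theorem l33n_p2 (J : ℕ) {m k σ : ℕ} (hm : 0 < m) (h3 : σ + k ≤ 3 * m) {τ : ℝ}
    (h0 : σ * (1 / (m : ℝ)) ≤ τ) (h1 : τ ≤ (σ + k) * (1 / (m : ℝ))) (hτ : τ ≤ 3) :
    ((if 2 ≤ J ∧ σ + k ≤ 2 * m then lgN m (3 * m - (σ + k)) else 0 : ℕ) : ℝ) / 10 ^ 9
        * (τ - σ * (1 / (m : ℝ)))
      + (((if 2 ≤ J ∧ σ + k ≤ 2 * m then lgN m (3 * m - (σ + k)) else 0 : ℕ) : ℝ) / 10 ^ 9
        + ((if 2 ≤ J ∧ σ + k ≤ 2 * m then 10 ^ 9 * k / (3 * m - σ) else 0 : ℕ) : ℝ) / 10 ^ 9)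
        * ((σ + k) * (1 / (m : ℝ)) - τ)
      ≤ ((σ + k) * (1 / (m : ℝ)) - σ * (1 / (m : ℝ))) *
        ((40001 / 10000 - τ) * (if 2 ≤ J then w2 (40001 / 10000) τ else 0) + 1 / 20000) := by
  have hM : (0 : ℝ) < m := by exact_mod_cast hm
  by_cases hc : 2 ≤ J ∧ σ + k ≤ 2 * m
  · rw [if_pos hc, if_pos hc, if_pos hc.1]
    have hc2 : (σ : ℝ) + k ≤ 2 * m := by exact_mod_cast hc.2
    have hk : (0 : ℝ) ≤ k := Nat.cast_nonneg k
    have t2 : ((σ : ℝ) + k) * (1 / (m : ℝ)) ≤ 2 := by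
      rw [mul_one_div, div_le_iff₀ hM]; exact hc2
    refine l33n_comb (γ := 1 / (3 - σ * (1 / (m : ℝ)))) h0 h1 ?_ ?_
    · refine (l33n_div k (3 * m - σ)).trans (le_of_eq ?_)
      have : (0 : ℝ) < 3 * m - σ := by linarith
      push_cast [Nat.cast_sub (show σ ≤ 3 * m by omega)]
      field_simp
      ring
    · refine le_trans ?_ (l33n_w2_ge h0 h1 t2)
      have e := lgN_le (m := m) (j := 3 * m - (σ + k)) hm (by omega)
      have e2 : (((3 * m - (σ + k) : ℕ) : ℝ)) / m = 3 - ((σ : ℝ) + k) * (1 / (m : ℝ)) := by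
        push_cast [Nat.cast_sub h3]
        field_simp
      rw [e2] at e
      have e3 : (lgN m (3 * m - (σ + k)) : ℝ) / 10 ^ 9 ≤ log (3 - ((σ : ℝ) + k) * (1 / (m : ℝ))) := by
        rw [div_le_iff₀ (by positivity)]
        linarith
      linarith
  · rw [if_neg hc, if_neg hc]
    refine l33n_comb (γ := 0) h0 h1 (by simp) ?_
    have := l33n_w2_nonneg hτ
    split_ifs
    · simp only [Nat.cast_zero, zero_div, zero_mul, add_zero]; linarith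
    · simp

theorem l33n_p3 (J : ℕ) {m k σ : ℕ} (hm : 0 < m) {τ : ℝ}
    (h0 : σ * (1 / (m : ℝ)) ≤ τ) (h1 : τ ≤ (σ + k) * (1 / (m : ℝ))) (hτ : τ ≤ 3) :
    ((if 3 ≤ J ∧ σ + k ≤ m then
        10 ^ 9 * 50000 * ((3 * m + (m - (σ + k))) * (m - (σ + k)) ^ 2) / eD m (m - σ)
        else 0 : ℕ) : ℝ) / 10 ^ 9 * (τ - σ * (1 / (m : ℝ)))
      + (((if 3 ≤ J ∧ σ + k ≤ m then
        10 ^ 9 * 50000 * ((3 * m + (m - (σ + k))) * (m - (σ + k)) ^ 2) / eD m (m - σ)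
        else 0 : ℕ) : ℝ) / 10 ^ 9
        + ((if 3 ≤ J ∧ σ + k ≤ m then
        10 ^ 9 * 50000 * (k * (6 * m * (m - (σ + k)) + 3 * (m - (σ + k)) ^ 2)) / eD m (m - σ)
        else 0 : ℕ) : ℝ) / 10 ^ 9)
        * ((σ + k) * (1 / (m : ℝ)) - τ)
      ≤ ((σ + k) * (1 / (m : ℝ)) - σ * (1 / (m : ℝ))) *
        ((40001 / 10000 - τ) * (if 3 ≤ J then w3 (40001 / 10000) τ else 0)) := by
  have hM : (0 : ℝ) < m := by exact_mod_cast hm
  by_cases hc : 3 ≤ J ∧ σ + k ≤ m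
  · rw [if_pos hc, if_pos hc, if_pos hc.1]
    have hc2 : (σ : ℝ) + k ≤ m := by exact_mod_cast hc.2
    have t2 : ((σ : ℝ) + k) * (1 / (m : ℝ)) ≤ 1 := by
      rw [mul_one_div, div_le_iff₀ hM]; linarith
    have hE := l33n_eD (m := m) (σ := σ) hm (by omega)
    have hD : (0 : ℝ) < eD m (m - σ) := by
      have : 0 < eD m (m - σ) := by unfold eD; positivity
      exact_mod_cast this
    refine l33n_comb (γ := (6 * (1 - ((σ : ℝ) + k) * (1 / (m : ℝ)))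
      + 3 * (1 - ((σ : ℝ) + k) * (1 / (m : ℝ))) ^ 2)
        / (12 * E3 (40001 / 10000) (1 - σ * (1 / (m : ℝ))))) h0 h1 ?_ ?_
    · rw [mul_assoc (10 ^ 9)]
      refine (l33n_div _ _).trans (le_of_eq ?_)
      rw [hE]
      push_cast [Nat.cast_sub hc.2]
      field_simp
      ring
    · refine le_trans ?_ (l33n_w3_ge h0 h1 t2)
      refine add_le_add ?_ le_rfl
      rw [mul_assoc (10 ^ 9)]
      refine (l33n_div _ _).trans (le_of_eq ?_)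
      rw [hE]
      push_cast [Nat.cast_sub hc.2]
      field_simp
  · rw [if_neg hc, if_neg hc]
    refine l33n_comb (γ := 0) h0 h1 (by simp) ?_
    have := l33n_w3_nonneg hτ
    split_ifs
    · simp only [Nat.cast_zero, zero_div, zero_mul, add_zero]; linarith
    · simp

theorem condN (J : ℕ) {m k σ : ℕ} (hm : 0 < m) (h3 : σ + k ≤ 3 * m) :
    CondN (40001 / 10000) J (1 / m) k σ (n0 J m k σ / 10 ^ 9) (n1 J m k σ / 10 ^ 9) := by
  have hM : (0 : ℝ) < m := by exact_mod_cast hm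
  have p0 : 0 < n0 J m k σ := by unfold n0; omega
  have p1 : 0 < n1 J m k σ := by unfold n1; omega
  refine ⟨by positivity, by positivity, fun τ h0 h1 => ?_⟩
  have h3' : (σ : ℝ) + k ≤ 3 * m := by exact_mod_cast h3
  have hτ : τ ≤ 3 := h1.trans (by rw [mul_one_div, div_le_iff₀ hM]; exact h3')
  have e2 := l33n_p2 J hm h3 h0 h1 hτ
  have e3 := l33n_p3 J hm h0 h1 hτ
  have hs : (0 : ℝ) < 40001 / 10000 - τ := by linarith
  have e1 : (40001 / 10000 - τ) * w1 (40001 / 10000) τ = 1 := by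
    unfold w1
    rw [if_pos hτ]
    exact mul_one_div_cancel hs.ne'
  unfold n1 n0 Wt
  simp only [Nat.cast_add (R := ℝ) (999950000 + _ + _), Nat.cast_add (R := ℝ) (999950000 + _),
    Nat.cast_add (R := ℝ) 999950000, Nat.cast_add (R := ℝ) (999950000 + _ + _ + _)]
  rw [mul_add (40001 / 10000 - τ), mul_add (40001 / 10000 - τ), e1]
  generalize ((if 2 ≤ J ∧ σ + k ≤ 2 * m then lgN m (3 * m - (σ + k)) else 0 : ℕ) : ℝ) = A0 at *
  generalize ((if 2 ≤ J ∧ σ + k ≤ 2 * m then 10 ^ 9 * k / (3 * m - σ) else 0 : ℕ) : ℝ) = A1 at *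
  generalize ((if 3 ≤ J ∧ σ + k ≤ m then
        10 ^ 9 * 50000 * ((3 * m + (m - (σ + k))) * (m - (σ + k)) ^ 2) / eD m (m - σ)
        else 0 : ℕ) : ℝ) = B0 at *
  generalize ((if 3 ≤ J ∧ σ + k ≤ m then
        10 ^ 9 * 50000 * (k * (6 * m * (m - (σ + k)) + 3 * (m - (σ + k)) ^ 2)) / eD m (m - σ)
        else 0 : ℕ) : ℝ) = B1 at *
  generalize (40001 / 10000 - τ) * (if 2 ≤ J then w2 (40001 / 10000) τ else 0) = V2 at *
  generalize (40001 / 10000 - τ) * (if 3 ≤ J then w3 (40001 / 10000) τ else 0) = V3 at *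
  generalize (1 / (m : ℝ)) = w at *
  push_cast
  linarith

theorem wt_zero {R : ℕ} (hR : 3 ≤ R) :
    (n0 3 60 0 0 : ℝ) / 10 ^ 9 / (40001 / 10000) ≤ Wt (40001 / 10000) R 0 := by
  have hW : Wt (40001 / 10000) R 0 = Wt (40001 / 10000) 3 0 := by
    unfold Wt
    rw [if_pos hR, if_pos (show 2 ≤ R by omega), if_pos le_rfl, if_pos (by norm_num)]
  have a2 := l33n_w2_ge (t0 := 0) (t1 := 0) (τ := 0) le_rfl le_rfl (by norm_num)
  have a3 := l33n_w3_ge (t0 := 0) (t1 := 0) (τ := 0) le_rfl le_rfl (by norm_num)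
  have e := lgN_le (m := 60) (j := 3 * 60 - (0 + 0)) (by norm_num) (by norm_num)
  have e2 : (((3 * 60 - (0 + 0) : ℕ) : ℝ)) / (60 : ℕ) = 3 - 0 := by norm_num
  rw [e2] at e
  have e3 := l33n_div (50000 * ((3 * 60 + (60 - (0 + 0))) * (60 - (0 + 0)) ^ 2)) (eD 60 (60 - 0))
  have e4 : ((50000 * ((3 * 60 + (60 - (0 + 0))) * (60 - (0 + 0)) ^ 2) : ℕ) : ℝ) / (eD 60 (60 - 0))
      = (3 + (1 - 0)) * (1 - 0) ^ 2 / (12 * E3 (40001 / 10000) (1 - 0)) := by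
    unfold eD E3
    norm_num
  rw [e4, ← mul_assoc] at e3
  have e1 : (40001 / 10000 - 0) * w1 (40001 / 10000) 0 = 1 := by
    unfold w1
    rw [if_pos (by norm_num)]
    norm_num
  rw [hW, div_le_iff₀ (by norm_num)]
  unfold n0 Wt
  rw [if_pos (by norm_num), if_pos (by norm_num), if_pos (by norm_num), if_pos le_rfl,
    Nat.cast_add, Nat.cast_add]
  generalize (lgN 60 (3 * 60 - (0 + 0)) : ℝ) = A at *
  generalize ((10 ^ 9 * 50000 * ((3 * 60 + (60 - (0 + 0))) * (60 - (0 + 0)) ^ 2)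
    / eD 60 (60 - 0) : ℕ) : ℝ) = B at *
  rw [sub_self, mul_zero, add_zero] at a2 a3
  have a4 := e3.trans a3
  clear a3 e3 e4 e2 hW
  generalize log (3 - 0) = L at *
  generalize w1 (40001 / 10000) 0 = x1 at *
  generalize w2 (40001 / 10000) 0 = x2 at *
  generalize w3 (40001 / 10000) 0 = x3 at *
  push_cast
  linarith

end Pool.Agent.P.MP_dddec0_nt.L33
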