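import Pool.Agent.P.MP_dddec0_nt.L33Cell
import Pool.Agent.P.MP_dddec0_nt.L33Big3
import Pool.Agent.P.MP_dddec0_nt.L33Dec

namespace Pool.Agent.P.MP_dddec0_nt.L33
open Finset Real Filter Pool.Agent.Lib.Tup

lemma shape_small {Q : ℝ → Prop} :
    (∃ η1 : ℝ, 0 < η1 ∧ ∀ η : ℝ, 0 < η → η ≤ η1 → Q η) ↔ ∀ᶠ t : ℝ in atTop, Q t⁻¹ := by
  constructor
  · rintro ⟨η1, h0, h⟩
    filter_upwards [eventually_ge_atTop η1⁻¹] with t ht
    have ht0 : 0 < t := (inv_pos.2 h0).trans_le ht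
    exact h _ (inv_pos.2 ht0) ((inv_le_comm₀ ht0 h0).2 ht)
  · intro h
    obtain ⟨T, hT⟩ := eventually_atTop.1 h
    have h1 : 0 < max T 1 := lt_max_of_lt_right one_pos
    refine ⟨(max T 1)⁻¹, inv_pos.2 h1, fun η h0 hη => ?_⟩
    have := hT η⁻¹ ((le_max_left T 1).trans ((le_inv_comm₀ h0 h1).1 hη))
    rwa [inv_inv] at this

lemma shape_TS_nonneg (Cs : List (Finset ℕ)) {Φ : List ℕ → ℝ} (h : ∀ ps, 0 ≤ Φ ps) :
    0 ≤ TS Cs Φ := by
  have h1 := TS_mono Cs (Φ := fun ps => 0 * Φ ps) (Ψ := Φ) fun ps _ => by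
    rw [zero_mul]
    exact h ps
  rwa [TS_mul, zero_mul] at h1

lemma shape_lg (l : ℝ) (ps : List ℕ) (h : ∀ p ∈ ps, p ≠ 0) :
    lg l ps.prod = (ps.map (lg l)).sum := by
  induction ps with
  | nil => simp [lg]
  | cons p ps ih =>
    have h1 : ps.prod ≠ 0 := List.prod_ne_zero fun h0 => h 0 (List.mem_cons_of_mem _ h0) rfl
    rw [List.map_cons, List.sum_cons, ← ih fun q hq => h q (List.mem_cons_of_mem _ hq),
      List.prod_cons, lg, lg, lg, Nat.cast_mul,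
      log_mul (Nat.cast_ne_zero.2 (h p List.mem_cons_self)) (Nat.cast_ne_zero.2 h1), add_div]

lemma shape_val {C : ℕ → Finset ℕ} (hC : ∀ a, ∀ p ∈ C a, p ≠ 0) {as ps : List ℕ}
    (h : List.Forall₂ (fun p D => p ∈ D) ps (as.map C)) : ∀ p ∈ ps, p ≠ 0 := by
  induction ps generalizing as with
  | nil => exact fun p hp => absurd hp List.not_mem_nil
  | cons q ps ih =>
    cases as with
    | nil => cases h
    | cons a as =>
      rw [List.map_cons, List.forall₂_cons] at h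
      exact List.forall_mem_cons.2 ⟨hC a q h.1, ih h.2⟩

lemma shape_disj {l w : ℝ} (hl : 0 < l) (hw : 0 < w) (η : ℝ) {a b : ℕ} (h : a < b) :
    Disjoint (cellW l η w a) (cellW l η w b) := by
  refine disjoint_left.2 fun p ha hb => ?_
  have h1 := (mem_filter.1 ha).2.2.2
  have h2 := (mem_filter.1 hb).2.2.1
  have h3 : (a : ℝ) + 1 ≤ b := by exact_mod_cast h
  have h4 := mul_le_mul_of_nonneg_right
    ((mul_le_mul_of_nonneg_right h3 hw.le).trans (le_max_left _ η)) hl.le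
  linarith

/-- The sets of `k` small primes. Hint: `cellP l η 1 ⊇ (range m).biUnion (cellW l η (1 / m))`, the
cells are disjoint, all terms are nonnegative (`Wt_nonneg`); `TS_replicate`, `TS_congr` with
`GA_list`, `TS_part`, `SL_mono`, `box_ge` (finitely many lists: take the least `η1`, then
`ev_all_lists`; `0 ≤ TS` takes care of `max 0` and of the dropped boxes), `SL_add`, `SL_const`. -/
theorem level_ge {s B : ℝ} {J m k : ℕ} (hs : 4 ≤ s) (hm : 0 < m) (hk : 1 ≤ k) (hk5 : k ≤ 5)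
    (N0 N1 : ℕ → ℝ) (hN : ∀ σ, σ + k ≤ 3 * m → CondN s J (1 / m) k σ (N0 σ) (N1 σ))
    {g : ℝ → ℝ} (hc : Continuous g) (hg : ∀ u v, |g u| ≤ B ∧ |g u - g v| ≤ B * |u - v|)
    {ε : ℝ} (hε : 0 < ε) :
    ∃ η1 : ℝ, 0 < η1 ∧ ∀ η : ℝ, 0 < η → η ≤ η1 → ∀ᶠ l : ℝ in atTop,
      Qk s m k N0 N1 g - ε ≤ ∑ A ∈ powersetCard k (cellP l η 1),
        GA l g A 0 ^ 2 / (∏ p ∈ A, p : ℕ) * Wt s J (lg l (∏ p ∈ A, p)) := by
  have hm' : (0 : ℝ) < m := Nat.cast_pos.2 hm
  have hw : (0 : ℝ) < 1 / m := by positivity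
  have hf : (0 : ℝ) < k.factorial := Nat.cast_pos.2 k.factorial_pos
  have he : 0 < ε * k.factorial / (m : ℝ) ^ k := by positivity
  have ha : ∀ a < m, ((a : ℝ) + 1) * (1 / m) ≤ 1 := fun a h => by
    rw [mul_one_div, div_le_one hm']
    exact_mod_cast h
  have h0 : ∀ (l : ℝ) (ps : List ℕ),
      0 ≤ evG g (ps.map (lg l)) 0 ^ 2 / (ps.prod : ℕ) * Wt s J (ps.map (lg l)).sum := fun l ps =>
    mul_nonneg (by positivity) (Wt_nonneg hs _ _)
  have h1 := ev_all_lists m k (Q := fun as t => ∀ᶠ l : ℝ in atTop,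
      (if as.sum + k ≤ 3 * m then max 0 (bx s (1 / m) (N0 as.sum) (N1 as.sum) g as) else 0)
        + -(ε * k.factorial / (m : ℝ) ^ k) ≤ TS (as.map (cellW l t⁻¹ (1 / m))) fun ps =>
          evG g (ps.map (lg l)) 0 ^ 2 / (ps.prod : ℕ) * Wt s J (ps.map (lg l)).sum)
    fun as hl hlt => by
      subst hl
      split_ifs with h3
      · have h4 : ((as.sum : ℝ) + as.length) * (1 / m) ≤ 3 := by
          rw [mul_one_div, div_le_iff₀ hm']
          exact_mod_cast h3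
        filter_upwards [shape_small.1 (box_ge hs hw as hk hk5 (fun a h => ha a (hlt a h)) h4
          (hN _ h3) hc hg he)] with t ht
        filter_upwards [ht] with l hl
        have := shape_TS_nonneg (as.map (cellW l t⁻¹ (1 / m))) (h0 l)
        rcases le_total 0 (bx s (1 / m) (N0 as.sum) (N1 as.sum) g as) with h | h
        · rw [max_eq_right h]
          linarith
        · rw [max_eq_left h]
          linarith
      · refine Eventually.of_forall fun t => Eventually.of_forall fun l => ?_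
        have := shape_TS_nonneg (as.map (cellW l t⁻¹ (1 / m))) (h0 l)
        linarith
  refine shape_small.2 ?_
  filter_upwards [h1] with t ht
  filter_upwards [ev_all_lists m k ht, eventually_gt_atTop (0 : ℝ)] with l hl hl0
  have h2 := SL_mono m k hl
  rw [SL_add, SL_const, mul_neg, mul_div_cancel₀ _ (pow_pos hm' k).ne'] at h2
  have h3 := TS_replicate ((range m).biUnion (cellW l t⁻¹ (1 / m))) k fun A =>
    GA l g A 0 ^ 2 / (∏ p ∈ A, p : ℕ) * Wt s J (lg l (∏ p ∈ A, p))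
  rw [TS_part m _ fun a b hab => (lt_or_gt_of_ne hab).elim (shape_disj hl0 hw _)
    fun h => (shape_disj hl0 hw _ h).symm] at h3
  have h4 := h2.trans ((SL_mono m k fun as _ _ => TS_mono _ fun ps hp => le_of_eq (by
    have e : ∏ p ∈ ps.toFinset, p = ps.prod := by rw [List.prod_toFinset _ hp.2, List.map_id']
    rw [GA_list l g hp.2, e, shape_lg l ps
      (shape_val (fun a p h => (mem_filter.1 h).2.1.ne_zero) hp.1)])).trans h3.le)
  have h5 : (range m).biUnion (cellW l t⁻¹ (1 / m)) ⊆ cellP l t⁻¹ 1 := fun p hp => by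
    obtain ⟨a, h6, h7⟩ := mem_biUnion.1 hp
    obtain ⟨h8, h9, h10, h11⟩ := mem_filter.1 h7
    exact mem_filter.2 ⟨h8, h9, (mul_le_mul_of_nonneg_right (le_max_right _ _) hl0.le).trans h10,
      h11.trans_le (mul_le_mul_of_nonneg_right (ha a (mem_range.1 h6)) hl0.le)⟩
  refine le_trans ?_ (sum_le_sum_of_subset_of_nonneg (powersetCard_mono h5) fun A _ _ =>
    mul_nonneg (by positivity) (Wt_nonneg hs _ _))
  rw [Qk, sub_le_iff_le_add, div_le_iff₀ hf]
  linarith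

open Classical in
/-- Hint: `decomp`, `big_ge` (the products of small primes are coprime to `W` for large `l`),
`level_ge` with `2 η`, `level_le`; the `e` of `big_ge` is chosen after `η`; `0 ≤ I ≤ 1`. -/
theorem shape {ψ : ℝ → ℝ} {s0 s1 : ℝ} (hψ : Bump ψ s0 s1) (h4 : 4 < s0) {R K : ℕ} (hK : K < R)
    (hK5 : K ≤ 5) (m : ℕ → ℕ) (hm : ∀ k, 0 < m k) (N0 N1 : ℕ → ℕ → ℝ)
    (hN : ∀ k σ, 1 ≤ k → k ≤ K → σ + k ≤ 3 * m k →
      CondN s1 (R - k) (1 / m k) k σ (N0 k σ) (N1 k σ))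
    {g : ℝ → ℝ} {B : ℝ} (hc : Continuous g) (hg : ∀ u v, |g u| ≤ B ∧ |g u - g v| ≤ B * |u - v|)
    (hg1 : ∀ t, 1 ≤ t → g t = 0) {ε : ℝ} (hε : 0 < ε) :
    ∃ η1 : ℝ, 0 < η1 ∧ ∀ η : ℝ, 0 < η → η ≤ η1 → ∀ W : ℕ, 0 < W → ∀ᶠ l : ℝ in atTop, ∀ b : ℕ,
      Nat.Coprime b W →
      ((∫ s in s0..s1, ψ s) * Qsh s1 R K m N0 N1 g - ε) / (Nat.totient W : ℝ)
        ≤ ∑ m ∈ (cls l W b).filter (RS η l),
          wg ψ l m * gR R m.primeFactors.card * GA l g m.primeFactors 0 ^ 2 := by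
  set I := ∫ s in s0..s1, ψ s with hI
  have hI0 : 0 ≤ I := intervalIntegral.integral_nonneg hψ.le fun s _ => hψ.nonneg s
  have hs : 4 ≤ s1 := h4.le.trans hψ.le
  obtain ⟨d, hd, hdε⟩ : ∃ d : ℝ, 0 < d ∧ d * (I * K + 1) = ε / 2 :=
    ⟨ε / 2 / (I * K + 1), by positivity, div_mul_cancel₀ _ (by positivity)⟩
  obtain ⟨η2, h2, hη2⟩ := (shape_small (Q := fun η => ∀ k ∈ Icc 1 K, ∀ᶠ l : ℝ in atTop,
    Qk s1 (m k) k (N0 k) (N1 k) g - d ≤ ∑ A ∈ powersetCard k (cellP l η 1),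
      GA l g A 0 ^ 2 / (∏ p ∈ A, p : ℕ) * Wt s1 (R - k) (lg l (∏ p ∈ A, p)))).2
    ((eventually_all_finset (Icc 1 K)).2 fun k hk =>
    shape_small.1 (level_ge hs (hm k) (mem_Icc.1 hk).1 ((mem_Icc.1 hk).2.trans hK5) (N0 k) (N1 k)
      (fun σ => hN k σ (mem_Icc.1 hk).1 (mem_Icc.1 hk).2) hc hg hd))
  refine ⟨min (η2 / 2) (1 / 2), by positivity, fun η hη hη1 W hW => ?_⟩
  have hη3 := hη1.trans (min_le_left _ _)
  have hη4 := hη1.trans (min_le_right _ _)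
  obtain ⟨M, hM⟩ : ∃ M : ℝ, M = ∑ k ∈ range (K + 1), (2 ^ k * B) ^ 2 * (2 / (2 * η)) ^ k :=
    ⟨_, rfl⟩
  have hM0 : 0 ≤ M := hM ▸ sum_nonneg fun k _ => by positivity
  obtain ⟨e, he, heε⟩ : ∃ e : ℝ, 0 < e ∧ e * (M + 1) = ε / 2 :=
    ⟨ε / 2 / (M + 1), by positivity, div_mul_cancel₀ _ (by positivity)⟩
  have hφ : (0 : ℝ) < Nat.totient W := by exact_mod_cast Nat.totient_pos.2 hW
  filter_upwards [big_ge hψ h4 hW he, eventually_gt_atTop (0 : ℝ),
    eventually_gt_atTop (log W / (2 * η)),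
    (eventually_all_finset (Icc 1 K)).2 (hη2 (2 * η) (by positivity) (by linarith)),
    (eventually_all_finset (range (K + 1))).2 fun k _ =>
      level_le k (fun u => (hg u u).1) (η := 2 * η) (by positivity) (by linarith)]
    with l hbig hl hlW hge hle b hb
  refine le_trans ?_ (decomp hψ hl hη hη4 W b R K hg1)
  have hco : ∀ p ∈ cellP l (2 * η) 1, p ≠ 0 ∧ Nat.Coprime p W := fun p hp => by
    obtain ⟨-, h5, h6, -⟩ := mem_filter.1 hp
    refine ⟨h5.ne_zero, h5.coprime_iff_not_dvd.2 fun h7 => ?_⟩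
    have h8 : (p : ℝ) ≤ W := by exact_mod_cast Nat.le_of_dvd hW h7
    have h9 := log_le_log (by exact_mod_cast h5.pos) h8
    rw [div_lt_iff₀ (by positivity)] at hlW
    linarith
  have h5 : ∀ k ∈ range (K + 1), (I * ∑ A ∈ powersetCard k (cellP l (2 * η) 1),
        GA l g A 0 ^ 2 / (∏ p ∈ A, p : ℕ) * Wt s1 (R - k) (lg l (∏ p ∈ A, p))
        - e * ((2 ^ k * B) ^ 2 * (2 / (2 * η)) ^ k)) / (Nat.totient W : ℝ)
      ≤ ∑ A ∈ powersetCard k (cellP l (2 * η) 1),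
        GA l g A 0 ^ 2 / (∏ p ∈ A, p : ℕ) * ∑ j ∈ Icc 1 (R - k), BM ψ l W b (∏ p ∈ A, p) j := by
    intro k hk
    refine le_trans (div_le_div_of_nonneg_right
      (sub_le_sub_left (mul_le_mul_of_nonneg_left (hle k hk) he.le) _) hφ.le) ?_
    rw [mul_sum, mul_sum, ← sum_sub_distrib, sum_div]
    refine sum_le_sum fun A hA => ?_
    have h6 := (mem_powersetCard.1 hA).1
    have h7 := mem_range.1 hk
    refine le_trans (le_of_eq ?_) (mul_le_mul_of_nonneg_left (hbig _ b (R - k)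
      (prod_ne_zero_iff.2 fun p hp => (hco p (h6 hp)).1)
      (Nat.Coprime.prod_left fun p hp => (hco p (h6 hp)).2) hb (by omega)) (by positivity))
    ring
  refine le_trans ?_ (sum_le_sum h5)
  rw [← sum_div, sum_sub_distrib, ← mul_sum, ← mul_sum, ← hM, range_eq_Ico,
    sum_eq_sum_Ico_succ_bot (Nat.add_one_pos K), zero_add, Ico_add_one_right_eq_Icc]
  refine div_le_div_of_nonneg_right ?_ hφ.le
  have h6 := sum_le_sum hge
  rw [sum_sub_distrib, sum_const, Nat.card_Icc, Nat.add_sub_cancel, nsmul_eq_mul] at h6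
  have h7 := mul_le_mul_of_nonneg_left h6 hI0
  have h8 : GA l g ∅ 0 = g 0 := by simp [GA, sz]
  have h9 : lg l 1 = 0 := by simp [lg]
  rw [powersetCard_zero, sum_singleton, prod_empty, h8, h9, Nat.cast_one, div_one, Nat.sub_zero,
    Qsh]
  nlinarith

end Pool.Agent.P.MP_dddec0_nt.L33
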