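import Pool.Agent.P.MP_dddec0_nt.Fiber
import Pool.Agent.Lib.Tup.Final

namespace Pool.Agent.P.MP_dddec0_nt.T223
open Finset Real Filter Pool.Agent.Lib.Tup

attribute [local irreducible] Fv fib

noncomputable def tent (s : ℝ) : ℝ := max 0 (1 / 4000 - |s - 16003 / 4000|)

theorem bump_tent : Bump tent (8001 / 2000) (4001 / 1000) where
  lo := by norm_num
  le := by norm_num
  hi := by norm_num
  nonneg s := le_max_left _ _
  le_one s := max_le zero_le_one (by linarith [abs_nonneg (s - 16003 / 4000)])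
  lip s t := by
    unfold tent
    rw [max_comm 0, max_comm 0]
    refine (abs_max_sub_max_le_abs _ _ _).trans ?_
    have := abs_abs_sub_abs_le_abs_sub (t - 16003 / 4000) (s - 16003 / 4000)
    rw [show 1 / 4000 - |s - 16003 / 4000| - (1 / 4000 - |t - 16003 / 4000|)
      = |t - 16003 / 4000| - |s - 16003 / 4000| by ring]
    rw [show t - 16003 / 4000 - (s - 16003 / 4000) = -(s - t) by ring, abs_neg] at this
    exact this
  supp s hs := by
    have h : 0 < 1 / 4000 - |s - 16003 / 4000| := by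
      by_contra h
      exact hs (max_eq_left (not_lt.1 h))
    have := abs_lt.1 (show |s - 16003 / 4000| < 1 / 4000 by linarith)
    constructor <;> linarith [this.1, this.2]

theorem int_tent_pos : 0 < ∫ s in (8001 / 2000 : ℝ)..(4001 / 1000), tent s := by
  refine intervalIntegral.intervalIntegral_pos_of_pos_on
    (Continuous.intervalIntegrable (by unfold tent; fun_prop) _ _) (fun s hs => ?_) (by norm_num)
  refine lt_max_of_lt_right (sub_pos.2 (abs_lt.2 ⟨?_, ?_⟩)) <;> linarith [hs.1, hs.2]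

theorem sum_split (i : Fin 3) (Y : Fin 3 → ℕ → ℝ) :
    ∑ a : Fin 3 → Fin 43, (Fv (a 0) (a 1) (a 2) : ℝ) * ∏ j, Y j (a j)
      = ∑ x : Fin 43, ∑ b : Fin 2 → Fin 43, (Fv x (b 0) (b 1) : ℝ) *
        (Y i x * ∏ j, Y (i.succAbove j) (b j)) := by
  rw [← (Fin.insertNthEquiv (fun _ => Fin 43) i).sum_comp, Fintype.sum_prod_type]
  refine sum_congr rfl fun x _ => sum_congr rfl fun b _ => ?_
  rw [Fin.prod_univ_succAbove _ i]
  simp only [Fin.insertNthEquiv_apply, Fin.insertNth_apply_same, Fin.insertNth_apply_succAbove]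
  congr 2
  fin_cases i
  · rfl
  · exact Fv_swap12 _ _ _
  · exact Fv_swap13 _ _ _

theorem sum_cube (t : ℕ → ℕ → ℕ → ℝ) : ∑ a : Fin 3 → Fin 43, t (a 0) (a 1) (a 2)
    = ∑ a ∈ range 43, ∑ b ∈ range 43, ∑ c ∈ range 43, t a b c := by
  rw [← (Fin.insertNthEquiv (fun _ : Fin 3 => Fin 43) 0).sum_comp, Fintype.sum_prod_type,
    ← Fin.sum_univ_eq_sum_range (fun a => ∑ b ∈ range 43, ∑ c ∈ range 43, t a b c)]
  refine sum_congr rfl fun x _ => ?_
  rw [← (finTwoArrowEquiv (Fin 43)).symm.sum_comp, Fintype.sum_prod_type,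
    ← Fin.sum_univ_eq_sum_range (fun b => ∑ c ∈ range 43, t x b c)]
  refine sum_congr rfl fun y _ => ?_
  rw [← Fin.sum_univ_eq_sum_range (fun c => t x y c)]
  rfl

theorem main (H : Fin 3 → ℕ) (hH : Function.Injective H)
    (hadm : ∀ p : ℕ, p.Prime → ∃ r : ℕ, ∀ i, ¬ p ∣ r + H i) :
    {m : ℕ | 2 < ∑ i, g3 (ArithmeticFunction.cardFactors (m + H i))}.Infinite := by
  set I := ∫ s in (8001 / 2000 : ℝ)..(4001 / 1000), tent s with hI
  refine final_step H hH hadm bump_tent (by norm_num) (by norm_num) (n := 43) (h := 1 / 40)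
    (by norm_num) (fun a => (Fv (a 0) (a 1) (a 2) : ℝ)) (fun a h => ?_)
    (fun m => g3 (ArithmeticFunction.cardFactors m)) (fun m => g3_nonneg _) (fun m => g3_le_one _)
    (ρ := 2) (by norm_num)
    (fun _ => I * (1 / 40) ^ 3 * ∑ x ∈ fib, qhat (fun a => (Fv a x.1 x.2 : ℝ)))
    (fun i ε hε => ?_) ?_
  · obtain ⟨h1, h2, h3⟩ := Fv_supp (Nat.cast_ne_zero.1 h)
    have h1' : (a 0 : ℝ) + a 1 ≤ 42 := by exact_mod_cast h1
    have h2' : (a 0 : ℝ) + a 2 ≤ 42 := by exact_mod_cast h2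
    have h3' : (a 1 : ℝ) + a 2 ≤ 42 := by exact_mod_cast h3
    rw [Fin.sum_univ_three]
    linarith
  · obtain ⟨D1, h⟩ := coord223 (fun j => (H (i.succAbove j) : ℤ) - H i)
      (fun j e => Fin.succAbove_ne i j (hH (by exact_mod_cast sub_eq_zero.1 e)))
      (fun j j' e => Fin.succAbove_right_injective (hH (by exact_mod_cast sub_left_injective e)))
      bump_tent (by norm_num) hε
    refine ⟨D1, fun D hD => ?_⟩
    filter_upwards [h D hD] with l hl b hb
    refine (hl b hb).trans (le_of_eq (sum_congr rfl fun m _ => ?_))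
    rw [sum_split i fun j a => XC D l (1 / 40) a (m + ((H j : ℤ) - H i))]
    simp only [sub_self, add_zero]
  · have h1 := cert
    have h2 := mul_lt_mul_of_pos_left h1
      (show 0 < I * (1 / 40) ^ 3 from mul_pos int_tent_pos (by norm_num))
    rw [sum_cube fun a b c => (Fv a b c : ℝ) ^ 2, Fintype.card_fin, sum_const, card_univ,
      Fintype.card_fin, nsmul_eq_mul]
    push_cast
    linarith

theorem of_score {x y z : ℕ} (h : 2 < g3 x + g3 y + g3 z) :
    x ≤ 3 ∧ y ≤ 3 ∧ z ≤ 3 ∧ ((x ≤ 2 ∧ y ≤ 2) ∨ (x ≤ 2 ∧ z ≤ 2) ∨ (y ≤ 2 ∧ z ≤ 2)) := by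
  unfold g3 at h
  split_ifs at h <;> first | omega | (exfalso; linarith)

end Pool.Agent.P.MP_dddec0_nt.T223
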