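import Pool.Agent.Lib.Sieve.Selberg

/-! Counting lemmas for products of local functions. -/

namespace Pool.Agent.P.MP_dddec0_nt.Odd
open Finset Pool.Agent.Lib.Sieve

/-- Indicator of the residue classes `R p` modulo `p`. -/
noncomputable def ind (R : ℕ → Finset ℕ) (p t : ℕ) : ℝ := if t % p ∈ R p then 1 else 0

theorem ind_nonneg (R : ℕ → Finset ℕ) (p t : ℕ) : 0 ≤ ind R p t := by
  unfold ind; split_ifs <;> norm_num

theorem per_abs {q : ℕ} (hq : 0 < q) (F : ℕ → ℝ) (hF : ∀ n, F n = F (n % q))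
    (h0 : ∀ n, 0 ≤ F n) (N : ℕ) :
    |∑ n ∈ range N, F n - N * ((∑ i ∈ range q, F i) / q)| ≤ ∑ i ∈ range q, F i := by
  set c := ∑ i ∈ range q, F i with hc
  have hc0 : 0 ≤ c := sum_nonneg fun i _ => h0 i
  have hN : N = q * (N / q) + N % q := (Nat.div_add_mod N q).symm
  set k := N / q
  set r := N % q
  have hr : r < q := Nat.mod_lt _ hq
  have hq' : (0 : ℝ) < q := by exact_mod_cast hq
  have h1 : ∑ n ∈ range N, F n = k * c + ∑ x ∈ range r, F x := by
    rw [hN, sum_range_add, sum_range_mul_periodic F hF k]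
    congr 1
    refine sum_congr rfl fun x _ => ?_
    rw [hF (q * k + x), Nat.mul_add_mod, ← hF]
  have h2 : ∑ x ∈ range r, F x ≤ c :=
    sum_le_sum_of_subset_of_nonneg (range_subset_range.2 hr.le) fun i _ _ => h0 i
  have h3 : 0 ≤ ∑ x ∈ range r, F x := sum_nonneg fun i _ => h0 i
  have h4 : (N : ℝ) * (c / q) = k * c + (r : ℝ) / q * c := by
    rw [hN]; push_cast; field_simp
  have h5 : (r : ℝ) / q ≤ 1 := by
    rw [div_le_one hq']; exact_mod_cast hr.le
  have h6 : 0 ≤ (r : ℝ) / q := by positivity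
  have h7 : (r : ℝ) / q * c ≤ c := by nlinarith
  have h8 : 0 ≤ (r : ℝ) / q * c := by positivity
  rw [h1, h4, abs_le]
  constructor <;> linarith

theorem cnt_ind (U : Finset ℕ) (hU : ∀ p ∈ U, p.Prime) (R : ℕ → Finset ℕ)
    (hR : ∀ p ∈ U, R p ⊆ range p) (N : ℕ) :
    |∑ t ∈ range N, ∏ p ∈ U, ind R p t - N * ∏ p ∈ U, (((R p).card : ℝ) / p)|
      ≤ ∏ p ∈ U, ((R p).card : ℝ) := by
  have hq : 0 < ∏ p ∈ U, p := prod_pos fun q hq => (hU q hq).pos
  have h := per_abs hq (fun t => ∏ p ∈ U, ind R p t) (fun n => prod_congr rfl fun p hp => by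
    unfold ind; rw [Nat.mod_mod_of_dvd _ (dvd_prod_of_mem _ hp)])
    (fun n => prod_nonneg fun p _ => ind_nonneg R p n) N
  rw [sum_range_prod U hU (ind R) (fun p _ n => by unfold ind; rw [Nat.mod_mod])] at h
  have h1 : ∏ p ∈ U, ∑ i ∈ range p, ind R p i = ∏ p ∈ U, ((R p).card : ℝ) :=
    prod_congr rfl fun p hp => by
      unfold ind; rw [sum_ite_range R (hR p hp)]; ring
  rwa [h1, Nat.cast_prod, ← prod_div_distrib] at h

theorem cnt_lin (U : Finset ℕ) (hU : ∀ p ∈ U, p.Prime) (R : ℕ → Finset ℕ)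
    (hR : ∀ p ∈ U, R p ⊆ range p) (α β : ℕ → ℝ) (N : ℕ) :
    |∑ t ∈ range N, ∏ p ∈ U, (β p * ind R p t + α p)
        - N * ∏ p ∈ U, (β p * (((R p).card : ℝ) / p) + α p)|
      ≤ ∏ p ∈ U, (|β p| * (R p).card + |α p|) := by
  classical
  simp only [prod_add]
  rw [sum_comm, mul_sum, ← sum_sub_distrib]
  refine (abs_sum_le_sum_abs _ _).trans (sum_le_sum fun V hV => ?_)
  have hV' := mem_powerset.1 hV
  have h := cnt_ind V (fun p hp => hU p (hV' hp)) R (fun p hp => hR p (hV' hp)) N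
  simp only [prod_mul_distrib]
  have h1 : ∑ t ∈ range N, ((∏ p ∈ V, β p) * ∏ p ∈ V, ind R p t) * ∏ p ∈ U \ V, α p
      - N * (((∏ p ∈ V, β p) * ∏ p ∈ V, (((R p).card : ℝ) / p)) * ∏ p ∈ U \ V, α p)
      = ((∏ p ∈ V, β p) * ∏ p ∈ U \ V, α p) *
        (∑ t ∈ range N, ∏ p ∈ V, ind R p t - N * ∏ p ∈ V, (((R p).card : ℝ) / p)) := by
    rw [mul_sub, mul_sum]
    congr 1
    · exact sum_congr rfl fun t _ => by ring
    · ring
  rw [h1, abs_mul, abs_mul, abs_prod, abs_prod]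
  have h2 : 0 ≤ (∏ p ∈ V, |β p|) * ∏ p ∈ U \ V, |α p| := by positivity
  calc _ ≤ ((∏ p ∈ V, |β p|) * ∏ p ∈ U \ V, |α p|) * ∏ p ∈ V, ((R p).card : ℝ) :=
        mul_le_mul_of_nonneg_left h h2
    _ = _ := by ring

theorem hw_ratio {p r : ℕ} (hp : 0 < p) (h : 2 * r ≤ p) :
    (1 + hw p r) * ((r : ℝ) / p) = hw p r := by
  have h1 : (2 * r : ℝ) ≤ p := by exact_mod_cast h
  have h2 : (0 : ℝ) ≤ r := by positivity
  have h3 : (0 : ℝ) < p := by exact_mod_cast hp
  have h4 : (p : ℝ) - r ≠ 0 := by linarith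
  unfold hw
  field_simp
  ring

theorem pair (P U : Finset ℕ) (hd : Disjoint P U) (hP : ∀ p ∈ P, p.Prime)
    (hU : ∀ p ∈ U, p.Prime) (R : ℕ → Finset ℕ) (hRP : ∀ p ∈ P, R p ⊆ range p)
    (hRU : ∀ p ∈ U, R p ⊆ range p) (h2 : ∀ p ∈ P, 2 * (R p).card ≤ p) {K : ℝ}
    (hK : ∀ p ∈ P, 1 + 2 * ((R p).card : ℝ) ≤ K) {A B : Finset ℕ} (hA : A ⊆ P) (hB : B ⊆ P)
    (N : ℕ) :
    |∑ t ∈ range N, (∏ p ∈ A, th R p t) * (∏ p ∈ B, th R p t) * ∏ p ∈ U, ind R p t
        - N * ((∏ p ∈ U, (((R p).card : ℝ) / p)) *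
          (if A = B then ∏ p ∈ A, hw p (R p).card else 0))|
      ≤ (∏ p ∈ U, ((R p).card : ℝ)) * (K ^ A.card * K ^ B.card) := by
  classical
  let h : ℕ → ℝ := fun p => hw p (R p).card
  let α : ℕ → ℝ := fun p => if p ∈ P then (if p ∈ A then h p else 1) * (if p ∈ B then h p else 1)
    else 0
  let β : ℕ → ℝ := fun p => if p ∈ P then (if p ∈ A then -1 else 1) * (if p ∈ B then -1 else 1)
    - α p else 1
  have hnU : ∀ p ∈ U, p ∉ P := fun p hp hp' => disjoint_left.1 hd hp' hp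
  have hc := cnt_lin (P ∪ U) (fun p hp => (mem_union.1 hp).elim (hP p) (hU p)) R
    (fun p hp => (mem_union.1 hp).elim (hRP p) (hRU p)) α β N
  simp only [prod_union hd] at hc
  have e1 : ∀ t, ∏ p ∈ P, (β p * ind R p t + α p) = (∏ p ∈ A, th R p t) * ∏ p ∈ B, th R p t := by
    intro t
    rw [← inter_eq_right.2 hA, ← prod_ite_mem, ← inter_eq_right.2 hB, ← prod_ite_mem,
      ← prod_mul_distrib]
    refine prod_congr rfl fun p hp => ?_
    simp only [α, β, h, hp, if_true, ind, th]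
    split_ifs <;> ring
  have e2 : ∀ x : ℕ → ℝ, ∏ p ∈ U, (β p * x p + α p) = ∏ p ∈ U, x p := fun x =>
    prod_congr rfl fun p hp => by simp only [α, β, hnU p hp, if_false]; ring
  have e3 : ∏ p ∈ P, (β p * (((R p).card : ℝ) / p) + α p)
      = if A = B then ∏ p ∈ A, hw p (R p).card else 0 := by
    split_ifs with hAB
    · subst hAB
      rw [← inter_eq_right.2 hA, ← prod_ite_mem]
      refine prod_congr rfl fun p hp => ?_
      have := hw_ratio (hP p hp).pos (h2 p hp)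
      simp only [α, β, h, hp, if_true]
      split_ifs
      · linear_combination (1 - hw p (R p).card) * this
      · ring
    · obtain ⟨p, hp⟩ : ∃ p, ¬ (p ∈ A ↔ p ∈ B) := by
        by_contra hc
        push Not at hc
        exact hAB (Finset.ext fun p => by simpa using hc p)
      have hpP : p ∈ P := by
        by_cases h1 : p ∈ A
        · exact hA h1
        · exact hB (by tauto)
      refine prod_eq_zero hpP ?_
      have := hw_ratio (hP p hpP).pos (h2 p hpP)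
      simp only [α, β, h, hpP, if_true]
      split_ifs
      · tauto
      · linear_combination -this
      · linear_combination -this
      · tauto
  have e4 : ∏ p ∈ U, (|β p| * ((R p).card : ℝ) + |α p|) = ∏ p ∈ U, ((R p).card : ℝ) :=
    prod_congr rfl fun p hp => by simp [α, β, hnU p hp]
  have e5 : ∏ p ∈ P, (|β p| * ((R p).card : ℝ) + |α p|) ≤ K ^ A.card * K ^ B.card := by
    rw [← prod_const, ← prod_const, ← inter_eq_right.2 hA, ← prod_ite_mem,
      ← inter_eq_right.2 hB, ← prod_ite_mem, ← prod_mul_distrib]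
    refine prod_le_prod (fun p _ => by positivity) fun p hp => ?_
    have a0 : 0 ≤ h p := hw_nonneg (h2 p hp)
    have a1 : h p ≤ 1 := hw_le_one (hP p hp).pos (h2 p hp)
    have a2 := hK p hp
    have a3 : (0 : ℝ) ≤ (R p).card := by positivity
    simp only [α, β, hp, if_true]
    split_ifs
    · rw [abs_of_nonneg (by nlinarith), abs_of_nonneg (by positivity)]
      have : h p * h p ≤ 1 := by nlinarith
      have : 0 ≤ h p * h p := by positivity
      nlinarith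
    · rw [abs_of_nonpos (by linarith), abs_of_nonneg (by linarith)]; nlinarith
    · rw [abs_of_nonpos (by linarith), abs_of_nonneg (by linarith)]; nlinarith
    · simp
  simp only [e1, e2, e3, e4] at hc
  rw [mul_comm (∏ p ∈ U, (((R p).card : ℝ) / p))]
  refine hc.trans ?_
  rw [mul_comm]
  exact mul_le_mul_of_nonneg_left e5 (prod_nonneg fun p _ => by positivity)

theorem quad (P U : Finset ℕ) (hd : Disjoint P U) (hP : ∀ p ∈ P, p.Prime)
    (hU : ∀ p ∈ U, p.Prime) (R : ℕ → Finset ℕ) (hRP : ∀ p ∈ P, R p ⊆ range p)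
    (hRU : ∀ p ∈ U, R p ⊆ range p) (h2 : ∀ p ∈ P, 2 * (R p).card ≤ p) {K : ℝ}
    (hK : ∀ p ∈ P, 1 + 2 * ((R p).card : ℝ) ≤ K) (ψ : Finset ℕ → ℝ) (N : ℕ) :
    |∑ t ∈ range N, (∑ A ∈ P.powerset, ψ A * ∏ p ∈ A, th R p t) ^ 2 * ∏ p ∈ U, ind R p t
        - N * ((∏ p ∈ U, (((R p).card : ℝ) / p)) *
          ∑ A ∈ P.powerset, ψ A ^ 2 * ∏ p ∈ A, hw p (R p).card)|
      ≤ (∏ p ∈ U, ((R p).card : ℝ)) * (∑ A ∈ P.powerset, |ψ A| * K ^ A.card) ^ 2 := by
  classical
  have e1 : ∑ t ∈ range N, (∑ A ∈ P.powerset, ψ A * ∏ p ∈ A, th R p t) ^ 2 * ∏ p ∈ U, ind R p t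
      = ∑ A ∈ P.powerset, ∑ B ∈ P.powerset, ψ A * ψ B *
        ∑ t ∈ range N, (∏ p ∈ A, th R p t) * (∏ p ∈ B, th R p t) * ∏ p ∈ U, ind R p t := by
    simp only [sq, sum_mul, mul_sum]
    rw [sum_comm]
    refine sum_congr rfl fun A _ => ?_
    rw [sum_comm]
    exact sum_congr rfl fun B _ => sum_congr rfl fun t _ => by ring
  have e2 : (N : ℝ) * ((∏ p ∈ U, (((R p).card : ℝ) / p)) *
        ∑ A ∈ P.powerset, ψ A ^ 2 * ∏ p ∈ A, hw p (R p).card)
      = ∑ A ∈ P.powerset, ∑ B ∈ P.powerset, ψ A * ψ B *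
        (N * ((∏ p ∈ U, (((R p).card : ℝ) / p)) *
          (if A = B then ∏ p ∈ A, hw p (R p).card else 0))) := by
    rw [mul_sum, mul_sum]
    refine sum_congr rfl fun A hA => ?_
    simp only [mul_ite, mul_zero, sum_ite_eq, hA, if_true]
    ring
  rw [e1, e2, ← sum_sub_distrib, sq, sum_mul_sum, mul_sum]
  refine (abs_sum_le_sum_abs _ _).trans (sum_le_sum fun A hA => ?_)
  rw [← sum_sub_distrib, mul_sum]
  refine (abs_sum_le_sum_abs _ _).trans (sum_le_sum fun B hB => ?_)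
  rw [← mul_sub, abs_mul, abs_mul]
  have := pair P U hd hP hU R hRP hRU h2 hK (mem_powerset.1 hA) (mem_powerset.1 hB) N
  calc _ ≤ |ψ A| * |ψ B| * ((∏ p ∈ U, ((R p).card : ℝ)) * (K ^ A.card * K ^ B.card)) :=
        mul_le_mul_of_nonneg_left this (by positivity)
    _ = _ := by ring

end Pool.Agent.P.MP_dddec0_nt.Odd
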