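import Pool.Agent.P.MP_dddec0_nt.OddA
import Pool.Agent.Lib.Tup.MAP

/-! Tails of the sieve sums. -/

namespace Pool.Agent.P.MP_dddec0_nt.Odd
open Finset Real Pool.Agent.Lib.Sieve Pool.Agent.Lib.Tup

/-- Standing hypotheses on the sieving primes `P`, the removed classes `R` and the scale `l`. -/
structure Hyp (P : Finset ℕ) (R : ℕ → Finset ℕ) (l : ℝ) : Prop where
  pos : 0 < l
  prime : ∀ p ∈ P, p.Prime
  sub : ∀ p ∈ P, R p ⊆ range p
  card : ∀ p ∈ P, (R p).card ≤ 30
  big : ∀ p ∈ P, 60 ≤ p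
  small : ∀ p ∈ P, log p ≤ l
  mert : ∑ p ∈ P, log p / p ≤ 101 / 100 * l
  inv : ∑ p ∈ P, 1 / (p : ℝ) ≤ l / 1000

/-- The product of the local weights. -/
noncomputable def hA (R : ℕ → Finset ℕ) (A : Finset ℕ) : ℝ := ∏ p ∈ A, hw p (R p).card

/-- The inverse density of the sifted set. -/
noncomputable def EE (P : Finset ℕ) (R : ℕ → Finset ℕ) : ℝ := ∑ A ∈ P.powerset, hA R A

variable {P : Finset ℕ} {R : ℕ → Finset ℕ} {l : ℝ}

theorem Hyp.two (H : Hyp P R l) : ∀ p ∈ P, 2 * (R p).card ≤ p := fun p hp => by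
  have := H.card p hp; have := H.big p hp; omega

theorem Hyp.cK (H : Hyp P R l) : ∀ p ∈ P, 1 + 2 * ((R p).card : ℝ) ≤ 61 := fun p hp => by
  have : ((R p).card : ℝ) ≤ 30 := by exact_mod_cast H.card p hp
  linarith

theorem Hyp.mono (H : Hyp P R l) {Q : Finset ℕ} (h : Q ⊆ P) : Hyp Q R l where
  pos := H.pos
  prime p hp := H.prime p (h hp)
  sub p hp := H.sub p (h hp)
  card p hp := H.card p (h hp)
  big p hp := H.big p (h hp)
  small p hp := H.small p (h hp)
  mert := (sum_le_sum_of_subset_of_nonneg h fun p _ _ =>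
    div_nonneg (log_natCast_nonneg p) (by positivity)).trans H.mert
  inv := (sum_le_sum_of_subset_of_nonneg h fun p _ _ => by positivity).trans H.inv

theorem Hyp.hA_nonneg (H : Hyp P R l) {A : Finset ℕ} (hA' : A ⊆ P) : 0 ≤ hA R A :=
  prod_nonneg fun p hp => hw_nonneg (H.two p (hA' hp))

theorem EE_eq : EE P R = ∏ p ∈ P, (1 + hw p (R p).card) := by
  unfold EE hA; rw [prod_one_add]

theorem Hyp.one_le (H : Hyp P R l) : 1 ≤ EE P R := by
  rw [EE_eq]
  calc (1 : ℝ) = ∏ _p ∈ P, (1 : ℝ) := by simp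
    _ ≤ _ := prod_le_prod (fun _ _ => zero_le_one) fun p hp => by
      linarith [hw_nonneg (H.two p hp)]

theorem Hyp.prod_le (H : Hyp P R l) {K : ℝ} (hK : 0 ≤ K) :
    ∏ p ∈ P, (1 + K * (1 / (p : ℝ))) ≤ exp (K * (l / 1000)) := by
  refine (prod_one_add_le_exp_sum _ fun p => by positivity).trans (exp_le_exp.2 ?_)
  rw [← mul_sum]
  exact mul_le_mul_of_nonneg_left H.inv hK

theorem Hyp.EE_le (H : Hyp P R l) : EE P R ≤ exp (60 * (l / 1000)) := by
  rw [EE_eq]
  refine le_trans (prod_le_prod (fun p hp => by linarith [hw_nonneg (H.two p hp)])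
    fun p hp => ?_) (H.prod_le (by norm_num))
  have h1 := hw_ratio (H.prime p hp).pos (H.two p hp)
  have h2 := hw_le_one (H.prime p hp).pos (H.two p hp)
  have h3 : ((R p).card : ℝ) / p ≤ 30 * (1 / (p : ℝ)) := by
    rw [mul_one_div]
    exact div_le_div_of_nonneg_right (by exact_mod_cast H.card p hp) (by positivity)
  have h4 : 0 ≤ ((R p).card : ℝ) / p := by positivity
  nlinarith

theorem exp_conv {x : ℝ} (h0 : 0 ≤ x) (h1 : x ≤ 1) : exp (log (3 / 2) * x) ≤ 1 + x / 2 := by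
  have := convexOn_exp.2 (Set.mem_univ 0) (Set.mem_univ (log (3 / 2))) (by linarith : 0 ≤ 1 - x)
    h0 (by ring)
  simp only [smul_eq_mul, mul_zero, zero_add, exp_zero, mul_one] at this
  rw [exp_log (by norm_num)] at this
  rw [mul_comm]
  linarith

theorem exp_c0 : exp (303 / 20) ≤ 3850000 := by
  have h1 : exp (303 / 20 : ℝ) = exp 1 ^ 15 * exp (3 / 20) := by
    rw [← exp_nat_mul, ← exp_add]; norm_num
  have h2 : exp (3 / 20 : ℝ) ≤ 1 / (1 - 3 / 20) :=
    exp_bound_div_one_sub_of_interval (by norm_num) (by norm_num)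
  have h3 : exp 1 ^ 15 ≤ (2.7182818286 : ℝ) ^ 15 :=
    pow_le_pow_left₀ (exp_pos 1).le exp_one_lt_d9.le 15
  rw [h1]
  refine (mul_le_mul h3 h2 (exp_pos _).le (by positivity)).trans (by norm_num)

theorem Hyp.tail (H : Hyp P R l) (v : ℕ) :
    ∑ A ∈ P.powerset, (if v * l < sz A then hA R A else 0) ≤ 3850000 * (2 / 3) ^ v * EE P R := by
  have hl := H.pos
  set a := log (3 / 2) with ha
  have ha0 : 0 < a := log_pos (by norm_num)
  have e0 : (2 / 3 : ℝ) ^ v = exp (-(a * v)) := by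
    rw [exp_neg, mul_comm, exp_nat_mul, ha, exp_log (by norm_num), ← inv_pow]; norm_num
  have h1 : ∑ A ∈ P.powerset, (if v * l < sz A then hA R A else 0)
      ≤ ∑ A ∈ P.powerset, (2 / 3) ^ v * ∏ p ∈ A, hw p (R p).card * exp (a * (log p / l)) := by
    refine sum_le_sum fun A hA' => ?_
    have h0 := H.hA_nonneg (mem_powerset.1 hA')
    rw [prod_mul_distrib, ← exp_sum, ← mul_sum, ← sum_div, e0]
    change _ ≤ exp _ * (hA R A * exp (a * (sz A / l)))
    rw [mul_left_comm, ← exp_add]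
    split_ifs with h
    · have : (v : ℝ) ≤ sz A / l := by rw [le_div_iff₀ hl]; exact h.le
      exact le_mul_of_one_le_right h0 (one_le_exp (by nlinarith))
    · positivity
  rw [← mul_sum, ← prod_one_add] at h1
  have h2 : ∏ p ∈ P, (1 + hw p (R p).card * exp (a * (log p / l)))
      ≤ ∏ p ∈ P, (1 + hw p (R p).card) * exp (15 / l * (log p / p)) := by
    refine prod_le_prod (fun p hp => by have := hw_nonneg (H.two p hp); positivity) fun p hp => ?_
    have b0 := hw_nonneg (H.two p hp)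
    have b1 := hw_ratio (H.prime p hp).pos (H.two p hp)
    have b2 : 0 ≤ log p / l := div_nonneg (log_natCast_nonneg p) hl.le
    have b3 := exp_conv b2 ((div_le_one hl).2 (H.small p hp))
    have b4 := add_one_le_exp (15 / l * (log p / p))
    have b5 : ((R p).card : ℝ) / p * (log p / l / 2) ≤ 15 / l * (log p / p) := by
      have : ((R p).card : ℝ) / p ≤ 30 / p :=
        div_le_div_of_nonneg_right (by exact_mod_cast H.card p hp) (by positivity)
      calc _ ≤ 30 / (p : ℝ) * (log p / l / 2) := mul_le_mul_of_nonneg_right this (by positivity)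
        _ = _ := by ring
    calc _ ≤ 1 + hw p (R p).card * (1 + log p / l / 2) := by gcongr
      _ = (1 + hw p (R p).card) * (1 + ((R p).card : ℝ) / p * (log p / l / 2)) := by
        linear_combination (-(log p / l / 2)) * b1
      _ ≤ _ := mul_le_mul_of_nonneg_left (by linarith) (by linarith)
  rw [prod_mul_distrib, ← EE_eq, ← exp_sum, ← mul_sum] at h2
  have h3 : exp (15 / l * ∑ p ∈ P, log p / p) ≤ 3850000 := by
    refine le_trans (exp_le_exp.2 ?_) exp_c0
    calc _ ≤ 15 / l * (101 / 100 * l) := mul_le_mul_of_nonneg_left H.mert (by positivity)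
      _ = _ := by field_simp; norm_num
  have h4 := H.one_le
  calc _ ≤ (2 / 3) ^ v * (EE P R * 3850000) :=
        h1.trans (mul_le_mul_of_nonneg_left (h2.trans (by gcongr)) (by positivity))
    _ = _ := by ring

theorem Hyp.err (H : Hyp P R l) (ψ : Finset ℕ → ℝ) (v : ℝ) (h1 : ∀ A, |ψ A| ≤ 1)
    (h2 : ∀ A, ψ A ≠ 0 → sz A ≤ v * l) :
    (∑ A ∈ P.powerset, |ψ A| * 61 ^ A.card) ^ 2 ≤ exp ((2 * v + 122 / 1000) * l) := by
  have h3 : ∑ A ∈ P.powerset, |ψ A| * 61 ^ A.card
      ≤ ∑ A ∈ P.powerset, exp (v * l) * ∏ p ∈ A, 61 * (1 / (p : ℝ)) := by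
    refine sum_le_sum fun A hA' => ?_
    have e : ∏ p ∈ A, (1 / (p : ℝ)) = exp (-sz A) := by
      rw [exp_neg, sz, exp_sum, ← prod_inv_distrib]
      refine prod_congr rfl fun p hp => ?_
      rw [exp_log (by exact_mod_cast (H.prime p (mem_powerset.1 hA' hp)).pos), one_div]
    rw [prod_mul_distrib, prod_const, e, mul_left_comm, ← exp_add, mul_comm]
    refine mul_le_mul_of_nonneg_left ?_ (by positivity)
    by_cases h : ψ A = 0
    · rw [h, abs_zero]; positivity
    · exact (h1 A).trans (one_le_exp (by linarith [h2 A h]))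
  rw [← mul_sum, ← prod_one_add] at h3
  have h4 := h3.trans (mul_le_mul_of_nonneg_left (H.prod_le (K := 61) (by norm_num))
    (exp_pos _).le)
  refine (pow_le_pow_left₀ (sum_nonneg fun A _ => by positivity) h4 2).trans (le_of_eq ?_)
  rw [← exp_add, ← exp_nat_mul]
  congr 1
  push_cast
  ring

end Pool.Agent.P.MP_dddec0_nt.Odd
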