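import Pool.Agent.P.MP_dddec0_nt.OddB

/-! Lower and upper bounds for the sifted set. -/

namespace Pool.Agent.P.MP_dddec0_nt.Odd
open Finset Real Pool.Agent.Lib.Sieve Pool.Agent.Lib.Tup

/-- `t` survives the sieve. -/
def Sif (P : Finset ℕ) (R : ℕ → Finset ℕ) (t : ℕ) : Prop := ∀ p ∈ P, t % p ∉ R p

instance (P : Finset ℕ) (R : ℕ → Finset ℕ) : DecidablePred (Sif P R) := fun _ => by
  unfold Sif; infer_instance

variable {P : Finset ℕ} {R : ℕ → Finset ℕ} {l : ℝ}

theorem th_sif {t : ℕ} (h : Sif P R t) {A : Finset ℕ} (hA' : A ⊆ P) :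
    ∏ p ∈ A, th R p t = hA R A :=
  prod_congr rfl fun p hp => by unfold th; rw [if_neg (h p (hA' hp))]

/-- Lipschitz cutoff. -/
noncomputable def phi (l : ℝ) (A : Finset ℕ) : ℝ := max 0 (min 1 (71 - sz A / l))

theorem phi_nonneg (l : ℝ) (A : Finset ℕ) : 0 ≤ phi l A := le_max_left _ _

theorem phi_le (l : ℝ) (A : Finset ℕ) : phi l A ≤ 1 := max_le zero_le_one (min_le_left _ _)

theorem phi_one (hl : 0 < l) {A : Finset ℕ} (h : sz A ≤ 70 * l) : phi l A = 1 := by
  have : sz A / l ≤ 70 := (div_le_iff₀ hl).2 h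
  unfold phi
  rw [min_eq_left (by linarith), max_eq_right zero_le_one]

theorem phi_zero (hl : 0 < l) {A : Finset ℕ} (h : 71 * l < sz A) : phi l A = 0 := by
  have : 71 < sz A / l := (lt_div_iff₀ hl).2 h
  exact max_eq_left ((min_le_right _ _).trans (by linarith))

theorem phi_lip (hl : 0 < l) {A : Finset ℕ} {p : ℕ} (hp : p ∉ A) :
    |phi l A - phi l (insert p A)| ≤ log p / l := by
  have h0 : 0 ≤ log p / l := div_nonneg (log_natCast_nonneg p) hl.le
  have e : sz (insert p A) / l = log p / l + sz A / l := by rw [sz, sum_insert hp, add_div]; rfl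
  unfold phi
  rw [e, max_comm 0, max_comm 0]
  refine (abs_max_sub_max_le_abs _ _ _).trans ((abs_min_sub_min_le_max _ _ _ _).trans ?_)
  rw [sub_self, abs_zero, show 71 - sz A / l - (71 - (log p / l + sz A / l)) = log p / l by ring,
    abs_of_nonneg h0]
  exact max_le h0 le_rfl

theorem Hyp.one_prime (H : Hyp P R l) {p : ℕ} (hp : p ∈ P) (N : ℕ) :
    ∑ t ∈ range N, (∑ A ∈ P.powerset, phi l A * ∏ q ∈ A, th R q t) ^ 2 * ind R p t
      ≤ N * (30 / l * (log p / p) * (3850000 * (2 / 3) ^ 69 * EE P R))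
        + 30 * exp ((2 * 71 + 122 / 1000) * l) := by
  have hl := H.pos
  have H' := H.mono (erase_subset p P)
  set ψ : Finset ℕ → ℝ := fun A => phi l A - phi l (insert p A) with hψ
  have hq := quad (P.erase p) {p} (by simp) H'.prime (by simpa using H.prime p hp) R H'.sub
    (by simpa using H.sub p hp) H'.two H'.cK ψ N
  simp only [prod_singleton] at hq
  have hlp : 0 ≤ log p / l := div_nonneg (log_natCast_nonneg p) hl.le
  have hlp1 : log p / l ≤ 1 := (div_le_one hl).2 (H.small p hp)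
  have e1 : ∀ t, (∑ A ∈ P.powerset, phi l A * ∏ q ∈ A, th R q t) ^ 2 * ind R p t
      = (∑ A ∈ (P.erase p).powerset, ψ A * ∏ q ∈ A, th R q t) ^ 2 * ind R p t := by
    intro t
    unfold ind
    split_ifs with h
    · congr 2
      conv_lhs => rw [← insert_erase hp, sum_powerset_insert (notMem_erase p P),
        ← sum_add_distrib]
      refine sum_congr rfl fun A hA' => ?_
      have : p ∉ A := fun h' => notMem_erase p P (mem_powerset.1 hA' h')
      rw [prod_insert this, show th R p t = -1 from if_pos h]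
      ring
    · simp
  have e2 := H'.err ψ 71 (fun A => by
    rw [abs_le]
    constructor <;> linarith [phi_nonneg l A, phi_le l A, phi_nonneg l (insert p A),
      phi_le l (insert p A)]) (fun A h => by
    by_contra hc
    push Not at hc
    exact h (by rw [hψ]; simp only; rw [phi_zero hl hc,
      phi_zero hl (hc.trans_le (bas_sz_mono (subset_insert p A))), sub_self]))
  have e3 : ∑ A ∈ (P.erase p).powerset, ψ A ^ 2 * ∏ q ∈ A, hw q (R q).card
      ≤ log p / l * (3850000 * (2 / 3) ^ 69 * EE P R) := by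
    refine le_trans ?_ (mul_le_mul_of_nonneg_left (H.tail 69) hlp)
    rw [mul_sum]
    refine le_trans (sum_le_sum fun A hA' => ?_) (sum_le_sum_of_subset_of_nonneg
      (powerset_mono.2 (erase_subset p P)) fun A hA' _ => ?_)
    · have hp' : p ∉ A := fun h' => notMem_erase p P (mem_powerset.1 hA' h')
      have h0 := H'.hA_nonneg (mem_powerset.1 hA')
      split_ifs with h
      · refine mul_le_mul_of_nonneg_right ?_ h0
        have := phi_lip hl hp'
        rw [← sq_abs]
        nlinarith [abs_nonneg (ψ A)]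
      · push Not at h
        have h1 : sz (insert p A) ≤ 70 * l := by
          rw [sz, sum_insert hp']
          have := H.small p hp
          change _ + sz A ≤ _
          push_cast at h
          linarith
        have : ψ A = 0 := by
          rw [hψ]; simp only
          rw [phi_one hl h1, phi_one hl ((bas_sz_mono (subset_insert p A)).trans h1), sub_self]
        rw [this]; simp
    · have h0 := H.hA_nonneg (mem_powerset.1 hA')
      split_ifs <;> positivity
  have hc : ((R p).card : ℝ) ≤ 30 := by exact_mod_cast H.card p hp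
  have hE := H.one_le
  simp only [e1]
  have a1 : ((R p).card : ℝ) / p * ∑ A ∈ (P.erase p).powerset, ψ A ^ 2 * ∏ q ∈ A, hw q (R q).card
      ≤ 30 / l * (log p / p) * (3850000 * (2 / 3) ^ 69 * EE P R) := by
    calc _ ≤ 30 / (p : ℝ) * (log p / l * (3850000 * (2 / 3) ^ 69 * EE P R)) :=
          mul_le_mul (by gcongr) e3 (sum_nonneg fun A hA' => mul_nonneg (sq_nonneg _)
            (H'.hA_nonneg (mem_powerset.1 hA'))) (by positivity)
      _ = _ := by ring
  have a2 := mul_le_mul hc e2 (sq_nonneg _) (by norm_num)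
  have a3 := mul_le_mul_of_nonneg_left a1 (Nat.cast_nonneg N)
  linarith [(abs_le.1 hq).2]

theorem Hyp.lower (H : Hyp P R l) (hcard : (P.card : ℝ) ≤ exp l) (N : ℕ) :
    N * (999 / 1000 * EE P R) - (1 + 30 * exp l) * exp ((2 * 71 + 122 / 1000) * l)
      ≤ EE P R ^ 2 * ((range N).filter (Sif P R)).card := by
  have hl := H.pos
  have hE := H.one_le
  set F : ℕ → ℝ := fun t => ∑ A ∈ P.powerset, phi l A * ∏ q ∈ A, th R q t with hF
  have hq := quad P ∅ (by simp) H.prime (by simp) R H.sub (by simp) H.two H.cK (phi l) N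
  simp only [prod_empty, mul_one, one_mul] at hq
  have e2 := H.err (phi l) 71 (fun A => by
    rw [abs_of_nonneg (phi_nonneg l A)]; exact phi_le l A) (fun A h => by
    by_contra hc
    exact h (phi_zero hl (not_le.1 hc)))
  have e3 : EE P R - 3850000 * (2 / 3) ^ 70 * EE P R
      ≤ ∑ A ∈ P.powerset, phi l A ^ 2 * ∏ q ∈ A, hw q (R q).card := by
    refine le_trans (sub_le_sub_left (H.tail 70) _) ?_
    rw [EE, ← sum_sub_distrib]
    refine sum_le_sum fun A hA' => ?_
    split_ifs with h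
    · rw [sub_self]; exact mul_nonneg (sq_nonneg _) (H.hA_nonneg (mem_powerset.1 hA'))
    · rw [phi_one hl (by exact_mod_cast not_lt.1 h)]; simp [hA]
  have e4 : ∀ t, F t ^ 2 - ∑ p ∈ P, F t ^ 2 * ind R p t ≤ if Sif P R t then EE P R ^ 2 else 0 := by
    intro t
    split_ifs with h
    · have h1 : F t = ∑ A ∈ P.powerset, phi l A * hA R A :=
        sum_congr rfl fun A hA' => by rw [th_sif h (mem_powerset.1 hA')]
      have h2 : 0 ≤ F t := h1 ▸ sum_nonneg fun A hA' =>
        mul_nonneg (phi_nonneg l A) (H.hA_nonneg (mem_powerset.1 hA'))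
      have h3 : F t ≤ EE P R := h1 ▸ sum_le_sum fun A hA' =>
        mul_le_of_le_one_left (H.hA_nonneg (mem_powerset.1 hA')) (phi_le l A)
      have h4 : 0 ≤ ∑ p ∈ P, F t ^ 2 * ind R p t :=
        sum_nonneg fun p _ => mul_nonneg (sq_nonneg _) (ind_nonneg R p t)
      linarith [pow_le_pow_left₀ h2 h3 2]
    · unfold Sif at h
      push Not at h
      obtain ⟨p, hp, h⟩ := h
      have := single_le_sum (f := fun p => F t ^ 2 * ind R p t)
        (fun p _ => mul_nonneg (sq_nonneg _) (ind_nonneg R p t)) hp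
      simp only [ind, h, if_true, mul_one] at this
      simp only [ind]
      linarith
  have e5 := sum_le_sum fun t (_ : t ∈ range N) => e4 t
  rw [sum_sub_distrib, sum_comm, ← sum_filter, sum_const, nsmul_eq_mul] at e5
  have e6 := sum_le_sum fun p (hp : p ∈ P) => H.one_prime hp N
  rw [sum_add_distrib, ← mul_sum, ← sum_mul, ← mul_sum, sum_const, nsmul_eq_mul] at e6
  have e7 : 30 / l * ∑ p ∈ P, log p / p ≤ 303 / 10 := by
    calc _ ≤ 30 / l * (101 / 100 * l) := mul_le_mul_of_nonneg_left H.mert (by positivity)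
      _ = _ := by field_simp; norm_num
  have e8 : (30 / l * ∑ p ∈ P, log p / p) * (3850000 * (2 / 3) ^ 69 * EE P R)
      ≤ 1 / 2000 * EE P R := by
    refine (mul_le_mul_of_nonneg_right e7 (by positivity)).trans ?_
    rw [← mul_assoc]
    exact mul_le_mul_of_nonneg_right (by norm_num) (by linarith)
  have e9 : 3850000 * (2 / 3) ^ 70 * EE P R ≤ 1 / 2000 * EE P R :=
    mul_le_mul_of_nonneg_right (by norm_num) (by linarith)
  have hN : (0 : ℝ) ≤ N := Nat.cast_nonneg N
  have b1 := mul_le_mul_of_nonneg_left e8 hN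
  have b0 : 1999 / 2000 * EE P R
      ≤ ∑ A ∈ P.powerset, phi l A ^ 2 * ∏ q ∈ A, hw q (R q).card := by linarith only [e3, e9]
  have b2 := mul_le_mul_of_nonneg_left b0 hN
  have b3 := mul_le_mul_of_nonneg_right hcard
    (show 0 ≤ 30 * exp ((2 * 71 + 122 / 1000) * l) by positivity)
  have b4 := (abs_le.1 hq).1
  simp only [hF] at e5
  linarith only [e5, e6, b1, b2, b3, b4, e2]

theorem Hyp.upper (H : Hyp P R l) (U : Finset ℕ) (hd : Disjoint P U) (hU : ∀ p ∈ U, p.Prime)
    (hRU : ∀ p ∈ U, R p ⊆ range p) (hc : ∀ p ∈ U, (R p).card ≤ 1) (N : ℕ) :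
    (((range N).filter (fun t => Sif P R t ∧ ∀ p ∈ U, t % p ∈ R p)).card : ℝ)
      ≤ N / (93 / 100 * EE P R) * ∏ p ∈ U, (1 / (p : ℝ))
        + 2 * exp ((2 * 44 + 122 / 1000) * l) := by
  have hE := H.one_le
  set ψ : Finset ℕ → ℝ := fun A => if sz A ≤ 44 * l then 1 else 0 with hψ
  have hq := (abs_le.1 (quad P U hd H.prime hU R H.sub hRU H.two H.cK ψ N)).2
  have e2 := H.err ψ 44 (fun A => by rw [hψ]; simp only; split_ifs <;> simp) (fun A h => by
    by_contra hc
    exact h (if_neg hc))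
  set G := ∑ A ∈ P.powerset, ψ A * hA R A with hG
  have e3 : ∑ A ∈ P.powerset, ψ A ^ 2 * ∏ q ∈ A, hw q (R q).card = G :=
    sum_congr rfl fun A _ => by rw [hψ]; simp only; split_ifs <;> simp [hA]
  have e4 : 93 / 100 * EE P R ≤ G := by
    have h1 : EE P R - ∑ A ∈ P.powerset, (if (44 : ℕ) * l < sz A then hA R A else 0) = G := by
      rw [EE, ← sum_sub_distrib]
      refine sum_congr rfl fun A _ => ?_
      rw [hψ]; push_cast
      by_cases h : sz A ≤ 44 * l
      · simp [h, not_lt.2 h]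
      · simp [h, not_le.1 h]
    have h2 : 3850000 * (2 / 3) ^ 44 * EE P R ≤ 7 / 100 * EE P R :=
      mul_le_mul_of_nonneg_right (by norm_num) (by linarith)
    have h3 := (sub_le_sub_left ((H.tail 44).trans h2) (EE P R)).trans h1.le
    linarith only [h3]
  set S := (range N).filter (fun t => Sif P R t ∧ ∀ p ∈ U, t % p ∈ R p) with hS
  have e5 : (S.card : ℝ) * G ^ 2 ≤ ∑ t ∈ range N,
      (∑ A ∈ P.powerset, ψ A * ∏ p ∈ A, th R p t) ^ 2 * ∏ p ∈ U, ind R p t := by
    rw [← nsmul_eq_mul, ← sum_const]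
    refine le_trans (le_of_eq (sum_congr rfl fun t ht => ?_)) (sum_le_sum_of_subset_of_nonneg
      (filter_subset _ _) fun t _ _ => mul_nonneg (sq_nonneg _)
        (prod_nonneg fun p _ => ind_nonneg R p t))
    obtain ⟨-, h1, h2⟩ := mem_filter.1 ht
    rw [show ∏ p ∈ U, ind R p t = 1 from prod_eq_one fun p hp => if_pos (h2 p hp), mul_one, hG]
    congr 1
    exact sum_congr rfl fun A hA' => by rw [th_sif h1 (mem_powerset.1 hA')]
  have e6 : ∏ p ∈ U, (((R p).card : ℝ) / p) ≤ ∏ p ∈ U, (1 / (p : ℝ)) :=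
    prod_le_prod (fun p _ => by positivity) fun p hp =>
      div_le_div_of_nonneg_right (by exact_mod_cast hc p hp) (by positivity)
  have e7 : ∏ p ∈ U, ((R p).card : ℝ) ≤ 1 :=
    prod_le_one (fun p _ => by positivity) fun p hp => by exact_mod_cast hc p hp
  set w := ∏ p ∈ U, (1 / (p : ℝ))
  have hw0 : 0 ≤ w := prod_nonneg fun p _ => by positivity
  set X := exp ((2 * 44 + 122 / 1000) * l)
  have hX : 0 < X := exp_pos _
  have hG0 : 0 < G := by linarith
  rw [e3] at hq
  have b1 := mul_le_mul e7 e2 (sq_nonneg _) zero_le_one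
  have b2 := mul_le_mul_of_nonneg_left (mul_le_mul_of_nonneg_right e6 hG0.le) (Nat.cast_nonneg N)
  have b3 : (S.card : ℝ) * G ^ 2 ≤ (N / G * w + 2 * X) * G ^ 2 := by
    have : (N / G * w + 2 * X) * G ^ 2 = N * (w * G) + 2 * X * G ^ 2 := by field_simp
    have h2 : 1 ≤ 2 * G ^ 2 := by nlinarith
    nlinarith
  refine (le_of_mul_le_mul_right b3 (by positivity)).trans ?_
  gcongr

end Pool.Agent.P.MP_dddec0_nt.Odd
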