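import Pool.Agent.P.MP_dddec0_nt.OddC

/-! Symmetric sums, complements, roots of linear forms and sums over primes. -/

namespace Pool.Agent.P.MP_dddec0_nt.Odd
open Finset Real Filter Pool.Agent.Lib.Sieve Pool.Agent.Lib.Tup

theorem esymm_le (f : ℕ → ℝ) (hf : ∀ p, 0 ≤ f p) (S : Finset ℕ) : ∀ j : ℕ,
    ∑ T ∈ powersetCard j S, ∏ p ∈ T, f p ≤ (∑ p ∈ S, f p) ^ j / j.factorial := by
  induction S using Finset.induction_on with
  | empty =>
    intro j
    cases j with
    | zero => simp
    | succ j => rw [powersetCard_eq_empty.2 (by simp)]; simp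
  | insert a S ha ih =>
    intro j
    cases j with
    | zero => simp
    | succ j =>
      have hs : 0 ≤ ∑ p ∈ S, f p := sum_nonneg fun p _ => hf p
      have h1 : ∑ T ∈ (powersetCard j S).image (insert a), ∏ p ∈ T, f p
          ≤ f a * ∑ T ∈ powersetCard j S, ∏ p ∈ T, f p := by
        refine (sum_image_le_of_nonneg fun T _ => prod_nonneg fun p _ => hf p).trans (le_of_eq ?_)
        rw [mul_sum]
        exact sum_congr rfl fun T hT => prod_insert fun h => ha ((mem_powersetCard.1 hT).1 h)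
      have h2 := sum_union_inter (s₁ := powersetCard (j + 1) S)
        (s₂ := (powersetCard j S).image (insert a)) (f := fun T => ∏ p ∈ T, f p)
      have h3 : 0 ≤ ∑ T ∈ powersetCard (j + 1) S ∩ (powersetCard j S).image (insert a),
          ∏ p ∈ T, f p := sum_nonneg fun T _ => prod_nonneg fun p _ => hf p
      have h4 := mul_le_mul_of_nonneg_left (ih j) (hf a)
      have h5 := pow_add_mul_le_add_pow hs (show 0 ≤ 2 * ∑ p ∈ S, f p + f a by linarith [hf a])
        (j + 1)
      have h6 : (∑ p ∈ S, f p) ^ (j + 1) / (j + 1).factorial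
          + f a * ((∑ p ∈ S, f p) ^ j / j.factorial)
          ≤ (f a + ∑ p ∈ S, f p) ^ (j + 1) / (j + 1).factorial := by
        rw [add_comm (f a)]
        refine le_trans (le_of_eq ?_) (div_le_div_of_nonneg_right h5 (by positivity))
        rw [Nat.factorial_succ, Nat.add_sub_cancel]
        push_cast
        field_simp
      rw [powersetCard_succ_insert ha, sum_insert ha]
      linarith [ih (j + 1)]

theorem half {S : Finset ℕ} (hS : S.card = 12) {W : ℝ} (hW : 0 ≤ W)
    (h : ((∏ p ∈ S, p : ℕ) : ℝ) ≤ W ^ 2) :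
    462 ≤ ((powersetCard 6 S).filter fun T => ((∏ p ∈ T, p : ℕ) : ℝ) ≤ W).card := by
  have h1 := card_filter_add_card_filter_not (s := powersetCard 6 S)
    (fun T => ((∏ p ∈ T, p : ℕ) : ℝ) ≤ W)
  rw [card_powersetCard, hS, show Nat.choose 12 6 = 924 by decide] at h1
  have h2 : ((powersetCard 6 S).filter fun T => ¬ ((∏ p ∈ T, p : ℕ) : ℝ) ≤ W).card
      ≤ ((powersetCard 6 S).filter fun T => ((∏ p ∈ T, p : ℕ) : ℝ) ≤ W).card := by
    refine card_le_card_of_injOn (fun T => S \ T) (fun T hT => ?_) fun T hT T' hT' e => ?_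
    · obtain ⟨h3, h4⟩ := mem_filter.1 (mem_coe.1 hT)
      obtain ⟨h5, h6⟩ := mem_powersetCard.1 h3
      refine mem_coe.2 (mem_filter.2 ⟨mem_powersetCard.2 ⟨sdiff_subset, ?_⟩, ?_⟩)
      · rw [card_sdiff_of_subset h5, hS, h6]
      · rw [← prod_sdiff h5, Nat.cast_mul] at h
        by_contra hc
        push Not at hc h4
        nlinarith
    · have a := (mem_powersetCard.1 (mem_filter.1 (mem_coe.1 hT)).1).1
      have b := (mem_powersetCard.1 (mem_filter.1 (mem_coe.1 hT')).1).1
      have e' : S \ T = S \ T' := e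
      rw [← Finset.sdiff_sdiff_eq_self a, e', Finset.sdiff_sdiff_eq_self b]
  omega

/-- Roots of a linear form modulo `q`. -/
def rt (A B q : ℕ) : Finset ℕ := (range q).filter fun r => q ∣ A * r + B

theorem mem_rt {A B q t : ℕ} (hq : 0 < q) : t % q ∈ rt A B q ↔ q ∣ A * t + B := by
  rw [rt, mem_filter, mem_range, and_iff_right (Nat.mod_lt _ hq)]
  exact (((Nat.mod_modEq t q).mul_left A).add_right B).dvd_iff dvd_rfl

theorem card_rt {A B : ℕ} (h : A.Coprime B) (q : ℕ) : (rt A B q).card ≤ 1 := by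
  refine card_le_one.2 fun r hr s hs => ?_
  obtain ⟨h1, h2⟩ := mem_filter.1 hr
  obtain ⟨h3, h4⟩ := mem_filter.1 hs
  have hc : Nat.gcd q A = 1 := by
    refine Nat.eq_one_of_dvd_coprimes h (Nat.gcd_dvd_right _ _) ?_
    exact (Nat.dvd_add_right ((Nat.gcd_dvd_right q A).mul_right r)).1
      ((Nat.gcd_dvd_left _ _).trans h2)
  have h5 : A * r + B ≡ A * s + B [MOD q] :=
    (Nat.modEq_zero_iff_dvd.2 h2).trans (Nat.modEq_zero_iff_dvd.2 h4).symm
  exact Nat.ModEq.eq_of_lt_of_lt
    (Nat.ModEq.cancel_left_of_coprime hc (Nat.ModEq.add_right_cancel' B h5))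
    (mem_range.1 h1) (mem_range.1 h3)

theorem cnt_dvd {A B : ℕ} (h : A.Coprime B) {q : ℕ} (hq : 0 < q) (N : ℕ) :
    (((range N).filter fun t => q ∣ A * t + B).card : ℝ) ≤ N * (1 / q) + 1 := by
  have h1 := (abs_le.1 (per_abs hq (ind (rt A B) q) (fun n => by unfold ind; rw [Nat.mod_mod])
    (ind_nonneg _ q) N)).2
  have h2 : ∑ i ∈ range q, ind (rt A B) q i ≤ 1 := by
    unfold ind
    rw [sum_ite_range (rt A B) (filter_subset _ _), mul_one, mul_zero, add_zero]
    exact_mod_cast card_rt h q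
  have h3 : ∑ t ∈ range N, ind (rt A B) q t = ((range N).filter fun t => q ∣ A * t + B).card := by
    simp only [ind, mem_rt hq, sum_boole]
  have h4 : (N : ℝ) * ((∑ i ∈ range q, ind (rt A B) q i) / q) ≤ N * (1 / q) := by gcongr
  linarith

theorem mert2 : ∃ C : ℝ, 0 ≤ C ∧ ∀ x y : ℝ, 0 ≤ x → x ≤ y → ∀ S : Finset ℕ,
    (∀ p ∈ S, p.Prime ∧ x ≤ log p ∧ log p < y) → ∑ p ∈ S, log p / p ≤ y - x + C := by
  classical
  obtain ⟨C, hC0, hC⟩ := mertens_ap (W := 1) one_pos
  refine ⟨2 * C, by positivity, fun x y hx hxy S hS => ?_⟩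
  set N := ⌈exp y⌉₊
  have h1 := (abs_le.1 (hC 1 N y (by simp) (hx.trans hxy) (Nat.le_ceil _))).2
  have h2 := (abs_le.1 (hC 1 N x (by simp) hx ((exp_le_exp.2 hxy).trans (Nat.le_ceil _)))).1
  simp only [Nat.modEq_one, and_true, Nat.totient_one, Nat.cast_one, div_one, one_mul] at h1 h2
  have hd : Disjoint S ((range N).filter fun n : ℕ => log n < x) :=
    disjoint_left.2 fun p hp hp' => absurd (mem_filter.1 hp').2 (not_lt.2 (hS p hp).2.1)
  have h3 : ∑ n ∈ S ∪ (range N).filter (fun n : ℕ => log n < x),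
      (if n.Prime then log n / n else 0)
      ≤ ∑ n ∈ (range N).filter (fun n : ℕ => log n < y), (if n.Prime then log n / n else 0) := by
    refine sum_le_sum_of_subset_of_nonneg (union_subset (fun p hp => ?_) fun p hp => ?_)
      fun n _ _ => ?_
    · obtain ⟨a, -, c⟩ := hS p hp
      refine mem_filter.2 ⟨mem_range.2 (Nat.lt_ceil.2 ?_), c⟩
      rwa [← log_lt_iff_lt_exp (by exact_mod_cast a.pos)]
    · exact mem_filter.2 ⟨(mem_filter.1 hp).1, (mem_filter.1 hp).2.trans_le hxy⟩
    · split_ifs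
      · exact div_nonneg (log_natCast_nonneg n) (by positivity)
      · exact le_rfl
  rw [sum_union hd, sum_congr rfl fun p hp => if_pos (hS p hp).1] at h3
  linarith

theorem inv_primes : ∀ᶠ l : ℝ in atTop, ∀ S : Finset ℕ,
    (∀ p ∈ S, p.Prime ∧ l ≤ log p ∧ log p < 89 * l) → ∑ p ∈ S, 1 / (p : ℝ) ≤ 455 / 100 := by
  obtain ⟨C, hC0, hC⟩ := mert2
  filter_upwards [eventually_gt_atTop 0, eventually_ge_atTop (22700 * C)] with l hl hlC S hS
  have key : ∀ i : ℕ, ∑ p ∈ S.filter (fun p : ℕ => log p < (51 / 50) ^ i * l), 1 / (p : ℝ)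
      ≤ i * (1 / 50 + 1 / 22700) := by
    intro i
    induction i with
    | zero =>
      rw [filter_false_of_mem fun p hp => by simpa using (hS p hp).2.1]; simp
    | succ i ih =>
      set x := (51 / 50 : ℝ) ^ i * l with hx
      have hx1 : l ≤ x := le_mul_of_one_le_left hl.le (one_le_pow₀ (by norm_num))
      have hx0 : 0 < x := hl.trans_le hx1
      have e : (51 / 50 : ℝ) ^ (i + 1) * l = 51 / 50 * x := by rw [hx]; ring
      rw [e, ← sum_filter_add_sum_filter_not _ (fun p : ℕ => log p < x), filter_filter,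
        filter_filter]
      have h1 : S.filter (fun p : ℕ => log p < 51 / 50 * x ∧ log p < x)
          = S.filter (fun p : ℕ => log p < x) :=
        filter_congr fun p _ => ⟨fun h => h.2, fun h => ⟨by linarith, h⟩⟩
      have h2 := hC x (51 / 50 * x) hx0.le (by linarith)
        (S.filter (fun p : ℕ => log p < 51 / 50 * x ∧ ¬ log p < x)) fun p hp =>
          ⟨(hS p (mem_filter.1 hp).1).1, not_lt.1 (mem_filter.1 hp).2.2, (mem_filter.1 hp).2.1⟩
      have h3 : x * ∑ p ∈ S.filter (fun p : ℕ => log p < 51 / 50 * x ∧ ¬ log p < x), 1 / (p : ℝ)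
          ≤ x * (1 / 50 + 1 / 22700) := by
        refine le_trans ?_ (h2.trans (by linarith))
        rw [mul_sum]
        refine sum_le_sum fun p hp => ?_
        rw [mul_one_div]
        exact div_le_div_of_nonneg_right (not_lt.1 (mem_filter.1 hp).2.2) (by positivity)
      have h4 := le_of_mul_le_mul_left h3 hx0
      rw [h1]
      push_cast
      linarith
  have h := key 227
  rw [filter_true_of_mem fun p hp => (hS p hp).2.2.trans_le
    (mul_le_mul_of_nonneg_right (by norm_num) hl.le)] at h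
  exact h.trans (by norm_num)

end Pool.Agent.P.MP_dddec0_nt.Odd
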