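import Pool.Agent.P.MP_dddec0_nt.OddD

/-! Thirty linear forms are simultaneously products of at most eleven primes. -/

namespace Pool.Agent.P.MP_dddec0_nt.Odd
open Finset Real Filter Pool.Agent.Lib.Sieve Pool.Agent.Lib.Tup

variable {P : Finset ℕ} {R : ℕ → Finset ℕ} {l : ℝ}

theorem Hyp.upper' (H : Hyp P R l) {A B : ℕ} (hc : A.Coprime B) (U : Finset ℕ)
    (hd : Disjoint P U) (hU : ∀ p ∈ U, p.Prime) (N : ℕ) :
    (((range N).filter (fun t => Sif P R t ∧ ∀ p ∈ U, p ∣ A * t + B)).card : ℝ)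
      ≤ N / (93 / 100 * EE P R) * ∏ p ∈ U, (1 / (p : ℝ))
        + 2 * exp ((2 * 44 + 122 / 1000) * l) := by
  set R' : ℕ → Finset ℕ := fun p => if p ∈ P then R p else rt A B p with hR'
  have e1 : ∀ p ∈ P, R' p = R p := fun p hp => if_pos hp
  have e2 : ∀ p ∈ U, R' p = rt A B p := fun p hp => if_neg (disjoint_right.1 hd hp)
  have H' : Hyp P R' l := ⟨H.pos, H.prime, fun p hp => e1 p hp ▸ H.sub p hp,
    fun p hp => e1 p hp ▸ H.card p hp, H.big, H.small, H.mert, H.inv⟩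
  have h := H'.upper U hd hU (fun p hp => e2 p hp ▸ filter_subset _ _)
    (fun p hp => e2 p hp ▸ card_rt hc p) N
  have e3 : EE P R' = EE P R := by
    rw [EE_eq, EE_eq]; exact prod_congr rfl fun p hp => by rw [e1 p hp]
  rw [e3] at h
  refine le_trans (le_of_eq ?_) h
  congr 2
  refine filter_congr fun t _ => and_congr ?_ ?_
  · exact forall₂_congr fun p hp => by rw [e1 p hp]
  · exact forall₂_congr fun p hp => by rw [e2 p hp, mem_rt (hU p hp).pos]

theorem Hyp.bad (H : Hyp P R l) (hP : ∀ p ∈ P, log p < l) {A B : ℕ} (hc : A.Coprime B)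
    (hB : 1 ≤ B) (N : ℕ) (hN : ∀ t < N, ((A * t + B : ℕ) : ℝ) ≤ exp (443 / 5 * l) ^ 2)
    (hS : ∀ t, Sif P R t → ∀ p : ℕ, p.Prime → p ∣ A * t + B → l ≤ log p)
    (hM : ∀ S : Finset ℕ, (∀ p ∈ S, p.Prime ∧ l ≤ log p ∧ log p < 89 * l) →
      ∑ p ∈ S, 1 / (p : ℝ) ≤ 455 / 100) :
    462 * (((range N).filter
        (fun t => Sif P R t ∧ 12 ≤ (A * t + B).primeFactors.card)).card : ℝ)
      ≤ N / (93 / 100 * EE P R) * ((455 / 100) ^ 6 / 720)
        + exp (443 / 5 * l) * (2 * exp ((2 * 44 + 122 / 1000) * l)) := by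
  have hl := H.pos
  have hE := H.one_le
  set W := exp (443 / 5 * l) with hW
  have hW0 : 0 < W := exp_pos _
  set G := (range ⌈exp (89 * l)⌉₊).filter (fun p : ℕ => p.Prime ∧ l ≤ log p) with hG
  have hG1 : ∀ p ∈ G, p.Prime ∧ l ≤ log p ∧ log p < 89 * l := fun p hp => by
    obtain ⟨h1, h2, h3⟩ := mem_filter.1 hp
    exact ⟨h2, h3, (log_lt_iff_lt_exp (by exact_mod_cast h2.pos)).2
      (Nat.lt_ceil.1 (mem_range.1 h1))⟩
  set T := (powersetCard 6 G).filter fun U => ((∏ p ∈ U, p : ℕ) : ℝ) ≤ W with hT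
  have hT1 : ∀ U ∈ T, U ⊆ G := fun U hU => (mem_powersetCard.1 (mem_filter.1 hU).1).1
  have hTc : (T.card : ℝ) ≤ W := by
    have : T.card ≤ (Ioc 0 ⌊W⌋₊).card :=
      card_le_card_of_injOn (fun U => ∏ p ∈ U, p) (fun U hU => mem_coe.2 (mem_Ioc.2
        ⟨prod_pos fun p hp => (hG1 p (hT1 U hU hp)).1.pos, Nat.le_floor (mem_filter.1 hU).2⟩))
        fun U hU V hV e => prod_injOn_primes (fun p hp => (hG1 p (hT1 U hU hp)).1)
          (fun p hp => (hG1 p (hT1 V hV hp)).1) e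
    rw [Nat.card_Ioc, Nat.sub_zero] at this
    exact (Nat.cast_le.2 this).trans (Nat.floor_le hW0.le)
  have h1 : ∀ t ∈ (range N).filter (fun t => Sif P R t ∧ 12 ≤ (A * t + B).primeFactors.card),
      462 ≤ (T.filter fun U => Sif P R t ∧ ∀ p ∈ U, p ∣ A * t + B).card := by
    intro t ht
    obtain ⟨a1, a2, a3⟩ := mem_filter.1 ht
    obtain ⟨S, b1, b2⟩ := exists_subset_card_eq a3
    have b3 : ((∏ p ∈ S, p : ℕ) : ℝ) ≤ W ^ 2 :=
      le_trans (Nat.cast_le.2 (Nat.le_of_dvd (by omega) ((prod_dvd_prod_of_subset _ _ _ b1).trans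
        (Nat.prod_primeFactors_dvd _)))) (hN t (mem_range.1 a1))
    refine (half b2 hW0.le b3).trans (card_le_card fun U hU => ?_)
    obtain ⟨c1, c2⟩ := mem_filter.1 hU
    obtain ⟨c3, c4⟩ := mem_powersetCard.1 c1
    have c5 : ∀ p ∈ U, p.Prime := fun p hp => Nat.prime_of_mem_primeFactors (b1 (c3 hp))
    have c6 : ∀ p ∈ U, p ∣ A * t + B := fun p hp => Nat.dvd_of_mem_primeFactors (b1 (c3 hp))
    refine mem_filter.2 ⟨mem_filter.2 ⟨mem_powersetCard.2 ⟨fun p hp => mem_filter.2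
      ⟨mem_range.2 (Nat.lt_ceil.2 ?_), c5 p hp, hS t a2 p (c5 p hp) (c6 p hp)⟩, c4⟩, c2⟩, a2, c6⟩
    refine lt_of_le_of_lt (le_trans (Nat.cast_le.2 (Nat.le_of_dvd
      (prod_pos fun q hq => (c5 q hq).pos) (dvd_prod_of_mem _ hp))) c2) (exp_lt_exp.2 ?_)
    linarith
  have h2 : 462 * ((range N).filter
        (fun t => Sif P R t ∧ 12 ≤ (A * t + B).primeFactors.card)).card
      ≤ ∑ U ∈ T, ((range N).filter fun t => Sif P R t ∧ ∀ p ∈ U, p ∣ A * t + B).card := by
    rw [mul_comm, ← smul_eq_mul, ← sum_const]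
    refine (sum_le_sum h1).trans ((sum_le_sum_of_subset (filter_subset _ _)).trans (le_of_eq ?_))
    simp only [card_filter]
    exact sum_comm
  have h3 : ∑ U ∈ T, ∏ p ∈ U, (1 / (p : ℝ)) ≤ (455 / 100) ^ 6 / 720 := by
    refine (sum_le_sum_of_subset_of_nonneg (filter_subset _ _)
      fun U _ _ => prod_nonneg fun p _ => by positivity).trans
      ((esymm_le (fun p => 1 / (p : ℝ)) (fun p => by positivity) G 6).trans ?_)
    rw [show ((Nat.factorial 6 : ℕ) : ℝ) = 720 by norm_num [Nat.factorial]]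
    exact div_le_div_of_nonneg_right (pow_le_pow_left₀ (sum_nonneg fun p _ => by positivity)
      (hM G hG1) 6) (by norm_num)
  have h4 := sum_le_sum fun U (hU : U ∈ T) => H.upper' hc U (disjoint_left.2 fun p hp hp' =>
    absurd (hP p hp) (not_lt.2 (hG1 p (hT1 U hU hp')).2.1)) (fun p hp => (hG1 p (hT1 U hU hp)).1) N
  rw [sum_add_distrib, ← mul_sum, sum_const, nsmul_eq_mul] at h4
  have h5 : ((462 * ((range N).filter
        (fun t => Sif P R t ∧ 12 ≤ (A * t + B).primeFactors.card)).card : ℕ) : ℝ) ≤ _ :=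
    Nat.cast_le.2 h2
  push_cast at h5
  refine h5.trans (h4.trans (add_le_add ?_ ?_))
  · exact mul_le_mul_of_nonneg_left h3 (by positivity)
  · exact mul_le_mul_of_nonneg_right hTc (by positivity)

theorem sq_le (hl : 2 ≤ l) {A B : ℕ} (hc : A.Coprime B) (hB : 1 ≤ B) (N : ℕ) {W : ℝ}
    (hW : 0 ≤ W) (hN : ∀ t < N, ((A * t + B : ℕ) : ℝ) ≤ W ^ 2) :
    (((range N).filter (fun t => ∃ p ∈ (A * t + B).primeFactors,
      l ≤ log p ∧ p * p ∣ A * t + B)).card : ℝ) ≤ N * exp (-(l / 2)) + W := by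
  set G := (Ioc 0 ⌊W⌋₊).filter (fun p : ℕ => l ≤ log p) with hG
  have h1 : ((range N).filter (fun t => ∃ p ∈ (A * t + B).primeFactors,
      l ≤ log p ∧ p * p ∣ A * t + B)).card
      ≤ ∑ p ∈ G, ((range N).filter fun t => p * p ∣ A * t + B).card := by
    refine le_trans (card_le_card fun t ht => ?_) card_biUnion_le
    obtain ⟨a1, p, a2, a3, a4⟩ := mem_filter.1 ht
    refine mem_biUnion.2 ⟨p, mem_filter.2 ⟨mem_Ioc.2 ⟨(Nat.prime_of_mem_primeFactors a2).pos,
      Nat.le_floor ?_⟩, a3⟩, mem_filter.2 ⟨a1, a4⟩⟩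
    have := (Nat.cast_le.2 (Nat.le_of_dvd (by omega) a4)).trans (hN t (mem_range.1 a1))
    push_cast at this
    exact abs_le_of_sq_le_sq' (by linarith) hW |>.2
  have h2 : ∑ p ∈ G, (1 / (p : ℝ)) ^ 2 ≤ exp (-(l / 2)) := by
    have a0 := exp_pos (l / 2)
    refine (sum_inv_sq_le' G (Z := ⌈exp (l / 2)⌉₊) (Nat.ceil_pos.2 a0) fun r hr => ?_).trans ?_
    · obtain ⟨a1, a2⟩ := mem_filter.1 hr
      have a3 : exp l ≤ r := (le_log_iff_exp_le (by exact_mod_cast (mem_Ioc.1 a1).1)).1 a2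
      have a4 : exp l = exp (l / 2) * exp (l / 2) := by rw [← exp_add]; ring_nf
      have a5 := add_one_le_exp (l / 2)
      have a6 := Nat.ceil_lt_add_one a0.le
      have : ((⌈exp (l / 2)⌉₊ : ℕ) : ℝ) < r := by nlinarith
      exact_mod_cast this
    · rw [exp_neg, ← one_div]
      exact one_div_le_one_div_of_le a0 (Nat.le_ceil _)
  have h3 : (G.card : ℝ) ≤ W := by
    have := card_filter_le (Ioc 0 ⌊W⌋₊) (fun p : ℕ => l ≤ log p)
    rw [Nat.card_Ioc, Nat.sub_zero] at this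
    exact (Nat.cast_le.2 this).trans (Nat.floor_le hW)
  refine (Nat.cast_le.2 h1).trans ?_
  push_cast
  refine (sum_le_sum fun p hp => cnt_dvd hc (q := p * p)
    (mul_pos (mem_Ioc.1 (mem_filter.1 hp).1).1 (mem_Ioc.1 (mem_filter.1 hp).1).1) N).trans ?_
  rw [sum_add_distrib, ← mul_sum, sum_const, nsmul_eq_mul, mul_one]
  refine add_le_add (mul_le_mul_of_nonneg_left (le_trans (le_of_eq ?_) h2) (by positivity)) h3
  exact sum_congr rfl fun p _ => by push_cast; ring

theorem sieve (I : Finset ℕ) (hI : I.card ≤ 30) (A B : ℕ → ℕ) (D : ℕ) (hD : exp 2000 ≤ D)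
    (hA : ∀ i ∈ I, ∀ p : ℕ, p.Prime → p ≤ D → p ∣ A i) (hc : ∀ i ∈ I, (A i).Coprime (B i))
    (hB : ∀ i ∈ I, 1 ≤ B i) :
    {t : ℕ | ∀ i ∈ I, ArithmeticFunction.cardFactors (A i * t + B i) ≤ 11}.Infinite := by
  intro hfin
  obtain ⟨C, hC0, hC⟩ := mert2
  set C1 : ℝ := ∑ i ∈ I, ((A i : ℝ) + B i) with hC1
  have hex : ∀ c : ℝ, ∀ᶠ l : ℝ in atTop, c ≤ exp (l / 5) := fun c =>
    (tendsto_exp_atTop.comp (tendsto_id.atTop_div_const (by norm_num))).eventually_ge_atTop c
  obtain ⟨l, hM, hl2, hlC, h1, h2, h3⟩ := (inv_primes.and ((eventually_ge_atTop 2).and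
    ((eventually_ge_atTop (100 * C)).and ((hex (2 * C1)).and ((hex 10000).and
    (hex (hfin.toFinset.card + 1))))))).exists
  have hl : 0 < l := by linarith
  set N := ⌈exp (177 * l)⌉₊ with hN
  set W := exp (443 / 5 * l) with hW
  set P := (range ⌈exp l⌉₊).filter (fun p : ℕ => p.Prime ∧ D < p) with hP
  set R : ℕ → Finset ℕ := fun p => I.biUnion fun i => rt (A i) (B i) p with hR
  have hP1 : ∀ p ∈ P, p.Prime ∧ D < p ∧ log p < l := fun p hp => by
    obtain ⟨a1, a2, a3⟩ := mem_filter.1 hp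
    exact ⟨a2, a3, (log_lt_iff_lt_exp (by exact_mod_cast a2.pos)).2
      (Nat.lt_ceil.1 (mem_range.1 a1))⟩
  have hP2 : ∀ p ∈ P, exp 2000 ≤ p := fun p hp => hD.trans (by exact_mod_cast (hP1 p hp).2.1.le)
  have hm : ∑ p ∈ P, log p / p ≤ 101 / 100 * l := by
    linarith [hC 0 l le_rfl hl.le P fun p hp =>
      ⟨(hP1 p hp).1, log_natCast_nonneg p, (hP1 p hp).2.2⟩]
  have H : Hyp P R l := by
    refine ⟨hl, fun p hp => (hP1 p hp).1, fun p _ => biUnion_subset.2 fun i _ =>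
      filter_subset _ _, fun p _ => ?_, fun p hp => ?_, fun p hp => (hP1 p hp).2.2.le, hm, ?_⟩
    · refine card_biUnion_le.trans ((sum_le_sum fun i hi => card_rt (hc i hi) p).trans ?_)
      simpa using hI
    · have := (add_one_le_exp 2000).trans (hP2 p hp)
      exact_mod_cast (show ((60 : ℕ) : ℝ) ≤ p by push_cast; linarith)
    · have : 2000 * ∑ p ∈ P, 1 / (p : ℝ) ≤ ∑ p ∈ P, log p / p := by
        rw [mul_sum]
        refine sum_le_sum fun p hp => ?_
        rw [mul_one_div]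
        exact div_le_div_of_nonneg_right ((le_log_iff_exp_le
          (by exact_mod_cast (hP1 p hp).1.pos)).2 (hP2 p hp)) (by positivity)
      linarith
  have hPc : (P.card : ℝ) ≤ exp l := by
    have : P.card ≤ (Ioc 0 ⌊exp l⌋₊).card := card_le_card fun p hp => mem_Ioc.2
      ⟨(hP1 p hp).1.pos, Nat.le_floor (Nat.lt_ceil.1 (mem_range.1 (mem_filter.1 hp).1)).le⟩
    rw [Nat.card_Ioc, Nat.sub_zero] at this
    exact (Nat.cast_le.2 this).trans (Nat.floor_le (exp_pos _).le)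
  have hN1 : exp (177 * l) ≤ N := Nat.le_ceil _
  have hN0 : 1 ≤ exp (177 * l) := one_le_exp (by linarith)
  have hN2 : (N : ℝ) ≤ 2 * exp (177 * l) := by
    linarith [Nat.ceil_lt_add_one (exp_pos (177 * l)).le]
  have hL : ∀ i ∈ I, ∀ t < N, ((A i * t + B i : ℕ) : ℝ) ≤ W ^ 2 := by
    intro i hi t ht
    have a1 : (A i : ℝ) + B i ≤ C1 :=
      single_le_sum (f := fun i => (A i : ℝ) + B i) (fun i _ => by positivity) hi
    have a2 : (t : ℝ) ≤ N := by exact_mod_cast ht.le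
    have a3 : W ^ 2 = exp (l / 5) * exp (177 * l) := by
      rw [hW, ← exp_nat_mul, ← exp_add]; congr 1; push_cast; ring
    have a4 : (0 : ℝ) ≤ A i := by positivity
    have a5 : (0 : ℝ) ≤ B i := by positivity
    push_cast
    calc (A i : ℝ) * t + B i ≤ (A i + B i) * (2 * exp (177 * l)) := by nlinarith
      _ ≤ C1 * (2 * exp (177 * l)) := by gcongr
      _ ≤ _ := by rw [a3]; nlinarith
  have hS : ∀ i ∈ I, ∀ t, Sif P R t → ∀ p : ℕ, p.Prime → p ∣ A i * t + B i → l ≤ log p := by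
    intro i hi t ht p hp hd
    by_contra hlt
    rcases le_or_gt p D with h | h
    · exact hp.one_lt.ne' (Nat.eq_one_of_dvd_coprimes (hc i hi) (hA i hi p hp h)
        ((Nat.dvd_add_right ((hA i hi p hp h).mul_right t)).1 hd))
    · exact ht p (mem_filter.2 ⟨mem_range.2 (Nat.lt_ceil.2 ((log_lt_iff_lt_exp
        (by exact_mod_cast hp.pos)).1 (not_le.1 hlt))), hp, h⟩)
        (mem_biUnion.2 ⟨i, hi, (mem_rt hp.pos).2 hd⟩)
  have hsub : ((range N).filter (Sif P R)).card ≤ hfin.toFinset.card + ∑ i ∈ I,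
      (((range N).filter (fun t => Sif P R t ∧ 12 ≤ (A i * t + B i).primeFactors.card)).card
        + ((range N).filter (fun t => ∃ p ∈ (A i * t + B i).primeFactors,
          l ≤ log p ∧ p * p ∣ A i * t + B i)).card) := by
    refine le_trans (card_le_card fun t ht => ?_) ((card_union_le _ _).trans (Nat.add_le_add_left
      (card_biUnion_le.trans (sum_le_sum fun i _ => card_union_le _ _)) _))
    obtain ⟨a1, a2⟩ := mem_filter.1 ht
    by_contra hn
    simp only [mem_union, mem_biUnion, mem_filter, not_or, not_exists, not_and,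
      Set.Finite.mem_toFinset, Set.mem_ofPred_eq] at hn
    refine hn.1 fun i hi => ?_
    obtain ⟨b1, b2⟩ := hn.2 i hi
    have b0 : A i * t + B i ≠ 0 := by have := hB i hi; omega
    have b3 : Squarefree (A i * t + B i) := Nat.squarefree_iff_prime_squarefree.2 fun p hp hd =>
      b2 a1 p (Nat.mem_primeFactors.2 ⟨hp, (dvd_mul_right p p).trans hd, b0⟩)
        (hS i hi t a2 p hp ((dvd_mul_right p p).trans hd)) hd
    rw [← (ArithmeticFunction.cardDistinctFactors_eq_cardFactors_iff_squarefree b0).2 b3]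
    have b4 := b1 a1 a2
    rw [ArithmeticFunction.cardDistinctFactors_apply, ← List.card_toFinset,
      Nat.toFinset_factors]
    omega
  have hE := H.one_le
  have hE2 := H.EE_le
  set E := EE P R
  set n := (N : ℝ) / E with hn
  set Y := exp (8837 / 50 * l) with hY
  have hY0 : 0 < Y := exp_pos _
  have hYle : ∀ c : ℝ, c ≤ 8837 / 50 → exp (c * l) ≤ Y := fun c h =>
    exp_le_exp.2 (mul_le_mul_of_nonneg_right h hl.le)
  have hn1 : exp (l / 5) * Y ≤ n := by
    rw [hn, le_div_iff₀ (by linarith)]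
    refine le_trans ?_ hN1
    refine (mul_le_mul_of_nonneg_left hE2 (by positivity)).trans (le_of_eq ?_)
    rw [hY, ← exp_add, ← exp_add]; congr 1; ring
  have hn2 : 10000 * Y ≤ n := le_trans (by gcongr) hn1
  have hY1 : 10000 ≤ Y := h2.trans (le_trans (le_of_eq (by congr 1; ring)) (hYle (1 / 5)
    (by norm_num)))
  have hNn : (N : ℝ) = n * E := by rw [hn]; field_simp
  have g1 : 999 / 1000 * n - 31 * Y ≤ ((range N).filter (Sif P R)).card := by
    have a1 := H.lower hPc N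
    have a2 : (1 + 30 * exp l) * exp ((2 * 71 + 122 / 1000) * l) ≤ 31 * Y := by
      have : exp l * exp ((2 * 71 + 122 / 1000) * l) = exp ((2 * 71 + 1122 / 1000) * l) := by
        rw [← exp_add]; congr 1; ring
      linarith [hYle (2 * 71 + 122 / 1000) (by norm_num), hYle (2 * 71 + 1122 / 1000) (by norm_num)]
    have a3 : 1 ≤ E ^ 2 := one_le_pow₀ hE
    refine le_of_mul_le_mul_left (le_trans ?_ a1) (by linarith : 0 < E ^ 2)
    rw [hNn]
    nlinarith
  have g2 : ∀ i ∈ I,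
      (((range N).filter (fun t => Sif P R t ∧ 12 ≤ (A i * t + B i).primeFactors.card)).card : ℝ)
        + ((range N).filter (fun t => ∃ p ∈ (A i * t + B i).primeFactors,
          l ≤ log p ∧ p * p ∣ A i * t + B i)).card ≤ 29 / 1000 * n + 2 * Y := by
    intro i hi
    have a1 := H.bad (fun p hp => (hP1 p hp).2.2) (hc i hi) (hB i hi) N (hL i hi) (hS i hi) hM
    have a2 := sq_le hl2 (hc i hi) (hB i hi) N (exp_pos _).le (hL i hi)
    have a3 : (N : ℝ) / (93 / 100 * E) = 100 / 93 * n := by rw [hn]; field_simp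
    have a4 : exp (443 / 5 * l) * exp ((2 * 44 + 122 / 1000) * l) ≤ Y := by
      rw [← exp_add, ← add_mul]; exact hYle _ (by norm_num)
    have a5 : W ≤ Y := hYle _ (by norm_num)
    have a6 : (N : ℝ) * exp (-(l / 2)) ≤ 1 / 10000 * n := by
      have b1 : E * exp (-(l / 2)) * exp (l / 5) ≤ 1 := by
        refine (mul_le_mul_of_nonneg_right (mul_le_mul_of_nonneg_right hE2 (exp_pos _).le)
          (exp_pos _).le).trans ?_
        rw [← exp_add, ← exp_add]
        exact exp_le_one_iff.2 (by linarith)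
      have b2 : 0 ≤ E * exp (-(l / 2)) := by positivity
      have b3 : E * exp (-(l / 2)) ≤ 1 / 10000 := by nlinarith
      rw [hNn, mul_assoc, mul_comm]
      exact mul_le_mul_of_nonneg_right b3 (by linarith)
    rw [a3] at a1
    linarith
  have g3 := sum_le_sum g2
  rw [sum_const, nsmul_eq_mul] at g3
  have g4 : (I.card : ℝ) ≤ 30 := by exact_mod_cast hI
  have g5 := mul_le_mul_of_nonneg_right g4 (show 0 ≤ 29 / 1000 * n + 2 * Y by linarith)
  have g6 := (Nat.cast_le (α := ℝ)).2 hsub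
  push_cast at g6
  have g7 : (hfin.toFinset.card + 1 : ℝ) * 10000 ≤ n :=
    le_trans (mul_le_mul h3 hY1 (by norm_num) (exp_pos _).le) hn1
  have g8 : (0 : ℝ) ≤ hfin.toFinset.card := Nat.cast_nonneg _
  linarith

end Pool.Agent.P.MP_dddec0_nt.Odd
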