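import Pool.Agent.P.MP_dddec0_nt.OddE

/-! The finite colouring lemma and the reduction to the sieve. -/

namespace Pool.Agent.P.MP_dddec0_nt.Odd
open ArithmeticFunction

/-- Effect of giving the point `v` the colour `x`. -/
def asg (v : ℕ) (x : Bool) (cs : List (List ℕ × Bool)) : List (List ℕ × Bool) :=
  (cs.filter fun c => c.2 == x || !(c.1.contains v)).map fun c => (c.1.filter (· != v), c.2)

/-- A point of a shortest remaining edge. -/
def pick (cs : List (List ℕ × Bool)) : ℕ :=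
  (((cs.find? fun c => c.1.length == 1).or ((cs.find? fun c => c.1.length == 2).or
    cs.head?)).map fun c => c.1.headD 0).getD 0

/-- Exhaustive search. -/
def ref : ℕ → List (List ℕ × Bool) → Bool
  | 0, _ => false
  | f + 1, cs => cs.any (fun c => c.1.isEmpty) ||
      (ref f (asg (pick cs) true cs) && ref f (asg (pick cs) false cs))

theorem ref_sound (c : ℕ → Bool) : ∀ f cs, ref f cs = true → ∃ e ∈ cs, ∀ v ∈ e.1, c v = e.2
  | 0, _, h => by simp [ref] at h
  | f + 1, cs, h => by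
    rw [ref, Bool.or_eq_true, Bool.and_eq_true] at h
    rcases h with h | h
    · obtain ⟨e, he, h⟩ := List.any_eq_true.1 h
      exact ⟨e, he, fun v hv => by simp [List.isEmpty_iff.1 h] at hv⟩
    · have h' : ref f (asg (pick cs) (c (pick cs)) cs) = true := by
        cases c (pick cs)
        · exact h.2
        · exact h.1
      obtain ⟨e', he', h1⟩ := ref_sound c f _ h'
      obtain ⟨e, he, rfl⟩ := List.mem_map.1 he'
      obtain ⟨h2, h3⟩ := List.mem_filter.1 he
      refine ⟨e, h2, fun v hv => ?_⟩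
      by_cases hvp : v = pick cs
      · subst hvp
        simp only [Bool.or_eq_true, beq_iff_eq, Bool.not_eq_true', List.contains_eq_mem,
          decide_eq_false_iff_not] at h3
        exact (h3.resolve_right fun h => h hv).symm
      · exact h1 v (List.mem_filter.2 ⟨hv, by simpa using hvp⟩)

/-- Triples `(m, d, b)`: the edge `{d m, d (m + 2), d (m + 6)}`, and `b` says that `Ω d` is even. -/
def edges : List (ℕ × ℕ × Bool) :=
  [
   (10, 36, true), (28, 12, false), (78, 6, true), (26, 15, true), (66, 7, false), (9, 36, true),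
   (130, 3, false), (28, 14, true), (38, 12, false), (33, 12, false), (22, 18, false),
   (50, 6, true), (15, 24, true), (42, 12, false), (7, 36, true), (16, 24, true), (54, 6, true),
   (24, 12, false), (18, 18, false), (66, 6, true), (10, 27, false), (20, 18, false),
   (42, 9, true), (10, 30, false), (32, 12, false), (76, 6, true), (54, 7, false),
   (117, 4, true), (5, 60, true), (24, 18, false), (34, 12, false), (82, 6, true),
   (6, 48, false), (14, 24, true), (390, 1, true), (4, 66, false), (11, 24, true),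
   (12, 28, false), (25, 12, false), (14, 33, true), (22, 12, false), (30, 12, false),
   (124, 3, false), (70, 6, true), (26, 12, false), (18, 24, true), (60, 6, true),
   (18, 15, true), (35, 12, false), (6, 42, false), (12, 24, true), (48, 6, true), (72, 6, true)]

/-- The thirty points. -/
def pts : Finset ℕ :=
  {
   252, 264, 270, 288, 300, 312, 324, 336, 360, 372, 378, 384, 390, 392, 396, 408, 420, 432, 444,
   456, 462, 468, 476, 480, 492, 504, 528, 540, 576, 660}

theorem ref_edges : ref 40 (edges.map fun e =>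
    ([e.2.1 * e.1, e.2.1 * (e.1 + 2), e.2.1 * (e.1 + 6)], e.2.2)) = true := by decide +kernel

theorem edges_ok : ∀ e ∈ edges, 0 < e.1 ∧ 0 < e.2.1 ∧ (Even (cardFactors e.2.1) ↔ e.2.2 = true) ∧
    ∀ s ∈ [0, 2, 6], e.2.1 * (e.1 + s) ∈ pts ∧ cardFactors (e.1 + s) ≤ 5 := by decide +kernel

theorem pts_ok : pts.card = 30 ∧ ∀ y ∈ pts, 0 < y ∧ y ≤ 660 := by decide +kernel

theorem exists_edge (L : ℕ → ℕ) (h0 : ∀ y ∈ pts, L y ≠ 0) (hL : ∀ y ∈ pts, cardFactors (L y) ≤ 11) :
    ∃ m d : ℕ, 0 < m ∧ 0 < d ∧ ∀ s ∈ [0, 2, 6], d * (m + s) ∈ pts ∧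
      Odd (cardFactors ((m + s) * L (d * (m + s)))) ∧
      cardFactors ((m + s) * L (d * (m + s))) ≤ 15 := by
  obtain ⟨e', he', h⟩ := ref_sound (fun y => decide (Odd (cardFactors (y * L y)))) _ _ ref_edges
  obtain ⟨⟨m, d, b⟩, he, rfl⟩ := List.mem_map.1 he'
  obtain ⟨hm, hd, hb, hs⟩ := edges_ok _ he
  refine ⟨m, d, hm, hd, fun s hs' => ?_⟩
  obtain ⟨h1, h2⟩ := hs s hs'
  simp only at hm hd hb h1 h2 h
  have h3 : decide (Odd (cardFactors (d * (m + s) * L (d * (m + s))))) = b := by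
    refine h _ ?_
    simp only [List.mem_cons, List.not_mem_nil, or_false] at hs' ⊢
    rcases hs' with rfl | rfl | rfl <;> simp
  have h4 : (m + s) * L (d * (m + s)) ≠ 0 := mul_ne_zero (by omega) (h0 _ h1)
  rw [mul_assoc, cardFactors_mul hd.ne' h4] at h3
  have h5 := cardFactors_mul (show m + s ≠ 0 by omega) (h0 _ h1)
  have h6 := hL _ h1
  have h7 : Odd (cardFactors ((m + s) * L (d * (m + s)))) := by
    rw [← h3, decide_eq_true_iff, Nat.even_iff, Nat.odd_iff] at hb
    rw [Nat.odd_iff]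
    omega
  refine ⟨h1, h7, ?_⟩
  rw [Nat.odd_iff] at h7
  omega

theorem exists_forms : ∃ (D Q : ℕ) (A : ℕ → ℕ), Real.exp 2000 ≤ D ∧ ∀ y ∈ pts,
    y * A y = Q ∧ 2 ≤ A y ∧ ∀ p : ℕ, p.Prime → p ≤ D → p ∣ A y := by
  set D := max 660 ⌈Real.exp 2000⌉₊ with hD
  refine ⟨D, D.factorial * D.factorial, fun y => D.factorial / y * D.factorial,
    (Nat.le_ceil _).trans (Nat.cast_le.2 (le_max_right _ _)), fun y hy => ?_⟩
  obtain ⟨h1, h2⟩ := pts_ok.2 y hy
  have h3 : y ∣ D.factorial := Nat.dvd_factorial h1 (h2.trans (le_max_left _ _))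
  have h4 : ∀ p : ℕ, p.Prime → p ≤ D → p ∣ D.factorial / y * D.factorial := fun p hp h =>
    (Nat.dvd_factorial hp.pos h).mul_left _
  refine ⟨by rw [← mul_assoc, Nat.mul_div_cancel' h3], Nat.le_of_dvd (mul_pos
    (Nat.div_pos (Nat.le_of_dvd D.factorial_pos h3) h1) D.factorial_pos)
    (h4 2 Nat.prime_two (le_trans (by norm_num) (le_max_left _ _))), h4⟩

/-- An odd number of prime factors, at most fifteen. -/
def Good (n : ℕ) : Prop := Odd (cardFactors n) ∧ cardFactors n ≤ 15

theorem two : {n : ℕ | Good n ∧ Good (n + 2) ∧ Good (n + 6)}.Infinite := by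
  obtain ⟨D, Q, A, hD, hA⟩ := exists_forms
  have h := sieve pts pts_ok.1.le A (fun _ => 1) D hD (fun y hy => (hA y hy).2.2)
    (fun _ _ => Nat.coprime_one_right _) fun _ _ => le_rfl
  refine Set.infinite_of_forall_exists_gt fun M => ?_
  obtain ⟨t, ht, hM⟩ := h.exists_gt M
  obtain ⟨m, d, hm, hd, hs⟩ := exists_edge (fun y => A y * t + 1) (fun _ _ => by omega) ht
  have key : ∀ s ∈ [0, 2, 6], d * ((m + s) * (A (d * (m + s)) * t + 1)) = Q * t + d * m + d * s :=
    fun s h => by rw [← (hA _ (hs s h).1).1]; ring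
  have k0 := key 0 (by simp)
  have e : ∀ s ∈ [0, 2, 6], (m + s) * (A (d * (m + s)) * t + 1)
      = (m + 0) * (A (d * (m + 0)) * t + 1) + s := fun s h =>
    Nat.eq_of_mul_eq_mul_left hd (by rw [key s h, mul_add d _ s, k0]; ring)
  refine ⟨(m + 0) * (A (d * (m + 0)) * t + 1), ⟨(hs 0 (by simp)).2, ?_, ?_⟩, ?_⟩
  · rw [← e 2 (by simp)]; exact (hs 2 (by simp)).2
  · rw [← e 6 (by simp)]; exact (hs 6 (by simp)).2
  · have := (hA _ (hs 0 (by simp)).1).2.1
    have h1 : t ≤ A (d * (m + 0)) * t := Nat.le_mul_of_pos_left _ (by omega)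
    exact lt_of_lt_of_le (by omega) (Nat.le_mul_of_pos_left _ (by omega))

theorem four : {n : ℕ | Good n ∧ Good (n + 4) ∧ Good (n + 6)}.Infinite := by
  obtain ⟨D, Q, A, hD, hA⟩ := exists_forms
  have h := sieve pts pts_ok.1.le A (fun y => A y - 1) D hD (fun y hy => (hA y hy).2.2)
    (fun y hy => by
      have := (hA y hy).2.1
      exact (Nat.coprime_self_sub_right (by omega)).2 (Nat.coprime_one_right _))
    fun y hy => by have := (hA y hy).2.1; omega
  refine Set.infinite_of_forall_exists_gt fun M => ?_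
  obtain ⟨t, ht, hM⟩ := h.exists_gt M
  obtain ⟨m, d, hm, hd, hs⟩ := exists_edge (fun y => A y * t + (A y - 1))
    (fun y hy => by have := (hA y hy).2.1; omega) ht
  have key : ∀ s ∈ [0, 2, 6], d * ((m + s) * (A (d * (m + s)) * t + (A (d * (m + s)) - 1)) + s)
      + d * m = Q * (t + 1) := fun s h => by
    obtain ⟨h1, h2, -⟩ := hA _ (hs s h).1
    obtain ⟨x, hx⟩ : ∃ x, A (d * (m + s)) = x + 1 := ⟨A (d * (m + s)) - 1, by omega⟩
    rw [← h1, hx, Nat.add_sub_cancel]
    ring
  have e : ∀ s ∈ [0, 2, 6], (m + s) * (A (d * (m + s)) * t + (A (d * (m + s)) - 1)) + s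
      = (m + 6) * (A (d * (m + 6)) * t + (A (d * (m + 6)) - 1)) + 6 := fun s h =>
    Nat.eq_of_mul_eq_mul_left hd (Nat.add_right_cancel ((key s h).trans (key 6 (by simp)).symm))
  refine ⟨(m + 6) * (A (d * (m + 6)) * t + (A (d * (m + 6)) - 1)), ⟨(hs 6 (by simp)).2, ?_, ?_⟩, ?_⟩
  · rw [← Nat.add_right_cancel (e 2 (by simp) : _ + 2 = _ + 4 + 2)]; exact (hs 2 (by simp)).2
  · rw [← e 0 (by simp)]; exact (hs 0 (by simp)).2
  · have := (hA _ (hs 6 (by simp)).1).2.1
    have h1 : t ≤ A (d * (m + 6)) * t := Nat.le_mul_of_pos_left _ (by omega)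
    exact lt_of_lt_of_le (by omega) (Nat.le_mul_of_pos_left _ (by omega))

end Pool.Agent.P.MP_dddec0_nt.Odd
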