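import Mathlib

/-! Kronecker packing of sequences of naturals into one big natural number. -/

open Finset

namespace BGap

/-- `∑ s < n, l s * 2 ^ (sl * s)`. -/
def pk (sl : ℕ) (l : ℕ → ℕ) (n : ℕ) : ℕ := ∑ s ∈ range n, l s * 2 ^ (sl * s)

theorem pk_add (sl : ℕ) (l : ℕ → ℕ) (a b : ℕ) :
    pk sl l (a + b) = pk sl l a + 2 ^ (sl * a) * pk sl (fun s => l (a + s)) b := by
  unfold pk
  rw [sum_range_add, mul_sum]
  congr 1
  refine sum_congr rfl fun s _ => ?_
  rw [mul_add, pow_add]; ring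

theorem pk_succ' (sl : ℕ) (l : ℕ → ℕ) (n : ℕ) :
    pk sl l (n + 1) = l 0 + 2 ^ sl * pk sl (fun s => l (s + 1)) n := by
  rw [add_comm n 1, pk_add]
  simp [pk, add_comm]

theorem pk_congr {sl : ℕ} {l l' : ℕ → ℕ} {n : ℕ} (h : ∀ s < n, l s = l' s) :
    pk sl l n = pk sl l' n :=
  sum_congr rfl fun s hs => by rw [h s (mem_range.1 hs)]

theorem pk_lt {sl : ℕ} {l : ℕ → ℕ} {n : ℕ} (h : ∀ s < n, l s < 2 ^ sl) :
    pk sl l n < 2 ^ (sl * n) := by
  induction n with
  | zero => simp [pk]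
  | succ n ih =>
    have h1 := ih fun s hs => h s (by omega)
    have h2 := h n (by omega)
    have h3 : pk sl l (n + 1) = pk sl l n + l n * 2 ^ (sl * n) := by
      unfold pk; rw [sum_range_succ]
    rw [h3, mul_add, mul_one, pow_add]
    have : (l n + 1) * 2 ^ (sl * n) ≤ 2 ^ sl * 2 ^ (sl * n) := Nat.mul_le_mul_right _ h2
    nlinarith

theorem pk_low {sl : ℕ} {l : ℕ → ℕ} {a : ℕ} (b : ℕ) (h : ∀ s < a, l s < 2 ^ sl) :
    pk sl l (a + b) &&& (1 <<< (sl * a) - 1) = pk sl l a := by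
  rw [Nat.one_shiftLeft, Nat.and_two_pow_sub_one_eq_mod, pk_add, Nat.add_mul_mod_self_left,
    Nat.mod_eq_of_lt (pk_lt h)]

theorem pk_high {sl : ℕ} {l : ℕ → ℕ} {a : ℕ} (b : ℕ) (h : ∀ s < a, l s < 2 ^ sl) :
    pk sl l (a + b) >>> (sl * a) = pk sl (fun s => l (a + s)) b := by
  rw [Nat.shiftRight_eq_div_pow, pk_add, Nat.add_mul_div_left _ _ (by positivity),
    Nat.div_eq_of_lt (pk_lt h), zero_add]

theorem pk_modEq (sl : ℕ) (l : ℕ → ℕ) (n : ℕ) :
    pk sl l n ≡ ∑ s ∈ range n, l s [MOD 2 ^ sl - 1] := by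
  have h1 : 2 ^ sl ≡ 1 [MOD 2 ^ sl - 1] :=
    ((Nat.modEq_iff_dvd' Nat.one_le_two_pow).2 dvd_rfl).symm
  induction n with
  | zero => simp [pk, Nat.ModEq]
  | succ n ih =>
    unfold pk at ih ⊢
    rw [sum_range_succ, sum_range_succ]
    refine ih.add ?_
    have := (h1.pow n).mul_left (l n)
    rwa [one_pow, mul_one, ← pow_mul] at this

theorem pk_mod {sl : ℕ} {l : ℕ → ℕ} {n : ℕ} (h : ∑ s ∈ range n, l s < 2 ^ sl - 1) :
    pk sl l n % (1 <<< sl - 1) = ∑ s ∈ range n, l s := by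
  rw [Nat.one_shiftLeft, pk_modEq sl l n, Nat.mod_eq_of_lt h]

theorem pk_const_mul (sl c : ℕ) (l : ℕ → ℕ) (n : ℕ) :
    c * pk sl l n = pk sl (fun s => c * l s) n := by
  unfold pk; rw [mul_sum]; exact sum_congr rfl fun s _ => by ring

/-- The number whose `n` digits are all `1`. -/
def ones (sl n : ℕ) : ℕ := (1 <<< (sl * n) - 1) / (1 <<< sl - 1)

theorem ones_eq {sl : ℕ} (hsl : 1 ≤ sl) (n : ℕ) : ones sl n = pk sl (fun _ => 1) n := by
  have h2 : 2 ≤ 2 ^ sl := by
    calc 2 = 2 ^ 1 := rfl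
      _ ≤ 2 ^ sl := Nat.pow_le_pow_right (by norm_num) hsl
  unfold ones pk
  simp only [Nat.one_shiftLeft, one_mul, pow_mul]
  exact (Nat.geomSum_eq h2 n).symm

/-- Cauchy product. -/
def conv {R : Type*} [CommSemiring R] (a b : ℕ → R) (s : ℕ) : R :=
  ∑ i ∈ range (s + 1), a i * b (s - i)

theorem sum_conv {R : Type*} [CommSemiring R] (a b f : ℕ → R) (n : ℕ) :
    ∑ s ∈ range n, conv a b s * f s =
      ∑ i ∈ range n, ∑ j ∈ range (n - i), a i * b j * f (i + j) := by
  rw [← sum_range_diag_flip n (fun i j => a i * b j * f (i + j))]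
  refine sum_congr rfl fun s _ => ?_
  unfold conv
  rw [sum_mul]
  refine sum_congr rfl fun i hi => ?_
  rw [Nat.add_sub_cancel' (Nat.lt_succ_iff.1 (mem_range.1 hi))]

theorem pk_mul (sl : ℕ) (a b : ℕ → ℕ) (n : ℕ) :
    ∃ R, pk sl a n * pk sl b n = pk sl (conv a b) n + 2 ^ (sl * n) * R := by
  refine ⟨∑ i ∈ range n, ∑ j ∈ range i, a i * b (n - i + j) * 2 ^ (sl * j), ?_⟩
  unfold pk
  rw [sum_conv, sum_mul, mul_sum, ← sum_add_distrib]
  refine sum_congr rfl fun i hi => ?_
  have hi' : n = n - i + i := by have := mem_range.1 hi; omega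
  conv_lhs => rw [hi', sum_range_add]
  rw [mul_add, mul_sum, mul_sum, mul_sum]
  congr 1
  · exact sum_congr rfl fun j _ => by rw [mul_add, pow_add]; ring
  · refine sum_congr rfl fun j _ => ?_
    have : sl * n + sl * j = sl * i + sl * (n - i + j) := by
      conv_lhs => rw [hi']
      ring
    calc a i * 2 ^ (sl * i) * (b (n - i + j) * 2 ^ (sl * (n - i + j)))
        = a i * b (n - i + j) * 2 ^ (sl * i + sl * (n - i + j)) := by rw [pow_add]; ring
      _ = _ := by rw [← this, pow_add]; ring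

theorem shift_mask {sl w : ℕ} (hw : w ≤ sl) (n : ℕ) : ∀ (d : ℕ → ℕ) (R : ℕ),
    (∀ s < n, d s < 2 ^ sl) →
    ((pk sl d n + 2 ^ (sl * n) * R) >>> w) &&& pk sl (fun _ => 2 ^ (sl - w) - 1) n =
      pk sl (fun s => d s / 2 ^ w) n := by
  induction n with
  | zero => intro d R _; simp [pk]
  | succ n ih =>
    intro d R hd
    have h0 := hd 0 (by omega)
    have ih' := ih (fun s => d (s + 1)) R fun s hs => hd (s + 1) (by omega)
    set Z' := pk sl (fun s => d (s + 1)) n + 2 ^ (sl * n) * R with hZ'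
    have hsl : 2 ^ sl = 2 ^ w * 2 ^ (sl - w) := by rw [← pow_add]; congr 1; omega
    have hZ : pk sl d (n + 1) + 2 ^ (sl * (n + 1)) * R = d 0 + 2 ^ sl * Z' := by
      rw [pk_succ', hZ', mul_add sl n 1, pow_add]; ring
    have hd0 : d 0 / 2 ^ w < 2 ^ (sl - w) := by
      rw [Nat.div_lt_iff_lt_mul (by positivity), mul_comm, ← hsl]; exact h0
    have hS : (d 0 + 2 ^ sl * Z') >>> w = d 0 / 2 ^ w + 2 ^ (sl - w) * Z' := by
      rw [Nat.shiftRight_eq_div_pow, hsl, mul_assoc, Nat.add_mul_div_left _ _ (by positivity)]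
    have hm : 2 ^ (sl - w) - 1 < 2 ^ sl := by
      have : 2 ^ (sl - w) ≤ 2 ^ sl := Nat.pow_le_pow_right (by norm_num) (by omega)
      have : 0 < 2 ^ (sl - w) := by positivity
      omega
    rw [hZ, hS, pk_succ', pk_succ', ← ih']
    set A := d 0 / 2 ^ w + 2 ^ (sl - w) * Z' with hA
    set Mk := pk sl (fun _ => 2 ^ (sl - w) - 1) n
    have e1 : (A &&& (2 ^ (sl - w) - 1 + 2 ^ sl * Mk)) / 2 ^ sl = Z' >>> w &&& Mk := by
      rw [Nat.and_div_two_pow, Nat.add_mul_div_left _ _ (by positivity), Nat.div_eq_of_lt hm,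
        zero_add, Nat.shiftRight_eq_div_pow]
      congr 1
      rw [hsl, mul_comm (2 ^ w), ← Nat.div_div_eq_div_mul, hA,
        Nat.add_mul_div_left _ _ (by positivity), Nat.div_eq_of_lt hd0, zero_add]
    have e2 : (A &&& (2 ^ (sl - w) - 1 + 2 ^ sl * Mk)) % 2 ^ sl = d 0 / 2 ^ w := by
      rw [Nat.and_mod_two_pow, Nat.add_mul_mod_self_left, Nat.mod_eq_of_lt hm,
        Nat.and_two_pow_sub_one_eq_mod,
        Nat.mod_mod_of_dvd _ (Nat.pow_dvd_pow 2 (Nat.sub_le sl w)), hA,
        Nat.add_mul_mod_self_left, Nat.mod_eq_of_lt hd0]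
    rw [← e1, ← e2, Nat.mod_add_div]

/-- Product of two packed sequences, truncated to the slots of `mask`, every slot divided
by `2 ^ w`. -/
def step (w mask X Y : ℕ) : ℕ := ((X * Y) >>> w) &&& mask

theorem step_pk {sl w : ℕ} (hw : w ≤ sl) (n : ℕ) (a b : ℕ → ℕ)
    (h : ∀ s < n, conv a b s < 2 ^ sl) :
    step w (pk sl (fun _ => 2 ^ (sl - w) - 1) n) (pk sl a n) (pk sl b n) =
      pk sl (fun s => conv a b s / 2 ^ w) n := by
  obtain ⟨R, hR⟩ := pk_mul sl a b n
  unfold step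
  rw [hR, shift_mask hw n _ R h]

/-- Binary trees describing step functions. -/
inductive Tr : Type
  | leaf (c : ℕ) : Tr
  | node (l r : Tr) : Tr

/-- Value at `s` of the step function on `[0, n)` described by a tree. -/
def Tr.val : Tr → ℕ → ℕ → ℕ
  | .leaf c, _, _ => c
  | .node l r, n, s => if s < n / 2 then l.val (n / 2) s else r.val (n - n / 2) (s - n / 2)

noncomputable def Tr.mx (t : Tr) : ℕ :=
  Tr.rec (motive := fun _ => ℕ) (fun c => c) (fun _ _ a b => max a b) t

noncomputable def Tr.sq (t : Tr) : Tr :=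
  Tr.rec (motive := fun _ => Tr) (fun c => .leaf (c * c)) (fun _ _ a b => .node a b) t

theorem Tr.val_le_mx (t : Tr) : ∀ n s, t.val n s ≤ t.mx := by
  induction t with
  | leaf c => intro n s; exact le_rfl
  | node l r ihl ihr =>
    intro n s
    change (if s < n / 2 then _ else _) ≤ max l.mx r.mx
    split_ifs
    · exact (ihl _ _).trans (le_max_left _ _)
    · exact (ihr _ _).trans (le_max_right _ _)

theorem Tr.val_sq (t : Tr) : ∀ n s, t.sq.val n s = t.val n s * t.val n s := by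
  induction t with
  | leaf c => intro n s; rfl
  | node l r ihl ihr =>
    intro n s
    change (if s < n / 2 then l.sq.val _ _ else r.sq.val _ _) =
      (if s < n / 2 then _ else _) * (if s < n / 2 then _ else _)
    split_ifs
    · exact ihl _ _
    · exact ihr _ _

/-- Multiply the slots of a packed sequence by a step function. -/
noncomputable def scale (sl : ℕ) (t : Tr) : ℕ → ℕ → ℕ :=
  Tr.rec (motive := fun _ => ℕ → ℕ → ℕ) (fun c _ X => c * X)
    (fun _ _ fl fr n X => fl (n / 2) (X &&& (1 <<< (sl * (n / 2)) - 1)) +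
      (fr (n - n / 2) (X >>> (sl * (n / 2)))) <<< (sl * (n / 2))) t

/-- Sum of the slots of a packed sequence weighted by a step function. -/
noncomputable def ws (sl : ℕ) (t : Tr) : ℕ → ℕ → ℕ :=
  Tr.rec (motive := fun _ => ℕ → ℕ → ℕ) (fun c _ X => c * (X % (1 <<< sl - 1)))
    (fun _ _ fl fr n X => fl (n / 2) (X &&& (1 <<< (sl * (n / 2)) - 1)) +
      fr (n - n / 2) (X >>> (sl * (n / 2)))) t

theorem scale_pk (sl : ℕ) (t : Tr) : ∀ (n : ℕ) (l : ℕ → ℕ), (∀ s < n, l s < 2 ^ sl) →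
    scale sl t n (pk sl l n) = pk sl (fun s => t.val n s * l s) n := by
  induction t with
  | leaf c => intro n l _; exact pk_const_mul sl c l n
  | node a b iha ihb =>
    intro n l h
    have hn : n = n / 2 + (n - n / 2) := by omega
    have h1 : ∀ s < n / 2, l s < 2 ^ sl := fun s hs => h s (by omega)
    have e1 := pk_low (n - n / 2) h1
    have e2 := pk_high (n - n / 2) h1
    rw [← hn] at e1 e2
    change scale sl a (n / 2) (pk sl l n &&& (1 <<< (sl * (n / 2)) - 1)) +
      (scale sl b (n - n / 2) (pk sl l n >>> (sl * (n / 2)))) <<< (sl * (n / 2)) = _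
    rw [e1, e2, iha _ _ h1, ihb _ _ fun s hs => h _ (by omega), Nat.shiftLeft_eq]
    have e3 := pk_add sl (fun s => (Tr.node a b).val n s * l s) (n / 2) (n - n / 2)
    rw [← hn] at e3
    rw [e3, mul_comm (2 ^ _)]
    congr 1
    · exact pk_congr fun s hs => by simp only [Tr.val, if_pos hs]
    · congr 1
      refine pk_congr fun s _ => ?_
      simp only [Tr.val]
      rw [if_neg (by omega), Nat.add_sub_cancel_left]

theorem ws_pk (sl : ℕ) (t : Tr) : ∀ (n : ℕ) (l : ℕ → ℕ), ∑ s ∈ range n, l s < 2 ^ sl - 1 →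
    ws sl t n (pk sl l n) = ∑ s ∈ range n, t.val n s * l s := by
  induction t with
  | leaf c =>
    intro n l h
    change c * (pk sl l n % (1 <<< sl - 1)) = _
    rw [pk_mod h, mul_sum]; rfl
  | node a b iha ihb =>
    intro n l h
    have hn : n = n / 2 + (n - n / 2) := by omega
    have h1 : ∀ s < n / 2, l s < 2 ^ sl := fun s hs => by
      have := single_le_sum (f := l) (s := range n) (fun _ _ => Nat.zero_le _)
        (mem_range.2 (show s < n by omega))
      omega
    have e1 := pk_low (n - n / 2) h1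
    have e2 := pk_high (n - n / 2) h1
    rw [← hn] at e1 e2
    have e4 := sum_range_add l (n / 2) (n - n / 2)
    have e3 := sum_range_add (fun s => (Tr.node a b).val n s * l s) (n / 2) (n - n / 2)
    rw [← hn] at e3 e4
    change ws sl a (n / 2) (pk sl l n &&& (1 <<< (sl * (n / 2)) - 1)) +
      ws sl b (n - n / 2) (pk sl l n >>> (sl * (n / 2))) = _
    rw [e1, e2, iha _ _ (by omega), ihb _ _ (by omega), e3]
    congr 1
    · exact sum_congr rfl fun s hs => by simp only [Tr.val, if_pos (mem_range.1 hs)]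
    · refine sum_congr rfl fun s _ => ?_
      simp only [Tr.val]
      rw [if_neg (by omega), Nat.add_sub_cancel_left]

end BGap
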