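import Pool.Agent.P.MP_dddec0_nt.ShapeB
import Pool.Agent.Lib.Tup.Disc

namespace Pool.Agent.P.MP_dddec0_nt.T223.Sh
open Finset Real Filter Pool.Agent.Lib.Tup

noncomputable section

def GG (f : ℕ → ℝ) (l : ℝ) (m : ℕ) : ℝ :=
  ∑ a ∈ range 43, f a * Gt l (a * (1 / 40)) ((a + 1) * (1 / 40)) m

lemma GG_eq (f : ℕ → ℝ) (l : ℝ) (m : ℕ) :
    GG f l m = ∑ S ∈ m.primeFactors.powerset, (-1) ^ S.card * Rr f (sz S / l) := by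
  simp only [GG, Gt, Rr, mul_sum]
  rw [sum_comm]
  exact sum_congr rfl fun S _ => sum_congr rfl fun a _ => by ring

lemma pf_mul {k p : ℕ} (hk : k ≠ 0) (hp : p.Prime) :
    (k * p).primeFactors = insert p k.primeFactors := by
  rw [Nat.primeFactors_mul hk hp.ne_zero, hp.primeFactors, union_comm, insert_eq]

lemma GG_mul (f : ℕ → ℝ) (l : ℝ) {k p : ℕ} (hk : k ≠ 0) (hp : p.Prime) (hpk : ¬ p ∣ k) :
    GG f l (k * p) = GG f l k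
      - ∑ S ∈ k.primeFactors.powerset, (-1) ^ S.card * Rr f (log p / l + sz S / l) := by
  have hn : p ∉ k.primeFactors := fun h => hpk (Nat.dvd_of_mem_primeFactors h)
  rw [GG_eq, GG_eq, pf_mul hk hp, sum_powerset_insert hn, sub_eq_add_neg, ← sum_neg_distrib]
  congr 1
  refine sum_congr rfl fun S hS => ?_
  have hS' : p ∉ S := fun h => hn (mem_powerset.1 hS h)
  rw [card_insert_of_notMem hS', sz, sum_insert hS', add_div, pow_succ, sz]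
  ring

lemma GG_mul_big (f : ℕ → ℝ) {l : ℝ} (hl : 0 < l) {k p : ℕ} (hk : k ≠ 0) (hp : p.Prime)
    (hpk : ¬ p ∣ k) (hb : 43 / 40 ≤ log p / l) : GG f l (k * p) = GG f l k := by
  rw [GG_mul f l hk hp hpk, sum_eq_zero, sub_zero]
  intro S _
  rw [Rr_big f (by linarith [div_nonneg (sz_nonneg S) hl.le]), mul_zero]

lemma GG_one (f : ℕ → ℝ) (l : ℝ) : GG f l 1 = pre f 43 / 40 := by
  rw [GG_eq, ← Rr_zero]
  simp [sz]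

lemma GG_prime (f : ℕ → ℝ) (l : ℝ) {p : ℕ} (hp : p.Prime) : GG f l p = Psi f (log p / l) := by
  have := GG_mul f l one_ne_zero hp hp.not_dvd_one
  rw [one_mul, GG_one, ← Rr_zero] at this
  rw [this, Psi]
  simp [sz]

lemma GG_two (f : ℕ → ℝ) (l : ℝ) {p q : ℕ} (hp : p.Prime) (hq : q.Prime) (h : p ≠ q) :
    GG f l (p * q) = G2 f (log p / l) (log q / l) := by
  rw [GG_mul f l hp.ne_zero hq (fun h' => h ((Nat.prime_dvd_prime_iff_eq hq hp).1 h').symm),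
    GG_prime f l hp, hp.primeFactors, show ({p} : Finset ℕ) = insert p ∅ from rfl,
    sum_powerset_insert (notMem_empty p)]
  simp [sz, G2, Psi, add_comm]
  ring

lemma sum_le_of_fiber {α : Type*} (T : Finset α) (g : α → ℕ) (S : Finset ℕ) (H : ℕ → ℝ) (M : ℕ)
    (hS : ∀ x ∈ T, g x ∈ S) (hH : ∀ m ∈ S, 0 ≤ H m)
    (hM : ∀ m ∈ S, (T.filter (fun x => g x = m)).card ≤ M) :
    ∑ x ∈ T, H (g x) ≤ M * ∑ m ∈ S, H m := by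
  rw [← sum_fiberwise_of_maps_to hS, mul_sum]
  refine sum_le_sum fun m hm => ?_
  rw [sum_congr rfl (g := fun _ => H m) (fun x hx => by rw [(mem_filter.1 hx).2]), sum_const,
    nsmul_eq_mul]
  exact mul_le_mul_of_nonneg_right (by exact_mod_cast hM m hm) (hH m hm)

lemma RS_mul {η l : ℝ} {k p : ℕ} (hk : RS η l k) (hp : p.Prime) (hpk : ¬ p ∣ k)
    (h : η * l < log p) : RS η l (k * p) := by
  refine ⟨(Nat.squarefree_mul ((hp.coprime_iff_not_dvd.2 hpk).symm)).2 ⟨hk.1, hp.squarefree⟩,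
    fun q hq hd => ?_⟩
  rcases (hq.dvd_mul).1 hd with h1 | h1
  · exact hk.2 q hq h1
  · rwa [(Nat.prime_dvd_prime_iff_eq hq hp).1 h1]

lemma RS_one (η l : ℝ) : RS η l 1 :=
  ⟨squarefree_one, fun _ hq hd => absurd hd hq.not_dvd_one⟩

lemma log_mul_div {k p : ℕ} (hk : k ≠ 0) (hp : p ≠ 0) (l : ℝ) :
    log (k * p : ℕ) / l = log k / l + log p / l := by
  rw [Nat.cast_mul, log_mul (by exact_mod_cast hk) (by exact_mod_cast hp), add_div]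

open Classical in
lemma outer {α : Type*} (f : ℕ → ℝ) {ψ : ℝ → ℝ} {s0 : ℝ} (hψ : Bump ψ s0 (4001 / 1000))
    (h4 : 4 < s0) (W b : ℕ) {l η : ℝ} (hl : 0 < l) (hη : η ≤ 1 / 80) (K : Finset α) (k : α → ℕ)
    (r M : ℕ) (Low : α → ℝ)
    (hk : ∀ x ∈ K, RS η l (k x) ∧ (k x).primeFactors.card = r ∧ log (k x) / l ≤ 117 / 40)
    (hlow : ∀ x ∈ K, Low x ≤ ∑ p ∈ (range (NN l)).filter
      (fun p => p.Prime ∧ k x * p ≡ b [MOD W] ∧ ¬ p ∣ k x), ψ (log (k x * p : ℕ) / l) / p)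
    (hM : ∀ (m : ℕ) (T : Finset (α × ℕ)), (∀ y ∈ T, y.1 ∈ K ∧ y.2.Prime ∧
      4 < log (k y.1) / l + log y.2 / l ∧ k y.1 * y.2 = m) → T.card ≤ M) :
    ∑ x ∈ K, GG f l (k x) ^ 2 / k x * Low x
      ≤ M * ∑ m ∈ ((cls l W b).filter (RS η l)).filter (fun m => m.primeFactors.card = r + 1),
        wg ψ l m * GG f l m ^ 2 := by
  set T := (K ×ˢ range (NN l)).filter (fun y => (y.2.Prime ∧ k y.1 * y.2 ≡ b [MOD W] ∧
    ¬ y.2 ∣ k y.1) ∧ ψ (log (k y.1 * y.2 : ℕ) / l) ≠ 0) with hT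
  have hT1 : ∀ y ∈ T, y.1 ∈ K ∧ k y.1 ≠ 0 ∧ y.2.Prime ∧ k y.1 * y.2 ≡ b [MOD W] ∧
      ¬ y.2 ∣ k y.1 ∧ 4 < log (k y.1) / l + log y.2 / l ∧ log (k y.1 * y.2 : ℕ) / l < 5 ∧
      43 / 40 ≤ log y.2 / l := by
    intro y hy
    obtain ⟨h1, ⟨h2, h3, h5⟩, h6⟩ := mem_filter.1 hy
    have h0 := (mem_product.1 h1).1
    have hk0 : k y.1 ≠ 0 := (hk _ h0).1.1.ne_zero
    have h7 := hψ.supp _ h6
    have h8 := log_mul_div hk0 h2.ne_zero l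
    have h9 := (hk _ h0).2.2
    exact ⟨h0, hk0, h2, h3, h5, by linarith [h7.1], by linarith [h7.2], by linarith [h7.1]⟩
  refine le_trans ?_ (sum_le_of_fiber T (fun y => k y.1 * y.2) _
    (fun m => wg ψ l m * GG f l m ^ 2) M (fun y hy => ?_)
    (fun m _ => mul_nonneg (wg_nonneg hψ l m) (sq_nonneg _)) (fun m _ => hM m _ fun y hy => ?_))
  · have e : ∑ y ∈ T, wg ψ l (k y.1 * y.2) * GG f l (k y.1 * y.2) ^ 2
        = ∑ y ∈ T, GG f l (k y.1) ^ 2 / k y.1 * (ψ (log (k y.1 * y.2 : ℕ) / l) / y.2) := by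
      refine sum_congr rfl fun y hy => ?_
      obtain ⟨-, h1, h2, -, h3, -, -, h5⟩ := hT1 y hy
      rw [GG_mul_big f hl h1 h2 h3 h5, wg]
      generalize ψ (log (k y.1 * y.2 : ℕ) / l) = z
      push_cast
      ring
    rw [e, hT, ← filter_filter, sum_filter_of_ne, sum_filter, sum_product]
    · refine sum_le_sum fun x hx => ?_
      dsimp only
      rw [← sum_filter, ← mul_sum]
      exact mul_le_mul_of_nonneg_left (hlow x hx) (by positivity)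
    · intro y _ h h'
      exact h (by rw [h']; simp)
  · obtain ⟨h0, h1, h2, h3, h5, -, h6, h7⟩ := hT1 y hy
    refine mem_filter.2 ⟨mem_filter.2 ⟨mem_filter.2 ⟨mem_range.2 ?_, h3⟩, ?_⟩, ?_⟩
    · rw [lt_NN (mul_ne_zero h1 h2.ne_zero)]
      rwa [div_lt_iff₀ hl] at h6
    · refine RS_mul (hk _ h0).1 h2 h5 ?_
      rw [le_div_iff₀ hl] at h7
      nlinarith
    · rw [pf_mul h1 h2, card_insert_of_notMem (fun h => h5 (Nat.dvd_of_mem_primeFactors h)),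
        (hk _ h0).2.1]
  · obtain ⟨h0, -, h2, -, -, h5, -, -⟩ := hT1 y (mem_filter.1 hy).1
    exact ⟨h0, h2, h5, (mem_filter.1 hy).2⟩

lemma perm2 {p1 p2 q1 q2 : ℕ} (h1 : p1.Prime) (h2 : p2.Prime) (k1 : q1.Prime)
    (h : p1 * p2 = q1 * q2) : (q1 = p1 ∧ q2 = p2) ∨ (q1 = p2 ∧ q2 = p1) := by
  rcases (k1.dvd_mul).1 (show q1 ∣ p1 * p2 from ⟨q2, h⟩) with e | e
  · obtain rfl := (Nat.prime_dvd_prime_iff_eq k1 h1).1 e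
    exact Or.inl ⟨rfl, (Nat.eq_of_mul_eq_mul_left h1.pos h).symm⟩
  · obtain rfl := (Nat.prime_dvd_prime_iff_eq k1 h2).1 e
    rw [mul_comm] at h
    exact Or.inr ⟨rfl, (Nat.eq_of_mul_eq_mul_left h2.pos h).symm⟩

lemma perm3 {p1 p2 p3 q1 q2 q3 : ℕ} (h1 : p1.Prime) (h2 : p2.Prime) (h3 : p3.Prime)
    (k1 : q1.Prime) (k3 : q3.Prime) (h : p1 * p2 * p3 = q1 * q2 * q3) :
    (q3 = p3 ∧ ((q1 = p1 ∧ q2 = p2) ∨ (q1 = p2 ∧ q2 = p1))) ∨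
    (q3 = p2 ∧ ((q1 = p1 ∧ q2 = p3) ∨ (q1 = p3 ∧ q2 = p1))) ∨
    (q3 = p1 ∧ ((q1 = p2 ∧ q2 = p3) ∨ (q1 = p3 ∧ q2 = p2))) := by
  rcases (k3.dvd_mul).1 (show q3 ∣ p1 * p2 * p3 from ⟨q1 * q2, by rw [h]; ring⟩) with e | e
  · rcases (k3.dvd_mul).1 e with e | e
    · obtain rfl := (Nat.prime_dvd_prime_iff_eq k3 h1).1 e
      exact Or.inr (Or.inr ⟨rfl, perm2 h2 h3 k1
        (Nat.eq_of_mul_eq_mul_left h1.pos (by linarith))⟩)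
    · obtain rfl := (Nat.prime_dvd_prime_iff_eq k3 h2).1 e
      exact Or.inr (Or.inl ⟨rfl, perm2 h1 h3 k1
        (Nat.eq_of_mul_eq_mul_left h2.pos (by linarith))⟩)
  · obtain rfl := (Nat.prime_dvd_prime_iff_eq k3 h3).1 e
    exact Or.inl ⟨rfl, perm2 h1 h2 k1 (Nat.eq_of_mul_eq_mul_right h3.pos h)⟩

lemma mem_reg2 {x : ℕ × ℕ} : x ∈ reg2 ↔ ((1 ≤ x.1 ∧ x.1 < 160) ∧ (1 ≤ x.2 ∧ x.2 < 160)) ∧
    (max 43 (x.1 + 1) ≤ x.2 ∧ x.1 + x.2 + 2 + max 43 (x.1 + 1) ≤ 160) := by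
  rw [reg2, mem_filter, mem_product, mem_Ico, mem_Ico]

attribute [local irreducible] reg2

@[irreducible] def Reg : Finset (ℕ × ℕ) := (Ico 1 43 ×ˢ Ico 1 43) ∪ reg2

lemma Reg_bd {x : ℕ × ℕ} (h : x ∈ Reg) : 1 ≤ x.1 ∧ 1 ≤ x.2 ∧ x.1 + x.2 + 2 ≤ 117 ∧
    ((x.1 + 1 ≤ 43 ∧ x.2 + 1 ≤ 43) ∨
      (43 ≤ x.2 ∧ x.1 + 1 ≤ x.2 ∧ x.1 + x.2 + 2 + (x.1 + 1) ≤ 160)) := by
  rw [Reg, mem_union, mem_reg2, mem_product, mem_Ico, mem_Ico] at h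
  omega

lemma Reg_disj : Disjoint (Ico 1 43 ×ˢ Ico 1 43) reg2 := by
  refine disjoint_left.2 fun x h1 => ?_
  rw [mem_reg2]
  rw [mem_product, mem_Ico, mem_Ico] at h1
  omega

lemma sum_Reg (F : ℕ × ℕ → ℝ) : ∑ x ∈ Reg, F x
    = ∑ a ∈ Ico 1 43, ∑ b ∈ Ico 1 43, F (a, b) + ∑ x ∈ reg2, F x := by
  rw [Reg, sum_union Reg_disj, sum_product]

def Ty (t1 t2 t3 : ℝ) : Prop :=
  (t1 < 43 / 40 ∧ t2 < 43 / 40 ∧ 43 / 40 ≤ t3) ∨ (t1 < t2 ∧ t1 < t3 ∧ 43 / 40 ≤ t2 ∧ 43 / 40 ≤ t3)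

def K3 (l : ℝ) : Finset (ℕ × ℕ) := (Pr l).offDiag.filter (fun x => (idx l x.1, idx l x.2) ∈ Reg)

lemma K3_mem {l : ℝ} (hl : 0 < l) {x : ℕ × ℕ} (hx : x ∈ K3 l) :
    x.1.Prime ∧ x.2.Prime ∧ x.1 ≠ x.2 ∧ 1 / 40 ≤ log x.1 / l ∧ 1 / 40 ≤ log x.2 / l ∧
      log x.1 / l + log x.2 / l ≤ 117 / 40 ∧
      ∀ t : ℝ, 4 < log x.1 / l + log x.2 / l + t → Ty (log x.1 / l) (log x.2 / l) t := by
  obtain ⟨h1, h2⟩ := mem_filter.1 hx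
  obtain ⟨h3, h4, h5⟩ := mem_offDiag.1 h1
  obtain ⟨r1, r2, r3, r4⟩ := Reg_bd h2
  obtain ⟨a1, a2⟩ := (idx_eq_iff hl x.1 _).1 rfl
  obtain ⟨b1, b2⟩ := (idx_eq_iff hl x.2 _).1 rfl
  simp only at r1 r2 r3 r4
  generalize idx l x.1 = a at *
  generalize idx l x.2 = b at *
  have r1' : (1 : ℝ) ≤ a := by exact_mod_cast r1
  have r2' : (1 : ℝ) ≤ b := by exact_mod_cast r2
  have r3' : (a : ℝ) + b + 2 ≤ 117 := by exact_mod_cast r3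
  refine ⟨(mem_filter.1 h3).2, (mem_filter.1 h4).2, h5, by linarith, by linarith, by linarith,
    fun t ht => ?_⟩
  rcases r4 with ⟨c1, c2⟩ | ⟨c1, c2, c3⟩
  · have c1' : (a : ℝ) + 1 ≤ 43 := by exact_mod_cast c1
    have c2' : (b : ℝ) + 1 ≤ 43 := by exact_mod_cast c2
    exact Or.inl ⟨by linarith, by linarith, by linarith⟩
  · have c1' : (43 : ℝ) ≤ b := by exact_mod_cast c1
    have c2' : (a : ℝ) + 1 ≤ b := by exact_mod_cast c2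
    have c3' : (a : ℝ) + b + 2 + (a + 1) ≤ 160 := by exact_mod_cast c3
    exact Or.inr ⟨by linarith, by linarith, by linarith, by linarith⟩

lemma fiber3 {l : ℝ} (hl : 0 < l) (m : ℕ) (T : Finset ((ℕ × ℕ) × ℕ))
    (h : ∀ y ∈ T, y.1 ∈ K3 l ∧ y.2.Prime ∧
      4 < log (y.1.1 * y.1.2 : ℕ) / l + log y.2 / l ∧ y.1.1 * y.1.2 * y.2 = m) : T.card ≤ 2 := by
  have h' : ∀ y ∈ T, y.1.1.Prime ∧ y.1.2.Prime ∧ y.2.Prime ∧ y.1.1 * y.1.2 * y.2 = m ∧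
      Ty (log y.1.1 / l) (log y.1.2 / l) (log y.2 / l) := by
    intro y hy
    obtain ⟨h1, h2, h3, h4⟩ := h y hy
    obtain ⟨k1, k2, -, -, -, -, k3⟩ := K3_mem hl h1
    rw [log_mul_div k1.ne_zero k2.ne_zero] at h3
    exact ⟨k1, k2, h2, h4, k3 _ h3⟩
  rcases T.eq_empty_or_nonempty with rfl | ⟨⟨⟨p1, p2⟩, p3⟩, hx⟩
  · simp
  obtain ⟨a1, a2, a3, a4, a5⟩ := h' _ hx
  simp only at a1 a2 a3 a4 a5
  rcases a5 with ⟨c1, c2, c3⟩ | ⟨c1, c2, c3, c4⟩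
  · refine (card_le_card (t := {((p1, p2), p3), ((p2, p1), p3)}) ?_).trans card_le_two
    rintro ⟨⟨q1, q2⟩, q3⟩ hy
    obtain ⟨b1, b2, b3, b4, b5⟩ := h' _ hy
    simp only at b1 b2 b3 b4 b5
    rcases perm3 a1 a2 a3 b1 b3 (a4.trans b4.symm) with
      ⟨rfl, ⟨rfl, rfl⟩ | ⟨rfl, rfl⟩⟩ | ⟨rfl, ⟨rfl, rfl⟩ | ⟨rfl, rfl⟩⟩ |
      ⟨rfl, ⟨rfl, rfl⟩ | ⟨rfl, rfl⟩⟩
    · simp
    · simp
    all_goals
      exfalso
      rcases b5 with ⟨d1, d2, d3⟩ | ⟨d1, d2, d3, d4⟩ <;> linarith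
  · refine (card_le_card (t := {((p1, p2), p3), ((p1, p3), p2)}) ?_).trans card_le_two
    rintro ⟨⟨q1, q2⟩, q3⟩ hy
    obtain ⟨b1, b2, b3, b4, b5⟩ := h' _ hy
    simp only at b1 b2 b3 b4 b5
    rcases perm3 a1 a2 a3 b1 b3 (a4.trans b4.symm) with
      ⟨rfl, ⟨rfl, rfl⟩ | ⟨rfl, rfl⟩⟩ | ⟨rfl, ⟨rfl, rfl⟩ | ⟨rfl, rfl⟩⟩ |
      ⟨rfl, ⟨rfl, rfl⟩ | ⟨rfl, rfl⟩⟩
    · simp
    on_goal 2 => simp
    all_goals
      exfalso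
      rcases b5 with ⟨d1, d2, d3⟩ | ⟨d1, d2, d3, d4⟩ <;> linarith

def K2 (l : ℝ) : Finset ℕ := (Pr l).filter (fun p => idx l p ∈ Ico 1 80)

lemma K2_mem {l : ℝ} (hl : 0 < l) {p : ℕ} (hp : p ∈ K2 l) :
    p.Prime ∧ 1 / 40 ≤ log p / l ∧ log p / l < 2 := by
  obtain ⟨h1, h2⟩ := mem_filter.1 hp
  obtain ⟨r1, r2⟩ := mem_Ico.1 h2
  obtain ⟨a1, a2⟩ := (idx_eq_iff hl p _).1 rfl
  have r1' : (1 : ℝ) ≤ idx l p := by exact_mod_cast r1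
  have r2' : (idx l p : ℝ) + 1 ≤ 80 := by exact_mod_cast r2
  exact ⟨(mem_filter.1 h1).2, by linarith, by linarith⟩

lemma fiber2 {l : ℝ} (hl : 0 < l) (m : ℕ) (T : Finset (ℕ × ℕ))
    (h : ∀ y ∈ T, y.1 ∈ K2 l ∧ y.2.Prime ∧
      4 < log y.1 / l + log y.2 / l ∧ y.1 * y.2 = m) : T.card ≤ 1 := by
  rw [card_le_one]
  rintro ⟨p1, p2⟩ hx ⟨q1, q2⟩ hy
  obtain ⟨a1, a2, a3, a4⟩ := h _ hx
  obtain ⟨b1, b2, b3, b4⟩ := h _ hy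
  obtain ⟨c1, -, c2⟩ := K2_mem hl a1
  obtain ⟨d1, -, d2⟩ := K2_mem hl b1
  simp only at a2 a3 a4 b2 b3 b4 c1 c2 d1 d2
  rcases perm2 c1 a2 d1 (a4.trans b4.symm) with ⟨rfl, rfl⟩ | ⟨rfl, rfl⟩
  · rfl
  · linarith

lemma sum_K2 (l : ℝ) (F : ℕ → ℝ) : ∑ p ∈ K2 l, F p = ∑ a ∈ Ico 1 80, ∑ p ∈ cell l a, F p :=
  (sum_fiberwise_eq_sum_filter _ _ _ _).symm

lemma sum_K3 (l : ℝ) (F : ℕ × ℕ → ℝ) : ∑ x ∈ K3 l, F x
    = ∑ r ∈ Reg, ∑ p ∈ cell l r.1, ∑ q ∈ (cell l r.2).erase p, F (p, q) := by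
  rw [K3, ← sum_fiberwise_eq_sum_filter]
  refine sum_congr rfl fun r _ => sum_finset_product _ _ _ fun x => ?_
  simp only [mem_filter, mem_offDiag, cell, mem_erase, Prod.ext_iff]
  tauto

end

end Pool.Agent.P.MP_dddec0_nt.T223.Sh
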