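import Pool.Agent.P.MP_dddec0_nt.T223Defs
import Pool.Agent.Lib.Tup.Inner
import Pool.Agent.Lib.Tup.Xap
import Pool.Agent.Lib.Tup.Disc
import Pool.Agent.P.MP_dddec0_nt.ShapeC

namespace Pool.Agent.P.MP_dddec0_nt.T223
open Finset Real Filter Pool.Agent.Lib.Tup

namespace Sh

lemma coprime_of_big {W p : ℕ} {l : ℝ} (hW : 0 < W) (hl : 0 < l) (hlW : 40 * log W < l)
    (hp : p.Prime) (h : 1 / 40 ≤ log p / l) : Nat.Coprime p W := by
  refine hp.coprime_iff_not_dvd.2 fun hd => ?_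
  have h1 : (p : ℝ) ≤ W := by exact_mod_cast Nat.le_of_dvd hW hd
  have h2 := log_le_log (by exact_mod_cast hp.pos) h1
  rw [le_div_iff₀ hl] at h
  linarith

lemma RS_prime {η l : ℝ} (hl : 0 < l) (hη : η ≤ 1 / 80) {p : ℕ} (hp : p.Prime)
    (h : 1 / 40 ≤ log p / l) : η * l < log p := by
  rw [le_div_iff₀ hl] at h
  nlinarith

open Classical in
lemma split3 (S : Finset ℕ) (H : ℕ → ℝ) (hH : ∀ m, 0 ≤ H m) (w : ℕ → ℕ) :
    ∑ m ∈ S.filter (fun m => w m = 0 + 1), H m + ∑ m ∈ S.filter (fun m => w m = 1 + 1), H m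
      + 1 / 2 * ∑ m ∈ S.filter (fun m => w m = 2 + 1), H m ≤ ∑ m ∈ S, g3 (w m) * H m := by
  rw [sum_filter, sum_filter, sum_filter, mul_sum, ← sum_add_distrib, ← sum_add_distrib]
  refine sum_le_sum fun m _ => ?_
  have := hH m
  unfold g3
  split_ifs <;> first | omega | linarith

end Sh

open Sh

open Classical in
/-- Contribution of primes, and of products of two and of three primes. -/
theorem shape (f : ℕ → ℝ) {ψ : ℝ → ℝ} {s0 : ℝ} (hψ : Bump ψ s0 (4001 / 1000)) (h4 : 4 < s0)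
    {W : ℕ} (hW : 0 < W) {η ε : ℝ} (hη : 0 < η) (hη1 : η ≤ 1 / 80) (hε : 0 < ε) :
    ∀ᶠ l : ℝ in atTop, ∀ b : ℕ, Nat.Coprime b W →
      ((∫ s in s0..(4001 / 1000), ψ s) * (1 / 40) * qhat f - ε) / (Nat.totient W : ℝ)
        ≤ ∑ m ∈ (cls l W b).filter (RS η l), wg ψ l m * g3 m.primeFactors.card *
            (∑ a ∈ range 43, f a * Gt l (a * (1 / 40)) ((a + 1) * (1 / 40)) m) ^ 2 := by
  set I := ∫ s in s0..(4001 / 1000), ψ s with hI
  have hI0 : 0 ≤ I := intervalIntegral.integral_nonneg hψ.le fun s _ => hψ.nonneg s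
  obtain ⟨e, he, heε⟩ : ∃ e : ℝ, 0 < e ∧ e * ((pre f 43 / 40) ^ 2 + 79 * (B0 f ^ 2 + 1)
      + (Reg.card : ℝ) * (9 * B0 f ^ 2 + 1) / 4) ≤ ε :=
    ⟨ε / ((pre f 43 / 40) ^ 2 + 79 * (B0 f ^ 2 + 1) + (Reg.card : ℝ) * (9 * B0 f ^ 2 + 1) / 4),
      by positivity, le_of_eq (div_mul_cancel₀ _ (by positivity))⟩
  have hφ : (0 : ℝ) < Nat.totient W := by exact_mod_cast Nat.totient_pos.2 hW
  filter_upwards [inner_ge hψ hW he, eventually_gt_atTop (0 : ℝ),
    eventually_gt_atTop (40 * log W),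
    (eventually_all_finset (Ico 1 80)).2 (fun a ha =>
      cell_two f hI0 (mem_Ico.1 ha).1 (mem_Ico.1 ha).2 he),
    (eventually_all_finset Reg).2 (fun x hx =>
      cell_three f hI0 (Reg_bd hx).1 (Reg_bd hx).2.1 ((Reg_bd hx).2.2.1.trans (by norm_num)) he)]
    with l hin hl hlW h2 h3 b hb
  rw [← hI] at hin
  have hlog : ∀ k : ℕ, log k / l ≤ 117 / 40 → log k ≤ 3 * l := fun k h => by
    rw [div_le_iff₀ hl] at h
    linarith
  have p1 := outer f hψ h4 W b hl hη1 ({1} : Finset ℕ) id 0 1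
    (fun k => (I / (4001 / 1000 - log k / l) - e) / (Nat.totient W : ℝ))
    (fun x hx => by
      obtain rfl := mem_singleton.1 hx
      exact ⟨RS_one η l, by simp, by simp; norm_num⟩)
    (fun x hx => by
      obtain rfl := mem_singleton.1 hx
      exact hin 1 b one_ne_zero (by simp) hb (by simp; positivity))
    (fun m T hT => card_le_one.2 fun x hx y hy => by
      obtain ⟨a1, -, -, a2⟩ := hT x hx
      obtain ⟨b1, -, -, b2⟩ := hT y hy
      rw [mem_singleton] at a1 b1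
      rw [a1, id, one_mul] at a2
      rw [b1, id, one_mul] at b2
      exact Prod.ext (a1.trans b1.symm) (a2.trans b2.symm))
  have p2 := outer f hψ h4 W b hl hη1 (K2 l) id 1 1
    (fun k => (I / (4001 / 1000 - log k / l) - e) / (Nat.totient W : ℝ))
    (fun x hx => by
      obtain ⟨a1, a2, a3⟩ := K2_mem hl hx
      refine ⟨?_, by simp [a1.primeFactors], by simp only [id]; linarith⟩
      simpa using RS_mul (RS_one η l) a1 a1.not_dvd_one (RS_prime hl hη1 a1 a2))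
    (fun x hx => by
      obtain ⟨a1, a2, a3⟩ := K2_mem hl hx
      exact hin x b a1.ne_zero (coprime_of_big hW hl hlW a1 a2) hb (hlog x (by linarith)))
    (fiber2 hl)
  have p3 := outer f hψ h4 W b hl hη1 (K3 l) (fun x => x.1 * x.2) 2 2
    (fun x => (I / (4001 / 1000 - log (x.1 * x.2 : ℕ) / l) - e) / (Nat.totient W : ℝ))
    (fun x hx => by
      obtain ⟨a1, a2, a3, a4, a5, a6, -⟩ := K3_mem hl hx
      have hd : ¬ x.2 ∣ x.1 := fun h => a3 ((Nat.prime_dvd_prime_iff_eq a2 a1).1 h).symm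
      refine ⟨RS_mul ?_ a2 hd (RS_prime hl hη1 a2 a5), ?_, ?_⟩
      · simpa using RS_mul (RS_one η l) a1 a1.not_dvd_one (RS_prime hl hη1 a1 a4)
      · rw [pf_mul a1.ne_zero a2, a1.primeFactors, card_pair a3.symm]
      · rwa [log_mul_div a1.ne_zero a2.ne_zero])
    (fun x hx => by
      obtain ⟨a1, a2, a3, a4, a5, a6, -⟩ := K3_mem hl hx
      exact hin _ b (mul_ne_zero a1.ne_zero a2.ne_zero)
        (Nat.Coprime.mul_left (coprime_of_big hW hl hlW a1 a4) (coprime_of_big hW hl hlW a2 a5))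
        hb (hlog _ (by rwa [log_mul_div a1.ne_zero a2.ne_zero])))
    (fiber3 hl)
  have q2 := sum_le_sum h2
  have q3 := sum_le_sum h3
  rw [← sum_K2] at q2
  rw [← sum_K3 l (fun x => G2 f (log x.1 / l) (log x.2 / l) ^ 2 / (x.1 * x.2)
    * (I / (4001 / 1000 - (log x.1 / l + log x.2 / l)) - e))] at q3
  have r2 : ∑ x ∈ K2 l, GG f l (id x) ^ 2 / (id x : ℕ)
      * ((I / (4001 / 1000 - log x / l) - e) / (Nat.totient W : ℝ))
      = (∑ p ∈ K2 l, Psi f (log p / l) ^ 2 / p * (I / (4001 / 1000 - log p / l) - e))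
        / (Nat.totient W : ℝ) := by
    rw [sum_div]
    refine sum_congr rfl fun x hx => ?_
    rw [id, GG_prime f l (K2_mem hl hx).1, mul_div_assoc]
  have r3 : ∑ x ∈ K3 l, GG f l (x.1 * x.2) ^ 2 / (x.1 * x.2 : ℕ)
      * ((I / (4001 / 1000 - log (x.1 * x.2 : ℕ) / l) - e) / (Nat.totient W : ℝ))
      = (∑ x ∈ K3 l, G2 f (log x.1 / l) (log x.2 / l) ^ 2 / (x.1 * x.2)
        * (I / (4001 / 1000 - (log x.1 / l + log x.2 / l)) - e)) / (Nat.totient W : ℝ) := by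
    rw [sum_div]
    refine sum_congr rfl fun x hx => ?_
    obtain ⟨a1, a2, a3, -⟩ := K3_mem hl hx
    rw [GG_two f l a1 a2 a3, log_mul_div a1.ne_zero a2.ne_zero, mul_div_assoc, Nat.cast_mul]
  rw [r2] at p2
  rw [r3] at p3
  rw [sum_singleton, id, GG_one, Nat.cast_one, log_one, zero_div, sub_zero, div_one,
    ← mul_div_assoc] at p1
  have hs := split3 ((cls l W b).filter (RS η l)) (fun m => wg ψ l m * GG f l m ^ 2)
    (fun m => mul_nonneg (wg_nonneg hψ l m) (sq_nonneg _)) (fun m => m.primeFactors.card)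
  have hs' : ∑ m ∈ (cls l W b).filter (RS η l), g3 m.primeFactors.card * (wg ψ l m * GG f l m ^ 2)
      = ∑ m ∈ (cls l W b).filter (RS η l), wg ψ l m * g3 m.primeFactors.card *
        (∑ a ∈ range 43, f a * Gt l (a * (1 / 40)) ((a + 1) * (1 / 40)) m) ^ 2 :=
    sum_congr rfl fun m _ => by rw [GG]; ring
  rw [← hs']
  refine le_trans ?_ hs
  rw [sum_sub_distrib, ← mul_sum, sum_const, nsmul_eq_mul] at q2 q3
  rw [sum_Reg] at q3
  have c79 : ((Ico 1 80).card : ℝ) = 79 := by simp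
  rw [c79] at q2
  have t1 : ∑ a ∈ Ico 1 43, ∑ b ∈ Ico 1 43, ell (pre f) a b ^ 2 / (4 * V2 a b)
      = (∑ a ∈ Ico 1 43, ∑ b ∈ Ico 1 43, ell (pre f) a b ^ 2 / V2 a b) / 4 := by
    simp only [sum_div]
    exact sum_congr rfl fun _ _ => sum_congr rfl fun _ _ => by ring
  have t2 : ∑ x ∈ reg2, ell (pre f) x.1 x.2 ^ 2 / (4 * V2 x.1 x.2)
      = (∑ x ∈ reg2, ell (pre f) x.1 x.2 ^ 2 / V2 x.1 x.2) / 4 := by
    rw [sum_div]
    exact sum_congr rfl fun _ _ => by ring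
  rw [qhat, t1, t2, SS]
  have u2 := div_le_div_of_nonneg_right q2 hφ.le
  have u3 := div_le_div_of_nonneg_right q3 hφ.le
  have u4 := div_le_div_of_nonneg_right heε hφ.le
  push_cast at p1 p2 p3
  simp only [div_eq_mul_inv] at *
  linarith

end Pool.Agent.P.MP_dddec0_nt.T223
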