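import Pool.Agent.P.MP_dddec0_nt.T223Defs
import Pool.Agent.Lib.Tup.Xap

namespace Pool.Agent.P.MP_dddec0_nt.T223.Sh
open Finset Real Filter Pool.Agent.Lib.Tup

noncomputable section

def Rr (f : ℕ → ℝ) (t : ℝ) : ℝ :=
  ∑ a ∈ range 43, f a * rho (a * (1 / 40)) ((a + 1) * (1 / 40)) t

def Psi (f : ℕ → ℝ) (t : ℝ) : ℝ := Rr f 0 - Rr f t

def B0 (f : ℕ → ℝ) : ℝ := ∑ a ∈ range 43, |f a|

lemma B0_nonneg (f : ℕ → ℝ) : 0 ≤ B0 f := sum_nonneg fun _ _ => abs_nonneg _

lemma Rr_big (f : ℕ → ℝ) {t : ℝ} (ht : 43 / 40 ≤ t) : Rr f t = 0 := by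
  refine sum_eq_zero fun a ha => ?_
  have h : (a : ℝ) + 1 ≤ 43 := by exact_mod_cast mem_range.1 ha
  unfold rho
  rw [max_eq_right (by linarith), max_eq_right (by linarith)]
  simp

lemma pre_eq (f : ℕ → ℝ) (j : ℕ) : pre f j = ∑ a ∈ range 43, if a < j then f a else 0 := by
  unfold pre
  rw [← sum_filter]
  refine sum_congr ?_ fun _ _ => rfl
  ext a
  simp only [mem_range, mem_filter, lt_min_iff]
  tauto

lemma Psi_cell (f : ℕ → ℝ) (j : ℕ) {t : ℝ} (h1 : (j : ℝ) * (1 / 40) ≤ t)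
    (h2 : t ≤ ((j : ℝ) + 1) * (1 / 40)) :
    Psi f t = pre f j / 40 + (pre f (j + 1) - pre f j) * (t - j * (1 / 40)) := by
  rw [pre_eq, pre_eq, Psi, Rr, Rr, ← sum_sub_distrib, ← sum_sub_distrib, sum_div, sum_mul,
    ← sum_add_distrib]
  refine sum_congr rfl fun a _ => ?_
  have ha : (0 : ℝ) ≤ a := Nat.cast_nonneg a
  unfold rho
  rw [max_eq_left (by linarith : (0 : ℝ) ≤ ((a : ℝ) + 1) * (1 / 40) - 0),
    max_eq_left (by linarith : (0 : ℝ) ≤ (a : ℝ) * (1 / 40) - 0)]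
  rcases lt_trichotomy a j with h | h | h
  · have h' : (a : ℝ) + 1 ≤ j := by exact_mod_cast h
    rw [if_pos h, if_pos (by omega), max_eq_right (by linarith), max_eq_right (by linarith)]
    ring
  · subst h
    rw [if_neg (lt_irrefl _), if_pos (by omega), max_eq_left (by linarith),
      max_eq_right (by linarith)]
    ring
  · have h' : (j : ℝ) + 1 ≤ a := by exact_mod_cast h
    rw [if_neg (by omega), if_neg (by omega), max_eq_left (by linarith),
      max_eq_left (by linarith)]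
    ring

lemma Rr_zero (f : ℕ → ℝ) : Rr f 0 = pre f 43 / 40 := by
  have h := Psi_cell f 43 (t := 43 / 40) (by norm_num) (by norm_num)
  rw [Psi, Rr_big f le_rfl] at h
  push_cast at h
  linarith

lemma Psi_lip (f : ℕ → ℝ) (s t : ℝ) : |Psi f s - Psi f t| ≤ B0 f * |s - t| := by
  have : Psi f s - Psi f t = ∑ a ∈ range 43, f a *
      (rho (a * (1 / 40)) ((a + 1) * (1 / 40)) t - rho (a * (1 / 40)) ((a + 1) * (1 / 40)) s) := by
    simp only [Psi, Rr, mul_sub, sum_sub_distrib]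
    ring
  rw [this, B0, sum_mul]
  refine (abs_sum_le_sum_abs _ _).trans (sum_le_sum fun a _ => ?_)
  rw [abs_mul, abs_sub_comm s t]
  exact mul_le_mul_of_nonneg_left (rho_lip (by linarith) _ _) (abs_nonneg _)

lemma Psi_bd (f : ℕ → ℝ) (t : ℝ) : |Psi f t| ≤ B0 f := by
  have : Psi f t = ∑ a ∈ range 43, f a *
      (rho (a * (1 / 40)) ((a + 1) * (1 / 40)) 0 - rho (a * (1 / 40)) ((a + 1) * (1 / 40)) t) := by
    simp only [Psi, Rr, mul_sub, sum_sub_distrib]
  rw [this, B0]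
  refine (abs_sum_le_sum_abs _ _).trans (sum_le_sum fun a _ => ?_)
  rw [abs_mul]
  refine mul_le_of_le_one_right (abs_nonneg _) ?_
  have h1 := abs_rho_le (x := a * (1 / 40)) (y := (a + 1) * (1 / 40)) (by linarith) 0
  have h2 := abs_rho_le (x := a * (1 / 40)) (y := (a + 1) * (1 / 40)) (by linarith) t
  have h3 := abs_sub (rho (a * (1 / 40)) ((a + 1) * (1 / 40)) 0)
    (rho (a * (1 / 40)) ((a + 1) * (1 / 40)) t)
  linarith

lemma Psi_cont (f : ℕ → ℝ) : Continuous (Psi f) := by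
  unfold Psi Rr rho
  fun_prop

lemma int_poly (c0 c1 c2 z x y : ℝ) :
    ∫ s in x..y, (c0 + c1 * (s - z) + c2 * (s - z) ^ 2) =
      c0 * (y - x) + c1 * ((y - z) ^ 2 - (x - z) ^ 2) / 2
        + c2 * ((y - z) ^ 3 - (x - z) ^ 3) / 3 := by
  have : ∀ s ∈ Set.uIcc x y, HasDerivAt
      (fun s => c0 * s + c1 * (s - z) ^ 2 / 2 + c2 * (s - z) ^ 3 / 3)
      (c0 + c1 * (s - z) + c2 * (s - z) ^ 2) s := by
    intro s _
    have h0 : HasDerivAt (fun s : ℝ => s - z) 1 s := (hasDerivAt_id s).sub_const z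
    have := (((hasDerivAt_id s).const_mul c0).add (((h0.pow 2).const_mul c1).div_const 2)).add
      (((h0.pow 3).const_mul c2).div_const 3)
    refine this.congr_deriv ?_
    norm_num
    ring
  rw [intervalIntegral.integral_eq_sub_of_hasDerivAt this
    (by apply Continuous.intervalIntegrable; fun_prop)]
  ring

lemma int_Psi (f : ℕ → ℝ) (j : ℕ) {x y : ℝ} (h1 : (j : ℝ) * (1 / 40) ≤ x) (hxy : x ≤ y)
    (h2 : y ≤ ((j : ℝ) + 1) * (1 / 40)) :
    ∫ s in x..y, Psi f s = pre f j / 40 * (y - x) + (pre f (j + 1) - pre f j) *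
      ((y - j * (1 / 40)) ^ 2 - (x - j * (1 / 40)) ^ 2) / 2 := by
  have h := int_poly (pre f j / 40) (pre f (j + 1) - pre f j) 0 (j * (1 / 40)) x y
  rw [intervalIntegral.integral_congr (g := fun s => pre f j / 40 + (pre f (j + 1) - pre f j) *
    (s - j * (1 / 40)) + 0 * (s - j * (1 / 40)) ^ 2), h]
  · ring
  · intro s hs
    rw [Set.uIcc_of_le hxy] at hs
    simp only
    rw [Psi_cell f j (h1.trans hs.1) (hs.2.trans h2)]
    ring

lemma int_Psi_cell (f : ℕ → ℝ) (j : ℕ) :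
    ∫ s in ((j : ℝ) * (1 / 40))..(((j : ℝ) + 1) * (1 / 40)), Psi f s
      = (pre f j + pre f (j + 1)) / 3200 := by
  rw [int_Psi f j le_rfl (by linarith) le_rfl]
  ring

lemma int_Psi_add (f : ℕ → ℝ) (a b : ℕ) {t : ℝ} (h1 : (a : ℝ) * (1 / 40) ≤ t)
    (h2 : t ≤ ((a : ℝ) + 1) * (1 / 40)) :
    ∫ s in ((b : ℝ) * (1 / 40))..(((b : ℝ) + 1) * (1 / 40)), Psi f (t + s)
      = (pre f (a + b) + pre f (a + b + 1)) / 3200
        + (pre f (a + b + 1) - pre f (a + b)) / 40 * (t - a * (1 / 40))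
        + (pre f (a + b + 2) - 2 * pre f (a + b + 1) + pre f (a + b)) / 2
          * (t - a * (1 / 40)) ^ 2 := by
  rw [intervalIntegral.integral_comp_add_left (fun s => Psi f s) t,
    ← intervalIntegral.integral_add_adjacent_intervals (b := ((a : ℝ) + b + 1) * (1 / 40))
      ((Psi_cont f).intervalIntegrable _ _) ((Psi_cont f).intervalIntegrable _ _),
    int_Psi f (a + b) (by push_cast; linarith) (by linarith) (by push_cast; linarith),
    int_Psi f (a + b + 1) (by push_cast; linarith) (by linarith) (by push_cast; linarith)]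
  push_cast
  ring

def ph1 (f : ℕ → ℝ) (I A C t : ℝ) : ℝ :=
  I * (2 * A * Psi f t - A ^ 2 * (t * (4001 / 1000 - t))) - C

def G2 (f : ℕ → ℝ) (t s : ℝ) : ℝ := Psi f t + Psi f s - Psi f (t + s)

def ph2 (f : ℕ → ℝ) (I A C t s : ℝ) : ℝ :=
  I * (2 * A * G2 f t s - A ^ 2 * (t * s * (4001 / 1000 - t - s))) - C

lemma int_ph1 (f : ℕ → ℝ) (I A C : ℝ) (a : ℕ) :
    ∫ t in ((a : ℝ) * (1 / 40))..(((a : ℝ) + 1) * (1 / 40)), ph1 f I A C t
      = I * (2 * A * ((pre f a + pre f (a + 1)) / 3200) - A ^ 2 * (V1 a / 64000)) - C / 40 := by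
  have h : ∀ t, ph1 f I A C t = (-C + (-(I * A ^ 2 * (4001 / 1000))) * (t - 0)
      + (I * A ^ 2) * (t - 0) ^ 2) + (2 * A * I) * Psi f t := by
    intro t
    unfold ph1
    ring
  simp only [h]
  have := Psi_cont f
  rw [intervalIntegral.integral_add (by apply Continuous.intervalIntegrable; fun_prop)
    (by apply Continuous.intervalIntegrable; fun_prop), int_poly,
    intervalIntegral.integral_const_mul, int_Psi_cell]
  unfold V1 m1 m2 SS
  ring

lemma int_ph2_inner (f : ℕ → ℝ) (I A C : ℝ) (b : ℕ) (t : ℝ) :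
    ∫ s in ((b : ℝ) * (1 / 40))..(((b : ℝ) + 1) * (1 / 40)), ph2 f I A C t s
      = ((2 * A * I * ((pre f b + pre f (b + 1)) / 3200) - C / 40)
          + (-(I * A ^ 2 * (4001 / 1000 * (m1 b / 1600) - m2 b / 64000))) * (t - 0)
          + (I * A ^ 2 * (m1 b / 1600)) * (t - 0) ^ 2) + (2 * A * I / 40) * Psi f t
        - 2 * A * I * ∫ s in ((b : ℝ) * (1 / 40))..(((b : ℝ) + 1) * (1 / 40)), Psi f (t + s) := by
  have h : ∀ s, ph2 f I A C t s = ((2 * A * I * Psi f t - C)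
      + (-(I * A ^ 2 * t * (4001 / 1000 - t))) * (s - 0)
      + (I * A ^ 2 * t) * (s - 0) ^ 2) + (2 * A * I) * Psi f s - 2 * A * I * Psi f (t + s) := by
    intro s
    unfold ph2 G2
    ring
  simp only [h]
  have := Psi_cont f
  rw [intervalIntegral.integral_sub (by apply Continuous.intervalIntegrable; fun_prop)
    (by apply Continuous.intervalIntegrable; fun_prop),
    intervalIntegral.integral_add (by apply Continuous.intervalIntegrable; fun_prop)
    (by apply Continuous.intervalIntegrable; fun_prop), int_poly,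
    intervalIntegral.integral_const_mul, intervalIntegral.integral_const_mul, int_Psi_cell]
  unfold m1 m2
  ring

lemma int_ph2 (f : ℕ → ℝ) (I A C : ℝ) (a b : ℕ) :
    ∫ t in ((a : ℝ) * (1 / 40))..(((a : ℝ) + 1) * (1 / 40)),
      ∫ s in ((b : ℝ) * (1 / 40))..(((b : ℝ) + 1) * (1 / 40)), ph2 f I A C t s
      = I * (2 * A * (ell (pre f) a b / 64000) - A ^ 2 * (V2 a b / 102400000)) - C / 1600 := by
  have := Psi_cont f
  rw [intervalIntegral.integral_congr (g := fun t =>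
      ((2 * A * I * ((pre f b + pre f (b + 1)) / 3200) - C / 40)
          + (-(I * A ^ 2 * (4001 / 1000 * (m1 b / 1600) - m2 b / 64000))) * (t - 0)
          + (I * A ^ 2 * (m1 b / 1600)) * (t - 0) ^ 2) + (2 * A * I / 40) * Psi f t
        - 2 * A * I * ((pre f (a + b) + pre f (a + b + 1)) / 3200
        + (pre f (a + b + 1) - pre f (a + b)) / 40 * (t - a * (1 / 40))
        + (pre f (a + b + 2) - 2 * pre f (a + b + 1) + pre f (a + b)) / 2
          * (t - a * (1 / 40)) ^ 2))]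
  · rw [intervalIntegral.integral_sub (by apply Continuous.intervalIntegrable; fun_prop)
      (by apply Continuous.intervalIntegrable; fun_prop),
      intervalIntegral.integral_add (by apply Continuous.intervalIntegrable; fun_prop)
      (by apply Continuous.intervalIntegrable; fun_prop), int_poly,
      intervalIntegral.integral_const_mul, intervalIntegral.integral_const_mul, int_Psi_cell,
      int_poly]
    unfold ell V2 m1 m2 SS
    ring
  · intro t ht
    rw [Set.uIcc_of_le (by linarith)] at ht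
    simp only
    rw [int_ph2_inner, int_Psi_add f a b ht.1 ht.2]

/-- Bounded and Lipschitz on the square. -/
def LB (φ : ℝ → ℝ → ℝ) : Prop :=
  ∃ B : ℝ, 0 ≤ B ∧ ∀ s ∈ Set.Icc (0 : ℝ) 5, ∀ t ∈ Set.Icc (0 : ℝ) 5, |φ s t| ≤ B ∧
    ∀ s' ∈ Set.Icc (0 : ℝ) 5, ∀ t' ∈ Set.Icc (0 : ℝ) 5,
      |φ s t - φ s' t'| ≤ B * (|s - s'| + |t - t'|)

lemma LB.const (c : ℝ) : LB fun _ _ => c :=
  ⟨|c|, abs_nonneg _, fun _ _ _ _ => ⟨le_rfl, fun _ _ _ _ => by
    rw [sub_self, abs_zero]; positivity⟩⟩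

lemma LB.fst : LB fun s _ => s :=
  ⟨5, by norm_num, fun s hs t _ => ⟨abs_le.2 ⟨by linarith [hs.1], hs.2⟩, fun s' _ t' _ => by
    linarith [abs_nonneg (s - s'), abs_nonneg (t - t')]⟩⟩

lemma LB.snd : LB fun _ t => t :=
  ⟨5, by norm_num, fun s _ t ht => ⟨abs_le.2 ⟨by linarith [ht.1], ht.2⟩, fun s' _ t' _ => by
    linarith [abs_nonneg (s - s'), abs_nonneg (t - t')]⟩⟩

lemma LB.add {φ χ : ℝ → ℝ → ℝ} (h1 : LB φ) (h2 : LB χ) : LB fun s t => φ s t + χ s t := by
  obtain ⟨B, hB, h1⟩ := h1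
  obtain ⟨C, hC, h2⟩ := h2
  refine ⟨B + C, by positivity, fun s hs t ht => ⟨?_, fun s' hs' t' ht' => ?_⟩⟩
  · exact (abs_add_le _ _).trans (add_le_add (h1 s hs t ht).1 (h2 s hs t ht).1)
  · have e1 := (h1 s hs t ht).2 s' hs' t' ht'
    have e2 := (h2 s hs t ht).2 s' hs' t' ht'
    have e3 := abs_add_le (φ s t - φ s' t') (χ s t - χ s' t')
    rw [show φ s t + χ s t - (φ s' t' + χ s' t') = φ s t - φ s' t' + (χ s t - χ s' t') by ring]
    linarith

lemma LB.mul {φ χ : ℝ → ℝ → ℝ} (h1 : LB φ) (h2 : LB χ) : LB fun s t => φ s t * χ s t := by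
  obtain ⟨B, hB, h1⟩ := h1
  obtain ⟨C, hC, h2⟩ := h2
  refine ⟨2 * (B * C), by positivity, fun s hs t ht => ⟨?_, fun s' hs' t' ht' => ?_⟩⟩
  · rw [abs_mul]
    have := mul_le_mul (h1 s hs t ht).1 (h2 s hs t ht).1 (abs_nonneg _) hB
    nlinarith [mul_nonneg hB hC]
  · have e1 := (h1 s hs t ht).2 s' hs' t' ht'
    have e2 := (h2 s hs t ht).2 s' hs' t' ht'
    have e3 := abs_add_le (φ s t * (χ s t - χ s' t')) ((φ s t - φ s' t') * χ s' t')
    rw [show φ s t * χ s t - φ s' t' * χ s' t'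
      = φ s t * (χ s t - χ s' t') + (φ s t - φ s' t') * χ s' t' by ring]
    rw [abs_mul, abs_mul] at e3
    have hd : 0 ≤ |s - s'| + |t - t'| := by positivity
    have e4 := mul_le_mul (h1 s hs t ht).1 e2 (abs_nonneg _) hB
    have e5 := mul_le_mul e1 (h2 s' hs' t' ht').1 (abs_nonneg _) (mul_nonneg hB hd)
    nlinarith

lemma LB.sub {φ χ : ℝ → ℝ → ℝ} (h1 : LB φ) (h2 : LB χ) : LB fun s t => φ s t - χ s t := by
  have := h1.add ((LB.const (-1)).mul h2)
  convert this using 3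
  ring

lemma LB.psi (f : ℕ → ℝ) {φ : ℝ → ℝ → ℝ} (h : LB φ) : LB fun s t => Psi f (φ s t) := by
  obtain ⟨B, hB, h⟩ := h
  have h0 := B0_nonneg f
  refine ⟨B0 f * (B + 1), by positivity, fun s hs t ht => ⟨?_, fun s' hs' t' ht' => ?_⟩⟩
  · exact (Psi_bd f _).trans (by nlinarith)
  · have hd : 0 ≤ |s - s'| + |t - t'| := by positivity
    refine (Psi_lip f _ _).trans ?_
    rw [mul_assoc]
    refine mul_le_mul_of_nonneg_left (((h s hs t ht).2 s' hs' t' ht').trans ?_) h0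
    nlinarith

lemma LB_ph1 (f : ℕ → ℝ) (I A C : ℝ) : LB fun s _ => ph1 f I A C s :=
  ((LB.const I).mul (((LB.const (2 * A)).mul (LB.fst.psi f)).sub ((LB.const (A ^ 2)).mul
    (LB.fst.mul ((LB.const _).sub LB.fst))))).sub (LB.const C)

lemma LB_ph2 (f : ℕ → ℝ) (I A C : ℝ) : LB (ph2 f I A C) :=
  ((LB.const I).mul (((LB.const (2 * A)).mul (((LB.fst.psi f).add (LB.snd.psi f)).sub
    ((LB.fst.add LB.snd).psi f))).sub ((LB.const (A ^ 2)).mul
    ((LB.fst.mul LB.snd).mul (((LB.const _).sub LB.fst).sub LB.snd))))).sub (LB.const C)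

lemma ph2_cont (f : ℕ → ℝ) (I A C t : ℝ) : Continuous (ph2 f I A C t) := by
  have := Psi_cont f
  unfold ph2 G2
  fun_prop

end

end Pool.Agent.P.MP_dddec0_nt.T223.Sh
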