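import Pool.Agent.P.MP_dddec0_nt.ShapeA
import Pool.Agent.Lib.Tup.Inner

namespace Pool.Agent.P.MP_dddec0_nt.T223.Sh
open Finset Real Filter Pool.Agent.Lib.Tup

noncomputable section

def Pr (l : ℝ) : Finset ℕ := (range (NN l)).filter Nat.Prime

def idx (l : ℝ) (n : ℕ) : ℕ := ⌊40 * (log n / l)⌋₊

def cell (l : ℝ) (a : ℕ) : Finset ℕ := (Pr l).filter (fun p => idx l p = a)

def aw (p : ℕ) : ℝ := log p / p

lemma aw_nonneg (p : ℕ) : 0 ≤ aw p := div_nonneg (log_natCast_nonneg p) (Nat.cast_nonneg p)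

lemma aw_le_one (p : ℕ) : aw p ≤ 1 :=
  div_le_one_of_le₀ (log_le_self (Nat.cast_nonneg p)) (Nat.cast_nonneg p)

lemma idx_eq_iff {l : ℝ} (hl : 0 < l) (n a : ℕ) :
    idx l n = a ↔ (a : ℝ) * (1 / 40) ≤ log n / l ∧ log n / l < ((a : ℝ) + 1) * (1 / 40) := by
  have h0 : 0 ≤ log n / l := div_nonneg (log_natCast_nonneg n) hl.le
  rw [idx, Nat.floor_eq_iff (by linarith)]
  constructor <;> rintro ⟨h1, h2⟩ <;> constructor <;> linarith

lemma cell_mem {l : ℝ} (hl : 0 < l) {a p : ℕ} (hp : p ∈ cell l a) :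
    p.Prime ∧ (a : ℝ) * (1 / 40) ≤ log p / l ∧ log p / l < ((a : ℝ) + 1) * (1 / 40) :=
  ⟨(mem_filter.1 (mem_filter.1 hp).1).2, (idx_eq_iff hl p a).1 (mem_filter.1 hp).2⟩

lemma cell_test {δ : ℝ} (hδ : 0 < δ) :
    ∀ᶠ l : ℝ in atTop, ∀ a : ℕ, a < 200 → ∀ (B : ℝ) (φ : ℝ → ℝ),
      (∀ s ∈ Set.Icc (0 : ℝ) 5, |φ s| ≤ B) →
      (∀ s ∈ Set.Icc (0 : ℝ) 5, ∀ t ∈ Set.Icc (0 : ℝ) 5, |φ s - φ t| ≤ B * |s - t|) →
      |∑ p ∈ cell l a, aw p * φ (log p / l)
        - l * ∫ s in ((a : ℝ) * (1 / 40))..(((a : ℝ) + 1) * (1 / 40)), φ s| ≤ δ * l * B := by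
  obtain ⟨C, -, hC⟩ := mertens_ap (W := 1) one_pos
  filter_upwards [lip_test 1 C hδ, eventually_gt_atTop (0 : ℝ)] with l h hl a ha B φ h1 h2
  have ha' : (a : ℝ) + 1 ≤ 200 := by exact_mod_cast ha
  have ha0 : (0 : ℝ) ≤ a := Nat.cast_nonneg a
  have hsub : Set.Icc ((a : ℝ) * (1 / 40)) (((a : ℝ) + 1) * (1 / 40)) ⊆ Set.Icc 0 5 :=
    Set.Icc_subset_Icc (by linarith) (by linarith)
  have := h (NN l) (fun n => if n.Prime ∧ n ≡ 0 [MOD 1] then log n / n else 0)
    ((a : ℝ) * (1 / 40)) (((a : ℝ) + 1) * (1 / 40)) B φ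
    (fun n => by split_ifs; exacts [aw_nonneg n, le_rfl])
    (fun x hx hx5 => by
      have := hC 0 (NN l) x (by simp) hx ((exp_le_exp.2 hx5).trans (Nat.le_ceil _))
      simpa using this)
    (by linarith) (by linarith) (by linarith) (fun s hs => h1 s (hsub hs))
    (fun s hs t ht => h2 s (hsub hs) t (hsub ht))
  rw [one_mul] at this
  convert this using 3
  rw [cell, Pr, filter_filter, sum_filter, sum_filter]
  refine sum_congr rfl fun n _ => ?_
  have e : (idx l n = a) ↔ ((a : ℝ) * (1 / 40) * l ≤ log n ∧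
      log n < ((a : ℝ) + 1) * (1 / 40) * l) := by
    rw [idx_eq_iff hl, le_div_iff₀ hl, div_lt_iff₀ hl]
  by_cases hp : n.Prime
  · simp only [hp, true_and, e, Nat.modEq_one, if_true, aw]
  · simp [hp]

lemma cell1 {φ : ℝ → ℝ} (hφ : LB fun s _ => φ s) {a : ℕ} (ha : a < 200) {δ : ℝ} (hδ : 0 < δ) :
    ∀ᶠ l : ℝ in atTop, (∫ s in ((a : ℝ) * (1 / 40))..(((a : ℝ) + 1) * (1 / 40)), φ s) - δ
      ≤ ∑ p ∈ cell l a, aw p / l * φ (log p / l) := by
  obtain ⟨B, hB, h⟩ := hφ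
  have h0 : (0 : ℝ) ∈ Set.Icc (0 : ℝ) 5 := ⟨le_rfl, by norm_num⟩
  filter_upwards [cell_test (δ := δ / (B + 1)) (by positivity), eventually_gt_atTop (0 : ℝ)]
    with l h1 hl
  have h2 := (abs_le.1 (h1 a ha B φ (fun s hs => (h s hs 0 h0).1)
    (fun s hs t ht => by simpa using (h s hs 0 h0).2 t ht 0 h0))).1
  have h3 : δ / (B + 1) * B ≤ δ := by
    rw [div_mul_eq_mul_div, div_le_iff₀ (by positivity)]
    nlinarith
  have h4 : ∑ p ∈ cell l a, aw p / l * φ (log p / l)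
      = (∑ p ∈ cell l a, aw p * φ (log p / l)) / l := by
    rw [sum_div]
    exact sum_congr rfl fun p _ => by ring
  rw [h4, le_div_iff₀ hl]
  nlinarith

lemma cell2 {φ : ℝ → ℝ → ℝ} (hφ : LB φ) (hc : ∀ t, Continuous (φ t)) {a b : ℕ} (ha : a < 200)
    (hb : b < 200) {δ : ℝ} (hδ : 0 < δ) :
    ∀ᶠ l : ℝ in atTop, (∫ t in ((a : ℝ) * (1 / 40))..(((a : ℝ) + 1) * (1 / 40)),
        ∫ s in ((b : ℝ) * (1 / 40))..(((b : ℝ) + 1) * (1 / 40)), φ t s) - δ
      ≤ ∑ p ∈ cell l a, ∑ q ∈ (cell l b).erase p,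
          aw p / l * (aw q / l) * φ (log p / l) (log q / l) := by
  obtain ⟨B, hB, h⟩ := hφ
  obtain ⟨d, hd, hd1, hdB⟩ : ∃ d : ℝ, 0 < d ∧ d ≤ 1 ∧ 5 * (d * B) ≤ δ := by
    refine ⟨min 1 (δ / (5 * (B + 1))), by positivity, min_le_left _ _, ?_⟩
    have h1 : min 1 (δ / (5 * (B + 1))) * B ≤ δ / (5 * (B + 1)) * (B + 1) :=
      mul_le_mul (min_le_right _ _) (by linarith) hB (by positivity)
    have h2 : δ / (5 * (B + 1)) * (B + 1) = δ / 5 := by field_simp
    linarith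
  have ha' : (a : ℝ) + 1 ≤ 200 := by exact_mod_cast ha
  have ha0 : (0 : ℝ) ≤ a := Nat.cast_nonneg a
  have hb' : (b : ℝ) + 1 ≤ 200 := by exact_mod_cast hb
  have hb0 : (0 : ℝ) ≤ b := Nat.cast_nonneg b
  set Φ : ℝ → ℝ := fun t => ∫ s in ((b : ℝ) * (1 / 40))..(((b : ℝ) + 1) * (1 / 40)), φ t s
    with hΦ
  have hI : ∀ s ∈ Set.uIoc ((b : ℝ) * (1 / 40)) (((b : ℝ) + 1) * (1 / 40)),
      s ∈ Set.Icc (0 : ℝ) 5 := by
    intro s hs
    rw [Set.uIoc_of_le (by linarith)] at hs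
    exact ⟨by linarith [hs.1], by linarith [hs.2]⟩
  have hlen : |((b : ℝ) + 1) * (1 / 40) - (b : ℝ) * (1 / 40)| ≤ 1 := by
    rw [abs_of_nonneg (by linarith)]
    linarith
  have hΦ1 : ∀ t ∈ Set.Icc (0 : ℝ) 5, |Φ t| ≤ B := fun t ht =>
    (intervalIntegral.norm_integral_le_of_norm_le_const (C := B) (f := φ t)
      (fun s hs => (h t ht s (hI s hs)).1)).trans (mul_le_of_le_one_right hB hlen)
  have hΦ2 : ∀ t ∈ Set.Icc (0 : ℝ) 5, ∀ t' ∈ Set.Icc (0 : ℝ) 5, |Φ t - Φ t'| ≤ B * |t - t'| := by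
    intro t ht t' ht'
    simp only [hΦ]
    rw [← intervalIntegral.integral_sub ((hc t).intervalIntegrable _ _)
      ((hc t').intervalIntegrable _ _)]
    refine (intervalIntegral.norm_integral_le_of_norm_le_const (C := B * |t - t'|)
      (f := fun s => φ t s - φ t' s) (fun s hs => ?_)).trans (mul_le_of_le_one_right (by positivity) hlen)
    simpa using (h t ht s (hI s hs)).2 t' ht' s (hI s hs)
  filter_upwards [cell_test hd, eventually_gt_atTop (0 : ℝ), eventually_ge_atTop (1 / d)]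
    with l h1 hl hld
  have hld' : 1 ≤ d * l := by
    rw [div_le_iff₀ hd] at hld
    linarith
  have e1 := (abs_le.1 (h1 a ha B Φ hΦ1 hΦ2)).1
  have e2 := (abs_le.1 (h1 a ha 1 (fun _ => 1) (fun s _ => by simp)
    (fun s _ t _ => by simp))).2
  simp only [mul_one, intervalIntegral.integral_const, smul_eq_mul] at e2
  have e3 : ∀ p ∈ cell l a, aw p / l * (Φ (log p / l) - 2 * (d * B))
      ≤ ∑ q ∈ (cell l b).erase p, aw p / l * (aw q / l) * φ (log p / l) (log q / l) := by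
    intro p hp
    obtain ⟨-, hp1, hp2⟩ := cell_mem hl hp
    have hp5 : log p / l ∈ Set.Icc (0 : ℝ) 5 := ⟨by linarith, by linarith⟩
    have f1 := (abs_le.1 (h1 b hb B (φ (log p / l)) (fun s hs => (h _ hp5 s hs).1)
      (fun s hs t ht => by simpa using (h _ hp5 s hs).2 _ hp5 t ht))).1
    have f2 : ∑ q ∈ cell l b, aw q * φ (log p / l) (log q / l) - B
        ≤ ∑ q ∈ (cell l b).erase p, aw q * φ (log p / l) (log q / l) := by
      by_cases hpb : p ∈ cell l b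
      · rw [← add_sum_erase _ _ hpb]
        have g1 := (abs_le.1 (h _ hp5 _ hp5).1).2
        have g2 : aw p * φ (log p / l) (log p / l) ≤ 1 * B :=
          (mul_le_mul_of_nonneg_left g1 (aw_nonneg p)).trans
            (mul_le_mul_of_nonneg_right (aw_le_one p) hB)
        linarith
      · rw [erase_eq_of_notMem hpb]
        linarith
    have f3 : ∑ q ∈ (cell l b).erase p, aw p / l * (aw q / l) * φ (log p / l) (log q / l)
        = aw p / l * ((∑ q ∈ (cell l b).erase p, aw q * φ (log p / l) (log q / l)) / l) := by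
      rw [sum_div, mul_sum]
      exact sum_congr rfl fun q _ => by ring
    rw [f3]
    refine mul_le_mul_of_nonneg_left ?_ (div_nonneg (aw_nonneg p) hl.le)
    rw [le_div_iff₀ hl]
    have f4 : B ≤ d * l * B := le_mul_of_one_le_left hB hld'
    simp only [hΦ]
    nlinarith
  refine le_trans ?_ (sum_le_sum e3)
  have e4 : ∑ p ∈ cell l a, aw p / l * (Φ (log p / l) - 2 * (d * B))
      = (∑ p ∈ cell l a, aw p * Φ (log p / l) - 2 * (d * B) * ∑ p ∈ cell l a, aw p) / l := by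
    rw [mul_sum, ← sum_sub_distrib, sum_div]
    exact sum_congr rfl fun q _ => by ring
  rw [e4, le_div_iff₀ hl]
  have e5 : ∑ p ∈ cell l a, aw p ≤ 2 * l := by nlinarith
  have e6 := mul_le_mul_of_nonneg_left e5 (by positivity : 0 ≤ 2 * (d * B))
  have e7 := mul_le_mul_of_nonneg_right hdB hl.le
  nlinarith

lemma am_gm {g X A : ℝ} (hX : 0 < X) : 2 * A * g - A ^ 2 * X ≤ g ^ 2 / X := by
  rw [le_div_iff₀ hX]
  nlinarith [sq_nonneg (g - A * X)]

lemma opt_val (x V : ℝ) : 2 * (x / V) * x - (x / V) ^ 2 * V = x ^ 2 / V := by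
  by_cases h : V = 0
  · simp [h]
  · field_simp
    ring

/-- One cell, numbers with two prime factors. -/
lemma cell_two (f : ℕ → ℝ) {I : ℝ} (hI : 0 ≤ I) {a : ℕ} (ha1 : 1 ≤ a) (ha : a < 80) {ε : ℝ}
    (hε : 0 < ε) :
    ∀ᶠ l : ℝ in atTop,
      I * (1 / 40) * (((pre f a + pre f (a + 1)) / 2) ^ 2 / V1 a) - ε * (B0 f ^ 2 + 1)
      ≤ ∑ p ∈ cell l a, Psi f (log p / l) ^ 2 / p * (I / (4001 / 1000 - log p / l) - ε) := by
  set A : ℝ := ((pre f a + pre f (a + 1)) / 3200) / (V1 a / 64000) with hA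
  filter_upwards [cell1 (LB_ph1 f I A (40 * (ε * B0 f ^ 2))) (a := a) (by omega) hε,
    eventually_gt_atTop (0 : ℝ)] with l h hl
  rw [int_ph1, hA, opt_val] at h
  refine le_trans (le_of_eq ?_) (h.trans (sum_le_sum fun p hp => ?_))
  · ring
  · obtain ⟨hpp, hp1, hp2⟩ := cell_mem hl hp
    have ha1' : (1 : ℝ) ≤ a := by exact_mod_cast ha1
    have ha' : (a : ℝ) + 1 ≤ 80 := by exact_mod_cast ha
    have hp0 : (0 : ℝ) < p := by exact_mod_cast hpp.pos
    set t := log p / l with ht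
    have ht0 : 0 < t := by linarith
    have hw : 0 < 4001 / 1000 - t := by linarith
    have e : Psi f t ^ 2 / p * (I / (4001 / 1000 - t) - ε)
        = aw p / l * (I * (Psi f t ^ 2 / (t * (4001 / 1000 - t))) - ε * (Psi f t ^ 2 / t)) := by
      have : aw p / l = t / p := by
        rw [aw, ht]
        ring
      rw [this]
      field_simp
    rw [e]
    refine mul_le_mul_of_nonneg_left ?_ (div_nonneg (aw_nonneg p) hl.le)
    have g1 := mul_le_mul_of_nonneg_left (am_gm (g := Psi f t) (A := A) (mul_pos ht0 hw)) hI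
    have g2 : Psi f t ^ 2 / t ≤ 40 * B0 f ^ 2 := by
      rw [div_le_iff₀ ht0]
      have := sq_le_sq' (abs_le.1 (Psi_bd f t)).1 (abs_le.1 (Psi_bd f t)).2
      nlinarith [sq_nonneg (B0 f)]
    have g3 := mul_le_mul_of_nonneg_left g2 hε.le
    unfold ph1
    rw [← hA]
    linarith

/-- One pair of cells, numbers with three prime factors. -/
lemma cell_three (f : ℕ → ℝ) {I : ℝ} (hI : 0 ≤ I) {a b : ℕ} (ha1 : 1 ≤ a) (hb1 : 1 ≤ b)
    (hab : a + b + 2 ≤ 160) {ε : ℝ} (hε : 0 < ε) :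
    ∀ᶠ l : ℝ in atTop,
      I * (1 / 40) * (ell (pre f) a b ^ 2 / V2 a b) - ε * (9 * B0 f ^ 2 + 1)
      ≤ ∑ p ∈ cell l a, ∑ q ∈ (cell l b).erase p, G2 f (log p / l) (log q / l) ^ 2 / (p * q)
          * (I / (4001 / 1000 - (log p / l + log q / l)) - ε) := by
  set A : ℝ := (ell (pre f) a b / 64000) / (V2 a b / 102400000) with hA
  filter_upwards [cell2 (LB_ph2 f I A (1600 * (ε * (9 * B0 f ^ 2)))) (ph2_cont f I A _)
    (a := a) (b := b) (by omega) (by omega) hε, eventually_gt_atTop (0 : ℝ)] with l h hl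
  rw [int_ph2, hA, opt_val] at h
  refine le_trans (le_of_eq ?_) (h.trans (sum_le_sum fun p hp => sum_le_sum fun q hq => ?_))
  · ring
  · obtain ⟨hpp, hp1, hp2⟩ := cell_mem hl hp
    obtain ⟨hqp, hq1, hq2⟩ := cell_mem hl (mem_of_mem_erase hq)
    have ha1' : (1 : ℝ) ≤ a := by exact_mod_cast ha1
    have hb1' : (1 : ℝ) ≤ b := by exact_mod_cast hb1
    have hab' : (a : ℝ) + b + 2 ≤ 160 := by exact_mod_cast hab
    have hp0 : (0 : ℝ) < p := by exact_mod_cast hpp.pos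
    have hq0 : (0 : ℝ) < q := by exact_mod_cast hqp.pos
    set t := log p / l with ht
    set s := log q / l with hs
    have ht0 : 0 < t := by linarith
    have hs0 : 0 < s := by linarith
    have hw : 0 < 4001 / 1000 - t - s := by linarith
    have e : G2 f t s ^ 2 / (p * q) * (I / (4001 / 1000 - (t + s)) - ε)
        = aw p / l * (aw q / l) * (I * (G2 f t s ^ 2 / (t * s * (4001 / 1000 - t - s)))
          - ε * (G2 f t s ^ 2 / (t * s))) := by
      have h1 : aw p / l = t / p := by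
        rw [aw, ht]
        ring
      have h2 : aw q / l = s / q := by
        rw [aw, hs]
        ring
      rw [h1, h2, ← sub_sub]
      field_simp
    rw [e]
    refine mul_le_mul_of_nonneg_left ?_
      (mul_nonneg (div_nonneg (aw_nonneg p) hl.le) (div_nonneg (aw_nonneg q) hl.le))
    have g1 := mul_le_mul_of_nonneg_left
      (am_gm (g := G2 f t s) (A := A) (mul_pos (mul_pos ht0 hs0) hw)) hI
    have g2 : G2 f t s ^ 2 / (t * s) ≤ 1600 * (9 * B0 f ^ 2) := by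
      rw [div_le_iff₀ (mul_pos ht0 hs0)]
      have k1 := abs_le.1 (Psi_bd f t)
      have k2 := abs_le.1 (Psi_bd f s)
      have k3 := abs_le.1 (Psi_bd f (t + s))
      have : G2 f t s ^ 2 ≤ (3 * B0 f) ^ 2 :=
        sq_le_sq' (by unfold G2; linarith) (by unfold G2; linarith)
      have k4 : 1 / 40 * (1 / 40) ≤ t * s :=
        mul_le_mul (by linarith) (by linarith) (by norm_num) ht0.le
      nlinarith [sq_nonneg (B0 f)]
    have g3 := mul_le_mul_of_nonneg_left g2 hε.le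
    unfold ph2
    rw [← hA]
    linarith

end

end Pool.Agent.P.MP_dddec0_nt.T223.Sh
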